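import Pool.Agent.Helper80_SQ.Two4

/-!
MP_5f6ee5_nt, TWO, large `K`: cells for the position of the exceptional number (part 0).
-/

namespace Pool.Agent.SQ.H80

variable {g : ℤ → ZMod 2} {K Z ν : ℤ}

theorem cell0 (h : H2 g K Z ν) (hA1 : 0 * K ≤ 1000000 * ν)
    (hA2 : 1000000 * ν ≤ 160000 * K) : False := by
  have hZ := h.hZ
  have hZ0 : 0 ≤ Z := by omega
  have hK0 : 0 < K := by
    have := h.hK1
    nlinarith
  have r0 : NuR K ν 0 ν := Or.inl ⟨by norm_num, by norm_num, rfl⟩
  have r1 : NuR K ν 1 ν := Or.inl ⟨by norm_num, by norm_num, rfl⟩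
  have r2 : NuR K ν 2 (ν + 4 * K) := Or.inr ⟨by norm_num, by norm_num, rfl⟩
  have r3 : NuR K ν 3 (ν + 4 * K) := Or.inr ⟨by norm_num, by norm_num, rfl⟩
  obtain ⟨s0, P0⟩ := piece h r0 (α := 402) (β := 1412) (by norm_num) (by norm_num) (by norm_num)
    (by norm_num) (by norm_num) (Or.inr ⟨by norm_num, by norm_num, by linarith⟩)
  obtain ⟨s1, P1⟩ := piece h r1 (α := 1417) (β := 1998) (by norm_num) (by norm_num) (by norm_num)
    (by norm_num) (by norm_num) (Or.inr ⟨by norm_num, by norm_num, by linarith⟩)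
  obtain ⟨s2, P2⟩ := piece h r2 (α := 2042) (β := 2447) (by norm_num) (by norm_num) (by norm_num)
    (by norm_num) (by norm_num) (Or.inr ⟨by norm_num, by norm_num, by linarith⟩)
  obtain ⟨s3, P3⟩ := piece h r3 (α := 2452) (β := 2826) (by norm_num) (by norm_num) (by norm_num)
    (by norm_num) (by norm_num) (Or.inr ⟨by norm_num, by norm_num, by linarith⟩)
  have e0 : s3 = s0 := rel1 h (l1 := (-2734)) (l2 := (-2681)) (by norm_num) (by norm_num) (by norm_num)
    (cn_neg hZ0 P3 (lo := (-2734)) (hi := (-2681)) (by norm_num) (by norm_num) (by norm_num))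
    (cn_neg hZ0 P0 (lo := (-2734) + 1973) (hi := (-2681) + 2027) (by norm_num) (by norm_num) (by norm_num))
    (cn_pos hZ0 P0 (lo := (-2734) + 4000) (hi := (-2681) + 4002) (by norm_num) (by norm_num) (by norm_num))
  have e1 : s1 + s2 = s0 + s0 := relh h (l1 := (-1939)) (l2 := (-1876)) (by norm_num) (by norm_num)
    (by norm_num)
    (cn_neg hZ0 P1 (lo := (-1939)) (hi := (-1876)) (by norm_num) (by norm_num) (by norm_num))
    (cn_pos hZ0 P0 (lo := (-1939) + 2828) (hi := (-1876) + 2862) (by norm_num) (by norm_num) (by norm_num))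
    (cn_neg hZ0 P0 (lo := (-1939) + 1398) (hi := (-1876) + 1415) (by norm_num) (by norm_num) (by norm_num))
    (cn_pos hZ0 P2 (lo := (-1939) + 4242) (hi := (-1876) + 4262) (by norm_num) (by norm_num) (by norm_num))
  have e2 : s3 = s1 := rel1 h (l1 := (-2544)) (l2 := (-2491)) (by norm_num) (by norm_num) (by norm_num)
    (cn_neg hZ0 P3 (lo := (-2544)) (hi := (-2491)) (by norm_num) (by norm_num) (by norm_num))
    (cn_neg hZ0 P0 (lo := (-2544) + 1973) (hi := (-2491) + 2027) (by norm_num) (by norm_num) (by norm_num))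
    (cn_pos hZ0 P1 (lo := (-2544) + 4000) (hi := (-2491) + 4002) (by norm_num) (by norm_num) (by norm_num))
  have q0_2 : s0 = s2 := by
    have T : ∀ s0 s1 s2 s3 : ZMod 2, s3 = s0 → s1 + s2 = s0 + s0 → s3 = s1 → s0 = s2 := by decide
    exact T s0 s1 s2 s3 e0 e1 e2
  have q0_3 : s0 = s3 := by
    have T : ∀ s0 s1 s2 s3 : ZMod 2, s3 = s0 → s1 + s2 = s0 + s0 → s3 = s1 → s0 = s3 := by decide
    exact T s0 s1 s2 s3 e0 e1 e2
  refine fin h (ta := 560) (tb := 591) (by norm_num) (by norm_num) ?_
  intro p hp h1 h2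
  rcases le_or_gt (1000 * p) (570 * Z) with t2 | t2
  · obtain ⟨q, X, hq, hX, x0, x1⟩ := startQ h (p := p) (L := (-2826)) (by omega)
    rcases le_or_gt (1000 * X) ((-2452) * Z) with y | y
    · exact sb h 0 (ql := 3506) (qh := 3574) (x0 := (-2826)) (x1 := (-2452)) hp hq hX h1 t2 x0 y
        (cn_neg hZ0 P3 (lo := (-2826)) (hi := (-2452)) (by norm_num) (by norm_num) (by norm_num))
        (cn_pos hZ0 P0 (lo := 680) (hi := 1122) (by norm_num) (by norm_num) (by norm_num))
        q0_3.symm (by norm_num)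
    have y0 := y.le
    clear y
    rcases le_or_gt (1000 * X) ((-2267) * Z) with y | y
    · exact sb h 1 (ql := 3506) (qh := 3574) (x0 := (-2452)) (x1 := (-2267)) hp hq hX h1 t2 y0 y
        (cn_neg hZ0 P0 (lo := (-1333)) (hi := (-1127)) (by norm_num) (by norm_num) (by norm_num))
        (cn_pos hZ0 P2 (lo := 2173) (hi := 2447) (by norm_num) (by norm_num) (by norm_num))
        q0_2 (by norm_num)
    have y1 := y.le
    clear y
    rcases le_or_gt (1000 * X) ((-2162) * Z) with y | y
    · exact sb h 0 (ql := 3506) (qh := 3574) (x0 := (-2267)) (x1 := (-2162)) hp hq hX h1 t2 y1 y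
        (cn_neg hZ0 P2 (lo := (-2268)) (hi := (-2162)) (by norm_num) (by norm_num) (by norm_num))
        (cn_pos hZ0 P0 (lo := 1238) (hi := 1412) (by norm_num) (by norm_num) (by norm_num))
        q0_2.symm (by norm_num)
    have y2 := y.le
    clear y
    rcases le_or_gt (1000 * X) ((-1888) * Z) with y | y
    · exact sb h 1 (ql := 3506) (qh := 3574) (x0 := (-2162)) (x1 := (-1888)) hp hq hX h1 t2 y2 y
        (cn_neg hZ0 P0 (lo := (-1043)) (hi := (-748)) (by norm_num) (by norm_num) (by norm_num))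
        (cn_pos hZ0 P3 (lo := 2463) (hi := 2826) (by norm_num) (by norm_num) (by norm_num))
        q0_3 (by norm_num)
    have y3 := y.le
    clear y
    exact sb h 0 (ql := 3506) (qh := 3574) (x0 := (-1888)) (x1 := (-1576)) hp hq hX h1 t2 y3 (by omega)
        (cn_neg hZ0 P1 (lo := (-1889)) (hi := (-1576)) (by norm_num) (by norm_num) (by norm_num))
        (cn_pos hZ0 P1 (lo := 1617) (hi := 1998) (by norm_num) (by norm_num) (by norm_num))
        rfl (by norm_num)
  have t1 := t2
  clear t2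
  rcases le_or_gt (1000 * p) (580 * Z) with t2 | t2
  · obtain ⟨q, X, hq, hX, x0, x1⟩ := startQ h (p := p) (L := (-2826)) (by omega)
    rcases le_or_gt (1000 * X) ((-2452) * Z) with y | y
    · exact sb h 0 (ql := 3446) (qh := 3511) (x0 := (-2826)) (x1 := (-2452)) hp hq hX t1.le t2 x0 y
        (cn_neg hZ0 P3 (lo := (-2826)) (hi := (-2452)) (by norm_num) (by norm_num) (by norm_num))
        (cn_pos hZ0 P0 (lo := 620) (hi := 1059) (by norm_num) (by norm_num) (by norm_num))
        q0_3.symm (by norm_num)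
    have y0 := y.le
    clear y
    rcases le_or_gt (1000 * X) ((-2224) * Z) with y | y
    · exact sb h 1 (ql := 3446) (qh := 3511) (x0 := (-2452)) (x1 := (-2224)) hp hq hX t1.le t2 y0 y
        (cn_neg hZ0 P0 (lo := (-1313)) (hi := (-1064)) (by norm_num) (by norm_num) (by norm_num))
        (cn_pos hZ0 P2 (lo := 2133) (hi := 2447) (by norm_num) (by norm_num) (by norm_num))
        q0_2 (by norm_num)
    have y1 := y.le
    clear y
    rcases le_or_gt (1000 * X) ((-2099) * Z) with y | y
    · exact sb h 0 (ql := 3446) (qh := 3511) (x0 := (-2224)) (x1 := (-2099)) hp hq hX t1.le t2 y1 y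
        (cn_neg hZ0 P2 (lo := (-2225)) (hi := (-2099)) (by norm_num) (by norm_num) (by norm_num))
        (cn_pos hZ0 P0 (lo := 1221) (hi := 1412) (by norm_num) (by norm_num) (by norm_num))
        q0_2.symm (by norm_num)
    have y2 := y.le
    clear y
    rcases le_or_gt (1000 * X) ((-1845) * Z) with y | y
    · exact sb h 1 (ql := 3446) (qh := 3511) (x0 := (-2099)) (x1 := (-1845)) hp hq hX t1.le t2 y2 y
        (cn_neg hZ0 P0 (lo := (-960)) (hi := (-685)) (by norm_num) (by norm_num) (by norm_num))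
        (cn_pos hZ0 P3 (lo := 2486) (hi := 2826) (by norm_num) (by norm_num) (by norm_num))
        q0_3 (by norm_num)
    have y3 := y.le
    clear y
    exact sb h 0 (ql := 3446) (qh := 3511) (x0 := (-1845)) (x1 := (-1513)) hp hq hX t1.le t2 y3 (by omega)
        (cn_neg hZ0 P1 (lo := (-1846)) (hi := (-1513)) (by norm_num) (by norm_num) (by norm_num))
        (cn_pos hZ0 P1 (lo := 1600) (hi := 1998) (by norm_num) (by norm_num) (by norm_num))
        rfl (by norm_num)
  have t1 := t2
  clear t2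
  obtain ⟨q, X, hq, hX, x0, x1⟩ := startQ h (p := p) (L := (-2826)) (by omega)
  rcases le_or_gt (1000 * X) ((-2452) * Z) with y | y
  · exact sb h 0 (ql := 3382) (qh := 3451) (x0 := (-2826)) (x1 := (-2452)) hp hq hX t1.le h2 x0 y
      (cn_neg hZ0 P3 (lo := (-2826)) (hi := (-2452)) (by norm_num) (by norm_num) (by norm_num))
      (cn_pos hZ0 P0 (lo := 556) (hi := 999) (by norm_num) (by norm_num) (by norm_num))
      q0_3.symm (by norm_num)
  have y0 := y.le
  clear y
  rcases le_or_gt (1000 * X) ((-2186) * Z) with y | y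
  · exact sb h 1 (ql := 3382) (qh := 3451) (x0 := (-2452)) (x1 := (-2186)) hp hq hX t1.le h2 y0 y
      (cn_neg hZ0 P0 (lo := (-1293)) (hi := (-1004)) (by norm_num) (by norm_num) (by norm_num))
      (cn_pos hZ0 P2 (lo := 2089) (hi := 2447) (by norm_num) (by norm_num) (by norm_num))
      q0_2 (by norm_num)
  have y1 := y.le
  clear y
  rcases le_or_gt (1000 * X) ((-2042) * Z) with y | y
  · exact sb h 0 (ql := 3382) (qh := 3451) (x0 := (-2186)) (x1 := (-2042)) hp hq hX t1.le h2 y1 y
      (cn_neg hZ0 P2 (lo := (-2187)) (hi := (-2042)) (by norm_num) (by norm_num) (by norm_num))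
      (cn_pos hZ0 P0 (lo := 1195) (hi := 1409) (by norm_num) (by norm_num) (by norm_num))
      q0_2.symm (by norm_num)
  have y2 := y.le
  clear y
  rcases le_or_gt (1000 * X) ((-1807) * Z) with y | y
  · exact sb h 1 (ql := 3382) (qh := 3451) (x0 := (-2042)) (x1 := (-1807)) hp hq hX t1.le h2 y2 y
      (cn_neg hZ0 P0 (lo := (-883)) (hi := (-625)) (by norm_num) (by norm_num) (by norm_num))
      (cn_pos hZ0 P3 (lo := 2499) (hi := 2826) (by norm_num) (by norm_num) (by norm_num))
      q0_3 (by norm_num)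
  have y3 := y.le
  clear y
  exact sb h 0 (ql := 3382) (qh := 3451) (x0 := (-1807)) (x1 := (-1453)) hp hq hX t1.le h2 y3 (by omega)
      (cn_neg hZ0 P1 (lo := (-1808)) (hi := (-1453)) (by norm_num) (by norm_num) (by norm_num))
      (cn_pos hZ0 P1 (lo := 1574) (hi := 1998) (by norm_num) (by norm_num) (by norm_num))
      rfl (by norm_num)

theorem cell1 (h : H2 g K Z ν) (hA1 : 160000 * K ≤ 1000000 * ν)
    (hA2 : 1000000 * ν ≤ 244036 * K) : False := by
  have hZ := h.hZ
  have hZ0 : 0 ≤ Z := by omega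
  have hK0 : 0 < K := by
    have := h.hK1
    nlinarith
  have r0 : NuR K ν 0 ν := Or.inl ⟨by norm_num, by norm_num, rfl⟩
  have r1 : NuR K ν 1 ν := Or.inl ⟨by norm_num, by norm_num, rfl⟩
  have r2 : NuR K ν 2 (ν + 4 * K) := Or.inr ⟨by norm_num, by norm_num, rfl⟩
  have r3 : NuR K ν 3 (ν + 4 * K) := Or.inr ⟨by norm_num, by norm_num, rfl⟩
  obtain ⟨s0, P0⟩ := piece h r0 (α := 0) (β := 398) (by norm_num) (by norm_num) (by norm_num)
    (by norm_num) (by norm_num) (Or.inl (by linarith))
  obtain ⟨s1, P1⟩ := piece h r0 (α := 496) (β := 1412) (by norm_num) (by norm_num) (by norm_num)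
    (by norm_num) (by norm_num) (Or.inr ⟨by norm_num, by norm_num, by linarith⟩)
  obtain ⟨s2, P2⟩ := piece h r1 (α := 1417) (β := 1998) (by norm_num) (by norm_num) (by norm_num)
    (by norm_num) (by norm_num) (Or.inr ⟨by norm_num, by norm_num, by linarith⟩)
  obtain ⟨s3, P3⟩ := piece h r2 (α := 2002) (β := 2037) (by norm_num) (by norm_num) (by norm_num)
    (by norm_num) (by norm_num) (Or.inl (by linarith))
  obtain ⟨s4, P4⟩ := piece h r2 (α := 2063) (β := 2447) (by norm_num) (by norm_num) (by norm_num)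
    (by norm_num) (by norm_num) (Or.inr ⟨by norm_num, by norm_num, by linarith⟩)
  obtain ⟨s5, P5⟩ := piece h r3 (α := 2452) (β := 2826) (by norm_num) (by norm_num) (by norm_num)
    (by norm_num) (by norm_num) (Or.inr ⟨by norm_num, by norm_num, by linarith⟩)
  have e0 : s5 + s2 = s0 + s1 := relh h (l1 := (-2668)) (l2 := (-2605)) (by norm_num) (by norm_num)
    (by norm_num)
    (cn_neg hZ0 P5 (lo := (-2668)) (hi := (-2605)) (by norm_num) (by norm_num) (by norm_num))
    (cn_pos hZ0 P0 (lo := (-2668) + 2828) (hi := (-2605) + 2862) (by norm_num) (by norm_num) (by norm_num))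
    (cn_neg hZ0 P1 (lo := (-2668) + 1398) (hi := (-2605) + 1415) (by norm_num) (by norm_num) (by norm_num))
    (cn_pos hZ0 P2 (lo := (-2668) + 4242) (hi := (-2605) + 4262) (by norm_num) (by norm_num) (by norm_num))
  have e1 : s4 = s2 := rel1 h (l1 := (-2243)) (l2 := (-2190)) (by norm_num) (by norm_num) (by norm_num)
    (cn_neg hZ0 P4 (lo := (-2243)) (hi := (-2190)) (by norm_num) (by norm_num) (by norm_num))
    (cn_neg hZ0 P0 (lo := (-2243) + 1973) (hi := (-2190) + 2027) (by norm_num) (by norm_num) (by norm_num))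
    (cn_pos hZ0 P2 (lo := (-2243) + 4000) (hi := (-2190) + 4002) (by norm_num) (by norm_num) (by norm_num))
  have e2 : s5 = s1 := rel1 h (l1 := (-2734)) (l2 := (-2681)) (by norm_num) (by norm_num) (by norm_num)
    (cn_neg hZ0 P5 (lo := (-2734)) (hi := (-2681)) (by norm_num) (by norm_num) (by norm_num))
    (cn_neg hZ0 P1 (lo := (-2734) + 1973) (hi := (-2681) + 2027) (by norm_num) (by norm_num) (by norm_num))
    (cn_pos hZ0 P1 (lo := (-2734) + 4000) (hi := (-2681) + 4002) (by norm_num) (by norm_num) (by norm_num))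
  have e3 : s5 = s2 := rel1 h (l1 := (-2579)) (l2 := (-2526)) (by norm_num) (by norm_num) (by norm_num)
    (cn_neg hZ0 P5 (lo := (-2579)) (hi := (-2526)) (by norm_num) (by norm_num) (by norm_num))
    (cn_neg hZ0 P1 (lo := (-2579) + 1973) (hi := (-2526) + 2027) (by norm_num) (by norm_num) (by norm_num))
    (cn_pos hZ0 P2 (lo := (-2579) + 4000) (hi := (-2526) + 4002) (by norm_num) (by norm_num) (by norm_num))
  have q1_4 : s1 = s4 := by
    have T : ∀ s0 s1 s2 s4 s5 : ZMod 2, s5 + s2 = s0 + s1 → s4 = s2 → s5 = s1 → s5 = s2 → s1 = s4 := by decide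
    exact T s0 s1 s2 s4 s5 e0 e1 e2 e3
  have q1_5 : s1 = s5 := by
    have T : ∀ s0 s1 s2 s4 s5 : ZMod 2, s5 + s2 = s0 + s1 → s4 = s2 → s5 = s1 → s5 = s2 → s1 = s5 := by decide
    exact T s0 s1 s2 s4 s5 e0 e1 e2 e3
  refine fin h (ta := 560) (tb := 591) (by norm_num) (by norm_num) ?_
  intro p hp h1 h2
  rcases le_or_gt (1000 * p) (570 * Z) with t2 | t2
  · obtain ⟨q, X, hq, hX, x0, x1⟩ := startQ h (p := p) (L := (-2826)) (by omega)
    rcases le_or_gt (1000 * X) ((-2452) * Z) with y | y
    · exact sb h 0 (ql := 3506) (qh := 3574) (x0 := (-2826)) (x1 := (-2452)) hp hq hX h1 t2 x0 y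
        (cn_neg hZ0 P5 (lo := (-2826)) (hi := (-2452)) (by norm_num) (by norm_num) (by norm_num))
        (cn_pos hZ0 P1 (lo := 680) (hi := 1122) (by norm_num) (by norm_num) (by norm_num))
        q1_5.symm (by norm_num)
    have y0 := y.le
    clear y
    rcases le_or_gt (1000 * X) ((-2267) * Z) with y | y
    · exact sb h 1 (ql := 3506) (qh := 3574) (x0 := (-2452)) (x1 := (-2267)) hp hq hX h1 t2 y0 y
        (cn_neg hZ0 P1 (lo := (-1333)) (hi := (-1127)) (by norm_num) (by norm_num) (by norm_num))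
        (cn_pos hZ0 P4 (lo := 2173) (hi := 2447) (by norm_num) (by norm_num) (by norm_num))
        q1_4 (by norm_num)
    have y1 := y.le
    clear y
    rcases le_or_gt (1000 * X) ((-2162) * Z) with y | y
    · exact sb h 0 (ql := 3506) (qh := 3574) (x0 := (-2267)) (x1 := (-2162)) hp hq hX h1 t2 y1 y
        (cn_neg hZ0 P4 (lo := (-2268)) (hi := (-2162)) (by norm_num) (by norm_num) (by norm_num))
        (cn_pos hZ0 P1 (lo := 1238) (hi := 1412) (by norm_num) (by norm_num) (by norm_num))
        q1_4.symm (by norm_num)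
    have y2 := y.le
    clear y
    rcases le_or_gt (1000 * X) ((-1888) * Z) with y | y
    · exact sb h 1 (ql := 3506) (qh := 3574) (x0 := (-2162)) (x1 := (-1888)) hp hq hX h1 t2 y2 y
        (cn_neg hZ0 P1 (lo := (-1043)) (hi := (-748)) (by norm_num) (by norm_num) (by norm_num))
        (cn_pos hZ0 P5 (lo := 2463) (hi := 2826) (by norm_num) (by norm_num) (by norm_num))
        q1_5 (by norm_num)
    have y3 := y.le
    clear y
    exact sb h 0 (ql := 3506) (qh := 3574) (x0 := (-1888)) (x1 := (-1576)) hp hq hX h1 t2 y3 (by omega)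
        (cn_neg hZ0 P2 (lo := (-1889)) (hi := (-1576)) (by norm_num) (by norm_num) (by norm_num))
        (cn_pos hZ0 P2 (lo := 1617) (hi := 1998) (by norm_num) (by norm_num) (by norm_num))
        rfl (by norm_num)
  have t1 := t2
  clear t2
  rcases le_or_gt (1000 * p) (580 * Z) with t2 | t2
  · obtain ⟨q, X, hq, hX, x0, x1⟩ := startQ h (p := p) (L := (-2826)) (by omega)
    rcases le_or_gt (1000 * X) ((-2452) * Z) with y | y
    · exact sb h 0 (ql := 3446) (qh := 3511) (x0 := (-2826)) (x1 := (-2452)) hp hq hX t1.le t2 x0 y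
        (cn_neg hZ0 P5 (lo := (-2826)) (hi := (-2452)) (by norm_num) (by norm_num) (by norm_num))
        (cn_pos hZ0 P1 (lo := 620) (hi := 1059) (by norm_num) (by norm_num) (by norm_num))
        q1_5.symm (by norm_num)
    have y0 := y.le
    clear y
    rcases le_or_gt (1000 * X) ((-2224) * Z) with y | y
    · exact sb h 1 (ql := 3446) (qh := 3511) (x0 := (-2452)) (x1 := (-2224)) hp hq hX t1.le t2 y0 y
        (cn_neg hZ0 P1 (lo := (-1313)) (hi := (-1064)) (by norm_num) (by norm_num) (by norm_num))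
        (cn_pos hZ0 P4 (lo := 2133) (hi := 2447) (by norm_num) (by norm_num) (by norm_num))
        q1_4 (by norm_num)
    have y1 := y.le
    clear y
    rcases le_or_gt (1000 * X) ((-2099) * Z) with y | y
    · exact sb h 0 (ql := 3446) (qh := 3511) (x0 := (-2224)) (x1 := (-2099)) hp hq hX t1.le t2 y1 y
        (cn_neg hZ0 P4 (lo := (-2225)) (hi := (-2099)) (by norm_num) (by norm_num) (by norm_num))
        (cn_pos hZ0 P1 (lo := 1221) (hi := 1412) (by norm_num) (by norm_num) (by norm_num))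
        q1_4.symm (by norm_num)
    have y2 := y.le
    clear y
    rcases le_or_gt (1000 * X) ((-1845) * Z) with y | y
    · exact sb h 1 (ql := 3446) (qh := 3511) (x0 := (-2099)) (x1 := (-1845)) hp hq hX t1.le t2 y2 y
        (cn_neg hZ0 P1 (lo := (-960)) (hi := (-685)) (by norm_num) (by norm_num) (by norm_num))
        (cn_pos hZ0 P5 (lo := 2486) (hi := 2826) (by norm_num) (by norm_num) (by norm_num))
        q1_5 (by norm_num)
    have y3 := y.le
    clear y
    exact sb h 0 (ql := 3446) (qh := 3511) (x0 := (-1845)) (x1 := (-1513)) hp hq hX t1.le t2 y3 (by omega)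
        (cn_neg hZ0 P2 (lo := (-1846)) (hi := (-1513)) (by norm_num) (by norm_num) (by norm_num))
        (cn_pos hZ0 P2 (lo := 1600) (hi := 1998) (by norm_num) (by norm_num) (by norm_num))
        rfl (by norm_num)
  have t1 := t2
  clear t2
  obtain ⟨q, X, hq, hX, x0, x1⟩ := startQ h (p := p) (L := (-2826)) (by omega)
  rcases le_or_gt (1000 * X) ((-2452) * Z) with y | y
  · exact sb h 0 (ql := 3382) (qh := 3451) (x0 := (-2826)) (x1 := (-2452)) hp hq hX t1.le h2 x0 y
      (cn_neg hZ0 P5 (lo := (-2826)) (hi := (-2452)) (by norm_num) (by norm_num) (by norm_num))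
      (cn_pos hZ0 P1 (lo := 556) (hi := 999) (by norm_num) (by norm_num) (by norm_num))
      q1_5.symm (by norm_num)
  have y0 := y.le
  clear y
  rcases le_or_gt (1000 * X) ((-2186) * Z) with y | y
  · exact sb h 1 (ql := 3382) (qh := 3451) (x0 := (-2452)) (x1 := (-2186)) hp hq hX t1.le h2 y0 y
      (cn_neg hZ0 P1 (lo := (-1293)) (hi := (-1004)) (by norm_num) (by norm_num) (by norm_num))
      (cn_pos hZ0 P4 (lo := 2089) (hi := 2447) (by norm_num) (by norm_num) (by norm_num))
      q1_4 (by norm_num)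
  have y1 := y.le
  clear y
  rcases le_or_gt (1000 * X) ((-2063) * Z) with y | y
  · exact sb h 0 (ql := 3382) (qh := 3451) (x0 := (-2186)) (x1 := (-2063)) hp hq hX t1.le h2 y1 y
      (cn_neg hZ0 P4 (lo := (-2187)) (hi := (-2063)) (by norm_num) (by norm_num) (by norm_num))
      (cn_pos hZ0 P1 (lo := 1195) (hi := 1388) (by norm_num) (by norm_num) (by norm_num))
      q1_4.symm (by norm_num)
  have y2 := y.le
  clear y
  rcases le_or_gt (1000 * X) ((-1807) * Z) with y | y
  · exact sb h 1 (ql := 3382) (qh := 3451) (x0 := (-2063)) (x1 := (-1807)) hp hq hX t1.le h2 y2 y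
      (cn_neg hZ0 P1 (lo := (-904)) (hi := (-625)) (by norm_num) (by norm_num) (by norm_num))
      (cn_pos hZ0 P5 (lo := 2478) (hi := 2826) (by norm_num) (by norm_num) (by norm_num))
      q1_5 (by norm_num)
  have y3 := y.le
  clear y
  exact sb h 0 (ql := 3382) (qh := 3451) (x0 := (-1807)) (x1 := (-1453)) hp hq hX t1.le h2 y3 (by omega)
      (cn_neg hZ0 P2 (lo := (-1808)) (hi := (-1453)) (by norm_num) (by norm_num) (by norm_num))
      (cn_pos hZ0 P2 (lo := 1574) (hi := 1998) (by norm_num) (by norm_num) (by norm_num))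
      rfl (by norm_num)

theorem cell2 (h : H2 g K Z ν) (hA1 : 244036 * K ≤ 1000000 * ν)
    (hA2 : 1000000 * ν ≤ 516961 * K) : False := by
  have hZ := h.hZ
  have hZ0 : 0 ≤ Z := by omega
  have hK0 : 0 < K := by
    have := h.hK1
    nlinarith
  have r0 : NuR K ν 0 ν := Or.inl ⟨by norm_num, by norm_num, rfl⟩
  have r1 : NuR K ν 1 ν := Or.inl ⟨by norm_num, by norm_num, rfl⟩
  have r2 : NuR K ν 2 (ν + 4 * K) := Or.inr ⟨by norm_num, by norm_num, rfl⟩
  have r3 : NuR K ν 3 (ν + 4 * K) := Or.inr ⟨by norm_num, by norm_num, rfl⟩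
  obtain ⟨s0, P0⟩ := piece h r0 (α := 0) (β := 492) (by norm_num) (by norm_num) (by norm_num)
    (by norm_num) (by norm_num) (Or.inl (by linarith))
  obtain ⟨s1, P1⟩ := piece h r0 (α := 721) (β := 1412) (by norm_num) (by norm_num) (by norm_num)
    (by norm_num) (by norm_num) (Or.inr ⟨by norm_num, by norm_num, by linarith⟩)
  obtain ⟨s2, P2⟩ := piece h r1 (α := 1417) (β := 1998) (by norm_num) (by norm_num) (by norm_num)
    (by norm_num) (by norm_num) (Or.inr ⟨by norm_num, by norm_num, by linarith⟩)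
  obtain ⟨s3, P3⟩ := piece h r2 (α := 2002) (β := 2058) (by norm_num) (by norm_num) (by norm_num)
    (by norm_num) (by norm_num) (Or.inl (by linarith))
  obtain ⟨s4, P4⟩ := piece h r2 (α := 2128) (β := 2447) (by norm_num) (by norm_num) (by norm_num)
    (by norm_num) (by norm_num) (Or.inr ⟨by norm_num, by norm_num, by linarith⟩)
  obtain ⟨s5, P5⟩ := piece h r3 (α := 2452) (β := 2826) (by norm_num) (by norm_num) (by norm_num)
    (by norm_num) (by norm_num) (Or.inr ⟨by norm_num, by norm_num, by linarith⟩)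
  have e0 : s5 + s2 = s0 + s1 := relh h (l1 := (-2662)) (l2 := (-2599)) (by norm_num) (by norm_num)
    (by norm_num)
    (cn_neg hZ0 P5 (lo := (-2662)) (hi := (-2599)) (by norm_num) (by norm_num) (by norm_num))
    (cn_pos hZ0 P0 (lo := (-2662) + 2828) (hi := (-2599) + 2862) (by norm_num) (by norm_num) (by norm_num))
    (cn_neg hZ0 P1 (lo := (-2662) + 1398) (hi := (-2599) + 1415) (by norm_num) (by norm_num) (by norm_num))
    (cn_pos hZ0 P2 (lo := (-2662) + 4242) (hi := (-2599) + 4262) (by norm_num) (by norm_num) (by norm_num))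
  have e1 : s4 = s2 := rel1 h (l1 := (-2314)) (l2 := (-2261)) (by norm_num) (by norm_num) (by norm_num)
    (cn_neg hZ0 P4 (lo := (-2314)) (hi := (-2261)) (by norm_num) (by norm_num) (by norm_num))
    (cn_neg hZ0 P0 (lo := (-2314) + 1973) (hi := (-2261) + 2027) (by norm_num) (by norm_num) (by norm_num))
    (cn_pos hZ0 P2 (lo := (-2314) + 4000) (hi := (-2261) + 4002) (by norm_num) (by norm_num) (by norm_num))
  have e2 : s5 = s1 := rel1 h (l1 := (-2813)) (l2 := (-2760)) (by norm_num) (by norm_num) (by norm_num)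
    (cn_neg hZ0 P5 (lo := (-2813)) (hi := (-2760)) (by norm_num) (by norm_num) (by norm_num))
    (cn_neg hZ0 P1 (lo := (-2813) + 1973) (hi := (-2760) + 2027) (by norm_num) (by norm_num) (by norm_num))
    (cn_pos hZ0 P1 (lo := (-2813) + 4000) (hi := (-2760) + 4002) (by norm_num) (by norm_num) (by norm_num))
  have e3 : s4 + s2 = s0 + s1 := relh h (l1 := (-2440)) (l2 := (-2377)) (by norm_num) (by norm_num)
    (by norm_num)
    (cn_neg hZ0 P4 (lo := (-2440)) (hi := (-2377)) (by norm_num) (by norm_num) (by norm_num))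
    (cn_pos hZ0 P0 (lo := (-2440) + 2828) (hi := (-2377) + 2862) (by norm_num) (by norm_num) (by norm_num))
    (cn_neg hZ0 P1 (lo := (-2440) + 1398) (hi := (-2377) + 1415) (by norm_num) (by norm_num) (by norm_num))
    (cn_pos hZ0 P2 (lo := (-2440) + 4242) (hi := (-2377) + 4262) (by norm_num) (by norm_num) (by norm_num))
  have e4 : s3 = s2 := rel1 h (l1 := (-2057)) (l2 := (-2004)) (by norm_num) (by norm_num) (by norm_num)
    (cn_neg hZ0 P3 (lo := (-2057)) (hi := (-2004)) (by norm_num) (by norm_num) (by norm_num))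
    (cn_ctr hZ0 P0 (lo := (-2057) + 1973) (hi := (-2004) + 2027) (by norm_num) (by norm_num))
    (cn_pos hZ0 P2 (lo := (-2057) + 4000) (hi := (-2004) + 4002) (by norm_num) (by norm_num) (by norm_num))
  have q1_4 : s1 = s4 := by
    have T : ∀ s0 s1 s2 s3 s4 s5 : ZMod 2, s5 + s2 = s0 + s1 → s4 = s2 → s5 = s1 → s4 + s2 = s0 + s1 → s3 = s2 → s1 = s4 := by decide
    exact T s0 s1 s2 s3 s4 s5 e0 e1 e2 e3 e4
  have q1_5 : s1 = s5 := by
    have T : ∀ s0 s1 s2 s3 s4 s5 : ZMod 2, s5 + s2 = s0 + s1 → s4 = s2 → s5 = s1 → s4 + s2 = s0 + s1 → s3 = s2 → s1 = s5 := by decide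
    exact T s0 s1 s2 s3 s4 s5 e0 e1 e2 e3 e4
  refine fin h (ta := 550) (tb := 581) (by norm_num) (by norm_num) ?_
  intro p hp h1 h2
  rcases le_or_gt (1000 * p) (558 * Z) with t2 | t2
  · obtain ⟨q, X, hq, hX, x0, x1⟩ := startQ h (p := p) (L := (-2826)) (by omega)
    rcases le_or_gt (1000 * X) ((-2452) * Z) with y | y
    · exact sb h 0 (ql := 3582) (qh := 3639) (x0 := (-2826)) (x1 := (-2452)) hp hq hX h1 t2 x0 y
        (cn_neg hZ0 P5 (lo := (-2826)) (hi := (-2452)) (by norm_num) (by norm_num) (by norm_num))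
        (cn_pos hZ0 P1 (lo := 756) (hi := 1187) (by norm_num) (by norm_num) (by norm_num))
        q1_5.symm (by norm_num)
    have y0 := y.le
    clear y
    rcases le_or_gt (1000 * X) ((-2308) * Z) with y | y
    · exact sb h 1 (ql := 3582) (qh := 3639) (x0 := (-2452)) (x1 := (-2308)) hp hq hX h1 t2 y0 y
        (cn_neg hZ0 P1 (lo := (-1353)) (hi := (-1192)) (by norm_num) (by norm_num) (by norm_num))
        (cn_pos hZ0 P4 (lo := 2229) (hi := 2447) (by norm_num) (by norm_num) (by norm_num))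
        q1_4 (by norm_num)
    have y1 := y.le
    clear y
    rcases le_or_gt (1000 * X) ((-2227) * Z) with y | y
    · exact sb h 0 (ql := 3582) (qh := 3639) (x0 := (-2308)) (x1 := (-2227)) hp hq hX h1 t2 y1 y
        (cn_neg hZ0 P4 (lo := (-2309)) (hi := (-2227)) (by norm_num) (by norm_num) (by norm_num))
        (cn_pos hZ0 P1 (lo := 1273) (hi := 1412) (by norm_num) (by norm_num) (by norm_num))
        q1_4.symm (by norm_num)
    have y2 := y.le
    clear y
    rcases le_or_gt (1000 * X) ((-1929) * Z) with y | y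
    · exact sb h 1 (ql := 3582) (qh := 3639) (x0 := (-2227)) (x1 := (-1929)) hp hq hX h1 t2 y2 y
        (cn_neg hZ0 P1 (lo := (-1128)) (hi := (-813)) (by norm_num) (by norm_num) (by norm_num))
        (cn_pos hZ0 P5 (lo := 2454) (hi := 2826) (by norm_num) (by norm_num) (by norm_num))
        q1_5 (by norm_num)
    have y3 := y.le
    clear y
    exact sb h 0 (ql := 3582) (qh := 3639) (x0 := (-1929)) (x1 := (-1641)) hp hq hX h1 t2 y3 (by omega)
        (cn_neg hZ0 P2 (lo := (-1930)) (hi := (-1641)) (by norm_num) (by norm_num) (by norm_num))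
        (cn_pos hZ0 P2 (lo := 1652) (hi := 1998) (by norm_num) (by norm_num) (by norm_num))
        rfl (by norm_num)
  have t1 := t2
  clear t2
  rcases le_or_gt (1000 * p) (565 * Z) with t2 | t2
  · obtain ⟨q, X, hq, hX, x0, x1⟩ := startQ h (p := p) (L := (-2806)) (by omega)
    rcases le_or_gt (1000 * X) ((-2452) * Z) with y | y
    · exact sb h 0 (ql := 3537) (qh := 3587) (x0 := (-2806)) (x1 := (-2452)) hp hq hX t1.le t2 x0 y
        (cn_neg hZ0 P5 (lo := (-2806)) (hi := (-2452)) (by norm_num) (by norm_num) (by norm_num))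
        (cn_pos hZ0 P1 (lo := 731) (hi := 1135) (by norm_num) (by norm_num) (by norm_num))
        q1_5.symm (by norm_num)
    have y0 := y.le
    clear y
    rcases le_or_gt (1000 * X) ((-2270) * Z) with y | y
    · exact sb h 1 (ql := 3537) (qh := 3587) (x0 := (-2452)) (x1 := (-2270)) hp hq hX t1.le t2 y0 y
        (cn_neg hZ0 P1 (lo := (-1337)) (hi := (-1140)) (by norm_num) (by norm_num) (by norm_num))
        (cn_pos hZ0 P4 (lo := 2200) (hi := 2447) (by norm_num) (by norm_num) (by norm_num))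
        q1_4 (by norm_num)
    have y1 := y.le
    clear y
    rcases le_or_gt (1000 * X) ((-2175) * Z) with y | y
    · exact sb h 0 (ql := 3537) (qh := 3587) (x0 := (-2270)) (x1 := (-2175)) hp hq hX t1.le t2 y1 y
        (cn_neg hZ0 P4 (lo := (-2271)) (hi := (-2175)) (by norm_num) (by norm_num) (by norm_num))
        (cn_pos hZ0 P1 (lo := 1266) (hi := 1412) (by norm_num) (by norm_num) (by norm_num))
        q1_4.symm (by norm_num)
    have y2 := y.le
    clear y
    rcases le_or_gt (1000 * X) ((-1891) * Z) with y | y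
    · exact sb h 1 (ql := 3537) (qh := 3587) (x0 := (-2175)) (x1 := (-1891)) hp hq hX t1.le t2 y2 y
        (cn_neg hZ0 P1 (lo := (-1060)) (hi := (-761)) (by norm_num) (by norm_num) (by norm_num))
        (cn_pos hZ0 P5 (lo := 2477) (hi := 2826) (by norm_num) (by norm_num) (by norm_num))
        q1_5 (by norm_num)
    have y3 := y.le
    clear y
    exact sb h 0 (ql := 3537) (qh := 3587) (x0 := (-1891)) (x1 := (-1589)) hp hq hX t1.le t2 y3 (by omega)
        (cn_neg hZ0 P2 (lo := (-1892)) (hi := (-1589)) (by norm_num) (by norm_num) (by norm_num))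
        (cn_pos hZ0 P2 (lo := 1645) (hi := 1998) (by norm_num) (by norm_num) (by norm_num))
        rfl (by norm_num)
  have t1 := t2
  clear t2
  rcases le_or_gt (1000 * p) (573 * Z) with t2 | t2
  · obtain ⟨q, X, hq, hX, x0, x1⟩ := startQ h (p := p) (L := (-2766)) (by omega)
    rcases le_or_gt (1000 * X) ((-2452) * Z) with y | y
    · exact sb h 0 (ql := 3488) (qh := 3542) (x0 := (-2766)) (x1 := (-2452)) hp hq hX t1.le t2 x0 y
        (cn_neg hZ0 P5 (lo := (-2766)) (hi := (-2452)) (by norm_num) (by norm_num) (by norm_num))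
        (cn_pos hZ0 P1 (lo := 722) (hi := 1090) (by norm_num) (by norm_num) (by norm_num))
        q1_5.symm (by norm_num)
    have y0 := y.le
    clear y
    rcases le_or_gt (1000 * X) ((-2241) * Z) with y | y
    · exact sb h 1 (ql := 3488) (qh := 3542) (x0 := (-2452)) (x1 := (-2241)) hp hq hX t1.le t2 y0 y
        (cn_neg hZ0 P1 (lo := (-1323)) (hi := (-1095)) (by norm_num) (by norm_num) (by norm_num))
        (cn_pos hZ0 P4 (lo := 2165) (hi := 2447) (by norm_num) (by norm_num) (by norm_num))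
        q1_4 (by norm_num)
    have y1 := y.le
    clear y
    rcases le_or_gt (1000 * X) ((-2130) * Z) with y | y
    · exact sb h 0 (ql := 3488) (qh := 3542) (x0 := (-2241)) (x1 := (-2130)) hp hq hX t1.le t2 y1 y
        (cn_neg hZ0 P4 (lo := (-2242)) (hi := (-2130)) (by norm_num) (by norm_num) (by norm_num))
        (cn_pos hZ0 P1 (lo := 1246) (hi := 1412) (by norm_num) (by norm_num) (by norm_num))
        q1_4.symm (by norm_num)
    have y2 := y.le
    clear y
    rcases le_or_gt (1000 * X) ((-1867) * Z) with y | y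
    · exact sb h 1 (ql := 3488) (qh := 3542) (x0 := (-2130)) (x1 := (-1867)) hp hq hX t1.le t2 y2 y
        (cn_neg hZ0 P1 (lo := (-1001)) (hi := (-721)) (by norm_num) (by norm_num) (by norm_num))
        (cn_pos hZ0 P5 (lo := 2487) (hi := 2821) (by norm_num) (by norm_num) (by norm_num))
        q1_5 (by norm_num)
    have y3 := y.le
    clear y
    exact sb h 0 (ql := 3488) (qh := 3542) (x0 := (-1867)) (x1 := (-1544)) hp hq hX t1.le t2 y3 (by omega)
        (cn_neg hZ0 P2 (lo := (-1868)) (hi := (-1544)) (by norm_num) (by norm_num) (by norm_num))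
        (cn_pos hZ0 P2 (lo := 1620) (hi := 1998) (by norm_num) (by norm_num) (by norm_num))
        rfl (by norm_num)
  have t1 := t2
  clear t2
  obtain ⟨q, X, hq, hX, x0, x1⟩ := startQ h (p := p) (L := (-2706)) (by omega)
  rcases le_or_gt (1000 * X) ((-2452) * Z) with y | y
  · exact sb h 0 (ql := 3440) (qh := 3493) (x0 := (-2706)) (x1 := (-2452)) hp hq hX t1.le h2 x0 y
      (cn_neg hZ0 P5 (lo := (-2706)) (hi := (-2452)) (by norm_num) (by norm_num) (by norm_num))
      (cn_pos hZ0 P1 (lo := 734) (hi := 1041) (by norm_num) (by norm_num) (by norm_num))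
      q1_5.symm (by norm_num)
  have y0 := y.le
  clear y
  rcases le_or_gt (1000 * X) ((-2208) * Z) with y | y
  · exact sb h 1 (ql := 3440) (qh := 3493) (x0 := (-2452)) (x1 := (-2208)) hp hq hX t1.le h2 y0 y
      (cn_neg hZ0 P1 (lo := (-1307)) (hi := (-1046)) (by norm_num) (by norm_num) (by norm_num))
      (cn_pos hZ0 P4 (lo := 2133) (hi := 2447) (by norm_num) (by norm_num) (by norm_num))
      q1_4 (by norm_num)
  have y1 := y.le
  clear y
  rcases le_or_gt (1000 * X) ((-2128) * Z) with y | y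
  · exact sb h 0 (ql := 3440) (qh := 3493) (x0 := (-2208)) (x1 := (-2128)) hp hq hX t1.le h2 y1 y
      (cn_neg hZ0 P4 (lo := (-2209)) (hi := (-2128)) (by norm_num) (by norm_num) (by norm_num))
      (cn_pos hZ0 P1 (lo := 1231) (hi := 1365) (by norm_num) (by norm_num) (by norm_num))
      q1_4.symm (by norm_num)
  have y2 := y.le
  clear y
  rcases le_or_gt (1000 * X) ((-1883) * Z) with y | y
  · exact sb h 1 (ql := 3440) (qh := 3493) (x0 := (-2128)) (x1 := (-1883)) hp hq hX t1.le h2 y2 y
      (cn_neg hZ0 P1 (lo := (-983)) (hi := (-721)) (by norm_num) (by norm_num) (by norm_num))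
      (cn_pos hZ0 P5 (lo := 2457) (hi := 2772) (by norm_num) (by norm_num) (by norm_num))
      q1_5 (by norm_num)
  have y3 := y.le
  clear y
  exact sb h 0 (ql := 3440) (qh := 3493) (x0 := (-1883)) (x1 := (-1495)) hp hq hX t1.le h2 y3 (by omega)
      (cn_neg hZ0 P2 (lo := (-1884)) (hi := (-1495)) (by norm_num) (by norm_num) (by norm_num))
      (cn_pos hZ0 P2 (lo := 1556) (hi := 1998) (by norm_num) (by norm_num) (by norm_num))
      rfl (by norm_num)

end Pool.Agent.SQ.H80
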