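import Pool.Agent.Helper80_SQ.Two4

/-!
MP_5f6ee5_nt, TWO, large `K`: cells for the position of the exceptional number (part 1).
-/

namespace Pool.Agent.SQ.H80

variable {g : ℤ → ZMod 2} {K Z ν : ℤ}

theorem cell3 (h : H2 g K Z ν) (hA1 : 516961 * K ≤ 1000000 * ν)
    (hA2 : 1000000 * ν ≤ 660969 * K) : False := by
  have hZ := h.hZ
  have hZ0 : 0 ≤ Z := by omega
  have hK0 : 0 < K := by
    have := h.hK1
    nlinarith
  have r0 : NuR K ν 0 ν := Or.inl ⟨by norm_num, by norm_num, rfl⟩
  have r1 : NuR K ν 1 ν := Or.inl ⟨by norm_num, by norm_num, rfl⟩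
  have r2 : NuR K ν 2 (ν + 4 * K) := Or.inr ⟨by norm_num, by norm_num, rfl⟩
  have r3 : NuR K ν 3 (ν + 4 * K) := Or.inr ⟨by norm_num, by norm_num, rfl⟩
  obtain ⟨s0, P0⟩ := piece h r0 (α := 0) (β := 717) (by norm_num) (by norm_num) (by norm_num)
    (by norm_num) (by norm_num) (Or.inl (by linarith))
  obtain ⟨s1, P1⟩ := piece h r0 (α := 815) (β := 1412) (by norm_num) (by norm_num) (by norm_num)
    (by norm_num) (by norm_num) (Or.inr ⟨by norm_num, by norm_num, by linarith⟩)
  obtain ⟨s2, P2⟩ := piece h r1 (α := 1417) (β := 1998) (by norm_num) (by norm_num) (by norm_num)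
    (by norm_num) (by norm_num) (Or.inr ⟨by norm_num, by norm_num, by linarith⟩)
  obtain ⟨s3, P3⟩ := piece h r2 (α := 2002) (β := 2123) (by norm_num) (by norm_num) (by norm_num)
    (by norm_num) (by norm_num) (Or.inl (by linarith))
  obtain ⟨s4, P4⟩ := piece h r2 (α := 2161) (β := 2447) (by norm_num) (by norm_num) (by norm_num)
    (by norm_num) (by norm_num) (Or.inr ⟨by norm_num, by norm_num, by linarith⟩)
  obtain ⟨s5, P5⟩ := piece h r3 (α := 2452) (β := 2826) (by norm_num) (by norm_num) (by norm_num)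
    (by norm_num) (by norm_num) (Or.inr ⟨by norm_num, by norm_num, by linarith⟩)
  have e0 : s5 + s2 = s0 + s1 := relh h (l1 := (-2662)) (l2 := (-2599)) (by norm_num) (by norm_num)
    (by norm_num)
    (cn_neg hZ0 P5 (lo := (-2662)) (hi := (-2599)) (by norm_num) (by norm_num) (by norm_num))
    (cn_pos hZ0 P0 (lo := (-2662) + 2828) (hi := (-2599) + 2862) (by norm_num) (by norm_num) (by norm_num))
    (cn_neg hZ0 P1 (lo := (-2662) + 1398) (hi := (-2599) + 1415) (by norm_num) (by norm_num) (by norm_num))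
    (cn_pos hZ0 P2 (lo := (-2662) + 4242) (hi := (-2599) + 4262) (by norm_num) (by norm_num) (by norm_num))
  have e1 : s4 = s2 := rel1 h (l1 := (-2330)) (l2 := (-2277)) (by norm_num) (by norm_num) (by norm_num)
    (cn_neg hZ0 P4 (lo := (-2330)) (hi := (-2277)) (by norm_num) (by norm_num) (by norm_num))
    (cn_neg hZ0 P0 (lo := (-2330) + 1973) (hi := (-2277) + 2027) (by norm_num) (by norm_num) (by norm_num))
    (cn_pos hZ0 P2 (lo := (-2330) + 4000) (hi := (-2277) + 4002) (by norm_num) (by norm_num) (by norm_num))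
  have e2 : s4 + s2 = s0 + s1 := relh h (l1 := (-2387)) (l2 := (-2324)) (by norm_num) (by norm_num)
    (by norm_num)
    (cn_neg hZ0 P4 (lo := (-2387)) (hi := (-2324)) (by norm_num) (by norm_num) (by norm_num))
    (cn_pos hZ0 P0 (lo := (-2387) + 2828) (hi := (-2324) + 2862) (by norm_num) (by norm_num) (by norm_num))
    (cn_neg hZ0 P1 (lo := (-2387) + 1398) (hi := (-2324) + 1415) (by norm_num) (by norm_num) (by norm_num))
    (cn_pos hZ0 P2 (lo := (-2387) + 4242) (hi := (-2324) + 4262) (by norm_num) (by norm_num) (by norm_num))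
  have e3 : s3 = s2 := rel1 h (l1 := (-2090)) (l2 := (-2037)) (by norm_num) (by norm_num) (by norm_num)
    (cn_neg hZ0 P3 (lo := (-2090)) (hi := (-2037)) (by norm_num) (by norm_num) (by norm_num))
    (cn_neg hZ0 P0 (lo := (-2090) + 1973) (hi := (-2037) + 2027) (by norm_num) (by norm_num) (by norm_num))
    (cn_pos hZ0 P2 (lo := (-2090) + 4000) (hi := (-2037) + 4002) (by norm_num) (by norm_num) (by norm_num))
  have e4 : s1 = s5 := rel1 h (l1 := (-1387)) (l2 := (-1334)) (by norm_num) (by norm_num) (by norm_num)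
    (cn_neg hZ0 P1 (lo := (-1387)) (hi := (-1334)) (by norm_num) (by norm_num) (by norm_num))
    (cn_pos hZ0 P0 (lo := (-1387) + 1973) (hi := (-1334) + 2027) (by norm_num) (by norm_num) (by norm_num))
    (cn_pos hZ0 P5 (lo := (-1387) + 4000) (hi := (-1334) + 4002) (by norm_num) (by norm_num) (by norm_num))
  have q1_4 : s1 = s4 := by
    have T : ∀ s0 s1 s2 s3 s4 s5 : ZMod 2, s5 + s2 = s0 + s1 → s4 = s2 → s4 + s2 = s0 + s1 → s3 = s2 → s1 = s5 → s1 = s4 := by decide
    exact T s0 s1 s2 s3 s4 s5 e0 e1 e2 e3 e4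
  have q1_5 : s1 = s5 := by
    have T : ∀ s0 s1 s2 s3 s4 s5 : ZMod 2, s5 + s2 = s0 + s1 → s4 = s2 → s4 + s2 = s0 + s1 → s3 = s2 → s1 = s5 → s1 = s5 := by decide
    exact T s0 s1 s2 s3 s4 s5 e0 e1 e2 e3 e4
  refine fin h (ta := 540) (tb := 570) (by norm_num) (by norm_num) ?_
  intro p hp h1 h2
  rcases le_or_gt (1000 * p) (545 * Z) with t2 | t2
  · obtain ⟨q, X, hq, hX, x0, x1⟩ := startQ h (p := p) (L := (-2826)) (by omega)
    rcases le_or_gt (1000 * X) ((-2452) * Z) with y | y
    · exact sb h 0 (ql := 3667) (qh := 3706) (x0 := (-2826)) (x1 := (-2452)) hp hq hX h1 t2 x0 y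
        (cn_neg hZ0 P5 (lo := (-2826)) (hi := (-2452)) (by norm_num) (by norm_num) (by norm_num))
        (cn_pos hZ0 P1 (lo := 841) (hi := 1254) (by norm_num) (by norm_num) (by norm_num))
        q1_5.symm (by norm_num)
    have y0 := y.le
    clear y
    rcases le_or_gt (1000 * X) ((-2349) * Z) with y | y
    · exact sb h 1 (ql := 3667) (qh := 3706) (x0 := (-2452)) (x1 := (-2349)) hp hq hX h1 t2 y0 y
        (cn_neg hZ0 P1 (lo := (-1373)) (hi := (-1259)) (by norm_num) (by norm_num) (by norm_num))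
        (cn_pos hZ0 P4 (lo := 2294) (hi := 2447) (by norm_num) (by norm_num) (by norm_num))
        q1_4 (by norm_num)
    have y1 := y.le
    clear y
    rcases le_or_gt (1000 * X) ((-2294) * Z) with y | y
    · exact sb h 0 (ql := 3667) (qh := 3706) (x0 := (-2349)) (x1 := (-2294)) hp hq hX h1 t2 y1 y
        (cn_neg hZ0 P4 (lo := (-2350)) (hi := (-2294)) (by norm_num) (by norm_num) (by norm_num))
        (cn_pos hZ0 P1 (lo := 1317) (hi := 1412) (by norm_num) (by norm_num) (by norm_num))
        q1_4.symm (by norm_num)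
    have y2 := y.le
    clear y
    rcases le_or_gt (1000 * X) ((-1970) * Z) with y | y
    · exact sb h 1 (ql := 3667) (qh := 3706) (x0 := (-2294)) (x1 := (-1970)) hp hq hX h1 t2 y2 y
        (cn_neg hZ0 P1 (lo := (-1215)) (hi := (-880)) (by norm_num) (by norm_num) (by norm_num))
        (cn_pos hZ0 P5 (lo := 2452) (hi := 2826) (by norm_num) (by norm_num) (by norm_num))
        q1_5 (by norm_num)
    have y3 := y.le
    clear y
    exact sb h 0 (ql := 3667) (qh := 3706) (x0 := (-1970)) (x1 := (-1708)) hp hq hX h1 t2 y3 (by omega)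
        (cn_neg hZ0 P2 (lo := (-1971)) (hi := (-1708)) (by norm_num) (by norm_num) (by norm_num))
        (cn_pos hZ0 P2 (lo := 1696) (hi := 1998) (by norm_num) (by norm_num) (by norm_num))
        rfl (by norm_num)
  have t1 := t2
  clear t2
  rcases le_or_gt (1000 * p) (550 * Z) with t2 | t2
  · obtain ⟨q, X, hq, hX, x0, x1⟩ := startQ h (p := p) (L := (-2806)) (by omega)
    rcases le_or_gt (1000 * X) ((-2452) * Z) with y | y
    · exact sb h 0 (ql := 3634) (qh := 3672) (x0 := (-2806)) (x1 := (-2452)) hp hq hX t1.le t2 x0 y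
        (cn_neg hZ0 P5 (lo := (-2806)) (hi := (-2452)) (by norm_num) (by norm_num) (by norm_num))
        (cn_pos hZ0 P1 (lo := 828) (hi := 1220) (by norm_num) (by norm_num) (by norm_num))
        q1_5.symm (by norm_num)
    have y0 := y.le
    clear y
    rcases le_or_gt (1000 * X) ((-2325) * Z) with y | y
    · exact sb h 1 (ql := 3634) (qh := 3672) (x0 := (-2452)) (x1 := (-2325)) hp hq hX t1.le t2 y0 y
        (cn_neg hZ0 P1 (lo := (-1363)) (hi := (-1225)) (by norm_num) (by norm_num) (by norm_num))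
        (cn_pos hZ0 P4 (lo := 2271) (hi := 2447) (by norm_num) (by norm_num) (by norm_num))
        q1_4 (by norm_num)
    have y1 := y.le
    clear y
    rcases le_or_gt (1000 * X) ((-2260) * Z) with y | y
    · exact sb h 0 (ql := 3634) (qh := 3672) (x0 := (-2325)) (x1 := (-2260)) hp hq hX t1.le t2 y1 y
        (cn_neg hZ0 P4 (lo := (-2326)) (hi := (-2260)) (by norm_num) (by norm_num) (by norm_num))
        (cn_pos hZ0 P1 (lo := 1308) (hi := 1412) (by norm_num) (by norm_num) (by norm_num))
        q1_4.symm (by norm_num)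
    have y2 := y.le
    clear y
    rcases le_or_gt (1000 * X) ((-1946) * Z) with y | y
    · exact sb h 1 (ql := 3634) (qh := 3672) (x0 := (-2260)) (x1 := (-1946)) hp hq hX t1.le t2 y2 y
        (cn_neg hZ0 P1 (lo := (-1171)) (hi := (-846)) (by norm_num) (by norm_num) (by norm_num))
        (cn_pos hZ0 P5 (lo := 2463) (hi := 2826) (by norm_num) (by norm_num) (by norm_num))
        q1_5 (by norm_num)
    have y3 := y.le
    clear y
    exact sb h 0 (ql := 3634) (qh := 3672) (x0 := (-1946)) (x1 := (-1674)) hp hq hX t1.le t2 y3 (by omega)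
        (cn_neg hZ0 P2 (lo := (-1947)) (hi := (-1674)) (by norm_num) (by norm_num) (by norm_num))
        (cn_pos hZ0 P2 (lo := 1687) (hi := 1998) (by norm_num) (by norm_num) (by norm_num))
        rfl (by norm_num)
  have t1 := t2
  clear t2
  rcases le_or_gt (1000 * p) (555 * Z) with t2 | t2
  · obtain ⟨q, X, hq, hX, x0, x1⟩ := startQ h (p := p) (L := (-2786)) (by omega)
    rcases le_or_gt (1000 * X) ((-2452) * Z) with y | y
    · exact sb h 0 (ql := 3601) (qh := 3639) (x0 := (-2786)) (x1 := (-2452)) hp hq hX t1.le t2 x0 y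
        (cn_neg hZ0 P5 (lo := (-2786)) (hi := (-2452)) (by norm_num) (by norm_num) (by norm_num))
        (cn_pos hZ0 P1 (lo := 815) (hi := 1187) (by norm_num) (by norm_num) (by norm_num))
        q1_5.symm (by norm_num)
    have y0 := y.le
    clear y
    rcases le_or_gt (1000 * X) ((-2302) * Z) with y | y
    · exact sb h 1 (ql := 3601) (qh := 3639) (x0 := (-2452)) (x1 := (-2302)) hp hq hX t1.le t2 y0 y
        (cn_neg hZ0 P1 (lo := (-1353)) (hi := (-1192)) (by norm_num) (by norm_num) (by norm_num))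
        (cn_pos hZ0 P4 (lo := 2248) (hi := 2447) (by norm_num) (by norm_num) (by norm_num))
        q1_4 (by norm_num)
    have y1 := y.le
    clear y
    rcases le_or_gt (1000 * X) ((-2227) * Z) with y | y
    · exact sb h 0 (ql := 3601) (qh := 3639) (x0 := (-2302)) (x1 := (-2227)) hp hq hX t1.le t2 y1 y
        (cn_neg hZ0 P4 (lo := (-2303)) (hi := (-2227)) (by norm_num) (by norm_num) (by norm_num))
        (cn_pos hZ0 P1 (lo := 1298) (hi := 1412) (by norm_num) (by norm_num) (by norm_num))
        q1_4.symm (by norm_num)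
    have y2 := y.le
    clear y
    rcases le_or_gt (1000 * X) ((-1925) * Z) with y | y
    · exact sb h 1 (ql := 3601) (qh := 3639) (x0 := (-2227)) (x1 := (-1925)) hp hq hX t1.le t2 y2 y
        (cn_neg hZ0 P1 (lo := (-1128)) (hi := (-815)) (by norm_num) (by norm_num) (by norm_num))
        (cn_pos hZ0 P5 (lo := 2473) (hi := 2824) (by norm_num) (by norm_num) (by norm_num))
        q1_5 (by norm_num)
    have y3 := y.le
    clear y
    exact sb h 0 (ql := 3601) (qh := 3639) (x0 := (-1925)) (x1 := (-1641)) hp hq hX t1.le t2 y3 (by omega)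
        (cn_neg hZ0 P2 (lo := (-1926)) (hi := (-1641)) (by norm_num) (by norm_num) (by norm_num))
        (cn_pos hZ0 P2 (lo := 1675) (hi := 1998) (by norm_num) (by norm_num) (by norm_num))
        rfl (by norm_num)
  have t1 := t2
  clear t2
  rcases le_or_gt (1000 * p) (560 * Z) with t2 | t2
  · obtain ⟨q, X, hq, hX, x0, x1⟩ := startQ h (p := p) (L := (-2746)) (by omega)
    rcases le_or_gt (1000 * X) ((-2452) * Z) with y | y
    · exact sb h 0 (ql := 3569) (qh := 3606) (x0 := (-2746)) (x1 := (-2452)) hp hq hX t1.le t2 x0 y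
        (cn_neg hZ0 P5 (lo := (-2746)) (hi := (-2452)) (by norm_num) (by norm_num) (by norm_num))
        (cn_pos hZ0 P1 (lo := 823) (hi := 1154) (by norm_num) (by norm_num) (by norm_num))
        q1_5.symm (by norm_num)
    have y0 := y.le
    clear y
    rcases le_or_gt (1000 * X) ((-2279) * Z) with y | y
    · exact sb h 1 (ql := 3569) (qh := 3606) (x0 := (-2452)) (x1 := (-2279)) hp hq hX t1.le t2 y0 y
        (cn_neg hZ0 P1 (lo := (-1343)) (hi := (-1159)) (by norm_num) (by norm_num) (by norm_num))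
        (cn_pos hZ0 P4 (lo := 2226) (hi := 2447) (by norm_num) (by norm_num) (by norm_num))
        q1_4 (by norm_num)
    have y1 := y.le
    clear y
    rcases le_or_gt (1000 * X) ((-2194) * Z) with y | y
    · exact sb h 0 (ql := 3569) (qh := 3606) (x0 := (-2279)) (x1 := (-2194)) hp hq hX t1.le t2 y1 y
        (cn_neg hZ0 P4 (lo := (-2280)) (hi := (-2194)) (by norm_num) (by norm_num) (by norm_num))
        (cn_pos hZ0 P1 (lo := 1289) (hi := 1412) (by norm_num) (by norm_num) (by norm_num))
        q1_4.symm (by norm_num)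
    have y2 := y.le
    clear y
    rcases le_or_gt (1000 * X) ((-1935) * Z) with y | y
    · exact sb h 1 (ql := 3569) (qh := 3606) (x0 := (-2194)) (x1 := (-1935)) hp hq hX t1.le t2 y2 y
        (cn_neg hZ0 P1 (lo := (-1085)) (hi := (-815)) (by norm_num) (by norm_num) (by norm_num))
        (cn_pos hZ0 P5 (lo := 2484) (hi := 2791) (by norm_num) (by norm_num) (by norm_num))
        q1_5 (by norm_num)
    have y3 := y.le
    clear y
    exact sb h 0 (ql := 3569) (qh := 3606) (x0 := (-1935)) (x1 := (-1608)) hp hq hX t1.le t2 y3 (by omega)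
        (cn_neg hZ0 P2 (lo := (-1936)) (hi := (-1608)) (by norm_num) (by norm_num) (by norm_num))
        (cn_pos hZ0 P2 (lo := 1633) (hi := 1998) (by norm_num) (by norm_num) (by norm_num))
        rfl (by norm_num)
  have t1 := t2
  clear t2
  rcases le_or_gt (1000 * p) (565 * Z) with t2 | t2
  · obtain ⟨q, X, hq, hX, x0, x1⟩ := startQ h (p := p) (L := (-2486)) (by omega)
    rcases le_or_gt (1000 * X) ((-2257) * Z) with y | y
    · exact sb h 1 (ql := 3537) (qh := 3574) (x0 := (-2486)) (x1 := (-2257)) hp hq hX t1.le t2 x0 y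
        (cn_neg hZ0 P1 (lo := (-1366)) (hi := (-1127)) (by norm_num) (by norm_num) (by norm_num))
        (cn_pos hZ0 P4 (lo := 2171) (hi := 2447) (by norm_num) (by norm_num) (by norm_num))
        q1_4 (by norm_num)
    have y0 := y.le
    clear y
    rcases le_or_gt (1000 * X) ((-2162) * Z) with y | y
    · exact sb h 0 (ql := 3537) (qh := 3574) (x0 := (-2257)) (x1 := (-2162)) hp hq hX t1.le t2 y0 y
        (cn_neg hZ0 P4 (lo := (-2258)) (hi := (-2162)) (by norm_num) (by norm_num) (by norm_num))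
        (cn_pos hZ0 P1 (lo := 1279) (hi := 1412) (by norm_num) (by norm_num) (by norm_num))
        q1_4.symm (by norm_num)
    have y1 := y.le
    clear y
    rcases le_or_gt (1000 * X) ((-1945) * Z) with y | y
    · exact sb h 1 (ql := 3537) (qh := 3574) (x0 := (-2162)) (x1 := (-1945)) hp hq hX t1.le t2 y1 y
        (cn_neg hZ0 P1 (lo := (-1043)) (hi := (-815)) (by norm_num) (by norm_num) (by norm_num))
        (cn_pos hZ0 P5 (lo := 2494) (hi := 2759) (by norm_num) (by norm_num) (by norm_num))
        q1_5 (by norm_num)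
    have y2 := y.le
    clear y
    rcases le_or_gt (1000 * X) ((-1576) * Z) with y | y
    · exact sb h 0 (ql := 3537) (qh := 3574) (x0 := (-1945)) (x1 := (-1576)) hp hq hX t1.le t2 y2 y
        (cn_neg hZ0 P2 (lo := (-1946)) (hi := (-1576)) (by norm_num) (by norm_num) (by norm_num))
        (cn_pos hZ0 P2 (lo := 1591) (hi := 1998) (by norm_num) (by norm_num) (by norm_num))
        rfl (by norm_num)
    have y3 := y.le
    clear y
    exact sb h (-1) (ql := 3537) (qh := 3574) (x0 := (-1576)) (x1 := (-1332)) hp hq hX t1.le t2 y3 (by omega)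
        (cn_neg hZ0 P5 (lo := (-2707)) (hi := (-2452)) (by norm_num) (by norm_num) (by norm_num))
        (cn_pos hZ0 P1 (lo := 830) (hi := 1122) (by norm_num) (by norm_num) (by norm_num))
        q1_5.symm (by norm_num)
  have t1 := t2
  clear t2
  obtain ⟨q, X, hq, hX, x0, x1⟩ := startQ h (p := p) (L := (-2466)) (by omega)
  rcases le_or_gt (1000 * X) ((-2235) * Z) with y | y
  · exact sb h 1 (ql := 3506) (qh := 3542) (x0 := (-2466)) (x1 := (-2235)) hp hq hX t1.le h2 x0 y
      (cn_neg hZ0 P1 (lo := (-1336)) (hi := (-1095)) (by norm_num) (by norm_num) (by norm_num))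
      (cn_pos hZ0 P4 (lo := 2170) (hi := 2447) (by norm_num) (by norm_num) (by norm_num))
      q1_4 (by norm_num)
  have y0 := y.le
  clear y
  rcases le_or_gt (1000 * X) ((-2161) * Z) with y | y
  · exact sb h 0 (ql := 3506) (qh := 3542) (x0 := (-2235)) (x1 := (-2161)) hp hq hX t1.le h2 y0 y
      (cn_neg hZ0 P4 (lo := (-2236)) (hi := (-2161)) (by norm_num) (by norm_num) (by norm_num))
      (cn_pos hZ0 P1 (lo := 1270) (hi := 1381) (by norm_num) (by norm_num) (by norm_num))
      q1_4.symm (by norm_num)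
  have y1 := y.le
  clear y
  rcases le_or_gt (1000 * X) ((-1955) * Z) with y | y
  · exact sb h 1 (ql := 3506) (qh := 3542) (x0 := (-2161)) (x1 := (-1955)) hp hq hX t1.le h2 y1 y
      (cn_neg hZ0 P1 (lo := (-1032)) (hi := (-815)) (by norm_num) (by norm_num) (by norm_num))
      (cn_pos hZ0 P5 (lo := 2474) (hi := 2727) (by norm_num) (by norm_num) (by norm_num))
      q1_5 (by norm_num)
  have y2 := y.le
  clear y
  rcases le_or_gt (1000 * X) ((-1544) * Z) with y | y
  · exact sb h 0 (ql := 3506) (qh := 3542) (x0 := (-1955)) (x1 := (-1544)) hp hq hX t1.le h2 y2 y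
      (cn_neg hZ0 P2 (lo := (-1956)) (hi := (-1544)) (by norm_num) (by norm_num) (by norm_num))
      (cn_pos hZ0 P2 (lo := 1550) (hi := 1998) (by norm_num) (by norm_num) (by norm_num))
      rfl (by norm_num)
  have y3 := y.le
  clear y
  exact sb h (-1) (ql := 3506) (qh := 3542) (x0 := (-1544)) (x1 := (-1322)) hp hq hX t1.le h2 y3 (by omega)
      (cn_neg hZ0 P5 (lo := (-2685)) (hi := (-2452)) (by norm_num) (by norm_num) (by norm_num))
      (cn_pos hZ0 P1 (lo := 821) (hi := 1090) (by norm_num) (by norm_num) (by norm_num))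
      q1_5.symm (by norm_num)

theorem cell4 (h : H2 g K Z ν) (hA1 : 660969 * K ≤ 1000000 * ν)
    (hA2 : 1000000 * ν ≤ 962361 * K) : False := by
  have hZ := h.hZ
  have hZ0 : 0 ≤ Z := by omega
  have hK0 : 0 < K := by
    have := h.hK1
    nlinarith
  have r0 : NuR K ν 0 ν := Or.inl ⟨by norm_num, by norm_num, rfl⟩
  have r1 : NuR K ν 1 ν := Or.inl ⟨by norm_num, by norm_num, rfl⟩
  have r2 : NuR K ν 2 (ν + 4 * K) := Or.inr ⟨by norm_num, by norm_num, rfl⟩
  have r3 : NuR K ν 3 (ν + 4 * K) := Or.inr ⟨by norm_num, by norm_num, rfl⟩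
  obtain ⟨s0, P0⟩ := piece h r0 (α := 0) (β := 811) (by norm_num) (by norm_num) (by norm_num)
    (by norm_num) (by norm_num) (Or.inl (by linarith))
  obtain ⟨s1, P1⟩ := piece h r0 (α := 983) (β := 1412) (by norm_num) (by norm_num) (by norm_num)
    (by norm_num) (by norm_num) (Or.inr ⟨by norm_num, by norm_num, by linarith⟩)
  obtain ⟨s2, P2⟩ := piece h r1 (α := 1417) (β := 1998) (by norm_num) (by norm_num) (by norm_num)
    (by norm_num) (by norm_num) (Or.inr ⟨by norm_num, by norm_num, by linarith⟩)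
  obtain ⟨s3, P3⟩ := piece h r2 (α := 2002) (β := 2156) (by norm_num) (by norm_num) (by norm_num)
    (by norm_num) (by norm_num) (Or.inl (by linarith))
  obtain ⟨s4, P4⟩ := piece h r2 (α := 2230) (β := 2447) (by norm_num) (by norm_num) (by norm_num)
    (by norm_num) (by norm_num) (Or.inr ⟨by norm_num, by norm_num, by linarith⟩)
  obtain ⟨s5, P5⟩ := piece h r3 (α := 2452) (β := 2826) (by norm_num) (by norm_num) (by norm_num)
    (by norm_num) (by norm_num) (Or.inr ⟨by norm_num, by norm_num, by linarith⟩)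
  have e0 : s5 + s2 = s0 + s1 := relh h (l1 := (-2662)) (l2 := (-2599)) (by norm_num) (by norm_num)
    (by norm_num)
    (cn_neg hZ0 P5 (lo := (-2662)) (hi := (-2599)) (by norm_num) (by norm_num) (by norm_num))
    (cn_pos hZ0 P0 (lo := (-2662) + 2828) (hi := (-2599) + 2862) (by norm_num) (by norm_num) (by norm_num))
    (cn_neg hZ0 P1 (lo := (-2662) + 1398) (hi := (-2599) + 1415) (by norm_num) (by norm_num) (by norm_num))
    (cn_pos hZ0 P2 (lo := (-2662) + 4242) (hi := (-2599) + 4262) (by norm_num) (by norm_num) (by norm_num))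
  have e1 : s4 = s2 := rel1 h (l1 := (-2365)) (l2 := (-2312)) (by norm_num) (by norm_num) (by norm_num)
    (cn_neg hZ0 P4 (lo := (-2365)) (hi := (-2312)) (by norm_num) (by norm_num) (by norm_num))
    (cn_neg hZ0 P0 (lo := (-2365) + 1973) (hi := (-2312) + 2027) (by norm_num) (by norm_num) (by norm_num))
    (cn_pos hZ0 P2 (lo := (-2365) + 4000) (hi := (-2312) + 4002) (by norm_num) (by norm_num) (by norm_num))
  have e2 : s1 = s5 := rel1 h (l1 := (-1340)) (l2 := (-1287)) (by norm_num) (by norm_num) (by norm_num)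
    (cn_neg hZ0 P1 (lo := (-1340)) (hi := (-1287)) (by norm_num) (by norm_num) (by norm_num))
    (cn_pos hZ0 P0 (lo := (-1340) + 1973) (hi := (-1287) + 2027) (by norm_num) (by norm_num) (by norm_num))
    (cn_pos hZ0 P5 (lo := (-1340) + 4000) (hi := (-1287) + 4002) (by norm_num) (by norm_num) (by norm_num))
  have e3 : s3 = s2 := rel1 h (l1 := (-2106)) (l2 := (-2053)) (by norm_num) (by norm_num) (by norm_num)
    (cn_neg hZ0 P3 (lo := (-2106)) (hi := (-2053)) (by norm_num) (by norm_num) (by norm_num))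
    (cn_neg hZ0 P0 (lo := (-2106) + 1973) (hi := (-2053) + 2027) (by norm_num) (by norm_num) (by norm_num))
    (cn_pos hZ0 P2 (lo := (-2106) + 4000) (hi := (-2053) + 4002) (by norm_num) (by norm_num) (by norm_num))
  have e4 : s5 = s2 := rel1 h (l1 := (-2544)) (l2 := (-2491)) (by norm_num) (by norm_num) (by norm_num)
    (cn_neg hZ0 P5 (lo := (-2544)) (hi := (-2491)) (by norm_num) (by norm_num) (by norm_num))
    (cn_neg hZ0 P0 (lo := (-2544) + 1973) (hi := (-2491) + 2027) (by norm_num) (by norm_num) (by norm_num))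
    (cn_pos hZ0 P2 (lo := (-2544) + 4000) (hi := (-2491) + 4002) (by norm_num) (by norm_num) (by norm_num))
  have q0_2 : s0 = s2 := by
    have T : ∀ s0 s1 s2 s3 s4 s5 : ZMod 2, s5 + s2 = s0 + s1 → s4 = s2 → s1 = s5 → s3 = s2 → s5 = s2 → s0 = s2 := by decide
    exact T s0 s1 s2 s3 s4 s5 e0 e1 e2 e3 e4
  have q0_3 : s0 = s3 := by
    have T : ∀ s0 s1 s2 s3 s4 s5 : ZMod 2, s5 + s2 = s0 + s1 → s4 = s2 → s1 = s5 → s3 = s2 → s5 = s2 → s0 = s3 := by decide
    exact T s0 s1 s2 s3 s4 s5 e0 e1 e2 e3 e4
  have q0_5 : s0 = s5 := by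
    have T : ∀ s0 s1 s2 s3 s4 s5 : ZMod 2, s5 + s2 = s0 + s1 → s4 = s2 → s1 = s5 → s3 = s2 → s5 = s2 → s0 = s5 := by decide
    exact T s0 s1 s2 s3 s4 s5 e0 e1 e2 e3 e4
  refine fin h (ta := 840) (tb := 886) (by norm_num) (by norm_num) ?_
  intro p hp h1 h2
  rcases le_or_gt (1000 * p) (847 * Z) with t2 | t2
  · obtain ⟨q, X, hq, hX, x0, x1⟩ := startQ h (p := p) (L := (-2826)) (by omega)
    rcases le_or_gt (1000 * X) ((-2452) * Z) with y | y
    · exact sb h 0 (ql := 2359) (qh := 2383) (x0 := (-2826)) (x1 := (-2452)) hp hq hX h1 t2 x0 y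
        (cn_neg hZ0 P5 (lo := (-2826)) (hi := (-2452)) (by norm_num) (by norm_num) (by norm_num))
        (cn_neg hZ0 P0 (lo := (-467)) (hi := (-69)) (by norm_num) (by norm_num) (by norm_num))
        q0_5.symm (by norm_num)
    have y0 := y.le
    clear y
    rcases le_or_gt (1000 * X) ((-2079) * Z) with y | y
    · exact sb h 1 (ql := 2359) (qh := 2383) (x0 := (-2452)) (x1 := (-2079)) hp hq hX h1 t2 y0 y
        (cn_neg hZ0 P0 (lo := (-773)) (hi := (-385)) (by norm_num) (by norm_num) (by norm_num))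
        (cn_pos hZ0 P2 (lo := 1586) (hi := 1998) (by norm_num) (by norm_num) (by norm_num))
        q0_2 (by norm_num)
    have y1 := y.le
    clear y
    rcases le_or_gt (1000 * X) ((-2002) * Z) with y | y
    · exact sb h 0 (ql := 2359) (qh := 2383) (x0 := (-2079)) (x1 := (-2002)) hp hq hX h1 t2 y1 y
        (cn_neg hZ0 P3 (lo := (-2080)) (hi := (-2002)) (by norm_num) (by norm_num) (by norm_num))
        (cn_pos hZ0 P0 (lo := 279) (hi := 381) (by norm_num) (by norm_num) (by norm_num))
        q0_3.symm (by norm_num)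
    have y2 := y.le
    clear y
    rcases le_or_gt (1000 * X) ((-1921) * Z) with y | y
    · exact sb h 1 (ql := 2359) (qh := 2383) (x0 := (-2002)) (x1 := (-1921)) hp hq hX h1 t2 y2 y
        (cn_neg hZ0 P0 (lo := (-323)) (hi := (-227)) (by norm_num) (by norm_num) (by norm_num))
        (cn_pos hZ0 P3 (lo := 2036) (hi := 2156) (by norm_num) (by norm_num) (by norm_num))
        q0_3 (by norm_num)
    have y3 := y.le
    clear y
    rcases le_or_gt (1000 * X) ((-1572) * Z) with y | y
    · exact sb h 0 (ql := 2359) (qh := 2383) (x0 := (-1921)) (x1 := (-1572)) hp hq hX h1 t2 y3 y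
        (cn_neg hZ0 P2 (lo := (-1922)) (hi := (-1572)) (by norm_num) (by norm_num) (by norm_num))
        (cn_pos hZ0 P0 (lo := 437) (hi := 811) (by norm_num) (by norm_num) (by norm_num))
        q0_2.symm (by norm_num)
    have y4 := y.le
    clear y
    rcases le_or_gt (1000 * X) ((-1251) * Z) with y | y
    · exact sb h 1 (ql := 2359) (qh := 2383) (x0 := (-1572)) (x1 := (-1251)) hp hq hX h1 t2 y4 y
        (cn_pos hZ0 P0 (lo := 107) (hi := 443) (by norm_num) (by norm_num) (by norm_num))
        (cn_pos hZ0 P5 (lo := 2466) (hi := 2826) (by norm_num) (by norm_num) (by norm_num))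
        q0_5 (by norm_num)
    have y5 := y.le
    clear y
    exact sb h 0 (ql := 2359) (qh := 2383) (x0 := (-1251)) (x1 := (-983)) hp hq hX h1 t2 y5 (by omega)
        (cn_neg hZ0 P1 (lo := (-1252)) (hi := (-983)) (by norm_num) (by norm_num) (by norm_num))
        (cn_pos hZ0 P1 (lo := 1107) (hi := 1400) (by norm_num) (by norm_num) (by norm_num))
        rfl (by norm_num)
  have t1 := t2
  clear t2
  rcases le_or_gt (1000 * p) (855 * Z) with t2 | t2
  · obtain ⟨q, X, hq, hX, x0, x1⟩ := startQ h (p := p) (L := (-2826)) (by omega)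
    rcases le_or_gt (1000 * X) ((-2452) * Z) with y | y
    · exact sb h 0 (ql := 2337) (qh := 2364) (x0 := (-2826)) (x1 := (-2452)) hp hq hX t1.le t2 x0 y
        (cn_neg hZ0 P5 (lo := (-2826)) (hi := (-2452)) (by norm_num) (by norm_num) (by norm_num))
        (cn_neg hZ0 P0 (lo := (-489)) (hi := (-88)) (by norm_num) (by norm_num) (by norm_num))
        q0_5.symm (by norm_num)
    have y0 := y.le
    clear y
    rcases le_or_gt (1000 * X) ((-2076) * Z) with y | y
    · exact sb h 1 (ql := 2337) (qh := 2364) (x0 := (-2452)) (x1 := (-2076)) hp hq hX t1.le t2 y0 y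
        (cn_neg hZ0 P0 (lo := (-759)) (hi := (-366)) (by norm_num) (by norm_num) (by norm_num))
        (cn_pos hZ0 P2 (lo := 1578) (hi := 1998) (by norm_num) (by norm_num) (by norm_num))
        q0_2 (by norm_num)
    have y1 := y.le
    clear y
    rcases le_or_gt (1000 * X) ((-2002) * Z) with y | y
    · exact sb h 0 (ql := 2337) (qh := 2364) (x0 := (-2076)) (x1 := (-2002)) hp hq hX t1.le t2 y1 y
        (cn_neg hZ0 P3 (lo := (-2077)) (hi := (-2002)) (by norm_num) (by norm_num) (by norm_num))
        (cn_pos hZ0 P0 (lo := 260) (hi := 362) (by norm_num) (by norm_num) (by norm_num))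
        q0_3.symm (by norm_num)
    have y2 := y.le
    clear y
    rcases le_or_gt (1000 * X) ((-1918) * Z) with y | y
    · exact sb h 1 (ql := 2337) (qh := 2364) (x0 := (-2002)) (x1 := (-1918)) hp hq hX t1.le t2 y2 y
        (cn_neg hZ0 P0 (lo := (-309)) (hi := (-208)) (by norm_num) (by norm_num) (by norm_num))
        (cn_pos hZ0 P3 (lo := 2028) (hi := 2156) (by norm_num) (by norm_num) (by norm_num))
        q0_3 (by norm_num)
    have y3 := y.le
    clear y
    rcases le_or_gt (1000 * X) ((-1553) * Z) with y | y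
    · exact sb h 0 (ql := 2337) (qh := 2364) (x0 := (-1918)) (x1 := (-1553)) hp hq hX t1.le t2 y3 y
        (cn_neg hZ0 P2 (lo := (-1919)) (hi := (-1553)) (by norm_num) (by norm_num) (by norm_num))
        (cn_pos hZ0 P0 (lo := 418) (hi := 811) (by norm_num) (by norm_num) (by norm_num))
        q0_2.symm (by norm_num)
    have y4 := y.le
    clear y
    rcases le_or_gt (1000 * X) ((-1248) * Z) with y | y
    · exact sb h 1 (ql := 2337) (qh := 2364) (x0 := (-1553)) (x1 := (-1248)) hp hq hX t1.le t2 y4 y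
        (cn_pos hZ0 P0 (lo := 140) (hi := 462) (by norm_num) (by norm_num) (by norm_num))
        (cn_pos hZ0 P5 (lo := 2477) (hi := 2826) (by norm_num) (by norm_num) (by norm_num))
        q0_5 (by norm_num)
    have y5 := y.le
    clear y
    exact sb h 0 (ql := 2337) (qh := 2364) (x0 := (-1248)) (x1 := (-983)) hp hq hX t1.le t2 y5 (by omega)
        (cn_neg hZ0 P1 (lo := (-1249)) (hi := (-983)) (by norm_num) (by norm_num) (by norm_num))
        (cn_pos hZ0 P1 (lo := 1088) (hi := 1381) (by norm_num) (by norm_num) (by norm_num))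
        rfl (by norm_num)
  have t1 := t2
  clear t2
  rcases le_or_gt (1000 * p) (863 * Z) with t2 | t2
  · obtain ⟨q, X, hq, hX, x0, x1⟩ := startQ h (p := p) (L := (-2826)) (by omega)
    rcases le_or_gt (1000 * X) ((-2452) * Z) with y | y
    · exact sb h 0 (ql := 2315) (qh := 2342) (x0 := (-2826)) (x1 := (-2452)) hp hq hX t1.le t2 x0 y
        (cn_neg hZ0 P5 (lo := (-2826)) (hi := (-2452)) (by norm_num) (by norm_num) (by norm_num))
        (cn_neg hZ0 P0 (lo := (-511)) (hi := (-110)) (by norm_num) (by norm_num) (by norm_num))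
        q0_5.symm (by norm_num)
    have y0 := y.le
    clear y
    rcases le_or_gt (1000 * X) ((-2070) * Z) with y | y
    · exact sb h 1 (ql := 2315) (qh := 2342) (x0 := (-2452)) (x1 := (-2070)) hp hq hX t1.le t2 y0 y
        (cn_neg hZ0 P0 (lo := (-743)) (hi := (-344)) (by norm_num) (by norm_num) (by norm_num))
        (cn_pos hZ0 P2 (lo := 1572) (hi := 1998) (by norm_num) (by norm_num) (by norm_num))
        q0_2 (by norm_num)
    have y1 := y.le
    clear y
    rcases le_or_gt (1000 * X) ((-2002) * Z) with y | y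
    · exact sb h 0 (ql := 2315) (qh := 2342) (x0 := (-2070)) (x1 := (-2002)) hp hq hX t1.le t2 y1 y
        (cn_neg hZ0 P3 (lo := (-2071)) (hi := (-2002)) (by norm_num) (by norm_num) (by norm_num))
        (cn_pos hZ0 P0 (lo := 244) (hi := 340) (by norm_num) (by norm_num) (by norm_num))
        q0_3.symm (by norm_num)
    have y2 := y.le
    clear y
    rcases le_or_gt (1000 * X) ((-1912) * Z) with y | y
    · exact sb h 1 (ql := 2315) (qh := 2342) (x0 := (-2002)) (x1 := (-1912)) hp hq hX t1.le t2 y2 y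
        (cn_neg hZ0 P0 (lo := (-293)) (hi := (-186)) (by norm_num) (by norm_num) (by norm_num))
        (cn_pos hZ0 P3 (lo := 2022) (hi := 2156) (by norm_num) (by norm_num) (by norm_num))
        q0_3 (by norm_num)
    have y3 := y.le
    clear y
    rcases le_or_gt (1000 * X) ((-1531) * Z) with y | y
    · exact sb h 0 (ql := 2315) (qh := 2342) (x0 := (-1912)) (x1 := (-1531)) hp hq hX t1.le t2 y3 y
        (cn_neg hZ0 P2 (lo := (-1913)) (hi := (-1531)) (by norm_num) (by norm_num) (by norm_num))
        (cn_pos hZ0 P0 (lo := 402) (hi := 811) (by norm_num) (by norm_num) (by norm_num))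
        q0_2.symm (by norm_num)
    have y4 := y.le
    clear y
    rcases le_or_gt (1000 * X) ((-1242) * Z) with y | y
    · exact sb h 1 (ql := 2315) (qh := 2342) (x0 := (-1531)) (x1 := (-1242)) hp hq hX t1.le t2 y4 y
        (cn_pos hZ0 P0 (lo := 178) (hi := 484) (by norm_num) (by norm_num) (by norm_num))
        (cn_pos hZ0 P5 (lo := 2493) (hi := 2826) (by norm_num) (by norm_num) (by norm_num))
        q0_5 (by norm_num)
    have y5 := y.le
    clear y
    exact sb h 0 (ql := 2315) (qh := 2342) (x0 := (-1242)) (x1 := (-983)) hp hq hX t1.le t2 y5 (by omega)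
        (cn_neg hZ0 P1 (lo := (-1243)) (hi := (-983)) (by norm_num) (by norm_num) (by norm_num))
        (cn_pos hZ0 P1 (lo := 1072) (hi := 1359) (by norm_num) (by norm_num) (by norm_num))
        rfl (by norm_num)
  have t1 := t2
  clear t2
  rcases le_or_gt (1000 * p) (870 * Z) with t2 | t2
  · obtain ⟨q, X, hq, hX, x0, x1⟩ := startQ h (p := p) (L := (-2826)) (by omega)
    rcases le_or_gt (1000 * X) ((-2452) * Z) with y | y
    · exact sb h 0 (ql := 2296) (qh := 2320) (x0 := (-2826)) (x1 := (-2452)) hp hq hX t1.le t2 x0 y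
        (cn_neg hZ0 P5 (lo := (-2826)) (hi := (-2452)) (by norm_num) (by norm_num) (by norm_num))
        (cn_neg hZ0 P0 (lo := (-530)) (hi := (-132)) (by norm_num) (by norm_num) (by norm_num))
        q0_5.symm (by norm_num)
    have y0 := y.le
    clear y
    rcases le_or_gt (1000 * X) ((-2062) * Z) with y | y
    · exact sb h 1 (ql := 2296) (qh := 2320) (x0 := (-2452)) (x1 := (-2062)) hp hq hX t1.le t2 y0 y
        (cn_neg hZ0 P0 (lo := (-727)) (hi := (-322)) (by norm_num) (by norm_num) (by norm_num))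
        (cn_pos hZ0 P2 (lo := 1569) (hi := 1998) (by norm_num) (by norm_num) (by norm_num))
        q0_2 (by norm_num)
    have y1 := y.le
    clear y
    rcases le_or_gt (1000 * X) ((-2002) * Z) with y | y
    · exact sb h 0 (ql := 2296) (qh := 2320) (x0 := (-2062)) (x1 := (-2002)) hp hq hX t1.le t2 y1 y
        (cn_neg hZ0 P3 (lo := (-2063)) (hi := (-2002)) (by norm_num) (by norm_num) (by norm_num))
        (cn_pos hZ0 P0 (lo := 233) (hi := 318) (by norm_num) (by norm_num) (by norm_num))
        q0_3.symm (by norm_num)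
    have y2 := y.le
    clear y
    rcases le_or_gt (1000 * X) ((-1904) * Z) with y | y
    · exact sb h 1 (ql := 2296) (qh := 2320) (x0 := (-2002)) (x1 := (-1904)) hp hq hX t1.le t2 y2 y
        (cn_neg hZ0 P0 (lo := (-277)) (hi := (-164)) (by norm_num) (by norm_num) (by norm_num))
        (cn_pos hZ0 P3 (lo := 2019) (hi := 2156) (by norm_num) (by norm_num) (by norm_num))
        q0_3 (by norm_num)
    have y3 := y.le
    clear y
    rcases le_or_gt (1000 * X) ((-1509) * Z) with y | y
    · exact sb h 0 (ql := 2296) (qh := 2320) (x0 := (-1904)) (x1 := (-1509)) hp hq hX t1.le t2 y3 y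
        (cn_neg hZ0 P2 (lo := (-1905)) (hi := (-1509)) (by norm_num) (by norm_num) (by norm_num))
        (cn_pos hZ0 P0 (lo := 391) (hi := 811) (by norm_num) (by norm_num) (by norm_num))
        q0_2.symm (by norm_num)
    have y4 := y.le
    clear y
    rcases le_or_gt (1000 * X) ((-1234) * Z) with y | y
    · exact sb h 1 (ql := 2296) (qh := 2320) (x0 := (-1509)) (x1 := (-1234)) hp hq hX t1.le t2 y4 y
        (cn_pos hZ0 P0 (lo := 216) (hi := 506) (by norm_num) (by norm_num) (by norm_num))
        (cn_pos hZ0 P5 (lo := 2512) (hi := 2826) (by norm_num) (by norm_num) (by norm_num))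
        q0_5 (by norm_num)
    have y5 := y.le
    clear y
    exact sb h 0 (ql := 2296) (qh := 2320) (x0 := (-1234)) (x1 := (-983)) hp hq hX t1.le t2 y5 (by omega)
        (cn_neg hZ0 P1 (lo := (-1235)) (hi := (-983)) (by norm_num) (by norm_num) (by norm_num))
        (cn_pos hZ0 P1 (lo := 1061) (hi := 1337) (by norm_num) (by norm_num) (by norm_num))
        rfl (by norm_num)
  have t1 := t2
  clear t2
  rcases le_or_gt (1000 * p) (878 * Z) with t2 | t2
  · obtain ⟨q, X, hq, hX, x0, x1⟩ := startQ h (p := p) (L := (-2826)) (by omega)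
    rcases le_or_gt (1000 * X) ((-2452) * Z) with y | y
    · exact sb h 0 (ql := 2275) (qh := 2301) (x0 := (-2826)) (x1 := (-2452)) hp hq hX t1.le t2 x0 y
        (cn_neg hZ0 P5 (lo := (-2826)) (hi := (-2452)) (by norm_num) (by norm_num) (by norm_num))
        (cn_neg hZ0 P0 (lo := (-551)) (hi := (-151)) (by norm_num) (by norm_num) (by norm_num))
        q0_5.symm (by norm_num)
    have y0 := y.le
    clear y
    rcases le_or_gt (1000 * X) ((-2059) * Z) with y | y
    · exact sb h 1 (ql := 2275) (qh := 2301) (x0 := (-2452)) (x1 := (-2059)) hp hq hX t1.le t2 y0 y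
        (cn_neg hZ0 P0 (lo := (-713)) (hi := (-303)) (by norm_num) (by norm_num) (by norm_num))
        (cn_pos hZ0 P2 (lo := 1562) (hi := 1998) (by norm_num) (by norm_num) (by norm_num))
        q0_2 (by norm_num)
    have y1 := y.le
    clear y
    rcases le_or_gt (1000 * X) ((-2002) * Z) with y | y
    · exact sb h 0 (ql := 2275) (qh := 2301) (x0 := (-2059)) (x1 := (-2002)) hp hq hX t1.le t2 y1 y
        (cn_neg hZ0 P3 (lo := (-2060)) (hi := (-2002)) (by norm_num) (by norm_num) (by norm_num))
        (cn_pos hZ0 P0 (lo := 215) (hi := 299) (by norm_num) (by norm_num) (by norm_num))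
        q0_3.symm (by norm_num)
    have y2 := y.le
    clear y
    rcases le_or_gt (1000 * X) ((-1901) * Z) with y | y
    · exact sb h 1 (ql := 2275) (qh := 2301) (x0 := (-2002)) (x1 := (-1901)) hp hq hX t1.le t2 y2 y
        (cn_neg hZ0 P0 (lo := (-263)) (hi := (-145)) (by norm_num) (by norm_num) (by norm_num))
        (cn_pos hZ0 P3 (lo := 2012) (hi := 2156) (by norm_num) (by norm_num) (by norm_num))
        q0_3 (by norm_num)
    have y3 := y.le
    clear y
    rcases le_or_gt (1000 * X) ((-1490) * Z) with y | y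
    · exact sb h 0 (ql := 2275) (qh := 2301) (x0 := (-1901)) (x1 := (-1490)) hp hq hX t1.le t2 y3 y
        (cn_neg hZ0 P2 (lo := (-1902)) (hi := (-1490)) (by norm_num) (by norm_num) (by norm_num))
        (cn_pos hZ0 P0 (lo := 373) (hi := 811) (by norm_num) (by norm_num) (by norm_num))
        q0_2.symm (by norm_num)
    have y4 := y.le
    clear y
    rcases le_or_gt (1000 * X) ((-1231) * Z) with y | y
    · exact sb h 1 (ql := 2275) (qh := 2301) (x0 := (-1490)) (x1 := (-1231)) hp hq hX t1.le t2 y4 y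
        (cn_pos hZ0 P0 (lo := 249) (hi := 525) (by norm_num) (by norm_num) (by norm_num))
        (cn_pos hZ0 P5 (lo := 2524) (hi := 2826) (by norm_num) (by norm_num) (by norm_num))
        q0_5 (by norm_num)
    have y5 := y.le
    clear y
    exact sb h 0 (ql := 2275) (qh := 2301) (x0 := (-1231)) (x1 := (-983)) hp hq hX t1.le t2 y5 (by omega)
        (cn_neg hZ0 P1 (lo := (-1232)) (hi := (-983)) (by norm_num) (by norm_num) (by norm_num))
        (cn_pos hZ0 P1 (lo := 1043) (hi := 1318) (by norm_num) (by norm_num) (by norm_num))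
        rfl (by norm_num)
  have t1 := t2
  clear t2
  obtain ⟨q, X, hq, hX, x0, x1⟩ := startQ h (p := p) (L := (-2826)) (by omega)
  rcases le_or_gt (1000 * X) ((-2452) * Z) with y | y
  · exact sb h 0 (ql := 2255) (qh := 2280) (x0 := (-2826)) (x1 := (-2452)) hp hq hX t1.le h2 x0 y
      (cn_neg hZ0 P5 (lo := (-2826)) (hi := (-2452)) (by norm_num) (by norm_num) (by norm_num))
      (cn_neg hZ0 P0 (lo := (-571)) (hi := (-172)) (by norm_num) (by norm_num) (by norm_num))
      q0_5.symm (by norm_num)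
  have y0 := y.le
  clear y
  rcases le_or_gt (1000 * X) ((-2054) * Z) with y | y
  · exact sb h 1 (ql := 2255) (qh := 2280) (x0 := (-2452)) (x1 := (-2054)) hp hq hX t1.le h2 y0 y
      (cn_neg hZ0 P0 (lo := (-697)) (hi := (-282)) (by norm_num) (by norm_num) (by norm_num))
      (cn_pos hZ0 P2 (lo := 1558) (hi := 1998) (by norm_num) (by norm_num) (by norm_num))
      q0_2 (by norm_num)
  have y1 := y.le
  clear y
  rcases le_or_gt (1000 * X) ((-2002) * Z) with y | y
  · exact sb h 0 (ql := 2255) (qh := 2280) (x0 := (-2054)) (x1 := (-2002)) hp hq hX t1.le h2 y1 y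
      (cn_neg hZ0 P3 (lo := (-2055)) (hi := (-2002)) (by norm_num) (by norm_num) (by norm_num))
      (cn_pos hZ0 P0 (lo := 200) (hi := 278) (by norm_num) (by norm_num) (by norm_num))
      q0_3.symm (by norm_num)
  have y2 := y.le
  clear y
  rcases le_or_gt (1000 * X) ((-1896) * Z) with y | y
  · exact sb h 1 (ql := 2255) (qh := 2280) (x0 := (-2002)) (x1 := (-1896)) hp hq hX t1.le h2 y2 y
      (cn_neg hZ0 P0 (lo := (-247)) (hi := (-124)) (by norm_num) (by norm_num) (by norm_num))
      (cn_pos hZ0 P3 (lo := 2008) (hi := 2156) (by norm_num) (by norm_num) (by norm_num))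
      q0_3 (by norm_num)
  have y3 := y.le
  clear y
  rcases le_or_gt (1000 * X) ((-1469) * Z) with y | y
  · exact sb h 0 (ql := 2255) (qh := 2280) (x0 := (-1896)) (x1 := (-1469)) hp hq hX t1.le h2 y3 y
      (cn_neg hZ0 P2 (lo := (-1897)) (hi := (-1469)) (by norm_num) (by norm_num) (by norm_num))
      (cn_pos hZ0 P0 (lo := 358) (hi := 811) (by norm_num) (by norm_num) (by norm_num))
      q0_2.symm (by norm_num)
  have y4 := y.le
  clear y
  rcases le_or_gt (1000 * X) ((-1226) * Z) with y | y
  · exact sb h 1 (ql := 2255) (qh := 2280) (x0 := (-1469)) (x1 := (-1226)) hp hq hX t1.le h2 y4 y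
      (cn_pos hZ0 P0 (lo := 286) (hi := 546) (by norm_num) (by norm_num) (by norm_num))
      (cn_pos hZ0 P5 (lo := 2541) (hi := 2826) (by norm_num) (by norm_num) (by norm_num))
      q0_5 (by norm_num)
  have y5 := y.le
  clear y
  exact sb h 0 (ql := 2255) (qh := 2280) (x0 := (-1226)) (x1 := (-983)) hp hq hX t1.le h2 y5 (by omega)
      (cn_neg hZ0 P1 (lo := (-1227)) (hi := (-983)) (by norm_num) (by norm_num) (by norm_num))
      (cn_pos hZ0 P1 (lo := 1028) (hi := 1297) (by norm_num) (by norm_num) (by norm_num))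
      rfl (by norm_num)

theorem cell5 (h : H2 g K Z ν) (hA1 : 962361 * K ≤ 1000000 * ν)
    (hA2 : 1000000 * ν ≤ 1454436 * K) : False := by
  have hZ := h.hZ
  have hZ0 : 0 ≤ Z := by omega
  have hK0 : 0 < K := by
    have := h.hK1
    nlinarith
  have r0 : NuR K ν 0 ν := Or.inl ⟨by norm_num, by norm_num, rfl⟩
  have r1 : NuR K ν 1 ν := Or.inl ⟨by norm_num, by norm_num, rfl⟩
  have r2 : NuR K ν 2 (ν + 4 * K) := Or.inr ⟨by norm_num, by norm_num, rfl⟩
  have r3 : NuR K ν 3 (ν + 4 * K) := Or.inr ⟨by norm_num, by norm_num, rfl⟩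
  obtain ⟨s0, P0⟩ := piece h r0 (α := 0) (β := 979) (by norm_num) (by norm_num) (by norm_num)
    (by norm_num) (by norm_num) (Or.inl (by linarith))
  obtain ⟨s1, P1⟩ := piece h r0 (α := 1208) (β := 1412) (by norm_num) (by norm_num) (by norm_num)
    (by norm_num) (by norm_num) (Or.inr ⟨by norm_num, by norm_num, by linarith⟩)
  obtain ⟨s2, P2⟩ := piece h r1 (α := 1417) (β := 1998) (by norm_num) (by norm_num) (by norm_num)
    (by norm_num) (by norm_num) (Or.inr ⟨by norm_num, by norm_num, by linarith⟩)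
  obtain ⟨s3, P3⟩ := piece h r2 (α := 2002) (β := 2225) (by norm_num) (by norm_num) (by norm_num)
    (by norm_num) (by norm_num) (Or.inl (by linarith))
  obtain ⟨s4, P4⟩ := piece h r2 (α := 2338) (β := 2447) (by norm_num) (by norm_num) (by norm_num)
    (by norm_num) (by norm_num) (Or.inr ⟨by norm_num, by norm_num, by linarith⟩)
  obtain ⟨s5, P5⟩ := piece h r3 (α := 2452) (β := 2826) (by norm_num) (by norm_num) (by norm_num)
    (by norm_num) (by norm_num) (Or.inr ⟨by norm_num, by norm_num, by linarith⟩)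
  have e0 : s3 = s2 := rel1 h (l1 := (-2141)) (l2 := (-2088)) (by norm_num) (by norm_num) (by norm_num)
    (cn_neg hZ0 P3 (lo := (-2141)) (hi := (-2088)) (by norm_num) (by norm_num) (by norm_num))
    (cn_neg hZ0 P0 (lo := (-2141) + 1973) (hi := (-2088) + 2027) (by norm_num) (by norm_num) (by norm_num))
    (cn_pos hZ0 P2 (lo := (-2141) + 4000) (hi := (-2088) + 4002) (by norm_num) (by norm_num) (by norm_num))
  have e1 : s1 = s5 := rel1 h (l1 := (-1336)) (l2 := (-1283)) (by norm_num) (by norm_num) (by norm_num)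
    (cn_neg hZ0 P1 (lo := (-1336)) (hi := (-1283)) (by norm_num) (by norm_num) (by norm_num))
    (cn_pos hZ0 P0 (lo := (-1336) + 1973) (hi := (-1283) + 2027) (by norm_num) (by norm_num) (by norm_num))
    (cn_pos hZ0 P5 (lo := (-1336) + 4000) (hi := (-1283) + 4002) (by norm_num) (by norm_num) (by norm_num))
  have e2 : s5 + s2 = s0 + s1 := relh h (l1 := (-2748)) (l2 := (-2685)) (by norm_num) (by norm_num)
    (by norm_num)
    (cn_neg hZ0 P5 (lo := (-2748)) (hi := (-2685)) (by norm_num) (by norm_num) (by norm_num))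
    (cn_pos hZ0 P0 (lo := (-2748) + 2828) (hi := (-2685) + 2862) (by norm_num) (by norm_num) (by norm_num))
    (cn_neg hZ0 P1 (lo := (-2748) + 1398) (hi := (-2685) + 1415) (by norm_num) (by norm_num) (by norm_num))
    (cn_pos hZ0 P2 (lo := (-2748) + 4242) (hi := (-2685) + 4262) (by norm_num) (by norm_num) (by norm_num))
  have e3 : s5 = s2 := rel1 h (l1 := (-2544)) (l2 := (-2491)) (by norm_num) (by norm_num) (by norm_num)
    (cn_neg hZ0 P5 (lo := (-2544)) (hi := (-2491)) (by norm_num) (by norm_num) (by norm_num))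
    (cn_neg hZ0 P0 (lo := (-2544) + 1973) (hi := (-2491) + 2027) (by norm_num) (by norm_num) (by norm_num))
    (cn_pos hZ0 P2 (lo := (-2544) + 4000) (hi := (-2491) + 4002) (by norm_num) (by norm_num) (by norm_num))
  have e4 : s4 = s2 := rel1 h (l1 := (-2419)) (l2 := (-2366)) (by norm_num) (by norm_num) (by norm_num)
    (cn_neg hZ0 P4 (lo := (-2419)) (hi := (-2366)) (by norm_num) (by norm_num) (by norm_num))
    (cn_neg hZ0 P0 (lo := (-2419) + 1973) (hi := (-2366) + 2027) (by norm_num) (by norm_num) (by norm_num))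
    (cn_pos hZ0 P2 (lo := (-2419) + 4000) (hi := (-2366) + 4002) (by norm_num) (by norm_num) (by norm_num))
  have q0_2 : s0 = s2 := by
    have T : ∀ s0 s1 s2 s3 s4 s5 : ZMod 2, s3 = s2 → s1 = s5 → s5 + s2 = s0 + s1 → s5 = s2 → s4 = s2 → s0 = s2 := by decide
    exact T s0 s1 s2 s3 s4 s5 e0 e1 e2 e3 e4
  have q0_3 : s0 = s3 := by
    have T : ∀ s0 s1 s2 s3 s4 s5 : ZMod 2, s3 = s2 → s1 = s5 → s5 + s2 = s0 + s1 → s5 = s2 → s4 = s2 → s0 = s3 := by decide
    exact T s0 s1 s2 s3 s4 s5 e0 e1 e2 e3 e4
  have q0_5 : s0 = s5 := by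
    have T : ∀ s0 s1 s2 s3 s4 s5 : ZMod 2, s3 = s2 → s1 = s5 → s5 + s2 = s0 + s1 → s5 = s2 → s4 = s2 → s0 = s5 := by decide
    exact T s0 s1 s2 s3 s4 s5 e0 e1 e2 e3 e4
  refine fin h (ta := 750) (tb := 791) (by norm_num) (by norm_num) ?_
  intro p hp h1 h2
  rcases le_or_gt (1000 * p) (755 * Z) with t2 | t2
  · obtain ⟨q, X, hq, hX, x0, x1⟩ := startQ h (p := p) (L := (-2826)) (by omega)
    rcases le_or_gt (1000 * X) ((-2452) * Z) with y | y
    · exact sb h 0 (ql := 2647) (qh := 2669) (x0 := (-2826)) (x1 := (-2452)) hp hq hX h1 t2 x0 y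
        (cn_neg hZ0 P5 (lo := (-2826)) (hi := (-2452)) (by norm_num) (by norm_num) (by norm_num))
        (cn_ctr hZ0 P0 (lo := (-179)) (hi := 217) (by norm_num) (by norm_num))
        q0_5.symm (by norm_num)
    have y0 := y.le
    clear y
    rcases le_or_gt (1000 * X) ((-2181) * Z) with y | y
    · exact sb h 1 (ql := 2647) (qh := 2669) (x0 := (-2452)) (x1 := (-2181)) hp hq hX h1 t2 y0 y
        (cn_neg hZ0 P0 (lo := (-953)) (hi := (-671)) (by norm_num) (by norm_num) (by norm_num))
        (cn_pos hZ0 P2 (lo := 1694) (hi := 1998) (by norm_num) (by norm_num) (by norm_num))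
        q0_2 (by norm_num)
    have y1 := y.le
    clear y
    rcases le_or_gt (1000 * X) ((-2002) * Z) with y | y
    · exact sb h 0 (ql := 2647) (qh := 2669) (x0 := (-2181)) (x1 := (-2002)) hp hq hX h1 t2 y1 y
        (cn_neg hZ0 P3 (lo := (-2182)) (hi := (-2002)) (by norm_num) (by norm_num) (by norm_num))
        (cn_pos hZ0 P0 (lo := 465) (hi := 667) (by norm_num) (by norm_num) (by norm_num))
        q0_3.symm (by norm_num)
    have y2 := y.le
    clear y
    rcases le_or_gt (1000 * X) ((-1954) * Z) with y | y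
    · exact sb h 1 (ql := 2647) (qh := 2669) (x0 := (-2002)) (x1 := (-1954)) hp hq hX h1 t2 y2 y
        (cn_neg hZ0 P0 (lo := (-503)) (hi := (-444)) (by norm_num) (by norm_num) (by norm_num))
        (cn_pos hZ0 P3 (lo := 2144) (hi := 2225) (by norm_num) (by norm_num) (by norm_num))
        q0_3 (by norm_num)
    have y3 := y.le
    clear y
    rcases le_or_gt (1000 * X) ((-1690) * Z) with y | y
    · exact sb h 0 (ql := 2647) (qh := 2669) (x0 := (-1954)) (x1 := (-1690)) hp hq hX h1 t2 y3 y
        (cn_neg hZ0 P2 (lo := (-1955)) (hi := (-1690)) (by norm_num) (by norm_num) (by norm_num))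
        (cn_pos hZ0 P0 (lo := 692) (hi := 979) (by norm_num) (by norm_num) (by norm_num))
        q0_2.symm (by norm_num)
    have y4 := y.le
    clear y
    rcases le_or_gt (1000 * X) ((-1353) * Z) with y | y
    · exact sb h 1 (ql := 2647) (qh := 2669) (x0 := (-1690)) (x1 := (-1353)) hp hq hX h1 t2 y4 y
        (cn_ctr hZ0 P0 (lo := (-191)) (hi := 157) (by norm_num) (by norm_num))
        (cn_pos hZ0 P5 (lo := 2456) (hi := 2826) (by norm_num) (by norm_num) (by norm_num))
        q0_5 (by norm_num)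
    have y5 := y.le
    clear y
    exact sb h 0 (ql := 2647) (qh := 2669) (x0 := (-1353)) (x1 := (-1257)) hp hq hX h1 t2 y5 (by omega)
        (cn_neg hZ0 P1 (lo := (-1354)) (hi := (-1257)) (by norm_num) (by norm_num) (by norm_num))
        (cn_pos hZ0 P1 (lo := 1293) (hi := 1412) (by norm_num) (by norm_num) (by norm_num))
        rfl (by norm_num)
  have t1 := t2
  clear t2
  rcases le_or_gt (1000 * p) (760 * Z) with t2 | t2
  · obtain ⟨q, X, hq, hX, x0, x1⟩ := startQ h (p := p) (L := (-2826)) (by omega)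
    rcases le_or_gt (1000 * X) ((-2452) * Z) with y | y
    · exact sb h 0 (ql := 2629) (qh := 2652) (x0 := (-2826)) (x1 := (-2452)) hp hq hX t1.le t2 x0 y
        (cn_neg hZ0 P5 (lo := (-2826)) (hi := (-2452)) (by norm_num) (by norm_num) (by norm_num))
        (cn_ctr hZ0 P0 (lo := (-197)) (hi := 200) (by norm_num) (by norm_num))
        q0_5.symm (by norm_num)
    have y0 := y.le
    clear y
    rcases le_or_gt (1000 * X) ((-2174) * Z) with y | y
    · exact sb h 1 (ql := 2629) (qh := 2652) (x0 := (-2452)) (x1 := (-2174)) hp hq hX t1.le t2 y0 y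
        (cn_neg hZ0 P0 (lo := (-943)) (hi := (-654)) (by norm_num) (by norm_num) (by norm_num))
        (cn_pos hZ0 P2 (lo := 1686) (hi := 1998) (by norm_num) (by norm_num) (by norm_num))
        q0_2 (by norm_num)
    have y1 := y.le
    clear y
    rcases le_or_gt (1000 * X) ((-2002) * Z) with y | y
    · exact sb h 0 (ql := 2629) (qh := 2652) (x0 := (-2174)) (x1 := (-2002)) hp hq hX t1.le t2 y1 y
        (cn_neg hZ0 P3 (lo := (-2175)) (hi := (-2002)) (by norm_num) (by norm_num) (by norm_num))
        (cn_pos hZ0 P0 (lo := 454) (hi := 650) (by norm_num) (by norm_num) (by norm_num))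
        q0_3.symm (by norm_num)
    have y2 := y.le
    clear y
    rcases le_or_gt (1000 * X) ((-1947) * Z) with y | y
    · exact sb h 1 (ql := 2629) (qh := 2652) (x0 := (-2002)) (x1 := (-1947)) hp hq hX t1.le t2 y2 y
        (cn_neg hZ0 P0 (lo := (-493)) (hi := (-427)) (by norm_num) (by norm_num) (by norm_num))
        (cn_pos hZ0 P3 (lo := 2136) (hi := 2225) (by norm_num) (by norm_num) (by norm_num))
        q0_3 (by norm_num)
    have y3 := y.le
    clear y
    rcases le_or_gt (1000 * X) ((-1673) * Z) with y | y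
    · exact sb h 0 (ql := 2629) (qh := 2652) (x0 := (-1947)) (x1 := (-1673)) hp hq hX t1.le t2 y3 y
        (cn_neg hZ0 P2 (lo := (-1948)) (hi := (-1673)) (by norm_num) (by norm_num) (by norm_num))
        (cn_pos hZ0 P0 (lo := 681) (hi := 979) (by norm_num) (by norm_num) (by norm_num))
        q0_2.symm (by norm_num)
    have y4 := y.le
    clear y
    rcases le_or_gt (1000 * X) ((-1346) * Z) with y | y
    · exact sb h 1 (ql := 2629) (qh := 2652) (x0 := (-1673)) (x1 := (-1346)) hp hq hX t1.le t2 y4 y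
        (cn_ctr hZ0 P0 (lo := (-164)) (hi := 174) (by norm_num) (by norm_num))
        (cn_pos hZ0 P5 (lo := 2465) (hi := 2826) (by norm_num) (by norm_num) (by norm_num))
        q0_5 (by norm_num)
    have y5 := y.le
    clear y
    exact sb h 0 (ql := 2629) (qh := 2652) (x0 := (-1346)) (x1 := (-1240)) hp hq hX t1.le t2 y5 (by omega)
        (cn_neg hZ0 P1 (lo := (-1347)) (hi := (-1240)) (by norm_num) (by norm_num) (by norm_num))
        (cn_pos hZ0 P1 (lo := 1282) (hi := 1412) (by norm_num) (by norm_num) (by norm_num))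
        rfl (by norm_num)
  have t1 := t2
  clear t2
  rcases le_or_gt (1000 * p) (765 * Z) with t2 | t2
  · obtain ⟨q, X, hq, hX, x0, x1⟩ := startQ h (p := p) (L := (-2826)) (by omega)
    rcases le_or_gt (1000 * X) ((-2452) * Z) with y | y
    · exact sb h 0 (ql := 2612) (qh := 2634) (x0 := (-2826)) (x1 := (-2452)) hp hq hX t1.le t2 x0 y
        (cn_neg hZ0 P5 (lo := (-2826)) (hi := (-2452)) (by norm_num) (by norm_num) (by norm_num))
        (cn_ctr hZ0 P0 (lo := (-214)) (hi := 182) (by norm_num) (by norm_num))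
        q0_5.symm (by norm_num)
    have y0 := y.le
    clear y
    rcases le_or_gt (1000 * X) ((-2166) * Z) with y | y
    · exact sb h 1 (ql := 2612) (qh := 2634) (x0 := (-2452)) (x1 := (-2166)) hp hq hX t1.le t2 y0 y
        (cn_neg hZ0 P0 (lo := (-933)) (hi := (-636)) (by norm_num) (by norm_num) (by norm_num))
        (cn_pos hZ0 P2 (lo := 1679) (hi := 1998) (by norm_num) (by norm_num) (by norm_num))
        q0_2 (by norm_num)
    have y1 := y.le
    clear y
    rcases le_or_gt (1000 * X) ((-2002) * Z) with y | y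
    · exact sb h 0 (ql := 2612) (qh := 2634) (x0 := (-2166)) (x1 := (-2002)) hp hq hX t1.le t2 y1 y
        (cn_neg hZ0 P3 (lo := (-2167)) (hi := (-2002)) (by norm_num) (by norm_num) (by norm_num))
        (cn_pos hZ0 P0 (lo := 445) (hi := 632) (by norm_num) (by norm_num) (by norm_num))
        q0_3.symm (by norm_num)
    have y2 := y.le
    clear y
    rcases le_or_gt (1000 * X) ((-1939) * Z) with y | y
    · exact sb h 1 (ql := 2612) (qh := 2634) (x0 := (-2002)) (x1 := (-1939)) hp hq hX t1.le t2 y2 y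
        (cn_neg hZ0 P0 (lo := (-483)) (hi := (-409)) (by norm_num) (by norm_num) (by norm_num))
        (cn_pos hZ0 P3 (lo := 2129) (hi := 2225) (by norm_num) (by norm_num) (by norm_num))
        q0_3 (by norm_num)
    have y3 := y.le
    clear y
    rcases le_or_gt (1000 * X) ((-1655) * Z) with y | y
    · exact sb h 0 (ql := 2612) (qh := 2634) (x0 := (-1939)) (x1 := (-1655)) hp hq hX t1.le t2 y3 y
        (cn_neg hZ0 P2 (lo := (-1940)) (hi := (-1655)) (by norm_num) (by norm_num) (by norm_num))
        (cn_pos hZ0 P0 (lo := 672) (hi := 979) (by norm_num) (by norm_num) (by norm_num))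
        q0_2.symm (by norm_num)
    have y4 := y.le
    clear y
    rcases le_or_gt (1000 * X) ((-1338) * Z) with y | y
    · exact sb h 1 (ql := 2612) (qh := 2634) (x0 := (-1655)) (x1 := (-1338)) hp hq hX t1.le t2 y4 y
        (cn_ctr hZ0 P0 (lo := (-136)) (hi := 192) (by norm_num) (by norm_num))
        (cn_pos hZ0 P5 (lo := 2476) (hi := 2826) (by norm_num) (by norm_num) (by norm_num))
        q0_5 (by norm_num)
    have y5 := y.le
    clear y
    exact sb h 0 (ql := 2612) (qh := 2634) (x0 := (-1338)) (x1 := (-1222)) hp hq hX t1.le t2 y5 (by omega)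
        (cn_neg hZ0 P1 (lo := (-1339)) (hi := (-1222)) (by norm_num) (by norm_num) (by norm_num))
        (cn_pos hZ0 P1 (lo := 1273) (hi := 1412) (by norm_num) (by norm_num) (by norm_num))
        rfl (by norm_num)
  have t1 := t2
  clear t2
  rcases le_or_gt (1000 * p) (770 * Z) with t2 | t2
  · obtain ⟨q, X, hq, hX, x0, x1⟩ := startQ h (p := p) (L := (-2826)) (by omega)
    rcases le_or_gt (1000 * X) ((-2452) * Z) with y | y
    · exact sb h 0 (ql := 2595) (qh := 2617) (x0 := (-2826)) (x1 := (-2452)) hp hq hX t1.le t2 x0 y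
        (cn_neg hZ0 P5 (lo := (-2826)) (hi := (-2452)) (by norm_num) (by norm_num) (by norm_num))
        (cn_ctr hZ0 P0 (lo := (-231)) (hi := 165) (by norm_num) (by norm_num))
        q0_5.symm (by norm_num)
    have y0 := y.le
    clear y
    rcases le_or_gt (1000 * X) ((-2159) * Z) with y | y
    · exact sb h 1 (ql := 2595) (qh := 2617) (x0 := (-2452)) (x1 := (-2159)) hp hq hX t1.le t2 y0 y
        (cn_neg hZ0 P0 (lo := (-923)) (hi := (-619)) (by norm_num) (by norm_num) (by norm_num))
        (cn_pos hZ0 P2 (lo := 1672) (hi := 1998) (by norm_num) (by norm_num) (by norm_num))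
        q0_2 (by norm_num)
    have y1 := y.le
    clear y
    rcases le_or_gt (1000 * X) ((-2002) * Z) with y | y
    · exact sb h 0 (ql := 2595) (qh := 2617) (x0 := (-2159)) (x1 := (-2002)) hp hq hX t1.le t2 y1 y
        (cn_neg hZ0 P3 (lo := (-2160)) (hi := (-2002)) (by norm_num) (by norm_num) (by norm_num))
        (cn_pos hZ0 P0 (lo := 435) (hi := 615) (by norm_num) (by norm_num) (by norm_num))
        q0_3.symm (by norm_num)
    have y2 := y.le
    clear y
    rcases le_or_gt (1000 * X) ((-1932) * Z) with y | y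
    · exact sb h 1 (ql := 2595) (qh := 2617) (x0 := (-2002)) (x1 := (-1932)) hp hq hX t1.le t2 y2 y
        (cn_neg hZ0 P0 (lo := (-473)) (hi := (-392)) (by norm_num) (by norm_num) (by norm_num))
        (cn_pos hZ0 P3 (lo := 2122) (hi := 2225) (by norm_num) (by norm_num) (by norm_num))
        q0_3 (by norm_num)
    have y3 := y.le
    clear y
    rcases le_or_gt (1000 * X) ((-1638) * Z) with y | y
    · exact sb h 0 (ql := 2595) (qh := 2617) (x0 := (-1932)) (x1 := (-1638)) hp hq hX t1.le t2 y3 y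
        (cn_neg hZ0 P2 (lo := (-1933)) (hi := (-1638)) (by norm_num) (by norm_num) (by norm_num))
        (cn_pos hZ0 P0 (lo := 662) (hi := 979) (by norm_num) (by norm_num) (by norm_num))
        q0_2.symm (by norm_num)
    have y4 := y.le
    clear y
    rcases le_or_gt (1000 * X) ((-1331) * Z) with y | y
    · exact sb h 1 (ql := 2595) (qh := 2617) (x0 := (-1638)) (x1 := (-1331)) hp hq hX t1.le t2 y4 y
        (cn_ctr hZ0 P0 (lo := (-109)) (hi := 209) (by norm_num) (by norm_num))
        (cn_pos hZ0 P5 (lo := 2486) (hi := 2826) (by norm_num) (by norm_num) (by norm_num))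
        q0_5 (by norm_num)
    have y5 := y.le
    clear y
    exact sb h 0 (ql := 2595) (qh := 2617) (x0 := (-1331)) (x1 := (-1208)) hp hq hX t1.le t2 y5 (by omega)
        (cn_neg hZ0 P1 (lo := (-1332)) (hi := (-1208)) (by norm_num) (by norm_num) (by norm_num))
        (cn_pos hZ0 P1 (lo := 1263) (hi := 1409) (by norm_num) (by norm_num) (by norm_num))
        rfl (by norm_num)
  have t1 := t2
  clear t2
  rcases le_or_gt (1000 * p) (775 * Z) with t2 | t2
  · obtain ⟨q, X, hq, hX, x0, x1⟩ := startQ h (p := p) (L := (-2826)) (by omega)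
    rcases le_or_gt (1000 * X) ((-2452) * Z) with y | y
    · exact sb h 0 (ql := 2578) (qh := 2600) (x0 := (-2826)) (x1 := (-2452)) hp hq hX t1.le t2 x0 y
        (cn_neg hZ0 P5 (lo := (-2826)) (hi := (-2452)) (by norm_num) (by norm_num) (by norm_num))
        (cn_ctr hZ0 P0 (lo := (-248)) (hi := 148) (by norm_num) (by norm_num))
        q0_5.symm (by norm_num)
    have y0 := y.le
    clear y
    rcases le_or_gt (1000 * X) ((-2152) * Z) with y | y
    · exact sb h 1 (ql := 2578) (qh := 2600) (x0 := (-2452)) (x1 := (-2152)) hp hq hX t1.le t2 y0 y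
        (cn_neg hZ0 P0 (lo := (-913)) (hi := (-602)) (by norm_num) (by norm_num) (by norm_num))
        (cn_pos hZ0 P2 (lo := 1665) (hi := 1998) (by norm_num) (by norm_num) (by norm_num))
        q0_2 (by norm_num)
    have y1 := y.le
    clear y
    rcases le_or_gt (1000 * X) ((-2002) * Z) with y | y
    · exact sb h 0 (ql := 2578) (qh := 2600) (x0 := (-2152)) (x1 := (-2002)) hp hq hX t1.le t2 y1 y
        (cn_neg hZ0 P3 (lo := (-2153)) (hi := (-2002)) (by norm_num) (by norm_num) (by norm_num))
        (cn_pos hZ0 P0 (lo := 425) (hi := 598) (by norm_num) (by norm_num) (by norm_num))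
        q0_3.symm (by norm_num)
    have y2 := y.le
    clear y
    rcases le_or_gt (1000 * X) ((-1925) * Z) with y | y
    · exact sb h 1 (ql := 2578) (qh := 2600) (x0 := (-2002)) (x1 := (-1925)) hp hq hX t1.le t2 y2 y
        (cn_neg hZ0 P0 (lo := (-463)) (hi := (-375)) (by norm_num) (by norm_num) (by norm_num))
        (cn_pos hZ0 P3 (lo := 2115) (hi := 2225) (by norm_num) (by norm_num) (by norm_num))
        q0_3 (by norm_num)
    have y3 := y.le
    clear y
    rcases le_or_gt (1000 * X) ((-1621) * Z) with y | y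
    · exact sb h 0 (ql := 2578) (qh := 2600) (x0 := (-1925)) (x1 := (-1621)) hp hq hX t1.le t2 y3 y
        (cn_neg hZ0 P2 (lo := (-1926)) (hi := (-1621)) (by norm_num) (by norm_num) (by norm_num))
        (cn_pos hZ0 P0 (lo := 652) (hi := 979) (by norm_num) (by norm_num) (by norm_num))
        q0_2.symm (by norm_num)
    have y4 := y.le
    clear y
    rcases le_or_gt (1000 * X) ((-1324) * Z) with y | y
    · exact sb h 1 (ql := 2578) (qh := 2600) (x0 := (-1621)) (x1 := (-1324)) hp hq hX t1.le t2 y4 y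
        (cn_ctr hZ0 P0 (lo := (-82)) (hi := 226) (by norm_num) (by norm_num))
        (cn_pos hZ0 P5 (lo := 2496) (hi := 2826) (by norm_num) (by norm_num) (by norm_num))
        q0_5 (by norm_num)
    have y5 := y.le
    clear y
    exact sb h 0 (ql := 2578) (qh := 2600) (x0 := (-1324)) (x1 := (-1208)) hp hq hX t1.le t2 y5 (by omega)
        (cn_neg hZ0 P1 (lo := (-1325)) (hi := (-1208)) (by norm_num) (by norm_num) (by norm_num))
        (cn_pos hZ0 P1 (lo := 1253) (hi := 1392) (by norm_num) (by norm_num) (by norm_num))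
        rfl (by norm_num)
  have t1 := t2
  clear t2
  rcases le_or_gt (1000 * p) (781 * Z) with t2 | t2
  · obtain ⟨q, X, hq, hX, x0, x1⟩ := startQ h (p := p) (L := (-2826)) (by omega)
    rcases le_or_gt (1000 * X) ((-2452) * Z) with y | y
    · exact sb h 0 (ql := 2558) (qh := 2583) (x0 := (-2826)) (x1 := (-2452)) hp hq hX t1.le t2 x0 y
        (cn_neg hZ0 P5 (lo := (-2826)) (hi := (-2452)) (by norm_num) (by norm_num) (by norm_num))
        (cn_ctr hZ0 P0 (lo := (-268)) (hi := 131) (by norm_num) (by norm_num))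
        q0_5.symm (by norm_num)
    have y0 := y.le
    clear y
    rcases le_or_gt (1000 * X) ((-2147) * Z) with y | y
    · exact sb h 1 (ql := 2558) (qh := 2583) (x0 := (-2452)) (x1 := (-2147)) hp hq hX t1.le t2 y0 y
        (cn_neg hZ0 P0 (lo := (-903)) (hi := (-585)) (by norm_num) (by norm_num) (by norm_num))
        (cn_pos hZ0 P2 (lo := 1655) (hi := 1998) (by norm_num) (by norm_num) (by norm_num))
        q0_2 (by norm_num)
    have y1 := y.le
    clear y
    rcases le_or_gt (1000 * X) ((-2002) * Z) with y | y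
    · exact sb h 0 (ql := 2558) (qh := 2583) (x0 := (-2147)) (x1 := (-2002)) hp hq hX t1.le t2 y1 y
        (cn_neg hZ0 P3 (lo := (-2148)) (hi := (-2002)) (by norm_num) (by norm_num) (by norm_num))
        (cn_pos hZ0 P0 (lo := 410) (hi := 581) (by norm_num) (by norm_num) (by norm_num))
        q0_3.symm (by norm_num)
    have y2 := y.le
    clear y
    rcases le_or_gt (1000 * X) ((-1920) * Z) with y | y
    · exact sb h 1 (ql := 2558) (qh := 2583) (x0 := (-2002)) (x1 := (-1920)) hp hq hX t1.le t2 y2 y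
        (cn_neg hZ0 P0 (lo := (-453)) (hi := (-358)) (by norm_num) (by norm_num) (by norm_num))
        (cn_pos hZ0 P3 (lo := 2105) (hi := 2225) (by norm_num) (by norm_num) (by norm_num))
        q0_3 (by norm_num)
    have y3 := y.le
    clear y
    rcases le_or_gt (1000 * X) ((-1604) * Z) with y | y
    · exact sb h 0 (ql := 2558) (qh := 2583) (x0 := (-1920)) (x1 := (-1604)) hp hq hX t1.le t2 y3 y
        (cn_neg hZ0 P2 (lo := (-1921)) (hi := (-1604)) (by norm_num) (by norm_num) (by norm_num))
        (cn_pos hZ0 P0 (lo := 637) (hi := 979) (by norm_num) (by norm_num) (by norm_num))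
        q0_2.symm (by norm_num)
    have y4 := y.le
    clear y
    rcases le_or_gt (1000 * X) ((-1319) * Z) with y | y
    · exact sb h 1 (ql := 2558) (qh := 2583) (x0 := (-1604)) (x1 := (-1319)) hp hq hX t1.le t2 y4 y
        (cn_ctr hZ0 P0 (lo := (-55)) (hi := 243) (by norm_num) (by norm_num))
        (cn_pos hZ0 P5 (lo := 2503) (hi := 2826) (by norm_num) (by norm_num) (by norm_num))
        q0_5 (by norm_num)
    have y5 := y.le
    clear y
    exact sb h 0 (ql := 2558) (qh := 2583) (x0 := (-1319)) (x1 := (-1208)) hp hq hX t1.le t2 y5 (by omega)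
        (cn_neg hZ0 P1 (lo := (-1320)) (hi := (-1208)) (by norm_num) (by norm_num) (by norm_num))
        (cn_pos hZ0 P1 (lo := 1238) (hi := 1375) (by norm_num) (by norm_num) (by norm_num))
        rfl (by norm_num)
  have t1 := t2
  clear t2
  rcases le_or_gt (1000 * p) (786 * Z) with t2 | t2
  · obtain ⟨q, X, hq, hX, x0, x1⟩ := startQ h (p := p) (L := (-2826)) (by omega)
    rcases le_or_gt (1000 * X) ((-2452) * Z) with y | y
    · exact sb h 0 (ql := 2542) (qh := 2563) (x0 := (-2826)) (x1 := (-2452)) hp hq hX t1.le t2 x0 y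
        (cn_neg hZ0 P5 (lo := (-2826)) (hi := (-2452)) (by norm_num) (by norm_num) (by norm_num))
        (cn_ctr hZ0 P0 (lo := (-284)) (hi := 111) (by norm_num) (by norm_num))
        q0_5.symm (by norm_num)
    have y0 := y.le
    clear y
    rcases le_or_gt (1000 * X) ((-2137) * Z) with y | y
    · exact sb h 1 (ql := 2542) (qh := 2563) (x0 := (-2452)) (x1 := (-2137)) hp hq hX t1.le t2 y0 y
        (cn_neg hZ0 P0 (lo := (-891)) (hi := (-565)) (by norm_num) (by norm_num) (by norm_num))
        (cn_pos hZ0 P2 (lo := 1651) (hi := 1998) (by norm_num) (by norm_num) (by norm_num))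
        q0_2 (by norm_num)
    have y1 := y.le
    clear y
    rcases le_or_gt (1000 * X) ((-2002) * Z) with y | y
    · exact sb h 0 (ql := 2542) (qh := 2563) (x0 := (-2137)) (x1 := (-2002)) hp hq hX t1.le t2 y1 y
        (cn_neg hZ0 P3 (lo := (-2138)) (hi := (-2002)) (by norm_num) (by norm_num) (by norm_num))
        (cn_pos hZ0 P0 (lo := 404) (hi := 561) (by norm_num) (by norm_num) (by norm_num))
        q0_3.symm (by norm_num)
    have y2 := y.le
    clear y
    rcases le_or_gt (1000 * X) ((-1910) * Z) with y | y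
    · exact sb h 1 (ql := 2542) (qh := 2563) (x0 := (-2002)) (x1 := (-1910)) hp hq hX t1.le t2 y2 y
        (cn_neg hZ0 P0 (lo := (-441)) (hi := (-338)) (by norm_num) (by norm_num) (by norm_num))
        (cn_pos hZ0 P3 (lo := 2101) (hi := 2225) (by norm_num) (by norm_num) (by norm_num))
        q0_3 (by norm_num)
    have y3 := y.le
    clear y
    rcases le_or_gt (1000 * X) ((-1584) * Z) with y | y
    · exact sb h 0 (ql := 2542) (qh := 2563) (x0 := (-1910)) (x1 := (-1584)) hp hq hX t1.le t2 y3 y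
        (cn_neg hZ0 P2 (lo := (-1911)) (hi := (-1584)) (by norm_num) (by norm_num) (by norm_num))
        (cn_pos hZ0 P0 (lo := 631) (hi := 979) (by norm_num) (by norm_num) (by norm_num))
        q0_2.symm (by norm_num)
    have y4 := y.le
    clear y
    rcases le_or_gt (1000 * X) ((-1309) * Z) with y | y
    · exact sb h 1 (ql := 2542) (qh := 2563) (x0 := (-1584)) (x1 := (-1309)) hp hq hX t1.le t2 y4 y
        (cn_ctr hZ0 P0 (lo := (-23)) (hi := 263) (by norm_num) (by norm_num))
        (cn_pos hZ0 P5 (lo := 2519) (hi := 2826) (by norm_num) (by norm_num) (by norm_num))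
        q0_5 (by norm_num)
    have y5 := y.le
    clear y
    exact sb h 0 (ql := 2542) (qh := 2563) (x0 := (-1309)) (x1 := (-1208)) hp hq hX t1.le t2 y5 (by omega)
        (cn_neg hZ0 P1 (lo := (-1310)) (hi := (-1208)) (by norm_num) (by norm_num) (by norm_num))
        (cn_pos hZ0 P1 (lo := 1232) (hi := 1355) (by norm_num) (by norm_num) (by norm_num))
        rfl (by norm_num)
  have t1 := t2
  clear t2
  obtain ⟨q, X, hq, hX, x0, x1⟩ := startQ h (p := p) (L := (-2826)) (by omega)
  rcases le_or_gt (1000 * X) ((-2452) * Z) with y | y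
  · exact sb h 0 (ql := 2526) (qh := 2547) (x0 := (-2826)) (x1 := (-2452)) hp hq hX t1.le h2 x0 y
      (cn_neg hZ0 P5 (lo := (-2826)) (hi := (-2452)) (by norm_num) (by norm_num) (by norm_num))
      (cn_ctr hZ0 P0 (lo := (-300)) (hi := 95) (by norm_num) (by norm_num))
      q0_5.symm (by norm_num)
  have y0 := y.le
  clear y
  rcases le_or_gt (1000 * X) ((-2131) * Z) with y | y
  · exact sb h 1 (ql := 2526) (qh := 2547) (x0 := (-2452)) (x1 := (-2131)) hp hq hX t1.le h2 y0 y
      (cn_neg hZ0 P0 (lo := (-881)) (hi := (-549)) (by norm_num) (by norm_num) (by norm_num))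
      (cn_pos hZ0 P2 (lo := 1645) (hi := 1998) (by norm_num) (by norm_num) (by norm_num))
      q0_2 (by norm_num)
  have y1 := y.le
  clear y
  rcases le_or_gt (1000 * X) ((-2002) * Z) with y | y
  · exact sb h 0 (ql := 2526) (qh := 2547) (x0 := (-2131)) (x1 := (-2002)) hp hq hX t1.le h2 y1 y
      (cn_neg hZ0 P3 (lo := (-2132)) (hi := (-2002)) (by norm_num) (by norm_num) (by norm_num))
      (cn_pos hZ0 P0 (lo := 394) (hi := 545) (by norm_num) (by norm_num) (by norm_num))
      q0_3.symm (by norm_num)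
  have y2 := y.le
  clear y
  rcases le_or_gt (1000 * X) ((-1904) * Z) with y | y
  · exact sb h 1 (ql := 2526) (qh := 2547) (x0 := (-2002)) (x1 := (-1904)) hp hq hX t1.le h2 y2 y
      (cn_neg hZ0 P0 (lo := (-431)) (hi := (-322)) (by norm_num) (by norm_num) (by norm_num))
      (cn_pos hZ0 P3 (lo := 2095) (hi := 2225) (by norm_num) (by norm_num) (by norm_num))
      q0_3 (by norm_num)
  have y3 := y.le
  clear y
  rcases le_or_gt (1000 * X) ((-1568) * Z) with y | y
  · exact sb h 0 (ql := 2526) (qh := 2547) (x0 := (-1904)) (x1 := (-1568)) hp hq hX t1.le h2 y3 y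
      (cn_neg hZ0 P2 (lo := (-1905)) (hi := (-1568)) (by norm_num) (by norm_num) (by norm_num))
      (cn_pos hZ0 P0 (lo := 621) (hi := 979) (by norm_num) (by norm_num) (by norm_num))
      q0_2.symm (by norm_num)
  have y4 := y.le
  clear y
  rcases le_or_gt (1000 * X) ((-1303) * Z) with y | y
  · exact sb h 1 (ql := 2526) (qh := 2547) (x0 := (-1568)) (x1 := (-1303)) hp hq hX t1.le h2 y4 y
      (cn_pos hZ0 P0 (lo := 3) (hi := 279) (by norm_num) (by norm_num) (by norm_num))
      (cn_pos hZ0 P5 (lo := 2529) (hi := 2826) (by norm_num) (by norm_num) (by norm_num))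
      q0_5 (by norm_num)
  have y5 := y.le
  clear y
  exact sb h 0 (ql := 2526) (qh := 2547) (x0 := (-1303)) (x1 := (-1208)) hp hq hX t1.le h2 y5 (by omega)
      (cn_neg hZ0 P1 (lo := (-1304)) (hi := (-1208)) (by norm_num) (by norm_num) (by norm_num))
      (cn_pos hZ0 P1 (lo := 1222) (hi := 1339) (by norm_num) (by norm_num) (by norm_num))
      rfl (by norm_num)

end Pool.Agent.SQ.H80
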