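import Pool.Agent.Helper80_SQ.Two4

/-!
MP_5f6ee5_nt, TWO, large `K`: cells for the position of the exceptional number (part 2).
-/

namespace Pool.Agent.SQ.H80

variable {g : ℤ → ZMod 2} {K Z ν : ℤ}

theorem cell6 (h : H2 g K Z ν) (hA1 : 1454436 * K ≤ 1000000 * ν)
    (hA2 : 1000000 * ν ≤ 1628176 * K) : False := by
  have hZ := h.hZ
  have hZ0 : 0 ≤ Z := by omega
  have hK0 : 0 < K := by
    have := h.hK1
    nlinarith
  have r0 : NuR K ν 0 ν := Or.inl ⟨by norm_num, by norm_num, rfl⟩
  have r1 : NuR K ν 1 ν := Or.inl ⟨by norm_num, by norm_num, rfl⟩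
  have r2 : NuR K ν 2 (ν + 4 * K) := Or.inr ⟨by norm_num, by norm_num, rfl⟩
  have r3 : NuR K ν 3 (ν + 4 * K) := Or.inr ⟨by norm_num, by norm_num, rfl⟩
  obtain ⟨s0, P0⟩ := piece h r0 (α := 0) (β := 1204) (by norm_num) (by norm_num) (by norm_num)
    (by norm_num) (by norm_num) (Or.inl (by linarith))
  obtain ⟨s1, P1⟩ := piece h r0 (α := 1278) (β := 1412) (by norm_num) (by norm_num) (by norm_num)
    (by norm_num) (by norm_num) (Or.inr ⟨by norm_num, by norm_num, by linarith⟩)
  obtain ⟨s2, P2⟩ := piece h r1 (α := 1417) (β := 1998) (by norm_num) (by norm_num) (by norm_num)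
    (by norm_num) (by norm_num) (Or.inr ⟨by norm_num, by norm_num, by linarith⟩)
  obtain ⟨s3, P3⟩ := piece h r2 (α := 2002) (β := 2333) (by norm_num) (by norm_num) (by norm_num)
    (by norm_num) (by norm_num) (Or.inl (by linarith))
  obtain ⟨s4, P4⟩ := piece h r2 (α := 2375) (β := 2447) (by norm_num) (by norm_num) (by norm_num)
    (by norm_num) (by norm_num) (Or.inr ⟨by norm_num, by norm_num, by linarith⟩)
  obtain ⟨s5, P5⟩ := piece h r3 (α := 2452) (β := 2826) (by norm_num) (by norm_num) (by norm_num)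
    (by norm_num) (by norm_num) (Or.inr ⟨by norm_num, by norm_num, by linarith⟩)
  have e0 : s3 = s2 := rel1 h (l1 := (-2195)) (l2 := (-2142)) (by norm_num) (by norm_num) (by norm_num)
    (cn_neg hZ0 P3 (lo := (-2195)) (hi := (-2142)) (by norm_num) (by norm_num) (by norm_num))
    (cn_neg hZ0 P0 (lo := (-2195) + 1973) (hi := (-2142) + 2027) (by norm_num) (by norm_num) (by norm_num))
    (cn_pos hZ0 P2 (lo := (-2195) + 4000) (hi := (-2142) + 4002) (by norm_num) (by norm_num) (by norm_num))
  have e1 : s5 + s2 = s0 + s0 := relh h (l1 := (-2558)) (l2 := (-2495)) (by norm_num) (by norm_num)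
    (by norm_num)
    (cn_neg hZ0 P5 (lo := (-2558)) (hi := (-2495)) (by norm_num) (by norm_num) (by norm_num))
    (cn_pos hZ0 P0 (lo := (-2558) + 2828) (hi := (-2495) + 2862) (by norm_num) (by norm_num) (by norm_num))
    (cn_neg hZ0 P0 (lo := (-2558) + 1398) (hi := (-2495) + 1415) (by norm_num) (by norm_num) (by norm_num))
    (cn_pos hZ0 P2 (lo := (-2558) + 4242) (hi := (-2495) + 4262) (by norm_num) (by norm_num) (by norm_num))
  have e2 : s1 = s5 := rel1 h (l1 := (-1371)) (l2 := (-1318)) (by norm_num) (by norm_num) (by norm_num)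
    (cn_neg hZ0 P1 (lo := (-1371)) (hi := (-1318)) (by norm_num) (by norm_num) (by norm_num))
    (cn_pos hZ0 P0 (lo := (-1371) + 1973) (hi := (-1318) + 2027) (by norm_num) (by norm_num) (by norm_num))
    (cn_pos hZ0 P5 (lo := (-1371) + 4000) (hi := (-1318) + 4002) (by norm_num) (by norm_num) (by norm_num))
  have e3 : s5 + s2 = s0 + s1 := relh h (l1 := (-2783)) (l2 := (-2720)) (by norm_num) (by norm_num)
    (by norm_num)
    (cn_neg hZ0 P5 (lo := (-2783)) (hi := (-2720)) (by norm_num) (by norm_num) (by norm_num))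
    (cn_pos hZ0 P0 (lo := (-2783) + 2828) (hi := (-2720) + 2862) (by norm_num) (by norm_num) (by norm_num))
    (cn_neg hZ0 P1 (lo := (-2783) + 1398) (hi := (-2720) + 1415) (by norm_num) (by norm_num) (by norm_num))
    (cn_pos hZ0 P2 (lo := (-2783) + 4242) (hi := (-2720) + 4262) (by norm_num) (by norm_num) (by norm_num))
  have e4 : s4 = s2 := rel1 h (l1 := (-2437)) (l2 := (-2384)) (by norm_num) (by norm_num) (by norm_num)
    (cn_neg hZ0 P4 (lo := (-2437)) (hi := (-2384)) (by norm_num) (by norm_num) (by norm_num))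
    (cn_neg hZ0 P0 (lo := (-2437) + 1973) (hi := (-2384) + 2027) (by norm_num) (by norm_num) (by norm_num))
    (cn_pos hZ0 P2 (lo := (-2437) + 4000) (hi := (-2384) + 4002) (by norm_num) (by norm_num) (by norm_num))
  have q0_2 : s0 = s2 := by
    have T : ∀ s0 s1 s2 s3 s4 s5 : ZMod 2, s3 = s2 → s5 + s2 = s0 + s0 → s1 = s5 → s5 + s2 = s0 + s1 → s4 = s2 → s0 = s2 := by decide
    exact T s0 s1 s2 s3 s4 s5 e0 e1 e2 e3 e4
  have q0_3 : s0 = s3 := by
    have T : ∀ s0 s1 s2 s3 s4 s5 : ZMod 2, s3 = s2 → s5 + s2 = s0 + s0 → s1 = s5 → s5 + s2 = s0 + s1 → s4 = s2 → s0 = s3 := by decide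
    exact T s0 s1 s2 s3 s4 s5 e0 e1 e2 e3 e4
  have q0_5 : s0 = s5 := by
    have T : ∀ s0 s1 s2 s3 s4 s5 : ZMod 2, s3 = s2 → s5 + s2 = s0 + s0 → s1 = s5 → s5 + s2 = s0 + s1 → s4 = s2 → s0 = s5 := by decide
    exact T s0 s1 s2 s3 s4 s5 e0 e1 e2 e3 e4
  refine fin h (ta := 720) (tb := 760) (by norm_num) (by norm_num) ?_
  intro p hp h1 h2
  rcases le_or_gt (1000 * p) (725 * Z) with t2 | t2
  · obtain ⟨q, X, hq, hX, x0, x1⟩ := startQ h (p := p) (L := (-2826)) (by omega)
    rcases le_or_gt (1000 * X) ((-2452) * Z) with y | y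
    · exact sb h 0 (ql := 2756) (qh := 2780) (x0 := (-2826)) (x1 := (-2452)) hp hq hX h1 t2 x0 y
        (cn_neg hZ0 P5 (lo := (-2826)) (hi := (-2452)) (by norm_num) (by norm_num) (by norm_num))
        (cn_ctr hZ0 P0 (lo := (-70)) (hi := 328) (by norm_num) (by norm_num))
        q0_5.symm (by norm_num)
    have y0 := y.le
    clear y
    rcases le_or_gt (1000 * X) ((-2232) * Z) with y | y
    · exact sb h 1 (ql := 2756) (qh := 2780) (x0 := (-2452)) (x1 := (-2232)) hp hq hX h1 t2 y0 y
        (cn_neg hZ0 P0 (lo := (-1013)) (hi := (-782)) (by norm_num) (by norm_num) (by norm_num))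
        (cn_pos hZ0 P2 (lo := 1743) (hi := 1998) (by norm_num) (by norm_num) (by norm_num))
        q0_2 (by norm_num)
    have y1 := y.le
    clear y
    rcases le_or_gt (1000 * X) ((-2002) * Z) with y | y
    · exact sb h 0 (ql := 2756) (qh := 2780) (x0 := (-2232)) (x1 := (-2002)) hp hq hX h1 t2 y1 y
        (cn_neg hZ0 P3 (lo := (-2233)) (hi := (-2002)) (by norm_num) (by norm_num) (by norm_num))
        (cn_pos hZ0 P0 (lo := 523) (hi := 778) (by norm_num) (by norm_num) (by norm_num))
        q0_3.symm (by norm_num)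
    have y2 := y.le
    clear y
    rcases le_or_gt (1000 * X) ((-1897) * Z) with y | y
    · exact sb h 1 (ql := 2756) (qh := 2780) (x0 := (-2002)) (x1 := (-1897)) hp hq hX h1 t2 y2 y
        (cn_neg hZ0 P0 (lo := (-563)) (hi := (-447)) (by norm_num) (by norm_num) (by norm_num))
        (cn_pos hZ0 P3 (lo := 2193) (hi := 2333) (by norm_num) (by norm_num) (by norm_num))
        q0_3 (by norm_num)
    have y3 := y.le
    clear y
    rcases le_or_gt (1000 * X) ((-1576) * Z) with y | y
    · exact sb h 0 (ql := 2756) (qh := 2780) (x0 := (-1897)) (x1 := (-1576)) hp hq hX h1 t2 y3 y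
        (cn_neg hZ0 P2 (lo := (-1898)) (hi := (-1576)) (by norm_num) (by norm_num) (by norm_num))
        (cn_pos hZ0 P0 (lo := 858) (hi := 1204) (by norm_num) (by norm_num) (by norm_num))
        q0_2.symm (by norm_num)
    have y4 := y.le
    clear y
    rcases le_or_gt (1000 * X) ((-1404) * Z) with y | y
    · exact sb h 1 (ql := 2756) (qh := 2780) (x0 := (-1576)) (x1 := (-1404)) hp hq hX h1 t2 y4 y
        (cn_ctr hZ0 P0 (lo := (-137)) (hi := 46) (by norm_num) (by norm_num))
        (cn_pos hZ0 P5 (lo := 2619) (hi := 2826) (by norm_num) (by norm_num) (by norm_num))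
        q0_5 (by norm_num)
    have y5 := y.le
    clear y
    exact sb h 0 (ql := 2756) (qh := 2780) (x0 := (-1404)) (x1 := (-1368)) hp hq hX h1 t2 y5 (by omega)
        (cn_neg hZ0 P1 (lo := (-1405)) (hi := (-1368)) (by norm_num) (by norm_num) (by norm_num))
        (cn_pos hZ0 P1 (lo := 1351) (hi := 1412) (by norm_num) (by norm_num) (by norm_num))
        rfl (by norm_num)
  have t1 := t2
  clear t2
  rcases le_or_gt (1000 * p) (730 * Z) with t2 | t2
  · obtain ⟨q, X, hq, hX, x0, x1⟩ := startQ h (p := p) (L := (-2826)) (by omega)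
    rcases le_or_gt (1000 * X) ((-2452) * Z) with y | y
    · exact sb h 0 (ql := 2737) (qh := 2761) (x0 := (-2826)) (x1 := (-2452)) hp hq hX t1.le t2 x0 y
        (cn_neg hZ0 P5 (lo := (-2826)) (hi := (-2452)) (by norm_num) (by norm_num) (by norm_num))
        (cn_ctr hZ0 P0 (lo := (-89)) (hi := 309) (by norm_num) (by norm_num))
        q0_5.symm (by norm_num)
    have y0 := y.le
    clear y
    rcases le_or_gt (1000 * X) ((-2223) * Z) with y | y
    · exact sb h 1 (ql := 2737) (qh := 2761) (x0 := (-2452)) (x1 := (-2223)) hp hq hX t1.le t2 y0 y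
        (cn_neg hZ0 P0 (lo := (-1003)) (hi := (-763)) (by norm_num) (by norm_num) (by norm_num))
        (cn_pos hZ0 P2 (lo := 1734) (hi := 1998) (by norm_num) (by norm_num) (by norm_num))
        q0_2 (by norm_num)
    have y1 := y.le
    clear y
    rcases le_or_gt (1000 * X) ((-2002) * Z) with y | y
    · exact sb h 0 (ql := 2737) (qh := 2761) (x0 := (-2223)) (x1 := (-2002)) hp hq hX t1.le t2 y1 y
        (cn_neg hZ0 P3 (lo := (-2224)) (hi := (-2002)) (by norm_num) (by norm_num) (by norm_num))
        (cn_pos hZ0 P0 (lo := 513) (hi := 759) (by norm_num) (by norm_num) (by norm_num))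
        q0_3.symm (by norm_num)
    have y2 := y.le
    clear y
    rcases le_or_gt (1000 * X) ((-1888) * Z) with y | y
    · exact sb h 1 (ql := 2737) (qh := 2761) (x0 := (-2002)) (x1 := (-1888)) hp hq hX t1.le t2 y2 y
        (cn_neg hZ0 P0 (lo := (-553)) (hi := (-428)) (by norm_num) (by norm_num) (by norm_num))
        (cn_pos hZ0 P3 (lo := 2184) (hi := 2333) (by norm_num) (by norm_num) (by norm_num))
        q0_3 (by norm_num)
    have y3 := y.le
    clear y
    rcases le_or_gt (1000 * X) ((-1557) * Z) with y | y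
    · exact sb h 0 (ql := 2737) (qh := 2761) (x0 := (-1888)) (x1 := (-1557)) hp hq hX t1.le t2 y3 y
        (cn_neg hZ0 P2 (lo := (-1889)) (hi := (-1557)) (by norm_num) (by norm_num) (by norm_num))
        (cn_pos hZ0 P0 (lo := 848) (hi := 1204) (by norm_num) (by norm_num) (by norm_num))
        q0_2.symm (by norm_num)
    have y4 := y.le
    clear y
    rcases le_or_gt (1000 * X) ((-1395) * Z) with y | y
    · exact sb h 1 (ql := 2737) (qh := 2761) (x0 := (-1557)) (x1 := (-1395)) hp hq hX t1.le t2 y4 y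
        (cn_ctr hZ0 P0 (lo := (-108)) (hi := 65) (by norm_num) (by norm_num))
        (cn_pos hZ0 P5 (lo := 2629) (hi := 2826) (by norm_num) (by norm_num) (by norm_num))
        q0_5 (by norm_num)
    have y5 := y.le
    clear y
    exact sb h 0 (ql := 2737) (qh := 2761) (x0 := (-1395)) (x1 := (-1349)) hp hq hX t1.le t2 y5 (by omega)
        (cn_neg hZ0 P1 (lo := (-1396)) (hi := (-1349)) (by norm_num) (by norm_num) (by norm_num))
        (cn_pos hZ0 P1 (lo := 1341) (hi := 1412) (by norm_num) (by norm_num) (by norm_num))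
        rfl (by norm_num)
  have t1 := t2
  clear t2
  rcases le_or_gt (1000 * p) (735 * Z) with t2 | t2
  · obtain ⟨q, X, hq, hX, x0, x1⟩ := startQ h (p := p) (L := (-2826)) (by omega)
    rcases le_or_gt (1000 * X) ((-2452) * Z) with y | y
    · exact sb h 0 (ql := 2719) (qh := 2742) (x0 := (-2826)) (x1 := (-2452)) hp hq hX t1.le t2 x0 y
        (cn_neg hZ0 P5 (lo := (-2826)) (hi := (-2452)) (by norm_num) (by norm_num) (by norm_num))
        (cn_ctr hZ0 P0 (lo := (-107)) (hi := 290) (by norm_num) (by norm_num))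
        q0_5.symm (by norm_num)
    have y0 := y.le
    clear y
    rcases le_or_gt (1000 * X) ((-2214) * Z) with y | y
    · exact sb h 1 (ql := 2719) (qh := 2742) (x0 := (-2452)) (x1 := (-2214)) hp hq hX t1.le t2 y0 y
        (cn_neg hZ0 P0 (lo := (-993)) (hi := (-744)) (by norm_num) (by norm_num) (by norm_num))
        (cn_pos hZ0 P2 (lo := 1726) (hi := 1998) (by norm_num) (by norm_num) (by norm_num))
        q0_2 (by norm_num)
    have y1 := y.le
    clear y
    rcases le_or_gt (1000 * X) ((-2002) * Z) with y | y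
    · exact sb h 0 (ql := 2719) (qh := 2742) (x0 := (-2214)) (x1 := (-2002)) hp hq hX t1.le t2 y1 y
        (cn_neg hZ0 P3 (lo := (-2215)) (hi := (-2002)) (by norm_num) (by norm_num) (by norm_num))
        (cn_pos hZ0 P0 (lo := 504) (hi := 740) (by norm_num) (by norm_num) (by norm_num))
        q0_3.symm (by norm_num)
    have y2 := y.le
    clear y
    rcases le_or_gt (1000 * X) ((-1879) * Z) with y | y
    · exact sb h 1 (ql := 2719) (qh := 2742) (x0 := (-2002)) (x1 := (-1879)) hp hq hX t1.le t2 y2 y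
        (cn_neg hZ0 P0 (lo := (-543)) (hi := (-409)) (by norm_num) (by norm_num) (by norm_num))
        (cn_pos hZ0 P3 (lo := 2176) (hi := 2333) (by norm_num) (by norm_num) (by norm_num))
        q0_3 (by norm_num)
    have y3 := y.le
    clear y
    rcases le_or_gt (1000 * X) ((-1538) * Z) with y | y
    · exact sb h 0 (ql := 2719) (qh := 2742) (x0 := (-1879)) (x1 := (-1538)) hp hq hX t1.le t2 y3 y
        (cn_neg hZ0 P2 (lo := (-1880)) (hi := (-1538)) (by norm_num) (by norm_num) (by norm_num))
        (cn_pos hZ0 P0 (lo := 839) (hi := 1204) (by norm_num) (by norm_num) (by norm_num))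
        q0_2.symm (by norm_num)
    have y4 := y.le
    clear y
    rcases le_or_gt (1000 * X) ((-1386) * Z) with y | y
    · exact sb h 1 (ql := 2719) (qh := 2742) (x0 := (-1538)) (x1 := (-1386)) hp hq hX t1.le t2 y4 y
        (cn_ctr hZ0 P0 (lo := (-79)) (hi := 84) (by norm_num) (by norm_num))
        (cn_pos hZ0 P5 (lo := 2640) (hi := 2826) (by norm_num) (by norm_num) (by norm_num))
        q0_5 (by norm_num)
    have y5 := y.le
    clear y
    exact sb h 0 (ql := 2719) (qh := 2742) (x0 := (-1386)) (x1 := (-1330)) hp hq hX t1.le t2 y5 (by omega)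
        (cn_neg hZ0 P1 (lo := (-1387)) (hi := (-1330)) (by norm_num) (by norm_num) (by norm_num))
        (cn_pos hZ0 P1 (lo := 1332) (hi := 1412) (by norm_num) (by norm_num) (by norm_num))
        rfl (by norm_num)
  have t1 := t2
  clear t2
  rcases le_or_gt (1000 * p) (740 * Z) with t2 | t2
  · obtain ⟨q, X, hq, hX, x0, x1⟩ := startQ h (p := p) (L := (-2826)) (by omega)
    rcases le_or_gt (1000 * X) ((-2452) * Z) with y | y
    · exact sb h 0 (ql := 2700) (qh := 2724) (x0 := (-2826)) (x1 := (-2452)) hp hq hX t1.le t2 x0 y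
        (cn_neg hZ0 P5 (lo := (-2826)) (hi := (-2452)) (by norm_num) (by norm_num) (by norm_num))
        (cn_ctr hZ0 P0 (lo := (-126)) (hi := 272) (by norm_num) (by norm_num))
        q0_5.symm (by norm_num)
    have y0 := y.le
    clear y
    rcases le_or_gt (1000 * X) ((-2206) * Z) with y | y
    · exact sb h 1 (ql := 2700) (qh := 2724) (x0 := (-2452)) (x1 := (-2206)) hp hq hX t1.le t2 y0 y
        (cn_neg hZ0 P0 (lo := (-983)) (hi := (-726)) (by norm_num) (by norm_num) (by norm_num))
        (cn_pos hZ0 P2 (lo := 1717) (hi := 1998) (by norm_num) (by norm_num) (by norm_num))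
        q0_2 (by norm_num)
    have y1 := y.le
    clear y
    rcases le_or_gt (1000 * X) ((-2002) * Z) with y | y
    · exact sb h 0 (ql := 2700) (qh := 2724) (x0 := (-2206)) (x1 := (-2002)) hp hq hX t1.le t2 y1 y
        (cn_neg hZ0 P3 (lo := (-2207)) (hi := (-2002)) (by norm_num) (by norm_num) (by norm_num))
        (cn_pos hZ0 P0 (lo := 493) (hi := 722) (by norm_num) (by norm_num) (by norm_num))
        q0_3.symm (by norm_num)
    have y2 := y.le
    clear y
    rcases le_or_gt (1000 * X) ((-1871) * Z) with y | y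
    · exact sb h 1 (ql := 2700) (qh := 2724) (x0 := (-2002)) (x1 := (-1871)) hp hq hX t1.le t2 y2 y
        (cn_neg hZ0 P0 (lo := (-533)) (hi := (-391)) (by norm_num) (by norm_num) (by norm_num))
        (cn_pos hZ0 P3 (lo := 2167) (hi := 2333) (by norm_num) (by norm_num) (by norm_num))
        q0_3 (by norm_num)
    have y3 := y.le
    clear y
    rcases le_or_gt (1000 * X) ((-1520) * Z) with y | y
    · exact sb h 0 (ql := 2700) (qh := 2724) (x0 := (-1871)) (x1 := (-1520)) hp hq hX t1.le t2 y3 y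
        (cn_neg hZ0 P2 (lo := (-1872)) (hi := (-1520)) (by norm_num) (by norm_num) (by norm_num))
        (cn_pos hZ0 P0 (lo := 828) (hi := 1204) (by norm_num) (by norm_num) (by norm_num))
        q0_2.symm (by norm_num)
    have y4 := y.le
    clear y
    rcases le_or_gt (1000 * X) ((-1378) * Z) with y | y
    · exact sb h 1 (ql := 2700) (qh := 2724) (x0 := (-1520)) (x1 := (-1378)) hp hq hX t1.le t2 y4 y
        (cn_ctr hZ0 P0 (lo := (-51)) (hi := 102) (by norm_num) (by norm_num))
        (cn_pos hZ0 P5 (lo := 2649) (hi := 2826) (by norm_num) (by norm_num) (by norm_num))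
        q0_5 (by norm_num)
    have y5 := y.le
    clear y
    exact sb h 0 (ql := 2700) (qh := 2724) (x0 := (-1378)) (x1 := (-1312)) hp hq hX t1.le t2 y5 (by omega)
        (cn_neg hZ0 P1 (lo := (-1379)) (hi := (-1312)) (by norm_num) (by norm_num) (by norm_num))
        (cn_pos hZ0 P1 (lo := 1321) (hi := 1412) (by norm_num) (by norm_num) (by norm_num))
        rfl (by norm_num)
  have t1 := t2
  clear t2
  rcases le_or_gt (1000 * p) (745 * Z) with t2 | t2
  · obtain ⟨q, X, hq, hX, x0, x1⟩ := startQ h (p := p) (L := (-2826)) (by omega)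
    rcases le_or_gt (1000 * X) ((-2452) * Z) with y | y
    · exact sb h 0 (ql := 2682) (qh := 2705) (x0 := (-2826)) (x1 := (-2452)) hp hq hX t1.le t2 x0 y
        (cn_neg hZ0 P5 (lo := (-2826)) (hi := (-2452)) (by norm_num) (by norm_num) (by norm_num))
        (cn_ctr hZ0 P0 (lo := (-144)) (hi := 253) (by norm_num) (by norm_num))
        q0_5.symm (by norm_num)
    have y0 := y.le
    clear y
    rcases le_or_gt (1000 * X) ((-2197) * Z) with y | y
    · exact sb h 1 (ql := 2682) (qh := 2705) (x0 := (-2452)) (x1 := (-2197)) hp hq hX t1.le t2 y0 y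
        (cn_neg hZ0 P0 (lo := (-973)) (hi := (-707)) (by norm_num) (by norm_num) (by norm_num))
        (cn_pos hZ0 P2 (lo := 1709) (hi := 1998) (by norm_num) (by norm_num) (by norm_num))
        q0_2 (by norm_num)
    have y1 := y.le
    clear y
    rcases le_or_gt (1000 * X) ((-2002) * Z) with y | y
    · exact sb h 0 (ql := 2682) (qh := 2705) (x0 := (-2197)) (x1 := (-2002)) hp hq hX t1.le t2 y1 y
        (cn_neg hZ0 P3 (lo := (-2198)) (hi := (-2002)) (by norm_num) (by norm_num) (by norm_num))
        (cn_pos hZ0 P0 (lo := 484) (hi := 703) (by norm_num) (by norm_num) (by norm_num))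
        q0_3.symm (by norm_num)
    have y2 := y.le
    clear y
    rcases le_or_gt (1000 * X) ((-1862) * Z) with y | y
    · exact sb h 1 (ql := 2682) (qh := 2705) (x0 := (-2002)) (x1 := (-1862)) hp hq hX t1.le t2 y2 y
        (cn_neg hZ0 P0 (lo := (-523)) (hi := (-372)) (by norm_num) (by norm_num) (by norm_num))
        (cn_pos hZ0 P3 (lo := 2159) (hi := 2333) (by norm_num) (by norm_num) (by norm_num))
        q0_3 (by norm_num)
    have y3 := y.le
    clear y
    rcases le_or_gt (1000 * X) ((-1501) * Z) with y | y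
    · exact sb h 0 (ql := 2682) (qh := 2705) (x0 := (-1862)) (x1 := (-1501)) hp hq hX t1.le t2 y3 y
        (cn_neg hZ0 P2 (lo := (-1863)) (hi := (-1501)) (by norm_num) (by norm_num) (by norm_num))
        (cn_pos hZ0 P0 (lo := 819) (hi := 1204) (by norm_num) (by norm_num) (by norm_num))
        q0_2.symm (by norm_num)
    have y4 := y.le
    clear y
    rcases le_or_gt (1000 * X) ((-1369) * Z) with y | y
    · exact sb h 1 (ql := 2682) (qh := 2705) (x0 := (-1501)) (x1 := (-1369)) hp hq hX t1.le t2 y4 y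
        (cn_ctr hZ0 P0 (lo := (-22)) (hi := 121) (by norm_num) (by norm_num))
        (cn_pos hZ0 P5 (lo := 2660) (hi := 2826) (by norm_num) (by norm_num) (by norm_num))
        q0_5 (by norm_num)
    have y5 := y.le
    clear y
    exact sb h 0 (ql := 2682) (qh := 2705) (x0 := (-1369)) (x1 := (-1293)) hp hq hX t1.le t2 y5 (by omega)
        (cn_neg hZ0 P1 (lo := (-1370)) (hi := (-1293)) (by norm_num) (by norm_num) (by norm_num))
        (cn_pos hZ0 P1 (lo := 1312) (hi := 1412) (by norm_num) (by norm_num) (by norm_num))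
        rfl (by norm_num)
  have t1 := t2
  clear t2
  rcases le_or_gt (1000 * p) (750 * Z) with t2 | t2
  · obtain ⟨q, X, hq, hX, x0, x1⟩ := startQ h (p := p) (L := (-2826)) (by omega)
    rcases le_or_gt (1000 * X) ((-2452) * Z) with y | y
    · exact sb h 0 (ql := 2664) (qh := 2687) (x0 := (-2826)) (x1 := (-2452)) hp hq hX t1.le t2 x0 y
        (cn_neg hZ0 P5 (lo := (-2826)) (hi := (-2452)) (by norm_num) (by norm_num) (by norm_num))
        (cn_ctr hZ0 P0 (lo := (-162)) (hi := 235) (by norm_num) (by norm_num))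
        q0_5.symm (by norm_num)
    have y0 := y.le
    clear y
    rcases le_or_gt (1000 * X) ((-2189) * Z) with y | y
    · exact sb h 1 (ql := 2664) (qh := 2687) (x0 := (-2452)) (x1 := (-2189)) hp hq hX t1.le t2 y0 y
        (cn_neg hZ0 P0 (lo := (-963)) (hi := (-689)) (by norm_num) (by norm_num) (by norm_num))
        (cn_pos hZ0 P2 (lo := 1701) (hi := 1998) (by norm_num) (by norm_num) (by norm_num))
        q0_2 (by norm_num)
    have y1 := y.le
    clear y
    rcases le_or_gt (1000 * X) ((-2002) * Z) with y | y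
    · exact sb h 0 (ql := 2664) (qh := 2687) (x0 := (-2189)) (x1 := (-2002)) hp hq hX t1.le t2 y1 y
        (cn_neg hZ0 P3 (lo := (-2190)) (hi := (-2002)) (by norm_num) (by norm_num) (by norm_num))
        (cn_pos hZ0 P0 (lo := 474) (hi := 685) (by norm_num) (by norm_num) (by norm_num))
        q0_3.symm (by norm_num)
    have y2 := y.le
    clear y
    rcases le_or_gt (1000 * X) ((-1854) * Z) with y | y
    · exact sb h 1 (ql := 2664) (qh := 2687) (x0 := (-2002)) (x1 := (-1854)) hp hq hX t1.le t2 y2 y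
        (cn_neg hZ0 P0 (lo := (-513)) (hi := (-354)) (by norm_num) (by norm_num) (by norm_num))
        (cn_pos hZ0 P3 (lo := 2151) (hi := 2333) (by norm_num) (by norm_num) (by norm_num))
        q0_3 (by norm_num)
    have y3 := y.le
    clear y
    rcases le_or_gt (1000 * X) ((-1483) * Z) with y | y
    · exact sb h 0 (ql := 2664) (qh := 2687) (x0 := (-1854)) (x1 := (-1483)) hp hq hX t1.le t2 y3 y
        (cn_neg hZ0 P2 (lo := (-1855)) (hi := (-1483)) (by norm_num) (by norm_num) (by norm_num))
        (cn_pos hZ0 P0 (lo := 809) (hi := 1204) (by norm_num) (by norm_num) (by norm_num))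
        q0_2.symm (by norm_num)
    have y4 := y.le
    clear y
    rcases le_or_gt (1000 * X) ((-1361) * Z) with y | y
    · exact sb h 1 (ql := 2664) (qh := 2687) (x0 := (-1483)) (x1 := (-1361)) hp hq hX t1.le t2 y4 y
        (cn_pos hZ0 P0 (lo := 6) (hi := 139) (by norm_num) (by norm_num) (by norm_num))
        (cn_pos hZ0 P5 (lo := 2670) (hi := 2826) (by norm_num) (by norm_num) (by norm_num))
        q0_5 (by norm_num)
    have y5 := y.le
    clear y
    exact sb h 0 (ql := 2664) (qh := 2687) (x0 := (-1361)) (x1 := (-1278)) hp hq hX t1.le t2 y5 (by omega)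
        (cn_neg hZ0 P1 (lo := (-1362)) (hi := (-1278)) (by norm_num) (by norm_num) (by norm_num))
        (cn_pos hZ0 P1 (lo := 1302) (hi := 1409) (by norm_num) (by norm_num) (by norm_num))
        rfl (by norm_num)
  have t1 := t2
  clear t2
  rcases le_or_gt (1000 * p) (755 * Z) with t2 | t2
  · obtain ⟨q, X, hq, hX, x0, x1⟩ := startQ h (p := p) (L := (-2826)) (by omega)
    rcases le_or_gt (1000 * X) ((-2452) * Z) with y | y
    · exact sb h 0 (ql := 2647) (qh := 2669) (x0 := (-2826)) (x1 := (-2452)) hp hq hX t1.le t2 x0 y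
        (cn_neg hZ0 P5 (lo := (-2826)) (hi := (-2452)) (by norm_num) (by norm_num) (by norm_num))
        (cn_ctr hZ0 P0 (lo := (-179)) (hi := 217) (by norm_num) (by norm_num))
        q0_5.symm (by norm_num)
    have y0 := y.le
    clear y
    rcases le_or_gt (1000 * X) ((-2181) * Z) with y | y
    · exact sb h 1 (ql := 2647) (qh := 2669) (x0 := (-2452)) (x1 := (-2181)) hp hq hX t1.le t2 y0 y
        (cn_neg hZ0 P0 (lo := (-953)) (hi := (-671)) (by norm_num) (by norm_num) (by norm_num))
        (cn_pos hZ0 P2 (lo := 1694) (hi := 1998) (by norm_num) (by norm_num) (by norm_num))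
        q0_2 (by norm_num)
    have y1 := y.le
    clear y
    rcases le_or_gt (1000 * X) ((-2002) * Z) with y | y
    · exact sb h 0 (ql := 2647) (qh := 2669) (x0 := (-2181)) (x1 := (-2002)) hp hq hX t1.le t2 y1 y
        (cn_neg hZ0 P3 (lo := (-2182)) (hi := (-2002)) (by norm_num) (by norm_num) (by norm_num))
        (cn_pos hZ0 P0 (lo := 465) (hi := 667) (by norm_num) (by norm_num) (by norm_num))
        q0_3.symm (by norm_num)
    have y2 := y.le
    clear y
    rcases le_or_gt (1000 * X) ((-1846) * Z) with y | y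
    · exact sb h 1 (ql := 2647) (qh := 2669) (x0 := (-2002)) (x1 := (-1846)) hp hq hX t1.le t2 y2 y
        (cn_neg hZ0 P0 (lo := (-503)) (hi := (-336)) (by norm_num) (by norm_num) (by norm_num))
        (cn_pos hZ0 P3 (lo := 2144) (hi := 2333) (by norm_num) (by norm_num) (by norm_num))
        q0_3 (by norm_num)
    have y3 := y.le
    clear y
    rcases le_or_gt (1000 * X) ((-1465) * Z) with y | y
    · exact sb h 0 (ql := 2647) (qh := 2669) (x0 := (-1846)) (x1 := (-1465)) hp hq hX t1.le t2 y3 y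
        (cn_neg hZ0 P2 (lo := (-1847)) (hi := (-1465)) (by norm_num) (by norm_num) (by norm_num))
        (cn_pos hZ0 P0 (lo := 800) (hi := 1204) (by norm_num) (by norm_num) (by norm_num))
        q0_2.symm (by norm_num)
    have y4 := y.le
    clear y
    rcases le_or_gt (1000 * X) ((-1353) * Z) with y | y
    · exact sb h 1 (ql := 2647) (qh := 2669) (x0 := (-1465)) (x1 := (-1353)) hp hq hX t1.le t2 y4 y
        (cn_pos hZ0 P0 (lo := 34) (hi := 157) (by norm_num) (by norm_num) (by norm_num))
        (cn_pos hZ0 P5 (lo := 2681) (hi := 2826) (by norm_num) (by norm_num) (by norm_num))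
        q0_5 (by norm_num)
    have y5 := y.le
    clear y
    exact sb h 0 (ql := 2647) (qh := 2669) (x0 := (-1353)) (x1 := (-1278)) hp hq hX t1.le t2 y5 (by omega)
        (cn_neg hZ0 P1 (lo := (-1354)) (hi := (-1278)) (by norm_num) (by norm_num) (by norm_num))
        (cn_pos hZ0 P1 (lo := 1293) (hi := 1391) (by norm_num) (by norm_num) (by norm_num))
        rfl (by norm_num)
  have t1 := t2
  clear t2
  obtain ⟨q, X, hq, hX, x0, x1⟩ := startQ h (p := p) (L := (-2826)) (by omega)
  rcases le_or_gt (1000 * X) ((-2452) * Z) with y | y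
  · exact sb h 0 (ql := 2629) (qh := 2652) (x0 := (-2826)) (x1 := (-2452)) hp hq hX t1.le h2 x0 y
      (cn_neg hZ0 P5 (lo := (-2826)) (hi := (-2452)) (by norm_num) (by norm_num) (by norm_num))
      (cn_ctr hZ0 P0 (lo := (-197)) (hi := 200) (by norm_num) (by norm_num))
      q0_5.symm (by norm_num)
  have y0 := y.le
  clear y
  rcases le_or_gt (1000 * X) ((-2174) * Z) with y | y
  · exact sb h 1 (ql := 2629) (qh := 2652) (x0 := (-2452)) (x1 := (-2174)) hp hq hX t1.le h2 y0 y
      (cn_neg hZ0 P0 (lo := (-943)) (hi := (-654)) (by norm_num) (by norm_num) (by norm_num))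
      (cn_pos hZ0 P2 (lo := 1686) (hi := 1998) (by norm_num) (by norm_num) (by norm_num))
      q0_2 (by norm_num)
  have y1 := y.le
  clear y
  rcases le_or_gt (1000 * X) ((-2002) * Z) with y | y
  · exact sb h 0 (ql := 2629) (qh := 2652) (x0 := (-2174)) (x1 := (-2002)) hp hq hX t1.le h2 y1 y
      (cn_neg hZ0 P3 (lo := (-2175)) (hi := (-2002)) (by norm_num) (by norm_num) (by norm_num))
      (cn_pos hZ0 P0 (lo := 454) (hi := 650) (by norm_num) (by norm_num) (by norm_num))
      q0_3.symm (by norm_num)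
  have y2 := y.le
  clear y
  rcases le_or_gt (1000 * X) ((-1839) * Z) with y | y
  · exact sb h 1 (ql := 2629) (qh := 2652) (x0 := (-2002)) (x1 := (-1839)) hp hq hX t1.le h2 y2 y
      (cn_neg hZ0 P0 (lo := (-493)) (hi := (-319)) (by norm_num) (by norm_num) (by norm_num))
      (cn_pos hZ0 P3 (lo := 2136) (hi := 2333) (by norm_num) (by norm_num) (by norm_num))
      q0_3 (by norm_num)
  have y3 := y.le
  clear y
  rcases le_or_gt (1000 * X) ((-1448) * Z) with y | y
  · exact sb h 0 (ql := 2629) (qh := 2652) (x0 := (-1839)) (x1 := (-1448)) hp hq hX t1.le h2 y3 y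
      (cn_neg hZ0 P2 (lo := (-1840)) (hi := (-1448)) (by norm_num) (by norm_num) (by norm_num))
      (cn_pos hZ0 P0 (lo := 789) (hi := 1204) (by norm_num) (by norm_num) (by norm_num))
      q0_2.symm (by norm_num)
  have y4 := y.le
  clear y
  rcases le_or_gt (1000 * X) ((-1346) * Z) with y | y
  · exact sb h 1 (ql := 2629) (qh := 2652) (x0 := (-1448)) (x1 := (-1346)) hp hq hX t1.le h2 y4 y
      (cn_pos hZ0 P0 (lo := 61) (hi := 174) (by norm_num) (by norm_num) (by norm_num))
      (cn_pos hZ0 P5 (lo := 2690) (hi := 2826) (by norm_num) (by norm_num) (by norm_num))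
      q0_5 (by norm_num)
  have y5 := y.le
  clear y
  exact sb h 0 (ql := 2629) (qh := 2652) (x0 := (-1346)) (x1 := (-1278)) hp hq hX t1.le h2 y5 (by omega)
      (cn_neg hZ0 P1 (lo := (-1347)) (hi := (-1278)) (by norm_num) (by norm_num) (by norm_num))
      (cn_pos hZ0 P1 (lo := 1282) (hi := 1374) (by norm_num) (by norm_num) (by norm_num))
      rfl (by norm_num)

theorem cell7 (h : H2 g K Z ν) (hA1 : 1628176 * K ≤ 1000000 * ν)
    (hA2 : 1000000 * ν ≤ 2253001 * K) : False := by
  have hZ := h.hZ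
  have hZ0 : 0 ≤ Z := by omega
  have hK0 : 0 < K := by
    have := h.hK1
    nlinarith
  have r0 : NuR K ν 0 ν := Or.inl ⟨by norm_num, by norm_num, rfl⟩
  have r1 : NuR K ν 1 ν := Or.inl ⟨by norm_num, by norm_num, rfl⟩
  have r2 : NuR K ν 2 (ν + 4 * K) := Or.inr ⟨by norm_num, by norm_num, rfl⟩
  have r3 : NuR K ν 3 (ν + 4 * K) := Or.inr ⟨by norm_num, by norm_num, rfl⟩
  obtain ⟨s0, P0⟩ := piece h r0 (α := 0) (β := 1274) (by norm_num) (by norm_num) (by norm_num)
    (by norm_num) (by norm_num) (Or.inl (by linarith))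
  obtain ⟨s1, P1⟩ := piece h r1 (α := 1503) (β := 1998) (by norm_num) (by norm_num) (by norm_num)
    (by norm_num) (by norm_num) (Or.inr ⟨by norm_num, by norm_num, by linarith⟩)
  obtain ⟨s2, P2⟩ := piece h r2 (α := 2002) (β := 2370) (by norm_num) (by norm_num) (by norm_num)
    (by norm_num) (by norm_num) (Or.inl (by linarith))
  obtain ⟨s3, P3⟩ := piece h r3 (α := 2503) (β := 2826) (by norm_num) (by norm_num) (by norm_num)
    (by norm_num) (by norm_num) (Or.inr ⟨by norm_num, by norm_num, by linarith⟩)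
  have e0 : s2 = s1 := rel1 h (l1 := (-2213)) (l2 := (-2160)) (by norm_num) (by norm_num) (by norm_num)
    (cn_neg hZ0 P2 (lo := (-2213)) (hi := (-2160)) (by norm_num) (by norm_num) (by norm_num))
    (cn_neg hZ0 P0 (lo := (-2213) + 1973) (hi := (-2160) + 2027) (by norm_num) (by norm_num) (by norm_num))
    (cn_pos hZ0 P1 (lo := (-2213) + 4000) (hi := (-2160) + 4002) (by norm_num) (by norm_num) (by norm_num))
  have e1 : s3 + s1 = s0 + s0 := relh h (l1 := (-2619)) (l2 := (-2556)) (by norm_num) (by norm_num)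
    (by norm_num)
    (cn_neg hZ0 P3 (lo := (-2619)) (hi := (-2556)) (by norm_num) (by norm_num) (by norm_num))
    (cn_pos hZ0 P0 (lo := (-2619) + 2828) (hi := (-2556) + 2862) (by norm_num) (by norm_num) (by norm_num))
    (cn_neg hZ0 P0 (lo := (-2619) + 1398) (hi := (-2556) + 1415) (by norm_num) (by norm_num) (by norm_num))
    (cn_pos hZ0 P1 (lo := (-2619) + 4242) (hi := (-2556) + 4262) (by norm_num) (by norm_num) (by norm_num))
  have e2 : s3 = s0 := rel1 h (l1 := (-2803)) (l2 := (-2750)) (by norm_num) (by norm_num) (by norm_num)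
    (cn_neg hZ0 P3 (lo := (-2803)) (hi := (-2750)) (by norm_num) (by norm_num) (by norm_num))
    (cn_neg hZ0 P0 (lo := (-2803) + 1973) (hi := (-2750) + 2027) (by norm_num) (by norm_num) (by norm_num))
    (cn_pos hZ0 P0 (lo := (-2803) + 4000) (hi := (-2750) + 4002) (by norm_num) (by norm_num) (by norm_num))
  have q0_1 : s0 = s1 := by
    have T : ∀ s0 s1 s2 s3 : ZMod 2, s2 = s1 → s3 + s1 = s0 + s0 → s3 = s0 → s0 = s1 := by decide
    exact T s0 s1 s2 s3 e0 e1 e2
  have q0_2 : s0 = s2 := by
    have T : ∀ s0 s1 s2 s3 : ZMod 2, s2 = s1 → s3 + s1 = s0 + s0 → s3 = s0 → s0 = s2 := by decide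
    exact T s0 s1 s2 s3 e0 e1 e2
  have q0_3 : s0 = s3 := by
    have T : ∀ s0 s1 s2 s3 : ZMod 2, s2 = s1 → s3 + s1 = s0 + s0 → s3 = s0 → s0 = s3 := by decide
    exact T s0 s1 s2 s3 e0 e1 e2
  refine fin h (ta := 830) (tb := 875) (by norm_num) (by norm_num) ?_
  intro p hp h1 h2
  rcases le_or_gt (1000 * p) (841 * Z) with t2 | t2
  · obtain ⟨q, X, hq, hX, x0, x1⟩ := startQ h (p := p) (L := (-2826)) (by omega)
    rcases le_or_gt (1000 * X) ((-2503) * Z) with y | y
    · exact sb h 0 (ql := 2376) (qh := 2412) (x0 := (-2826)) (x1 := (-2503)) hp hq hX h1 t2 x0 y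
        (cn_neg hZ0 P3 (lo := (-2826)) (hi := (-2503)) (by norm_num) (by norm_num) (by norm_num))
        (cn_neg hZ0 P0 (lo := (-450)) (hi := (-91)) (by norm_num) (by norm_num) (by norm_num))
        q0_3.symm (by norm_num)
    have y0 := y.le
    clear y
    rcases le_or_gt (1000 * X) ((-2096) * Z) with y | y
    · exact sb h 1 (ql := 2376) (qh := 2412) (x0 := (-2503)) (x1 := (-2096)) hp hq hX h1 t2 y0 y
        (cn_neg hZ0 P0 (lo := (-844)) (hi := (-414)) (by norm_num) (by norm_num) (by norm_num))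
        (cn_pos hZ0 P1 (lo := 1532) (hi := 1998) (by norm_num) (by norm_num) (by norm_num))
        q0_1 (by norm_num)
    have y1 := y.le
    clear y
    rcases le_or_gt (1000 * X) ((-2002) * Z) with y | y
    · exact sb h 0 (ql := 2376) (qh := 2412) (x0 := (-2096)) (x1 := (-2002)) hp hq hX h1 t2 y1 y
        (cn_neg hZ0 P2 (lo := (-2097)) (hi := (-2002)) (by norm_num) (by norm_num) (by norm_num))
        (cn_pos hZ0 P0 (lo := 279) (hi := 410) (by norm_num) (by norm_num) (by norm_num))
        q0_2.symm (by norm_num)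
    have y2 := y.le
    clear y
    rcases le_or_gt (1000 * X) ((-1724) * Z) with y | y
    · exact sb h 1 (ql := 2376) (qh := 2412) (x0 := (-2002)) (x1 := (-1724)) hp hq hX h1 t2 y2 y
        (cn_neg hZ0 P0 (lo := (-343)) (hi := (-42)) (by norm_num) (by norm_num) (by norm_num))
        (cn_pos hZ0 P2 (lo := 2033) (hi := 2370) (by norm_num) (by norm_num) (by norm_num))
        q0_2 (by norm_num)
    have y3 := y.le
    clear y
    rcases le_or_gt (1000 * X) ((-1503) * Z) with y | y
    · exact sb h 0 (ql := 2376) (qh := 2412) (x0 := (-1724)) (x1 := (-1503)) hp hq hX h1 t2 y3 y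
        (cn_neg hZ0 P1 (lo := (-1725)) (hi := (-1503)) (by norm_num) (by norm_num) (by norm_num))
        (cn_pos hZ0 P0 (lo := 651) (hi := 909) (by norm_num) (by norm_num) (by norm_num))
        q0_1.symm (by norm_num)
    have y4 := y.le
    clear y
    rcases le_or_gt (1000 * X) ((-1268) * Z) with y | y
    · exact sb h 1 (ql := 2376) (qh := 2412) (x0 := (-1503)) (x1 := (-1268)) hp hq hX h1 t2 y4 y
        (cn_pos hZ0 P0 (lo := 156) (hi := 414) (by norm_num) (by norm_num) (by norm_num))
        (cn_pos hZ0 P3 (lo := 2532) (hi := 2826) (by norm_num) (by norm_num) (by norm_num))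
        q0_3 (by norm_num)
    have y5 := y.le
    clear y
    exact sb h 0 (ql := 2376) (qh := 2412) (x0 := (-1268)) (x1 := (-1138)) hp hq hX h1 t2 y5 (by omega)
        (cn_neg hZ0 P0 (lo := (-1269)) (hi := (-1138)) (by norm_num) (by norm_num) (by norm_num))
        (cn_pos hZ0 P0 (lo := 1107) (hi := 1274) (by norm_num) (by norm_num) (by norm_num))
        rfl (by norm_num)
  have t1 := t2
  clear t2
  rcases le_or_gt (1000 * p) (852 * Z) with t2 | t2
  · obtain ⟨q, X, hq, hX, x0, x1⟩ := startQ h (p := p) (L := (-2826)) (by omega)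
    rcases le_or_gt (1000 * X) ((-2503) * Z) with y | y
    · exact sb h 0 (ql := 2345) (qh := 2381) (x0 := (-2826)) (x1 := (-2503)) hp hq hX t1.le t2 x0 y
        (cn_neg hZ0 P3 (lo := (-2826)) (hi := (-2503)) (by norm_num) (by norm_num) (by norm_num))
        (cn_neg hZ0 P0 (lo := (-481)) (hi := (-122)) (by norm_num) (by norm_num) (by norm_num))
        q0_3.symm (by norm_num)
    have y0 := y.le
    clear y
    rcases le_or_gt (1000 * X) ((-2087) * Z) with y | y
    · exact sb h 1 (ql := 2345) (qh := 2381) (x0 := (-2503)) (x1 := (-2087)) hp hq hX t1.le t2 y0 y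
        (cn_neg hZ0 P0 (lo := (-822)) (hi := (-383)) (by norm_num) (by norm_num) (by norm_num))
        (cn_pos hZ0 P1 (lo := 1523) (hi := 1998) (by norm_num) (by norm_num) (by norm_num))
        q0_1 (by norm_num)
    have y1 := y.le
    clear y
    rcases le_or_gt (1000 * X) ((-2002) * Z) with y | y
    · exact sb h 0 (ql := 2345) (qh := 2381) (x0 := (-2087)) (x1 := (-2002)) hp hq hX t1.le t2 y1 y
        (cn_neg hZ0 P2 (lo := (-2088)) (hi := (-2002)) (by norm_num) (by norm_num) (by norm_num))
        (cn_pos hZ0 P0 (lo := 257) (hi := 379) (by norm_num) (by norm_num) (by norm_num))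
        q0_2.symm (by norm_num)
    have y2 := y.le
    clear y
    rcases le_or_gt (1000 * X) ((-1715) * Z) with y | y
    · exact sb h 1 (ql := 2345) (qh := 2381) (x0 := (-2002)) (x1 := (-1715)) hp hq hX t1.le t2 y2 y
        (cn_neg hZ0 P0 (lo := (-321)) (hi := (-11)) (by norm_num) (by norm_num) (by norm_num))
        (cn_pos hZ0 P2 (lo := 2024) (hi := 2370) (by norm_num) (by norm_num) (by norm_num))
        q0_2 (by norm_num)
    have y3 := y.le
    clear y
    rcases le_or_gt (1000 * X) ((-1503) * Z) with y | y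
    · exact sb h 0 (ql := 2345) (qh := 2381) (x0 := (-1715)) (x1 := (-1503)) hp hq hX t1.le t2 y3 y
        (cn_neg hZ0 P1 (lo := (-1716)) (hi := (-1503)) (by norm_num) (by norm_num) (by norm_num))
        (cn_pos hZ0 P0 (lo := 629) (hi := 878) (by norm_num) (by norm_num) (by norm_num))
        q0_1.symm (by norm_num)
    have y4 := y.le
    clear y
    rcases le_or_gt (1000 * X) ((-1259) * Z) with y | y
    · exact sb h 1 (ql := 2345) (qh := 2381) (x0 := (-1503)) (x1 := (-1259)) hp hq hX t1.le t2 y4 y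
        (cn_pos hZ0 P0 (lo := 178) (hi := 445) (by norm_num) (by norm_num) (by norm_num))
        (cn_pos hZ0 P3 (lo := 2523) (hi := 2826) (by norm_num) (by norm_num) (by norm_num))
        q0_3 (by norm_num)
    have y5 := y.le
    clear y
    exact sb h 0 (ql := 2345) (qh := 2381) (x0 := (-1259)) (x1 := (-1107)) hp hq hX t1.le t2 y5 (by omega)
        (cn_neg hZ0 P0 (lo := (-1260)) (hi := (-1107)) (by norm_num) (by norm_num) (by norm_num))
        (cn_pos hZ0 P0 (lo := 1085) (hi := 1274) (by norm_num) (by norm_num) (by norm_num))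
        rfl (by norm_num)
  have t1 := t2
  clear t2
  rcases le_or_gt (1000 * p) (864 * Z) with t2 | t2
  · obtain ⟨q, X, hq, hX, x0, x1⟩ := startQ h (p := p) (L := (-2826)) (by omega)
    rcases le_or_gt (1000 * X) ((-2503) * Z) with y | y
    · exact sb h 0 (ql := 2312) (qh := 2350) (x0 := (-2826)) (x1 := (-2503)) hp hq hX t1.le t2 x0 y
        (cn_neg hZ0 P3 (lo := (-2826)) (hi := (-2503)) (by norm_num) (by norm_num) (by norm_num))
        (cn_neg hZ0 P0 (lo := (-514)) (hi := (-153)) (by norm_num) (by norm_num) (by norm_num))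
        q0_3.symm (by norm_num)
    have y0 := y.le
    clear y
    rcases le_or_gt (1000 * X) ((-2080) * Z) with y | y
    · exact sb h 1 (ql := 2312) (qh := 2350) (x0 := (-2503)) (x1 := (-2080)) hp hq hX t1.le t2 y0 y
        (cn_neg hZ0 P0 (lo := (-800)) (hi := (-352)) (by norm_num) (by norm_num) (by norm_num))
        (cn_pos hZ0 P1 (lo := 1512) (hi := 1998) (by norm_num) (by norm_num) (by norm_num))
        q0_1 (by norm_num)
    have y1 := y.le
    clear y
    rcases le_or_gt (1000 * X) ((-2002) * Z) with y | y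
    · exact sb h 0 (ql := 2312) (qh := 2350) (x0 := (-2080)) (x1 := (-2002)) hp hq hX t1.le t2 y1 y
        (cn_neg hZ0 P2 (lo := (-2081)) (hi := (-2002)) (by norm_num) (by norm_num) (by norm_num))
        (cn_pos hZ0 P0 (lo := 231) (hi := 348) (by norm_num) (by norm_num) (by norm_num))
        q0_2.symm (by norm_num)
    have y2 := y.le
    clear y
    rcases le_or_gt (1000 * X) ((-1708) * Z) with y | y
    · exact sb h 1 (ql := 2312) (qh := 2350) (x0 := (-2002)) (x1 := (-1708)) hp hq hX t1.le t2 y2 y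
        (cn_ctr hZ0 P0 (lo := (-299)) (hi := 20) (by norm_num) (by norm_num))
        (cn_pos hZ0 P2 (lo := 2013) (hi := 2370) (by norm_num) (by norm_num) (by norm_num))
        q0_2 (by norm_num)
    have y3 := y.le
    clear y
    rcases le_or_gt (1000 * X) ((-1503) * Z) with y | y
    · exact sb h 0 (ql := 2312) (qh := 2350) (x0 := (-1708)) (x1 := (-1503)) hp hq hX t1.le t2 y3 y
        (cn_neg hZ0 P1 (lo := (-1709)) (hi := (-1503)) (by norm_num) (by norm_num) (by norm_num))
        (cn_pos hZ0 P0 (lo := 603) (hi := 847) (by norm_num) (by norm_num) (by norm_num))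
        q0_1.symm (by norm_num)
    have y4 := y.le
    clear y
    rcases le_or_gt (1000 * X) ((-1252) * Z) with y | y
    · exact sb h 1 (ql := 2312) (qh := 2350) (x0 := (-1503)) (x1 := (-1252)) hp hq hX t1.le t2 y4 y
        (cn_pos hZ0 P0 (lo := 200) (hi := 476) (by norm_num) (by norm_num) (by norm_num))
        (cn_pos hZ0 P3 (lo := 2512) (hi := 2826) (by norm_num) (by norm_num) (by norm_num))
        q0_3 (by norm_num)
    have y5 := y.le
    clear y
    exact sb h 0 (ql := 2312) (qh := 2350) (x0 := (-1252)) (x1 := (-1076)) hp hq hX t1.le t2 y5 (by omega)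
        (cn_neg hZ0 P0 (lo := (-1253)) (hi := (-1076)) (by norm_num) (by norm_num) (by norm_num))
        (cn_pos hZ0 P0 (lo := 1059) (hi := 1274) (by norm_num) (by norm_num) (by norm_num))
        rfl (by norm_num)
  have t1 := t2
  clear t2
  obtain ⟨q, X, hq, hX, x0, x1⟩ := startQ h (p := p) (L := (-2826)) (by omega)
  rcases le_or_gt (1000 * X) ((-2503) * Z) with y | y
  · exact sb h 0 (ql := 2283) (qh := 2317) (x0 := (-2826)) (x1 := (-2503)) hp hq hX t1.le h2 x0 y
      (cn_neg hZ0 P3 (lo := (-2826)) (hi := (-2503)) (by norm_num) (by norm_num) (by norm_num))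
      (cn_neg hZ0 P0 (lo := (-543)) (hi := (-186)) (by norm_num) (by norm_num) (by norm_num))
      q0_3.symm (by norm_num)
  have y0 := y.le
  clear y
  rcases le_or_gt (1000 * X) ((-2069) * Z) with y | y
  · exact sb h 1 (ql := 2283) (qh := 2317) (x0 := (-2503)) (x1 := (-2069)) hp hq hX t1.le h2 y0 y
      (cn_neg hZ0 P0 (lo := (-776)) (hi := (-319)) (by norm_num) (by norm_num) (by norm_num))
      (cn_pos hZ0 P1 (lo := 1507) (hi := 1998) (by norm_num) (by norm_num) (by norm_num))
      q0_1 (by norm_num)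
  have y1 := y.le
  clear y
  rcases le_or_gt (1000 * X) ((-2002) * Z) with y | y
  · exact sb h 0 (ql := 2283) (qh := 2317) (x0 := (-2069)) (x1 := (-2002)) hp hq hX t1.le h2 y1 y
      (cn_neg hZ0 P2 (lo := (-2070)) (hi := (-2002)) (by norm_num) (by norm_num) (by norm_num))
      (cn_pos hZ0 P0 (lo := 213) (hi := 315) (by norm_num) (by norm_num) (by norm_num))
      q0_2.symm (by norm_num)
  have y2 := y.le
  clear y
  rcases le_or_gt (1000 * X) ((-1697) * Z) with y | y
  · exact sb h 1 (ql := 2283) (qh := 2317) (x0 := (-2002)) (x1 := (-1697)) hp hq hX t1.le h2 y2 y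
      (cn_ctr hZ0 P0 (lo := (-275)) (hi := 53) (by norm_num) (by norm_num))
      (cn_pos hZ0 P2 (lo := 2008) (hi := 2370) (by norm_num) (by norm_num) (by norm_num))
      q0_2 (by norm_num)
  have y3 := y.le
  clear y
  rcases le_or_gt (1000 * X) ((-1503) * Z) with y | y
  · exact sb h 0 (ql := 2283) (qh := 2317) (x0 := (-1697)) (x1 := (-1503)) hp hq hX t1.le h2 y3 y
      (cn_neg hZ0 P1 (lo := (-1698)) (hi := (-1503)) (by norm_num) (by norm_num) (by norm_num))
      (cn_pos hZ0 P0 (lo := 585) (hi := 814) (by norm_num) (by norm_num) (by norm_num))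
      q0_1.symm (by norm_num)
  have y4 := y.le
  clear y
  rcases le_or_gt (1000 * X) ((-1241) * Z) with y | y
  · exact sb h 1 (ql := 2283) (qh := 2317) (x0 := (-1503)) (x1 := (-1241)) hp hq hX t1.le h2 y4 y
      (cn_pos hZ0 P0 (lo := 224) (hi := 509) (by norm_num) (by norm_num) (by norm_num))
      (cn_pos hZ0 P3 (lo := 2507) (hi := 2826) (by norm_num) (by norm_num) (by norm_num))
      q0_3 (by norm_num)
  have y5 := y.le
  clear y
  exact sb h 0 (ql := 2283) (qh := 2317) (x0 := (-1241)) (x1 := (-1043)) hp hq hX t1.le h2 y5 (by omega)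
      (cn_neg hZ0 P0 (lo := (-1242)) (hi := (-1043)) (by norm_num) (by norm_num) (by norm_num))
      (cn_pos hZ0 P0 (lo := 1041) (hi := 1274) (by norm_num) (by norm_num) (by norm_num))
      rfl (by norm_num)

theorem cell8 (h : H2 g K Z ν) (hA1 : 2253001 * K ≤ 1000000 * ν)
    (hA2 : 1000000 * ν ≤ 2468041 * K) : False := by
  have hZ := h.hZ
  have hZ0 : 0 ≤ Z := by omega
  have hK0 : 0 < K := by
    have := h.hK1
    nlinarith
  have r0 : NuR K ν 0 ν := Or.inl ⟨by norm_num, by norm_num, rfl⟩
  have r1 : NuR K ν 1 ν := Or.inl ⟨by norm_num, by norm_num, rfl⟩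
  have r2 : NuR K ν 2 (ν + 4 * K) := Or.inr ⟨by norm_num, by norm_num, rfl⟩
  have r3 : NuR K ν 3 (ν + 4 * K) := Or.inr ⟨by norm_num, by norm_num, rfl⟩
  obtain ⟨s0, P0⟩ := piece h r0 (α := 0) (β := 1412) (by norm_num) (by norm_num) (by norm_num)
    (by norm_num) (by norm_num) (Or.inl (by linarith))
  obtain ⟨s1, P1⟩ := piece h r1 (α := 1417) (β := 1499) (by norm_num) (by norm_num) (by norm_num)
    (by norm_num) (by norm_num) (Or.inl (by linarith))
  obtain ⟨s2, P2⟩ := piece h r1 (α := 1573) (β := 1998) (by norm_num) (by norm_num) (by norm_num)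
    (by norm_num) (by norm_num) (Or.inr ⟨by norm_num, by norm_num, by linarith⟩)
  obtain ⟨s3, P3⟩ := piece h r2 (α := 2002) (β := 2447) (by norm_num) (by norm_num) (by norm_num)
    (by norm_num) (by norm_num) (Or.inl (by linarith))
  obtain ⟨s4, P4⟩ := piece h r3 (α := 2452) (β := 2498) (by norm_num) (by norm_num) (by norm_num)
    (by norm_num) (by norm_num) (Or.inl (by linarith))
  obtain ⟨s5, P5⟩ := piece h r3 (α := 2546) (β := 2826) (by norm_num) (by norm_num) (by norm_num)
    (by norm_num) (by norm_num) (Or.inr ⟨by norm_num, by norm_num, by linarith⟩)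
  have e0 : s2 = s3 := rel1 h (l1 := (-1812)) (l2 := (-1759)) (by norm_num) (by norm_num) (by norm_num)
    (cn_neg hZ0 P2 (lo := (-1812)) (hi := (-1759)) (by norm_num) (by norm_num) (by norm_num))
    (cn_pos hZ0 P0 (lo := (-1812) + 1973) (hi := (-1759) + 2027) (by norm_num) (by norm_num) (by norm_num))
    (cn_pos hZ0 P3 (lo := (-1812) + 4000) (hi := (-1759) + 4002) (by norm_num) (by norm_num) (by norm_num))
  have e1 : s5 = s0 := rel1 h (l1 := (-2734)) (l2 := (-2681)) (by norm_num) (by norm_num) (by norm_num)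
    (cn_neg hZ0 P5 (lo := (-2734)) (hi := (-2681)) (by norm_num) (by norm_num) (by norm_num))
    (cn_neg hZ0 P0 (lo := (-2734) + 1973) (hi := (-2681) + 2027) (by norm_num) (by norm_num) (by norm_num))
    (cn_pos hZ0 P0 (lo := (-2734) + 4000) (hi := (-2681) + 4002) (by norm_num) (by norm_num) (by norm_num))
  have e2 : s5 + s2 = s0 + s0 := relh h (l1 := (-2639)) (l2 := (-2576)) (by norm_num) (by norm_num)
    (by norm_num)
    (cn_neg hZ0 P5 (lo := (-2639)) (hi := (-2576)) (by norm_num) (by norm_num) (by norm_num))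
    (cn_pos hZ0 P0 (lo := (-2639) + 2828) (hi := (-2576) + 2862) (by norm_num) (by norm_num) (by norm_num))
    (cn_neg hZ0 P0 (lo := (-2639) + 1398) (hi := (-2576) + 1415) (by norm_num) (by norm_num) (by norm_num))
    (cn_pos hZ0 P2 (lo := (-2639) + 4242) (hi := (-2576) + 4262) (by norm_num) (by norm_num) (by norm_num))
  have q0_2 : s0 = s2 := by
    have T : ∀ s0 s2 s3 s5 : ZMod 2, s2 = s3 → s5 = s0 → s5 + s2 = s0 + s0 → s0 = s2 := by decide
    exact T s0 s2 s3 s5 e0 e1 e2
  have q0_3 : s0 = s3 := by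
    have T : ∀ s0 s2 s3 s5 : ZMod 2, s2 = s3 → s5 = s0 → s5 + s2 = s0 + s0 → s0 = s3 := by decide
    exact T s0 s2 s3 s5 e0 e1 e2
  have q0_5 : s0 = s5 := by
    have T : ∀ s0 s2 s3 s5 : ZMod 2, s2 = s3 → s5 = s0 → s5 + s2 = s0 + s0 → s0 = s5 := by decide
    exact T s0 s2 s3 s5 e0 e1 e2
  refine fin h (ta := 720) (tb := 760) (by norm_num) (by norm_num) ?_
  intro p hp h1 h2
  rcases le_or_gt (1000 * p) (727 * Z) with t2 | t2
  · obtain ⟨q, X, hq, hX, x0, x1⟩ := startQ h (p := p) (L := (-2826)) (by omega)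
    rcases le_or_gt (1000 * X) ((-2546) * Z) with y | y
    · exact sb h 0 (ql := 2749) (qh := 2780) (x0 := (-2826)) (x1 := (-2546)) hp hq hX h1 t2 x0 y
        (cn_neg hZ0 P5 (lo := (-2826)) (hi := (-2546)) (by norm_num) (by norm_num) (by norm_num))
        (cn_ctr hZ0 P0 (lo := (-77)) (hi := 234) (by norm_num) (by norm_num))
        q0_5.symm (by norm_num)
    have y0 := y.le
    clear y
    rcases le_or_gt (1000 * X) ((-2236) * Z) with y | y
    · exact sb h 1 (ql := 2749) (qh := 2780) (x0 := (-2546)) (x1 := (-2236)) hp hq hX h1 t2 y0 y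
        (cn_neg hZ0 P0 (lo := (-1107)) (hi := (-782)) (by norm_num) (by norm_num) (by norm_num))
        (cn_pos hZ0 P2 (lo := 1642) (hi := 1998) (by norm_num) (by norm_num) (by norm_num))
        q0_2 (by norm_num)
    have y1 := y.le
    clear y
    rcases le_or_gt (1000 * X) ((-2002) * Z) with y | y
    · exact sb h 0 (ql := 2749) (qh := 2780) (x0 := (-2236)) (x1 := (-2002)) hp hq hX h1 t2 y1 y
        (cn_neg hZ0 P3 (lo := (-2237)) (hi := (-2002)) (by norm_num) (by norm_num) (by norm_num))
        (cn_pos hZ0 P0 (lo := 512) (hi := 778) (by norm_num) (by norm_num) (by norm_num))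
        q0_3.symm (by norm_num)
    have y2 := y.le
    clear y
    rcases le_or_gt (1000 * X) ((-1787) * Z) with y | y
    · exact sb h 1 (ql := 2749) (qh := 2780) (x0 := (-2002)) (x1 := (-1787)) hp hq hX h1 t2 y2 y
        (cn_neg hZ0 P0 (lo := (-563)) (hi := (-333)) (by norm_num) (by norm_num) (by norm_num))
        (cn_pos hZ0 P3 (lo := 2186) (hi := 2447) (by norm_num) (by norm_num) (by norm_num))
        q0_3 (by norm_num)
    have y3 := y.le
    clear y
    rcases le_or_gt (1000 * X) ((-1573) * Z) with y | y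
    · exact sb h 0 (ql := 2749) (qh := 2780) (x0 := (-1787)) (x1 := (-1573)) hp hq hX h1 t2 y3 y
        (cn_neg hZ0 P2 (lo := (-1788)) (hi := (-1573)) (by norm_num) (by norm_num) (by norm_num))
        (cn_pos hZ0 P0 (lo := 961) (hi := 1207) (by norm_num) (by norm_num) (by norm_num))
        q0_2.symm (by norm_num)
    have y4 := y.le
    clear y
    rcases le_or_gt (1000 * X) ((-1408) * Z) with y | y
    · exact sb h 1 (ql := 2749) (qh := 2780) (x0 := (-1573)) (x1 := (-1408)) hp hq hX h1 t2 y4 y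
        (cn_ctr hZ0 P0 (lo := (-134)) (hi := 46) (by norm_num) (by norm_num))
        (cn_pos hZ0 P5 (lo := 2615) (hi := 2826) (by norm_num) (by norm_num) (by norm_num))
        q0_5 (by norm_num)
    have y5 := y.le
    clear y
    exact sb h 0 (ql := 2749) (qh := 2780) (x0 := (-1408)) (x1 := (-1368)) hp hq hX h1 t2 y5 (by omega)
        (cn_neg hZ0 P0 (lo := (-1409)) (hi := (-1368)) (by norm_num) (by norm_num) (by norm_num))
        (cn_pos hZ0 P0 (lo := 1340) (hi := 1412) (by norm_num) (by norm_num) (by norm_num))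
        rfl (by norm_num)
  have t1 := t2
  clear t2
  rcases le_or_gt (1000 * p) (733 * Z) with t2 | t2
  · obtain ⟨q, X, hq, hX, x0, x1⟩ := startQ h (p := p) (L := (-2826)) (by omega)
    rcases le_or_gt (1000 * X) ((-2546) * Z) with y | y
    · exact sb h 0 (ql := 2726) (qh := 2754) (x0 := (-2826)) (x1 := (-2546)) hp hq hX t1.le t2 x0 y
        (cn_neg hZ0 P5 (lo := (-2826)) (hi := (-2546)) (by norm_num) (by norm_num) (by norm_num))
        (cn_ctr hZ0 P0 (lo := (-100)) (hi := 208) (by norm_num) (by norm_num))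
        q0_5.symm (by norm_num)
    have y0 := y.le
    clear y
    rcases le_or_gt (1000 * X) ((-2222) * Z) with y | y
    · exact sb h 1 (ql := 2726) (qh := 2754) (x0 := (-2546)) (x1 := (-2222)) hp hq hX t1.le t2 y0 y
        (cn_neg hZ0 P0 (lo := (-1093)) (hi := (-756)) (by norm_num) (by norm_num) (by norm_num))
        (cn_pos hZ0 P2 (lo := 1633) (hi := 1998) (by norm_num) (by norm_num) (by norm_num))
        q0_2 (by norm_num)
    have y1 := y.le
    clear y
    rcases le_or_gt (1000 * X) ((-2002) * Z) with y | y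
    · exact sb h 0 (ql := 2726) (qh := 2754) (x0 := (-2222)) (x1 := (-2002)) hp hq hX t1.le t2 y1 y
        (cn_neg hZ0 P3 (lo := (-2223)) (hi := (-2002)) (by norm_num) (by norm_num) (by norm_num))
        (cn_pos hZ0 P0 (lo := 503) (hi := 752) (by norm_num) (by norm_num) (by norm_num))
        q0_3.symm (by norm_num)
    have y2 := y.le
    clear y
    rcases le_or_gt (1000 * X) ((-1773) * Z) with y | y
    · exact sb h 1 (ql := 2726) (qh := 2754) (x0 := (-2002)) (x1 := (-1773)) hp hq hX t1.le t2 y2 y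
        (cn_neg hZ0 P0 (lo := (-549)) (hi := (-307)) (by norm_num) (by norm_num) (by norm_num))
        (cn_pos hZ0 P3 (lo := 2177) (hi := 2447) (by norm_num) (by norm_num) (by norm_num))
        q0_3 (by norm_num)
    have y3 := y.le
    clear y
    rcases le_or_gt (1000 * X) ((-1573) * Z) with y | y
    · exact sb h 0 (ql := 2726) (qh := 2754) (x0 := (-1773)) (x1 := (-1573)) hp hq hX t1.le t2 y3 y
        (cn_neg hZ0 P2 (lo := (-1774)) (hi := (-1573)) (by norm_num) (by norm_num) (by norm_num))
        (cn_pos hZ0 P0 (lo := 952) (hi := 1181) (by norm_num) (by norm_num) (by norm_num))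
        q0_2.symm (by norm_num)
    have y4 := y.le
    clear y
    rcases le_or_gt (1000 * X) ((-1394) * Z) with y | y
    · exact sb h 1 (ql := 2726) (qh := 2754) (x0 := (-1573)) (x1 := (-1394)) hp hq hX t1.le t2 y4 y
        (cn_ctr hZ0 P0 (lo := (-120)) (hi := 72) (by norm_num) (by norm_num))
        (cn_pos hZ0 P5 (lo := 2606) (hi := 2826) (by norm_num) (by norm_num) (by norm_num))
        q0_5 (by norm_num)
    have y5 := y.le
    clear y
    exact sb h 0 (ql := 2726) (qh := 2754) (x0 := (-1394)) (x1 := (-1342)) hp hq hX t1.le t2 y5 (by omega)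
        (cn_neg hZ0 P0 (lo := (-1395)) (hi := (-1342)) (by norm_num) (by norm_num) (by norm_num))
        (cn_pos hZ0 P0 (lo := 1331) (hi := 1412) (by norm_num) (by norm_num) (by norm_num))
        rfl (by norm_num)
  have t1 := t2
  clear t2
  rcases le_or_gt (1000 * p) (740 * Z) with t2 | t2
  · obtain ⟨q, X, hq, hX, x0, x1⟩ := startQ h (p := p) (L := (-2826)) (by omega)
    rcases le_or_gt (1000 * X) ((-2546) * Z) with y | y
    · exact sb h 0 (ql := 2700) (qh := 2731) (x0 := (-2826)) (x1 := (-2546)) hp hq hX t1.le t2 x0 y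
        (cn_neg hZ0 P5 (lo := (-2826)) (hi := (-2546)) (by norm_num) (by norm_num) (by norm_num))
        (cn_ctr hZ0 P0 (lo := (-126)) (hi := 185) (by norm_num) (by norm_num))
        q0_5.symm (by norm_num)
    have y0 := y.le
    clear y
    rcases le_or_gt (1000 * X) ((-2213) * Z) with y | y
    · exact sb h 1 (ql := 2700) (qh := 2731) (x0 := (-2546)) (x1 := (-2213)) hp hq hX t1.le t2 y0 y
        (cn_neg hZ0 P0 (lo := (-1081)) (hi := (-733)) (by norm_num) (by norm_num) (by norm_num))
        (cn_pos hZ0 P2 (lo := 1619) (hi := 1998) (by norm_num) (by norm_num) (by norm_num))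
        q0_2 (by norm_num)
    have y1 := y.le
    clear y
    rcases le_or_gt (1000 * X) ((-2002) * Z) with y | y
    · exact sb h 0 (ql := 2700) (qh := 2731) (x0 := (-2213)) (x1 := (-2002)) hp hq hX t1.le t2 y1 y
        (cn_neg hZ0 P3 (lo := (-2214)) (hi := (-2002)) (by norm_num) (by norm_num) (by norm_num))
        (cn_pos hZ0 P0 (lo := 486) (hi := 729) (by norm_num) (by norm_num) (by norm_num))
        q0_3.symm (by norm_num)
    have y2 := y.le
    clear y
    rcases le_or_gt (1000 * X) ((-1764) * Z) with y | y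
    · exact sb h 1 (ql := 2700) (qh := 2731) (x0 := (-2002)) (x1 := (-1764)) hp hq hX t1.le t2 y2 y
        (cn_neg hZ0 P0 (lo := (-537)) (hi := (-284)) (by norm_num) (by norm_num) (by norm_num))
        (cn_pos hZ0 P3 (lo := 2163) (hi := 2447) (by norm_num) (by norm_num) (by norm_num))
        q0_3 (by norm_num)
    have y3 := y.le
    clear y
    rcases le_or_gt (1000 * X) ((-1573) * Z) with y | y
    · exact sb h 0 (ql := 2700) (qh := 2731) (x0 := (-1764)) (x1 := (-1573)) hp hq hX t1.le t2 y3 y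
        (cn_neg hZ0 P2 (lo := (-1765)) (hi := (-1573)) (by norm_num) (by norm_num) (by norm_num))
        (cn_pos hZ0 P0 (lo := 935) (hi := 1158) (by norm_num) (by norm_num) (by norm_num))
        q0_2.symm (by norm_num)
    have y4 := y.le
    clear y
    rcases le_or_gt (1000 * X) ((-1385) * Z) with y | y
    · exact sb h 1 (ql := 2700) (qh := 2731) (x0 := (-1573)) (x1 := (-1385)) hp hq hX t1.le t2 y4 y
        (cn_ctr hZ0 P0 (lo := (-108)) (hi := 95) (by norm_num) (by norm_num))
        (cn_pos hZ0 P5 (lo := 2592) (hi := 2826) (by norm_num) (by norm_num) (by norm_num))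
        q0_5 (by norm_num)
    have y5 := y.le
    clear y
    exact sb h 0 (ql := 2700) (qh := 2731) (x0 := (-1385)) (x1 := (-1319)) hp hq hX t1.le t2 y5 (by omega)
        (cn_neg hZ0 P0 (lo := (-1386)) (hi := (-1319)) (by norm_num) (by norm_num) (by norm_num))
        (cn_pos hZ0 P0 (lo := 1314) (hi := 1412) (by norm_num) (by norm_num) (by norm_num))
        rfl (by norm_num)
  have t1 := t2
  clear t2
  rcases le_or_gt (1000 * p) (746 * Z) with t2 | t2
  · obtain ⟨q, X, hq, hX, x0, x1⟩ := startQ h (p := p) (L := (-2826)) (by omega)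
    rcases le_or_gt (1000 * X) ((-2546) * Z) with y | y
    · exact sb h 0 (ql := 2678) (qh := 2705) (x0 := (-2826)) (x1 := (-2546)) hp hq hX t1.le t2 x0 y
        (cn_neg hZ0 P5 (lo := (-2826)) (hi := (-2546)) (by norm_num) (by norm_num) (by norm_num))
        (cn_ctr hZ0 P0 (lo := (-148)) (hi := 159) (by norm_num) (by norm_num))
        q0_5.symm (by norm_num)
    have y0 := y.le
    clear y
    rcases le_or_gt (1000 * X) ((-2199) * Z) with y | y
    · exact sb h 1 (ql := 2678) (qh := 2705) (x0 := (-2546)) (x1 := (-2199)) hp hq hX t1.le t2 y0 y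
        (cn_neg hZ0 P0 (lo := (-1067)) (hi := (-707)) (by norm_num) (by norm_num) (by norm_num))
        (cn_pos hZ0 P2 (lo := 1611) (hi := 1998) (by norm_num) (by norm_num) (by norm_num))
        q0_2 (by norm_num)
    have y1 := y.le
    clear y
    rcases le_or_gt (1000 * X) ((-2002) * Z) with y | y
    · exact sb h 0 (ql := 2678) (qh := 2705) (x0 := (-2199)) (x1 := (-2002)) hp hq hX t1.le t2 y1 y
        (cn_neg hZ0 P3 (lo := (-2200)) (hi := (-2002)) (by norm_num) (by norm_num) (by norm_num))
        (cn_pos hZ0 P0 (lo := 478) (hi := 703) (by norm_num) (by norm_num) (by norm_num))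
        q0_3.symm (by norm_num)
    have y2 := y.le
    clear y
    rcases le_or_gt (1000 * X) ((-1750) * Z) with y | y
    · exact sb h 1 (ql := 2678) (qh := 2705) (x0 := (-2002)) (x1 := (-1750)) hp hq hX t1.le t2 y2 y
        (cn_neg hZ0 P0 (lo := (-523)) (hi := (-258)) (by norm_num) (by norm_num) (by norm_num))
        (cn_pos hZ0 P3 (lo := 2155) (hi := 2447) (by norm_num) (by norm_num) (by norm_num))
        q0_3 (by norm_num)
    have y3 := y.le
    clear y
    rcases le_or_gt (1000 * X) ((-1573) * Z) with y | y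
    · exact sb h 0 (ql := 2678) (qh := 2705) (x0 := (-1750)) (x1 := (-1573)) hp hq hX t1.le t2 y3 y
        (cn_neg hZ0 P2 (lo := (-1751)) (hi := (-1573)) (by norm_num) (by norm_num) (by norm_num))
        (cn_pos hZ0 P0 (lo := 927) (hi := 1132) (by norm_num) (by norm_num) (by norm_num))
        q0_2.symm (by norm_num)
    have y4 := y.le
    clear y
    rcases le_or_gt (1000 * X) ((-1371) * Z) with y | y
    · exact sb h 1 (ql := 2678) (qh := 2705) (x0 := (-1573)) (x1 := (-1371)) hp hq hX t1.le t2 y4 y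
        (cn_ctr hZ0 P0 (lo := (-94)) (hi := 121) (by norm_num) (by norm_num))
        (cn_pos hZ0 P5 (lo := 2584) (hi := 2826) (by norm_num) (by norm_num) (by norm_num))
        q0_5 (by norm_num)
    have y5 := y.le
    clear y
    exact sb h 0 (ql := 2678) (qh := 2705) (x0 := (-1371)) (x1 := (-1293)) hp hq hX t1.le t2 y5 (by omega)
        (cn_neg hZ0 P0 (lo := (-1372)) (hi := (-1293)) (by norm_num) (by norm_num) (by norm_num))
        (cn_pos hZ0 P0 (lo := 1306) (hi := 1412) (by norm_num) (by norm_num) (by norm_num))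
        rfl (by norm_num)
  have t1 := t2
  clear t2
  rcases le_or_gt (1000 * p) (753 * Z) with t2 | t2
  · obtain ⟨q, X, hq, hX, x0, x1⟩ := startQ h (p := p) (L := (-2826)) (by omega)
    rcases le_or_gt (1000 * X) ((-2546) * Z) with y | y
    · exact sb h 0 (ql := 2654) (qh := 2683) (x0 := (-2826)) (x1 := (-2546)) hp hq hX t1.le t2 x0 y
        (cn_neg hZ0 P5 (lo := (-2826)) (hi := (-2546)) (by norm_num) (by norm_num) (by norm_num))
        (cn_ctr hZ0 P0 (lo := (-172)) (hi := 137) (by norm_num) (by norm_num))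
        q0_5.symm (by norm_num)
    have y0 := y.le
    clear y
    rcases le_or_gt (1000 * X) ((-2191) * Z) with y | y
    · exact sb h 1 (ql := 2654) (qh := 2683) (x0 := (-2546)) (x1 := (-2191)) hp hq hX t1.le t2 y0 y
        (cn_neg hZ0 P0 (lo := (-1055)) (hi := (-685)) (by norm_num) (by norm_num) (by norm_num))
        (cn_pos hZ0 P2 (lo := 1599) (hi := 1998) (by norm_num) (by norm_num) (by norm_num))
        q0_2 (by norm_num)
    have y1 := y.le
    clear y
    rcases le_or_gt (1000 * X) ((-2002) * Z) with y | y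
    · exact sb h 0 (ql := 2654) (qh := 2683) (x0 := (-2191)) (x1 := (-2002)) hp hq hX t1.le t2 y1 y
        (cn_neg hZ0 P3 (lo := (-2192)) (hi := (-2002)) (by norm_num) (by norm_num) (by norm_num))
        (cn_pos hZ0 P0 (lo := 462) (hi := 681) (by norm_num) (by norm_num) (by norm_num))
        q0_3.symm (by norm_num)
    have y2 := y.le
    clear y
    rcases le_or_gt (1000 * X) ((-1742) * Z) with y | y
    · exact sb h 1 (ql := 2654) (qh := 2683) (x0 := (-2002)) (x1 := (-1742)) hp hq hX t1.le t2 y2 y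
        (cn_neg hZ0 P0 (lo := (-511)) (hi := (-236)) (by norm_num) (by norm_num) (by norm_num))
        (cn_pos hZ0 P3 (lo := 2143) (hi := 2447) (by norm_num) (by norm_num) (by norm_num))
        q0_3 (by norm_num)
    have y3 := y.le
    clear y
    rcases le_or_gt (1000 * X) ((-1573) * Z) with y | y
    · exact sb h 0 (ql := 2654) (qh := 2683) (x0 := (-1742)) (x1 := (-1573)) hp hq hX t1.le t2 y3 y
        (cn_neg hZ0 P2 (lo := (-1743)) (hi := (-1573)) (by norm_num) (by norm_num) (by norm_num))
        (cn_pos hZ0 P0 (lo := 911) (hi := 1110) (by norm_num) (by norm_num) (by norm_num))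
        q0_2.symm (by norm_num)
    have y4 := y.le
    clear y
    rcases le_or_gt (1000 * X) ((-1363) * Z) with y | y
    · exact sb h 1 (ql := 2654) (qh := 2683) (x0 := (-1573)) (x1 := (-1363)) hp hq hX t1.le t2 y4 y
        (cn_ctr hZ0 P0 (lo := (-82)) (hi := 143) (by norm_num) (by norm_num))
        (cn_pos hZ0 P5 (lo := 2572) (hi := 2826) (by norm_num) (by norm_num) (by norm_num))
        q0_5 (by norm_num)
    have y5 := y.le
    clear y
    exact sb h 0 (ql := 2654) (qh := 2683) (x0 := (-1363)) (x1 := (-1271)) hp hq hX t1.le t2 y5 (by omega)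
        (cn_neg hZ0 P0 (lo := (-1364)) (hi := (-1271)) (by norm_num) (by norm_num) (by norm_num))
        (cn_pos hZ0 P0 (lo := 1290) (hi := 1412) (by norm_num) (by norm_num) (by norm_num))
        rfl (by norm_num)
  have t1 := t2
  clear t2
  obtain ⟨q, X, hq, hX, x0, x1⟩ := startQ h (p := p) (L := (-2826)) (by omega)
  rcases le_or_gt (1000 * X) ((-2546) * Z) with y | y
  · exact sb h 0 (ql := 2629) (qh := 2659) (x0 := (-2826)) (x1 := (-2546)) hp hq hX t1.le h2 x0 y
      (cn_neg hZ0 P5 (lo := (-2826)) (hi := (-2546)) (by norm_num) (by norm_num) (by norm_num))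
      (cn_ctr hZ0 P0 (lo := (-197)) (hi := 113) (by norm_num) (by norm_num))
      q0_5.symm (by norm_num)
  have y0 := y.le
  clear y
  rcases le_or_gt (1000 * X) ((-2181) * Z) with y | y
  · exact sb h 1 (ql := 2629) (qh := 2659) (x0 := (-2546)) (x1 := (-2181)) hp hq hX t1.le h2 y0 y
      (cn_neg hZ0 P0 (lo := (-1041)) (hi := (-661)) (by norm_num) (by norm_num) (by norm_num))
      (cn_pos hZ0 P2 (lo := 1588) (hi := 1998) (by norm_num) (by norm_num) (by norm_num))
      q0_2 (by norm_num)
  have y1 := y.le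
  clear y
  rcases le_or_gt (1000 * X) ((-2002) * Z) with y | y
  · exact sb h 0 (ql := 2629) (qh := 2659) (x0 := (-2181)) (x1 := (-2002)) hp hq hX t1.le h2 y1 y
      (cn_neg hZ0 P3 (lo := (-2182)) (hi := (-2002)) (by norm_num) (by norm_num) (by norm_num))
      (cn_pos hZ0 P0 (lo := 447) (hi := 657) (by norm_num) (by norm_num) (by norm_num))
      q0_3.symm (by norm_num)
  have y2 := y.le
  clear y
  rcases le_or_gt (1000 * X) ((-1732) * Z) with y | y
  · exact sb h 1 (ql := 2629) (qh := 2659) (x0 := (-2002)) (x1 := (-1732)) hp hq hX t1.le h2 y2 y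
      (cn_neg hZ0 P0 (lo := (-497)) (hi := (-212)) (by norm_num) (by norm_num) (by norm_num))
      (cn_pos hZ0 P3 (lo := 2132) (hi := 2447) (by norm_num) (by norm_num) (by norm_num))
      q0_3 (by norm_num)
  have y3 := y.le
  clear y
  rcases le_or_gt (1000 * X) ((-1573) * Z) with y | y
  · exact sb h 0 (ql := 2629) (qh := 2659) (x0 := (-1732)) (x1 := (-1573)) hp hq hX t1.le h2 y3 y
      (cn_neg hZ0 P2 (lo := (-1733)) (hi := (-1573)) (by norm_num) (by norm_num) (by norm_num))
      (cn_pos hZ0 P0 (lo := 896) (hi := 1086) (by norm_num) (by norm_num) (by norm_num))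
      q0_2.symm (by norm_num)
  have y4 := y.le
  clear y
  rcases le_or_gt (1000 * X) ((-1353) * Z) with y | y
  · exact sb h 1 (ql := 2629) (qh := 2659) (x0 := (-1573)) (x1 := (-1353)) hp hq hX t1.le h2 y4 y
      (cn_ctr hZ0 P0 (lo := (-68)) (hi := 167) (by norm_num) (by norm_num))
      (cn_pos hZ0 P5 (lo := 2561) (hi := 2826) (by norm_num) (by norm_num) (by norm_num))
      q0_5 (by norm_num)
  have y5 := y.le
  clear y
  exact sb h 0 (ql := 2629) (qh := 2659) (x0 := (-1353)) (x1 := (-1247)) hp hq hX t1.le h2 y5 (by omega)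
      (cn_neg hZ0 P0 (lo := (-1354)) (hi := (-1247)) (by norm_num) (by norm_num) (by norm_num))
      (cn_pos hZ0 P0 (lo := 1275) (hi := 1412) (by norm_num) (by norm_num) (by norm_num))
      rfl (by norm_num)

end Pool.Agent.SQ.H80
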