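import Pool.Agent.Helper80_SQ.Two4

/-!
MP_5f6ee5_nt, TWO, large `K`: cells for the position of the exceptional number (part 3).
-/

namespace Pool.Agent.SQ.H80

variable {g : ℤ → ZMod 2} {K Z ν : ℤ}

theorem cell9 (h : H2 g K Z ν) (hA1 : 2468041 * K ≤ 1000000 * ν)
    (hA2 : 1000000 * ν ≤ 2772225 * K) : False := by
  have hZ := h.hZ
  have hZ0 : 0 ≤ Z := by omega
  have hK0 : 0 < K := by
    have := h.hK1
    nlinarith
  have r0 : NuR K ν 0 ν := Or.inl ⟨by norm_num, by norm_num, rfl⟩
  have r1 : NuR K ν 1 ν := Or.inl ⟨by norm_num, by norm_num, rfl⟩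
  have r2 : NuR K ν 2 (ν + 4 * K) := Or.inr ⟨by norm_num, by norm_num, rfl⟩
  have r3 : NuR K ν 3 (ν + 4 * K) := Or.inr ⟨by norm_num, by norm_num, rfl⟩
  obtain ⟨s0, P0⟩ := piece h r0 (α := 0) (β := 1412) (by norm_num) (by norm_num) (by norm_num)
    (by norm_num) (by norm_num) (Or.inl (by linarith))
  obtain ⟨s1, P1⟩ := piece h r1 (α := 1417) (β := 1569) (by norm_num) (by norm_num) (by norm_num)
    (by norm_num) (by norm_num) (Or.inl (by linarith))
  obtain ⟨s2, P2⟩ := piece h r1 (α := 1667) (β := 1998) (by norm_num) (by norm_num) (by norm_num)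
    (by norm_num) (by norm_num) (Or.inr ⟨by norm_num, by norm_num, by linarith⟩)
  obtain ⟨s3, P3⟩ := piece h r2 (α := 2002) (β := 2447) (by norm_num) (by norm_num) (by norm_num)
    (by norm_num) (by norm_num) (Or.inl (by linarith))
  obtain ⟨s4, P4⟩ := piece h r3 (α := 2452) (β := 2541) (by norm_num) (by norm_num) (by norm_num)
    (by norm_num) (by norm_num) (Or.inl (by linarith))
  obtain ⟨s5, P5⟩ := piece h r3 (α := 2605) (β := 2826) (by norm_num) (by norm_num) (by norm_num)
    (by norm_num) (by norm_num) (Or.inr ⟨by norm_num, by norm_num, by linarith⟩)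
  have e0 : s2 = s3 := rel1 h (l1 := (-1859)) (l2 := (-1806)) (by norm_num) (by norm_num) (by norm_num)
    (cn_neg hZ0 P2 (lo := (-1859)) (hi := (-1806)) (by norm_num) (by norm_num) (by norm_num))
    (cn_pos hZ0 P0 (lo := (-1859) + 1973) (hi := (-1806) + 2027) (by norm_num) (by norm_num) (by norm_num))
    (cn_pos hZ0 P3 (lo := (-1859) + 4000) (hi := (-1806) + 4002) (by norm_num) (by norm_num) (by norm_num))
  have e1 : s5 = s0 := rel1 h (l1 := (-2742)) (l2 := (-2689)) (by norm_num) (by norm_num) (by norm_num)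
    (cn_neg hZ0 P5 (lo := (-2742)) (hi := (-2689)) (by norm_num) (by norm_num) (by norm_num))
    (cn_neg hZ0 P0 (lo := (-2742) + 1973) (hi := (-2689) + 2027) (by norm_num) (by norm_num) (by norm_num))
    (cn_pos hZ0 P0 (lo := (-2742) + 4000) (hi := (-2689) + 4002) (by norm_num) (by norm_num) (by norm_num))
  have e2 : s1 + s5 = s0 + s0 := relh h (l1 := (-1541)) (l2 := (-1478)) (by norm_num) (by norm_num)
    (by norm_num)
    (cn_neg hZ0 P1 (lo := (-1541)) (hi := (-1478)) (by norm_num) (by norm_num) (by norm_num))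
    (cn_pos hZ0 P0 (lo := (-1541) + 2828) (hi := (-1478) + 2862) (by norm_num) (by norm_num) (by norm_num))
    (cn_neg hZ0 P0 (lo := (-1541) + 1398) (hi := (-1478) + 1415) (by norm_num) (by norm_num) (by norm_num))
    (cn_pos hZ0 P5 (lo := (-1541) + 4242) (hi := (-1478) + 4262) (by norm_num) (by norm_num) (by norm_num))
  have e3 : s4 = s1 := rel1 h (l1 := (-2523)) (l2 := (-2470)) (by norm_num) (by norm_num) (by norm_num)
    (cn_neg hZ0 P4 (lo := (-2523)) (hi := (-2470)) (by norm_num) (by norm_num) (by norm_num))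
    (cn_neg hZ0 P0 (lo := (-2523) + 1973) (hi := (-2470) + 2027) (by norm_num) (by norm_num) (by norm_num))
    (cn_pos hZ0 P1 (lo := (-2523) + 4000) (hi := (-2470) + 4002) (by norm_num) (by norm_num) (by norm_num))
  have e4 : s4 + s2 = s0 + s0 := relh h (l1 := (-2528)) (l2 := (-2465)) (by norm_num) (by norm_num)
    (by norm_num)
    (cn_neg hZ0 P4 (lo := (-2528)) (hi := (-2465)) (by norm_num) (by norm_num) (by norm_num))
    (cn_pos hZ0 P0 (lo := (-2528) + 2828) (hi := (-2465) + 2862) (by norm_num) (by norm_num) (by norm_num))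
    (cn_neg hZ0 P0 (lo := (-2528) + 1398) (hi := (-2465) + 1415) (by norm_num) (by norm_num) (by norm_num))
    (cn_pos hZ0 P2 (lo := (-2528) + 4242) (hi := (-2465) + 4262) (by norm_num) (by norm_num) (by norm_num))
  have q0_2 : s0 = s2 := by
    have T : ∀ s0 s1 s2 s3 s4 s5 : ZMod 2, s2 = s3 → s5 = s0 → s1 + s5 = s0 + s0 → s4 = s1 → s4 + s2 = s0 + s0 → s0 = s2 := by decide
    exact T s0 s1 s2 s3 s4 s5 e0 e1 e2 e3 e4
  have q0_3 : s0 = s3 := by
    have T : ∀ s0 s1 s2 s3 s4 s5 : ZMod 2, s2 = s3 → s5 = s0 → s1 + s5 = s0 + s0 → s4 = s1 → s4 + s2 = s0 + s0 → s0 = s3 := by decide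
    exact T s0 s1 s2 s3 s4 s5 e0 e1 e2 e3 e4
  have q0_5 : s0 = s5 := by
    have T : ∀ s0 s1 s2 s3 s4 s5 : ZMod 2, s2 = s3 → s5 = s0 → s1 + s5 = s0 + s0 → s4 = s1 → s4 + s2 = s0 + s0 → s0 = s5 := by decide
    exact T s0 s1 s2 s3 s4 s5 e0 e1 e2 e3 e4
  refine fin h (ta := 650) (tb := 686) (by norm_num) (by norm_num) ?_
  intro p hp h1 h2
  rcases le_or_gt (1000 * p) (656 * Z) with t2 | t2
  · obtain ⟨q, X, hq, hX, x0, x1⟩ := startQ h (p := p) (L := (-2826)) (by omega)
    rcases le_or_gt (1000 * X) ((-2605) * Z) with y | y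
    · exact sb h 0 (ql := 3046) (qh := 3079) (x0 := (-2826)) (x1 := (-2605)) hp hq hX h1 t2 x0 y
        (cn_neg hZ0 P5 (lo := (-2826)) (hi := (-2605)) (by norm_num) (by norm_num) (by norm_num))
        (cn_pos hZ0 P0 (lo := 220) (hi := 474) (by norm_num) (by norm_num) (by norm_num))
        q0_5.symm (by norm_num)
    have y0 := y.le
    clear y
    rcases le_or_gt (1000 * X) ((-2393) * Z) with y | y
    · exact sb h 1 (ql := 3046) (qh := 3079) (x0 := (-2605)) (x1 := (-2393)) hp hq hX h1 t2 y0 y
        (cn_neg hZ0 P0 (lo := (-1306)) (hi := (-1081)) (by norm_num) (by norm_num) (by norm_num))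
        (cn_pos hZ0 P2 (lo := 1740) (hi := 1998) (by norm_num) (by norm_num) (by norm_num))
        q0_2 (by norm_num)
    have y1 := y.le
    clear y
    rcases le_or_gt (1000 * X) ((-2002) * Z) with y | y
    · exact sb h 0 (ql := 3046) (qh := 3079) (x0 := (-2393)) (x1 := (-2002)) hp hq hX h1 t2 y1 y
        (cn_neg hZ0 P3 (lo := (-2394)) (hi := (-2002)) (by norm_num) (by norm_num) (by norm_num))
        (cn_pos hZ0 P0 (lo := 652) (hi := 1077) (by norm_num) (by norm_num) (by norm_num))
        q0_3.symm (by norm_num)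
    have y2 := y.le
    clear y
    rcases le_or_gt (1000 * X) ((-1944) * Z) with y | y
    · exact sb h 1 (ql := 3046) (qh := 3079) (x0 := (-2002)) (x1 := (-1944)) hp hq hX h1 t2 y2 y
        (cn_neg hZ0 P0 (lo := (-703)) (hi := (-632)) (by norm_num) (by norm_num) (by norm_num))
        (cn_pos hZ0 P3 (lo := 2343) (hi := 2447) (by norm_num) (by norm_num) (by norm_num))
        q0_3 (by norm_num)
    have y3 := y.le
    clear y
    rcases le_or_gt (1000 * X) ((-1667) * Z) with y | y
    · exact sb h 0 (ql := 3046) (qh := 3079) (x0 := (-1944)) (x1 := (-1667)) hp hq hX h1 t2 y3 y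
        (cn_neg hZ0 P2 (lo := (-1945)) (hi := (-1667)) (by norm_num) (by norm_num) (by norm_num))
        (cn_pos hZ0 P0 (lo := 1101) (hi := 1412) (by norm_num) (by norm_num) (by norm_num))
        q0_2.symm (by norm_num)
    have y4 := y.le
    clear y
    rcases le_or_gt (1000 * X) ((-1565) * Z) with y | y
    · exact sb h 1 (ql := 3046) (qh := 3079) (x0 := (-1667)) (x1 := (-1565)) hp hq hX h1 t2 y4 y
        (cn_neg hZ0 P0 (lo := (-368)) (hi := (-253)) (by norm_num) (by norm_num) (by norm_num))
        (cn_pos hZ0 P5 (lo := 2678) (hi := 2826) (by norm_num) (by norm_num) (by norm_num))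
        q0_5 (by norm_num)
    have y5 := y.le
    clear y
    exact sb h 0 (ql := 3046) (qh := 3079) (x0 := (-1565)) (x1 := (-1510)) hp hq hX h1 t2 y5 (by omega)
        (cn_neg hZ0 P1 (lo := (-1566)) (hi := (-1510)) (by norm_num) (by norm_num) (by norm_num))
        (cn_pos hZ0 P1 (lo := 1480) (hi := 1569) (by norm_num) (by norm_num) (by norm_num))
        rfl (by norm_num)
  have t1 := t2
  clear t2
  rcases le_or_gt (1000 * p) (662 * Z) with t2 | t2
  · obtain ⟨q, X, hq, hX, x0, x1⟩ := startQ h (p := p) (L := (-2826)) (by omega)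
    rcases le_or_gt (1000 * X) ((-2605) * Z) with y | y
    · exact sb h 0 (ql := 3019) (qh := 3051) (x0 := (-2826)) (x1 := (-2605)) hp hq hX t1.le t2 x0 y
        (cn_neg hZ0 P5 (lo := (-2826)) (hi := (-2605)) (by norm_num) (by norm_num) (by norm_num))
        (cn_pos hZ0 P0 (lo := 193) (hi := 446) (by norm_num) (by norm_num) (by norm_num))
        q0_5.symm (by norm_num)
    have y0 := y.le
    clear y
    rcases le_or_gt (1000 * X) ((-2377) * Z) with y | y
    · exact sb h 1 (ql := 3019) (qh := 3051) (x0 := (-2605)) (x1 := (-2377)) hp hq hX t1.le t2 y0 y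
        (cn_neg hZ0 P0 (lo := (-1294)) (hi := (-1053)) (by norm_num) (by norm_num) (by norm_num))
        (cn_pos hZ0 P2 (lo := 1725) (hi := 1998) (by norm_num) (by norm_num) (by norm_num))
        q0_2 (by norm_num)
    have y1 := y.le
    clear y
    rcases le_or_gt (1000 * X) ((-2002) * Z) with y | y
    · exact sb h 0 (ql := 3019) (qh := 3051) (x0 := (-2377)) (x1 := (-2002)) hp hq hX t1.le t2 y1 y
        (cn_neg hZ0 P3 (lo := (-2378)) (hi := (-2002)) (by norm_num) (by norm_num) (by norm_num))
        (cn_pos hZ0 P0 (lo := 641) (hi := 1049) (by norm_num) (by norm_num) (by norm_num))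
        q0_3.symm (by norm_num)
    have y2 := y.le
    clear y
    rcases le_or_gt (1000 * X) ((-1928) * Z) with y | y
    · exact sb h 1 (ql := 3019) (qh := 3051) (x0 := (-2002)) (x1 := (-1928)) hp hq hX t1.le t2 y2 y
        (cn_neg hZ0 P0 (lo := (-691)) (hi := (-604)) (by norm_num) (by norm_num) (by norm_num))
        (cn_pos hZ0 P3 (lo := 2328) (hi := 2447) (by norm_num) (by norm_num) (by norm_num))
        q0_3 (by norm_num)
    have y3 := y.le
    clear y
    rcases le_or_gt (1000 * X) ((-1667) * Z) with y | y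
    · exact sb h 0 (ql := 3019) (qh := 3051) (x0 := (-1928)) (x1 := (-1667)) hp hq hX t1.le t2 y3 y
        (cn_neg hZ0 P2 (lo := (-1929)) (hi := (-1667)) (by norm_num) (by norm_num) (by norm_num))
        (cn_pos hZ0 P0 (lo := 1090) (hi := 1384) (by norm_num) (by norm_num) (by norm_num))
        q0_2.symm (by norm_num)
    have y4 := y.le
    clear y
    rcases le_or_gt (1000 * X) ((-1549) * Z) with y | y
    · exact sb h 1 (ql := 3019) (qh := 3051) (x0 := (-1667)) (x1 := (-1549)) hp hq hX t1.le t2 y4 y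
        (cn_neg hZ0 P0 (lo := (-356)) (hi := (-225)) (by norm_num) (by norm_num) (by norm_num))
        (cn_pos hZ0 P5 (lo := 2663) (hi := 2826) (by norm_num) (by norm_num) (by norm_num))
        q0_5 (by norm_num)
    have y5 := y.le
    clear y
    exact sb h 0 (ql := 3019) (qh := 3051) (x0 := (-1549)) (x1 := (-1482)) hp hq hX t1.le t2 y5 (by omega)
        (cn_neg hZ0 P1 (lo := (-1550)) (hi := (-1482)) (by norm_num) (by norm_num) (by norm_num))
        (cn_pos hZ0 P1 (lo := 1469) (hi := 1569) (by norm_num) (by norm_num) (by norm_num))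
        rfl (by norm_num)
  have t1 := t2
  clear t2
  rcases le_or_gt (1000 * p) (668 * Z) with t2 | t2
  · obtain ⟨q, X, hq, hX, x0, x1⟩ := startQ h (p := p) (L := (-2826)) (by omega)
    rcases le_or_gt (1000 * X) ((-2605) * Z) with y | y
    · exact sb h 0 (ql := 2992) (qh := 3024) (x0 := (-2826)) (x1 := (-2605)) hp hq hX t1.le t2 x0 y
        (cn_neg hZ0 P5 (lo := (-2826)) (hi := (-2605)) (by norm_num) (by norm_num) (by norm_num))
        (cn_pos hZ0 P0 (lo := 166) (hi := 419) (by norm_num) (by norm_num) (by norm_num))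
        q0_5.symm (by norm_num)
    have y0 := y.le
    clear y
    rcases le_or_gt (1000 * X) ((-2362) * Z) with y | y
    · exact sb h 1 (ql := 2992) (qh := 3024) (x0 := (-2605)) (x1 := (-2362)) hp hq hX t1.le t2 y0 y
        (cn_neg hZ0 P0 (lo := (-1282)) (hi := (-1026)) (by norm_num) (by norm_num) (by norm_num))
        (cn_pos hZ0 P2 (lo := 1710) (hi := 1998) (by norm_num) (by norm_num) (by norm_num))
        q0_2 (by norm_num)
    have y1 := y.le
    clear y
    rcases le_or_gt (1000 * X) ((-2002) * Z) with y | y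
    · exact sb h 0 (ql := 2992) (qh := 3024) (x0 := (-2362)) (x1 := (-2002)) hp hq hX t1.le t2 y1 y
        (cn_neg hZ0 P3 (lo := (-2363)) (hi := (-2002)) (by norm_num) (by norm_num) (by norm_num))
        (cn_pos hZ0 P0 (lo := 629) (hi := 1022) (by norm_num) (by norm_num) (by norm_num))
        q0_3.symm (by norm_num)
    have y2 := y.le
    clear y
    rcases le_or_gt (1000 * X) ((-1913) * Z) with y | y
    · exact sb h 1 (ql := 2992) (qh := 3024) (x0 := (-2002)) (x1 := (-1913)) hp hq hX t1.le t2 y2 y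
        (cn_neg hZ0 P0 (lo := (-679)) (hi := (-577)) (by norm_num) (by norm_num) (by norm_num))
        (cn_pos hZ0 P3 (lo := 2313) (hi := 2447) (by norm_num) (by norm_num) (by norm_num))
        q0_3 (by norm_num)
    have y3 := y.le
    clear y
    rcases le_or_gt (1000 * X) ((-1667) * Z) with y | y
    · exact sb h 0 (ql := 2992) (qh := 3024) (x0 := (-1913)) (x1 := (-1667)) hp hq hX t1.le t2 y3 y
        (cn_neg hZ0 P2 (lo := (-1914)) (hi := (-1667)) (by norm_num) (by norm_num) (by norm_num))
        (cn_pos hZ0 P0 (lo := 1078) (hi := 1357) (by norm_num) (by norm_num) (by norm_num))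
        q0_2.symm (by norm_num)
    have y4 := y.le
    clear y
    rcases le_or_gt (1000 * X) ((-1534) * Z) with y | y
    · exact sb h 1 (ql := 2992) (qh := 3024) (x0 := (-1667)) (x1 := (-1534)) hp hq hX t1.le t2 y4 y
        (cn_neg hZ0 P0 (lo := (-344)) (hi := (-198)) (by norm_num) (by norm_num) (by norm_num))
        (cn_pos hZ0 P5 (lo := 2648) (hi := 2826) (by norm_num) (by norm_num) (by norm_num))
        q0_5 (by norm_num)
    have y5 := y.le
    clear y
    exact sb h 0 (ql := 2992) (qh := 3024) (x0 := (-1534)) (x1 := (-1455)) hp hq hX t1.le t2 y5 (by omega)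
        (cn_neg hZ0 P1 (lo := (-1535)) (hi := (-1455)) (by norm_num) (by norm_num) (by norm_num))
        (cn_pos hZ0 P1 (lo := 1457) (hi := 1569) (by norm_num) (by norm_num) (by norm_num))
        rfl (by norm_num)
  have t1 := t2
  clear t2
  rcases le_or_gt (1000 * p) (674 * Z) with t2 | t2
  · obtain ⟨q, X, hq, hX, x0, x1⟩ := startQ h (p := p) (L := (-2826)) (by omega)
    rcases le_or_gt (1000 * X) ((-2605) * Z) with y | y
    · exact sb h 0 (ql := 2965) (qh := 2997) (x0 := (-2826)) (x1 := (-2605)) hp hq hX t1.le t2 x0 y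
        (cn_neg hZ0 P5 (lo := (-2826)) (hi := (-2605)) (by norm_num) (by norm_num) (by norm_num))
        (cn_pos hZ0 P0 (lo := 139) (hi := 392) (by norm_num) (by norm_num) (by norm_num))
        q0_5.symm (by norm_num)
    have y0 := y.le
    clear y
    rcases le_or_gt (1000 * X) ((-2347) * Z) with y | y
    · exact sb h 1 (ql := 2965) (qh := 2997) (x0 := (-2605)) (x1 := (-2347)) hp hq hX t1.le t2 y0 y
        (cn_neg hZ0 P0 (lo := (-1270)) (hi := (-999)) (by norm_num) (by norm_num) (by norm_num))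
        (cn_pos hZ0 P2 (lo := 1695) (hi := 1998) (by norm_num) (by norm_num) (by norm_num))
        q0_2 (by norm_num)
    have y1 := y.le
    clear y
    rcases le_or_gt (1000 * X) ((-2002) * Z) with y | y
    · exact sb h 0 (ql := 2965) (qh := 2997) (x0 := (-2347)) (x1 := (-2002)) hp hq hX t1.le t2 y1 y
        (cn_neg hZ0 P3 (lo := (-2348)) (hi := (-2002)) (by norm_num) (by norm_num) (by norm_num))
        (cn_pos hZ0 P0 (lo := 617) (hi := 995) (by norm_num) (by norm_num) (by norm_num))
        q0_3.symm (by norm_num)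
    have y2 := y.le
    clear y
    rcases le_or_gt (1000 * X) ((-1898) * Z) with y | y
    · exact sb h 1 (ql := 2965) (qh := 2997) (x0 := (-2002)) (x1 := (-1898)) hp hq hX t1.le t2 y2 y
        (cn_neg hZ0 P0 (lo := (-667)) (hi := (-550)) (by norm_num) (by norm_num) (by norm_num))
        (cn_pos hZ0 P3 (lo := 2298) (hi := 2447) (by norm_num) (by norm_num) (by norm_num))
        q0_3 (by norm_num)
    have y3 := y.le
    clear y
    rcases le_or_gt (1000 * X) ((-1667) * Z) with y | y
    · exact sb h 0 (ql := 2965) (qh := 2997) (x0 := (-1898)) (x1 := (-1667)) hp hq hX t1.le t2 y3 y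
        (cn_neg hZ0 P2 (lo := (-1899)) (hi := (-1667)) (by norm_num) (by norm_num) (by norm_num))
        (cn_pos hZ0 P0 (lo := 1066) (hi := 1330) (by norm_num) (by norm_num) (by norm_num))
        q0_2.symm (by norm_num)
    have y4 := y.le
    clear y
    rcases le_or_gt (1000 * X) ((-1519) * Z) with y | y
    · exact sb h 1 (ql := 2965) (qh := 2997) (x0 := (-1667)) (x1 := (-1519)) hp hq hX t1.le t2 y4 y
        (cn_neg hZ0 P0 (lo := (-332)) (hi := (-171)) (by norm_num) (by norm_num) (by norm_num))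
        (cn_pos hZ0 P5 (lo := 2633) (hi := 2826) (by norm_num) (by norm_num) (by norm_num))
        q0_5 (by norm_num)
    have y5 := y.le
    clear y
    exact sb h 0 (ql := 2965) (qh := 2997) (x0 := (-1519)) (x1 := (-1428)) hp hq hX t1.le t2 y5 (by omega)
        (cn_neg hZ0 P1 (lo := (-1520)) (hi := (-1428)) (by norm_num) (by norm_num) (by norm_num))
        (cn_pos hZ0 P1 (lo := 1445) (hi := 1569) (by norm_num) (by norm_num) (by norm_num))
        rfl (by norm_num)
  have t1 := t2
  clear t2
  rcases le_or_gt (1000 * p) (680 * Z) with t2 | t2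
  · obtain ⟨q, X, hq, hX, x0, x1⟩ := startQ h (p := p) (L := (-2826)) (by omega)
    rcases le_or_gt (1000 * X) ((-2605) * Z) with y | y
    · exact sb h 0 (ql := 2939) (qh := 2970) (x0 := (-2826)) (x1 := (-2605)) hp hq hX t1.le t2 x0 y
        (cn_neg hZ0 P5 (lo := (-2826)) (hi := (-2605)) (by norm_num) (by norm_num) (by norm_num))
        (cn_pos hZ0 P0 (lo := 113) (hi := 365) (by norm_num) (by norm_num) (by norm_num))
        q0_5.symm (by norm_num)
    have y0 := y.le
    clear y
    rcases le_or_gt (1000 * X) ((-2332) * Z) with y | y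
    · exact sb h 1 (ql := 2939) (qh := 2970) (x0 := (-2605)) (x1 := (-2332)) hp hq hX t1.le t2 y0 y
        (cn_neg hZ0 P0 (lo := (-1258)) (hi := (-972)) (by norm_num) (by norm_num) (by norm_num))
        (cn_pos hZ0 P2 (lo := 1681) (hi := 1998) (by norm_num) (by norm_num) (by norm_num))
        q0_2 (by norm_num)
    have y1 := y.le
    clear y
    rcases le_or_gt (1000 * X) ((-2002) * Z) with y | y
    · exact sb h 0 (ql := 2939) (qh := 2970) (x0 := (-2332)) (x1 := (-2002)) hp hq hX t1.le t2 y1 y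
        (cn_neg hZ0 P3 (lo := (-2333)) (hi := (-2002)) (by norm_num) (by norm_num) (by norm_num))
        (cn_pos hZ0 P0 (lo := 606) (hi := 968) (by norm_num) (by norm_num) (by norm_num))
        q0_3.symm (by norm_num)
    have y2 := y.le
    clear y
    rcases le_or_gt (1000 * X) ((-1883) * Z) with y | y
    · exact sb h 1 (ql := 2939) (qh := 2970) (x0 := (-2002)) (x1 := (-1883)) hp hq hX t1.le t2 y2 y
        (cn_neg hZ0 P0 (lo := (-655)) (hi := (-523)) (by norm_num) (by norm_num) (by norm_num))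
        (cn_pos hZ0 P3 (lo := 2284) (hi := 2447) (by norm_num) (by norm_num) (by norm_num))
        q0_3 (by norm_num)
    have y3 := y.le
    clear y
    rcases le_or_gt (1000 * X) ((-1667) * Z) with y | y
    · exact sb h 0 (ql := 2939) (qh := 2970) (x0 := (-1883)) (x1 := (-1667)) hp hq hX t1.le t2 y3 y
        (cn_neg hZ0 P2 (lo := (-1884)) (hi := (-1667)) (by norm_num) (by norm_num) (by norm_num))
        (cn_pos hZ0 P0 (lo := 1055) (hi := 1303) (by norm_num) (by norm_num) (by norm_num))
        q0_2.symm (by norm_num)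
    have y4 := y.le
    clear y
    rcases le_or_gt (1000 * X) ((-1504) * Z) with y | y
    · exact sb h 1 (ql := 2939) (qh := 2970) (x0 := (-1667)) (x1 := (-1504)) hp hq hX t1.le t2 y4 y
        (cn_neg hZ0 P0 (lo := (-320)) (hi := (-144)) (by norm_num) (by norm_num) (by norm_num))
        (cn_pos hZ0 P5 (lo := 2619) (hi := 2826) (by norm_num) (by norm_num) (by norm_num))
        q0_5 (by norm_num)
    have y5 := y.le
    clear y
    exact sb h 0 (ql := 2939) (qh := 2970) (x0 := (-1504)) (x1 := (-1417)) hp hq hX t1.le t2 y5 (by omega)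
        (cn_neg hZ0 P1 (lo := (-1505)) (hi := (-1417)) (by norm_num) (by norm_num) (by norm_num))
        (cn_pos hZ0 P1 (lo := 1434) (hi := 1553) (by norm_num) (by norm_num) (by norm_num))
        rfl (by norm_num)
  have t1 := t2
  clear t2
  obtain ⟨q, X, hq, hX, x0, x1⟩ := startQ h (p := p) (L := (-2826)) (by omega)
  rcases le_or_gt (1000 * X) ((-2605) * Z) with y | y
  · exact sb h 0 (ql := 2913) (qh := 2944) (x0 := (-2826)) (x1 := (-2605)) hp hq hX t1.le h2 x0 y
      (cn_neg hZ0 P5 (lo := (-2826)) (hi := (-2605)) (by norm_num) (by norm_num) (by norm_num))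
      (cn_pos hZ0 P0 (lo := 87) (hi := 339) (by norm_num) (by norm_num) (by norm_num))
      q0_5.symm (by norm_num)
  have y0 := y.le
  clear y
  rcases le_or_gt (1000 * X) ((-2318) * Z) with y | y
  · exact sb h 1 (ql := 2913) (qh := 2944) (x0 := (-2605)) (x1 := (-2318)) hp hq hX t1.le h2 y0 y
      (cn_neg hZ0 P0 (lo := (-1246)) (hi := (-946)) (by norm_num) (by norm_num) (by norm_num))
      (cn_pos hZ0 P2 (lo := 1667) (hi := 1998) (by norm_num) (by norm_num) (by norm_num))
      q0_2 (by norm_num)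
  have y1 := y.le
  clear y
  rcases le_or_gt (1000 * X) ((-2002) * Z) with y | y
  · exact sb h 0 (ql := 2913) (qh := 2944) (x0 := (-2318)) (x1 := (-2002)) hp hq hX t1.le h2 y1 y
      (cn_neg hZ0 P3 (lo := (-2319)) (hi := (-2002)) (by norm_num) (by norm_num) (by norm_num))
      (cn_pos hZ0 P0 (lo := 594) (hi := 942) (by norm_num) (by norm_num) (by norm_num))
      q0_3.symm (by norm_num)
  have y2 := y.le
  clear y
  rcases le_or_gt (1000 * X) ((-1869) * Z) with y | y
  · exact sb h 1 (ql := 2913) (qh := 2944) (x0 := (-2002)) (x1 := (-1869)) hp hq hX t1.le h2 y2 y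
      (cn_neg hZ0 P0 (lo := (-643)) (hi := (-497)) (by norm_num) (by norm_num) (by norm_num))
      (cn_pos hZ0 P3 (lo := 2270) (hi := 2447) (by norm_num) (by norm_num) (by norm_num))
      q0_3 (by norm_num)
  have y3 := y.le
  clear y
  rcases le_or_gt (1000 * X) ((-1667) * Z) with y | y
  · exact sb h 0 (ql := 2913) (qh := 2944) (x0 := (-1869)) (x1 := (-1667)) hp hq hX t1.le h2 y3 y
      (cn_neg hZ0 P2 (lo := (-1870)) (hi := (-1667)) (by norm_num) (by norm_num) (by norm_num))
      (cn_pos hZ0 P0 (lo := 1043) (hi := 1277) (by norm_num) (by norm_num) (by norm_num))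
      q0_2.symm (by norm_num)
  have y4 := y.le
  clear y
  rcases le_or_gt (1000 * X) ((-1490) * Z) with y | y
  · exact sb h 1 (ql := 2913) (qh := 2944) (x0 := (-1667)) (x1 := (-1490)) hp hq hX t1.le h2 y4 y
      (cn_neg hZ0 P0 (lo := (-308)) (hi := (-118)) (by norm_num) (by norm_num) (by norm_num))
      (cn_pos hZ0 P5 (lo := 2605) (hi := 2826) (by norm_num) (by norm_num) (by norm_num))
      q0_5 (by norm_num)
  have y5 := y.le
  clear y
  exact sb h 0 (ql := 2913) (qh := 2944) (x0 := (-1490)) (x1 := (-1417)) hp hq hX t1.le h2 y5 (by omega)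
      (cn_neg hZ0 P1 (lo := (-1491)) (hi := (-1417)) (by norm_num) (by norm_num) (by norm_num))
      (cn_pos hZ0 P1 (lo := 1422) (hi := 1527) (by norm_num) (by norm_num) (by norm_num))
      rfl (by norm_num)

theorem cell10 (h : H2 g K Z ν) (hA1 : 2772225 * K ≤ 1000000 * ν)
    (hA2 : 1000000 * ν ≤ 2822400 * K) : False := by
  have hZ := h.hZ
  have hZ0 : 0 ≤ Z := by omega
  have hK0 : 0 < K := by
    have := h.hK1
    nlinarith
  have r0 : NuR K ν 0 ν := Or.inl ⟨by norm_num, by norm_num, rfl⟩
  have r1 : NuR K ν 1 ν := Or.inl ⟨by norm_num, by norm_num, rfl⟩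
  have r2 : NuR K ν 2 (ν + 4 * K) := Or.inr ⟨by norm_num, by norm_num, rfl⟩
  have r3 : NuR K ν 3 (ν + 4 * K) := Or.inr ⟨by norm_num, by norm_num, rfl⟩
  obtain ⟨s0, P0⟩ := piece h r0 (α := 0) (β := 1412) (by norm_num) (by norm_num) (by norm_num)
    (by norm_num) (by norm_num) (Or.inl (by linarith))
  obtain ⟨s1, P1⟩ := piece h r1 (α := 1417) (β := 1663) (by norm_num) (by norm_num) (by norm_num)
    (by norm_num) (by norm_num) (Or.inl (by linarith))
  obtain ⟨s2, P2⟩ := piece h r1 (α := 1682) (β := 1998) (by norm_num) (by norm_num) (by norm_num)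
    (by norm_num) (by norm_num) (Or.inr ⟨by norm_num, by norm_num, by linarith⟩)
  obtain ⟨s3, P3⟩ := piece h r2 (α := 2002) (β := 2447) (by norm_num) (by norm_num) (by norm_num)
    (by norm_num) (by norm_num) (Or.inl (by linarith))
  obtain ⟨s4, P4⟩ := piece h r3 (α := 2452) (β := 2600) (by norm_num) (by norm_num) (by norm_num)
    (by norm_num) (by norm_num) (Or.inl (by linarith))
  obtain ⟨s5, P5⟩ := piece h r3 (α := 2614) (β := 2826) (by norm_num) (by norm_num) (by norm_num)
    (by norm_num) (by norm_num) (Or.inr ⟨by norm_num, by norm_num, by linarith⟩)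
  have e0 : s2 = s3 := rel1 h (l1 := (-1866)) (l2 := (-1813)) (by norm_num) (by norm_num) (by norm_num)
    (cn_neg hZ0 P2 (lo := (-1866)) (hi := (-1813)) (by norm_num) (by norm_num) (by norm_num))
    (cn_pos hZ0 P0 (lo := (-1866) + 1973) (hi := (-1813) + 2027) (by norm_num) (by norm_num) (by norm_num))
    (cn_pos hZ0 P3 (lo := (-1866) + 4000) (hi := (-1813) + 4002) (by norm_num) (by norm_num) (by norm_num))
  have e1 : s5 = s0 := rel1 h (l1 := (-2746)) (l2 := (-2693)) (by norm_num) (by norm_num) (by norm_num)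
    (cn_neg hZ0 P5 (lo := (-2746)) (hi := (-2693)) (by norm_num) (by norm_num) (by norm_num))
    (cn_neg hZ0 P0 (lo := (-2746) + 1973) (hi := (-2693) + 2027) (by norm_num) (by norm_num) (by norm_num))
    (cn_pos hZ0 P0 (lo := (-2746) + 4000) (hi := (-2693) + 4002) (by norm_num) (by norm_num) (by norm_num))
  have e2 : s5 + s1 = s0 + s0 := relh h (l1 := (-2743)) (l2 := (-2680)) (by norm_num) (by norm_num)
    (by norm_num)
    (cn_neg hZ0 P5 (lo := (-2743)) (hi := (-2680)) (by norm_num) (by norm_num) (by norm_num))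
    (cn_pos hZ0 P0 (lo := (-2743) + 2828) (hi := (-2680) + 2862) (by norm_num) (by norm_num) (by norm_num))
    (cn_neg hZ0 P0 (lo := (-2743) + 1398) (hi := (-2680) + 1415) (by norm_num) (by norm_num) (by norm_num))
    (cn_pos hZ0 P1 (lo := (-2743) + 4242) (hi := (-2680) + 4262) (by norm_num) (by norm_num) (by norm_num))
  have e3 : s4 = s1 := rel1 h (l1 := (-2544)) (l2 := (-2491)) (by norm_num) (by norm_num) (by norm_num)
    (cn_neg hZ0 P4 (lo := (-2544)) (hi := (-2491)) (by norm_num) (by norm_num) (by norm_num))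
    (cn_neg hZ0 P0 (lo := (-2544) + 1973) (hi := (-2491) + 2027) (by norm_num) (by norm_num) (by norm_num))
    (cn_pos hZ0 P1 (lo := (-2544) + 4000) (hi := (-2491) + 4002) (by norm_num) (by norm_num) (by norm_num))
  have e4 : s3 = s1 := rel1 h (l1 := (-2419)) (l2 := (-2366)) (by norm_num) (by norm_num) (by norm_num)
    (cn_neg hZ0 P3 (lo := (-2419)) (hi := (-2366)) (by norm_num) (by norm_num) (by norm_num))
    (cn_neg hZ0 P0 (lo := (-2419) + 1973) (hi := (-2366) + 2027) (by norm_num) (by norm_num) (by norm_num))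
    (cn_pos hZ0 P1 (lo := (-2419) + 4000) (hi := (-2366) + 4002) (by norm_num) (by norm_num) (by norm_num))
  have q0_2 : s0 = s2 := by
    have T : ∀ s0 s1 s2 s3 s4 s5 : ZMod 2, s2 = s3 → s5 = s0 → s5 + s1 = s0 + s0 → s4 = s1 → s3 = s1 → s0 = s2 := by decide
    exact T s0 s1 s2 s3 s4 s5 e0 e1 e2 e3 e4
  have q0_3 : s0 = s3 := by
    have T : ∀ s0 s1 s2 s3 s4 s5 : ZMod 2, s2 = s3 → s5 = s0 → s5 + s1 = s0 + s0 → s4 = s1 → s3 = s1 → s0 = s3 := by decide
    exact T s0 s1 s2 s3 s4 s5 e0 e1 e2 e3 e4
  have q0_5 : s0 = s5 := by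
    have T : ∀ s0 s1 s2 s3 s4 s5 : ZMod 2, s2 = s3 → s5 = s0 → s5 + s1 = s0 + s0 → s4 = s1 → s3 = s1 → s0 = s5 := by decide
    exact T s0 s1 s2 s3 s4 s5 e0 e1 e2 e3 e4
  refine fin h (ta := 640) (tb := 675) (by norm_num) (by norm_num) ?_
  intro p hp h1 h2
  rcases le_or_gt (1000 * p) (646 * Z) with t2 | t2
  · obtain ⟨q, X, hq, hX, x0, x1⟩ := startQ h (p := p) (L := (-2826)) (by omega)
    rcases le_or_gt (1000 * X) ((-2614) * Z) with y | y
    · exact sb h 0 (ql := 3093) (qh := 3127) (x0 := (-2826)) (x1 := (-2614)) hp hq hX h1 t2 x0 y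
        (cn_neg hZ0 P5 (lo := (-2826)) (hi := (-2614)) (by norm_num) (by norm_num) (by norm_num))
        (cn_pos hZ0 P0 (lo := 267) (hi := 513) (by norm_num) (by norm_num) (by norm_num))
        q0_5.symm (by norm_num)
    have y0 := y.le
    clear y
    rcases le_or_gt (1000 * X) ((-2421) * Z) with y | y
    · exact sb h 1 (ql := 3093) (qh := 3127) (x0 := (-2614)) (x1 := (-2421)) hp hq hX h1 t2 y0 y
        (cn_neg hZ0 P0 (lo := (-1335)) (hi := (-1129)) (by norm_num) (by norm_num) (by norm_num))
        (cn_pos hZ0 P2 (lo := 1758) (hi := 1998) (by norm_num) (by norm_num) (by norm_num))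
        q0_2 (by norm_num)
    have y1 := y.le
    clear y
    rcases le_or_gt (1000 * X) ((-2002) * Z) with y | y
    · exact sb h 0 (ql := 3093) (qh := 3127) (x0 := (-2421)) (x1 := (-2002)) hp hq hX h1 t2 y1 y
        (cn_neg hZ0 P3 (lo := (-2422)) (hi := (-2002)) (by norm_num) (by norm_num) (by norm_num))
        (cn_pos hZ0 P0 (lo := 671) (hi := 1125) (by norm_num) (by norm_num) (by norm_num))
        q0_3.symm (by norm_num)
    have y2 := y.le
    clear y
    rcases le_or_gt (1000 * X) ((-1972) * Z) with y | y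
    · exact sb h 1 (ql := 3093) (qh := 3127) (x0 := (-2002)) (x1 := (-1972)) hp hq hX h1 t2 y2 y
        (cn_neg hZ0 P0 (lo := (-723)) (hi := (-680)) (by norm_num) (by norm_num) (by norm_num))
        (cn_pos hZ0 P3 (lo := 2370) (hi := 2447) (by norm_num) (by norm_num) (by norm_num))
        q0_3 (by norm_num)
    have y3 := y.le
    clear y
    rcases le_or_gt (1000 * X) ((-1715) * Z) with y | y
    · exact sb h 0 (ql := 3093) (qh := 3127) (x0 := (-1972)) (x1 := (-1715)) hp hq hX h1 t2 y3 y
        (cn_neg hZ0 P2 (lo := (-1973)) (hi := (-1715)) (by norm_num) (by norm_num) (by norm_num))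
        (cn_pos hZ0 P0 (lo := 1120) (hi := 1412) (by norm_num) (by norm_num) (by norm_num))
        q0_2.symm (by norm_num)
    have y4 := y.le
    clear y
    rcases le_or_gt (1000 * X) ((-1593) * Z) with y | y
    · exact sb h 1 (ql := 3093) (qh := 3127) (x0 := (-1715)) (x1 := (-1593)) hp hq hX h1 t2 y4 y
        (cn_neg hZ0 P0 (lo := (-436)) (hi := (-301)) (by norm_num) (by norm_num) (by norm_num))
        (cn_pos hZ0 P5 (lo := 2657) (hi := 2826) (by norm_num) (by norm_num) (by norm_num))
        q0_5 (by norm_num)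
    have y5 := y.le
    clear y
    exact sb h 0 (ql := 3093) (qh := 3127) (x0 := (-1593)) (x1 := (-1464)) hp hq hX h1 t2 y5 (by omega)
        (cn_neg hZ0 P1 (lo := (-1594)) (hi := (-1464)) (by norm_num) (by norm_num) (by norm_num))
        (cn_pos hZ0 P1 (lo := 1499) (hi := 1663) (by norm_num) (by norm_num) (by norm_num))
        rfl (by norm_num)
  have t1 := t2
  clear t2
  rcases le_or_gt (1000 * p) (651 * Z) with t2 | t2
  · obtain ⟨q, X, hq, hX, x0, x1⟩ := startQ h (p := p) (L := (-2826)) (by omega)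
    rcases le_or_gt (1000 * X) ((-2614) * Z) with y | y
    · exact sb h 0 (ql := 3070) (qh := 3098) (x0 := (-2826)) (x1 := (-2614)) hp hq hX t1.le t2 x0 y
        (cn_neg hZ0 P5 (lo := (-2826)) (hi := (-2614)) (by norm_num) (by norm_num) (by norm_num))
        (cn_pos hZ0 P0 (lo := 244) (hi := 484) (by norm_num) (by norm_num) (by norm_num))
        q0_5.symm (by norm_num)
    have y0 := y.le
    clear y
    rcases le_or_gt (1000 * X) ((-2402) * Z) with y | y
    · exact sb h 1 (ql := 3070) (qh := 3098) (x0 := (-2614)) (x1 := (-2402)) hp hq hX t1.le t2 y0 y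
        (cn_neg hZ0 P0 (lo := (-1323)) (hi := (-1100)) (by norm_num) (by norm_num) (by norm_num))
        (cn_pos hZ0 P2 (lo := 1747) (hi := 1998) (by norm_num) (by norm_num) (by norm_num))
        q0_2 (by norm_num)
    have y1 := y.le
    clear y
    rcases le_or_gt (1000 * X) ((-2002) * Z) with y | y
    · exact sb h 0 (ql := 3070) (qh := 3098) (x0 := (-2402)) (x1 := (-2002)) hp hq hX t1.le t2 y1 y
        (cn_neg hZ0 P3 (lo := (-2403)) (hi := (-2002)) (by norm_num) (by norm_num) (by norm_num))
        (cn_pos hZ0 P0 (lo := 667) (hi := 1096) (by norm_num) (by norm_num) (by norm_num))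
        q0_3.symm (by norm_num)
    have y2 := y.le
    clear y
    rcases le_or_gt (1000 * X) ((-1953) * Z) with y | y
    · exact sb h 1 (ql := 3070) (qh := 3098) (x0 := (-2002)) (x1 := (-1953)) hp hq hX t1.le t2 y2 y
        (cn_neg hZ0 P0 (lo := (-711)) (hi := (-651)) (by norm_num) (by norm_num) (by norm_num))
        (cn_pos hZ0 P3 (lo := 2359) (hi := 2447) (by norm_num) (by norm_num) (by norm_num))
        q0_3 (by norm_num)
    have y3 := y.le
    clear y
    rcases le_or_gt (1000 * X) ((-1686) * Z) with y | y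
    · exact sb h 0 (ql := 3070) (qh := 3098) (x0 := (-1953)) (x1 := (-1686)) hp hq hX t1.le t2 y3 y
        (cn_neg hZ0 P2 (lo := (-1954)) (hi := (-1686)) (by norm_num) (by norm_num) (by norm_num))
        (cn_pos hZ0 P0 (lo := 1116) (hi := 1412) (by norm_num) (by norm_num) (by norm_num))
        q0_2.symm (by norm_num)
    have y4 := y.le
    clear y
    rcases le_or_gt (1000 * X) ((-1574) * Z) with y | y
    · exact sb h 1 (ql := 3070) (qh := 3098) (x0 := (-1686)) (x1 := (-1574)) hp hq hX t1.le t2 y4 y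
        (cn_neg hZ0 P0 (lo := (-395)) (hi := (-272)) (by norm_num) (by norm_num) (by norm_num))
        (cn_pos hZ0 P5 (lo := 2675) (hi := 2826) (by norm_num) (by norm_num) (by norm_num))
        q0_5 (by norm_num)
    have y5 := y.le
    clear y
    exact sb h 0 (ql := 3070) (qh := 3098) (x0 := (-1574)) (x1 := (-1435)) hp hq hX t1.le t2 y5 (by omega)
        (cn_neg hZ0 P1 (lo := (-1575)) (hi := (-1435)) (by norm_num) (by norm_num) (by norm_num))
        (cn_pos hZ0 P1 (lo := 1495) (hi := 1663) (by norm_num) (by norm_num) (by norm_num))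
        rfl (by norm_num)
  have t1 := t2
  clear t2
  rcases le_or_gt (1000 * p) (657 * Z) with t2 | t2
  · obtain ⟨q, X, hq, hX, x0, x1⟩ := startQ h (p := p) (L := (-2826)) (by omega)
    rcases le_or_gt (1000 * X) ((-2614) * Z) with y | y
    · exact sb h 0 (ql := 3042) (qh := 3075) (x0 := (-2826)) (x1 := (-2614)) hp hq hX t1.le t2 x0 y
        (cn_neg hZ0 P5 (lo := (-2826)) (hi := (-2614)) (by norm_num) (by norm_num) (by norm_num))
        (cn_pos hZ0 P0 (lo := 216) (hi := 461) (by norm_num) (by norm_num) (by norm_num))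
        q0_5.symm (by norm_num)
    have y0 := y.le
    clear y
    rcases le_or_gt (1000 * X) ((-2391) * Z) with y | y
    · exact sb h 1 (ql := 3042) (qh := 3075) (x0 := (-2614)) (x1 := (-2391)) hp hq hX t1.le t2 y0 y
        (cn_neg hZ0 P0 (lo := (-1313)) (hi := (-1077)) (by norm_num) (by norm_num) (by norm_num))
        (cn_pos hZ0 P2 (lo := 1729) (hi := 1998) (by norm_num) (by norm_num) (by norm_num))
        q0_2 (by norm_num)
    have y1 := y.le
    clear y
    rcases le_or_gt (1000 * X) ((-2002) * Z) with y | y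
    · exact sb h 0 (ql := 3042) (qh := 3075) (x0 := (-2391)) (x1 := (-2002)) hp hq hX t1.le t2 y1 y
        (cn_neg hZ0 P3 (lo := (-2392)) (hi := (-2002)) (by norm_num) (by norm_num) (by norm_num))
        (cn_pos hZ0 P0 (lo := 650) (hi := 1073) (by norm_num) (by norm_num) (by norm_num))
        q0_3.symm (by norm_num)
    have y2 := y.le
    clear y
    rcases le_or_gt (1000 * X) ((-1942) * Z) with y | y
    · exact sb h 1 (ql := 3042) (qh := 3075) (x0 := (-2002)) (x1 := (-1942)) hp hq hX t1.le t2 y2 y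
        (cn_neg hZ0 P0 (lo := (-701)) (hi := (-628)) (by norm_num) (by norm_num) (by norm_num))
        (cn_pos hZ0 P3 (lo := 2341) (hi := 2447) (by norm_num) (by norm_num) (by norm_num))
        q0_3 (by norm_num)
    have y3 := y.le
    clear y
    rcases le_or_gt (1000 * X) ((-1682) * Z) with y | y
    · exact sb h 0 (ql := 3042) (qh := 3075) (x0 := (-1942)) (x1 := (-1682)) hp hq hX t1.le t2 y3 y
        (cn_neg hZ0 P2 (lo := (-1943)) (hi := (-1682)) (by norm_num) (by norm_num) (by norm_num))
        (cn_pos hZ0 P0 (lo := 1099) (hi := 1393) (by norm_num) (by norm_num) (by norm_num))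
        q0_2.symm (by norm_num)
    have y4 := y.le
    clear y
    rcases le_or_gt (1000 * X) ((-1563) * Z) with y | y
    · exact sb h 1 (ql := 3042) (qh := 3075) (x0 := (-1682)) (x1 := (-1563)) hp hq hX t1.le t2 y4 y
        (cn_neg hZ0 P0 (lo := (-381)) (hi := (-249)) (by norm_num) (by norm_num) (by norm_num))
        (cn_pos hZ0 P5 (lo := 2661) (hi := 2826) (by norm_num) (by norm_num) (by norm_num))
        q0_5 (by norm_num)
    have y5 := y.le
    clear y
    exact sb h 0 (ql := 3042) (qh := 3075) (x0 := (-1563)) (x1 := (-1417)) hp hq hX t1.le t2 y5 (by omega)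
        (cn_neg hZ0 P1 (lo := (-1564)) (hi := (-1417)) (by norm_num) (by norm_num) (by norm_num))
        (cn_pos hZ0 P1 (lo := 1478) (hi := 1658) (by norm_num) (by norm_num) (by norm_num))
        rfl (by norm_num)
  have t1 := t2
  clear t2
  rcases le_or_gt (1000 * p) (663 * Z) with t2 | t2
  · obtain ⟨q, X, hq, hX, x0, x1⟩ := startQ h (p := p) (L := (-2826)) (by omega)
    rcases le_or_gt (1000 * X) ((-2614) * Z) with y | y
    · exact sb h 0 (ql := 3014) (qh := 3047) (x0 := (-2826)) (x1 := (-2614)) hp hq hX t1.le t2 x0 y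
        (cn_neg hZ0 P5 (lo := (-2826)) (hi := (-2614)) (by norm_num) (by norm_num) (by norm_num))
        (cn_pos hZ0 P0 (lo := 188) (hi := 433) (by norm_num) (by norm_num) (by norm_num))
        q0_5.symm (by norm_num)
    have y0 := y.le
    clear y
    rcases le_or_gt (1000 * X) ((-2375) * Z) with y | y
    · exact sb h 1 (ql := 3014) (qh := 3047) (x0 := (-2614)) (x1 := (-2375)) hp hq hX t1.le t2 y0 y
        (cn_neg hZ0 P0 (lo := (-1301)) (hi := (-1049)) (by norm_num) (by norm_num) (by norm_num))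
        (cn_pos hZ0 P2 (lo := 1713) (hi := 1998) (by norm_num) (by norm_num) (by norm_num))
        q0_2 (by norm_num)
    have y1 := y.le
    clear y
    rcases le_or_gt (1000 * X) ((-2002) * Z) with y | y
    · exact sb h 0 (ql := 3014) (qh := 3047) (x0 := (-2375)) (x1 := (-2002)) hp hq hX t1.le t2 y1 y
        (cn_neg hZ0 P3 (lo := (-2376)) (hi := (-2002)) (by norm_num) (by norm_num) (by norm_num))
        (cn_pos hZ0 P0 (lo := 638) (hi := 1045) (by norm_num) (by norm_num) (by norm_num))
        q0_3.symm (by norm_num)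
    have y2 := y.le
    clear y
    rcases le_or_gt (1000 * X) ((-1926) * Z) with y | y
    · exact sb h 1 (ql := 3014) (qh := 3047) (x0 := (-2002)) (x1 := (-1926)) hp hq hX t1.le t2 y2 y
        (cn_neg hZ0 P0 (lo := (-689)) (hi := (-600)) (by norm_num) (by norm_num) (by norm_num))
        (cn_pos hZ0 P3 (lo := 2325) (hi := 2447) (by norm_num) (by norm_num) (by norm_num))
        q0_3 (by norm_num)
    have y3 := y.le
    clear y
    rcases le_or_gt (1000 * X) ((-1682) * Z) with y | y
    · exact sb h 0 (ql := 3014) (qh := 3047) (x0 := (-1926)) (x1 := (-1682)) hp hq hX t1.le t2 y3 y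
        (cn_neg hZ0 P2 (lo := (-1927)) (hi := (-1682)) (by norm_num) (by norm_num) (by norm_num))
        (cn_pos hZ0 P0 (lo := 1087) (hi := 1365) (by norm_num) (by norm_num) (by norm_num))
        q0_2.symm (by norm_num)
    have y4 := y.le
    clear y
    rcases le_or_gt (1000 * X) ((-1547) * Z) with y | y
    · exact sb h 1 (ql := 3014) (qh := 3047) (x0 := (-1682)) (x1 := (-1547)) hp hq hX t1.le t2 y4 y
        (cn_neg hZ0 P0 (lo := (-369)) (hi := (-221)) (by norm_num) (by norm_num) (by norm_num))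
        (cn_pos hZ0 P5 (lo := 2645) (hi := 2826) (by norm_num) (by norm_num) (by norm_num))
        q0_5 (by norm_num)
    have y5 := y.le
    clear y
    exact sb h 0 (ql := 3014) (qh := 3047) (x0 := (-1547)) (x1 := (-1417)) hp hq hX t1.le t2 y5 (by omega)
        (cn_neg hZ0 P1 (lo := (-1548)) (hi := (-1417)) (by norm_num) (by norm_num) (by norm_num))
        (cn_pos hZ0 P1 (lo := 1466) (hi := 1630) (by norm_num) (by norm_num) (by norm_num))
        rfl (by norm_num)
  have t1 := t2
  clear t2
  rcases le_or_gt (1000 * p) (669 * Z) with t2 | t2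
  · obtain ⟨q, X, hq, hX, x0, x1⟩ := startQ h (p := p) (L := (-2826)) (by omega)
    rcases le_or_gt (1000 * X) ((-2614) * Z) with y | y
    · exact sb h 0 (ql := 2987) (qh := 3019) (x0 := (-2826)) (x1 := (-2614)) hp hq hX t1.le t2 x0 y
        (cn_neg hZ0 P5 (lo := (-2826)) (hi := (-2614)) (by norm_num) (by norm_num) (by norm_num))
        (cn_pos hZ0 P0 (lo := 161) (hi := 405) (by norm_num) (by norm_num) (by norm_num))
        q0_5.symm (by norm_num)
    have y0 := y.le
    clear y
    rcases le_or_gt (1000 * X) ((-2359) * Z) with y | y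
    · exact sb h 1 (ql := 2987) (qh := 3019) (x0 := (-2614)) (x1 := (-2359)) hp hq hX t1.le t2 y0 y
        (cn_neg hZ0 P0 (lo := (-1289)) (hi := (-1021)) (by norm_num) (by norm_num) (by norm_num))
        (cn_pos hZ0 P2 (lo := 1698) (hi := 1998) (by norm_num) (by norm_num) (by norm_num))
        q0_2 (by norm_num)
    have y1 := y.le
    clear y
    rcases le_or_gt (1000 * X) ((-2002) * Z) with y | y
    · exact sb h 0 (ql := 2987) (qh := 3019) (x0 := (-2359)) (x1 := (-2002)) hp hq hX t1.le t2 y1 y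
        (cn_neg hZ0 P3 (lo := (-2360)) (hi := (-2002)) (by norm_num) (by norm_num) (by norm_num))
        (cn_pos hZ0 P0 (lo := 627) (hi := 1017) (by norm_num) (by norm_num) (by norm_num))
        q0_3.symm (by norm_num)
    have y2 := y.le
    clear y
    rcases le_or_gt (1000 * X) ((-1910) * Z) with y | y
    · exact sb h 1 (ql := 2987) (qh := 3019) (x0 := (-2002)) (x1 := (-1910)) hp hq hX t1.le t2 y2 y
        (cn_neg hZ0 P0 (lo := (-677)) (hi := (-572)) (by norm_num) (by norm_num) (by norm_num))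
        (cn_pos hZ0 P3 (lo := 2310) (hi := 2447) (by norm_num) (by norm_num) (by norm_num))
        q0_3 (by norm_num)
    have y3 := y.le
    clear y
    rcases le_or_gt (1000 * X) ((-1682) * Z) with y | y
    · exact sb h 0 (ql := 2987) (qh := 3019) (x0 := (-1910)) (x1 := (-1682)) hp hq hX t1.le t2 y3 y
        (cn_neg hZ0 P2 (lo := (-1911)) (hi := (-1682)) (by norm_num) (by norm_num) (by norm_num))
        (cn_pos hZ0 P0 (lo := 1076) (hi := 1337) (by norm_num) (by norm_num) (by norm_num))
        q0_2.symm (by norm_num)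
    have y4 := y.le
    clear y
    rcases le_or_gt (1000 * X) ((-1531) * Z) with y | y
    · exact sb h 1 (ql := 2987) (qh := 3019) (x0 := (-1682)) (x1 := (-1531)) hp hq hX t1.le t2 y4 y
        (cn_neg hZ0 P0 (lo := (-357)) (hi := (-193)) (by norm_num) (by norm_num) (by norm_num))
        (cn_pos hZ0 P5 (lo := 2630) (hi := 2826) (by norm_num) (by norm_num) (by norm_num))
        q0_5 (by norm_num)
    have y5 := y.le
    clear y
    exact sb h 0 (ql := 2987) (qh := 3019) (x0 := (-1531)) (x1 := (-1417)) hp hq hX t1.le t2 y5 (by omega)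
        (cn_neg hZ0 P1 (lo := (-1532)) (hi := (-1417)) (by norm_num) (by norm_num) (by norm_num))
        (cn_pos hZ0 P1 (lo := 1455) (hi := 1602) (by norm_num) (by norm_num) (by norm_num))
        rfl (by norm_num)
  have t1 := t2
  clear t2
  obtain ⟨q, X, hq, hX, x0, x1⟩ := startQ h (p := p) (L := (-2826)) (by omega)
  rcases le_or_gt (1000 * X) ((-2614) * Z) with y | y
  · exact sb h 0 (ql := 2960) (qh := 2992) (x0 := (-2826)) (x1 := (-2614)) hp hq hX t1.le h2 x0 y
      (cn_neg hZ0 P5 (lo := (-2826)) (hi := (-2614)) (by norm_num) (by norm_num) (by norm_num))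
      (cn_pos hZ0 P0 (lo := 134) (hi := 378) (by norm_num) (by norm_num) (by norm_num))
      q0_5.symm (by norm_num)
  have y0 := y.le
  clear y
  rcases le_or_gt (1000 * X) ((-2344) * Z) with y | y
  · exact sb h 1 (ql := 2960) (qh := 2992) (x0 := (-2614)) (x1 := (-2344)) hp hq hX t1.le h2 y0 y
      (cn_neg hZ0 P0 (lo := (-1277)) (hi := (-994)) (by norm_num) (by norm_num) (by norm_num))
      (cn_pos hZ0 P2 (lo := 1683) (hi := 1998) (by norm_num) (by norm_num) (by norm_num))
      q0_2 (by norm_num)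
  have y1 := y.le
  clear y
  rcases le_or_gt (1000 * X) ((-2002) * Z) with y | y
  · exact sb h 0 (ql := 2960) (qh := 2992) (x0 := (-2344)) (x1 := (-2002)) hp hq hX t1.le h2 y1 y
      (cn_neg hZ0 P3 (lo := (-2345)) (hi := (-2002)) (by norm_num) (by norm_num) (by norm_num))
      (cn_pos hZ0 P0 (lo := 615) (hi := 990) (by norm_num) (by norm_num) (by norm_num))
      q0_3.symm (by norm_num)
  have y2 := y.le
  clear y
  rcases le_or_gt (1000 * X) ((-1895) * Z) with y | y
  · exact sb h 1 (ql := 2960) (qh := 2992) (x0 := (-2002)) (x1 := (-1895)) hp hq hX t1.le h2 y2 y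
      (cn_neg hZ0 P0 (lo := (-665)) (hi := (-545)) (by norm_num) (by norm_num) (by norm_num))
      (cn_pos hZ0 P3 (lo := 2295) (hi := 2447) (by norm_num) (by norm_num) (by norm_num))
      q0_3 (by norm_num)
  have y3 := y.le
  clear y
  rcases le_or_gt (1000 * X) ((-1682) * Z) with y | y
  · exact sb h 0 (ql := 2960) (qh := 2992) (x0 := (-1895)) (x1 := (-1682)) hp hq hX t1.le h2 y3 y
      (cn_neg hZ0 P2 (lo := (-1896)) (hi := (-1682)) (by norm_num) (by norm_num) (by norm_num))
      (cn_pos hZ0 P0 (lo := 1064) (hi := 1310) (by norm_num) (by norm_num) (by norm_num))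
      q0_2.symm (by norm_num)
  have y4 := y.le
  clear y
  rcases le_or_gt (1000 * X) ((-1516) * Z) with y | y
  · exact sb h 1 (ql := 2960) (qh := 2992) (x0 := (-1682)) (x1 := (-1516)) hp hq hX t1.le h2 y4 y
      (cn_neg hZ0 P0 (lo := (-345)) (hi := (-166)) (by norm_num) (by norm_num) (by norm_num))
      (cn_pos hZ0 P5 (lo := 2615) (hi := 2826) (by norm_num) (by norm_num) (by norm_num))
      q0_5 (by norm_num)
  have y5 := y.le
  clear y
  exact sb h 0 (ql := 2960) (qh := 2992) (x0 := (-1516)) (x1 := (-1417)) hp hq hX t1.le h2 y5 (by omega)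
      (cn_neg hZ0 P1 (lo := (-1517)) (hi := (-1417)) (by norm_num) (by norm_num) (by norm_num))
      (cn_pos hZ0 P1 (lo := 1443) (hi := 1575) (by norm_num) (by norm_num) (by norm_num))
      rfl (by norm_num)

theorem cell11 (h : H2 g K Z ν) (hA1 : 2822400 * K ≤ 1000000 * ν)
    (hA2 : 1000000 * ν ≤ 2920681 * K) : False := by
  have hZ := h.hZ
  have hZ0 : 0 ≤ Z := by omega
  have hK0 : 0 < K := by
    have := h.hK1
    nlinarith
  have r0 : NuR K ν 0 ν := Or.inl ⟨by norm_num, by norm_num, rfl⟩
  have r1 : NuR K ν 1 ν := Or.inl ⟨by norm_num, by norm_num, rfl⟩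
  have r2 : NuR K ν 2 (ν + 4 * K) := Or.inr ⟨by norm_num, by norm_num, rfl⟩
  have r3 : NuR K ν 3 (ν + 4 * K) := Or.inr ⟨by norm_num, by norm_num, rfl⟩
  obtain ⟨s0, P0⟩ := piece h r0 (α := 0) (β := 1412) (by norm_num) (by norm_num) (by norm_num)
    (by norm_num) (by norm_num) (Or.inl (by linarith))
  obtain ⟨s1, P1⟩ := piece h r1 (α := 1417) (β := 1678) (by norm_num) (by norm_num) (by norm_num)
    (by norm_num) (by norm_num) (Or.inl (by linarith))
  obtain ⟨s2, P2⟩ := piece h r1 (α := 1711) (β := 1998) (by norm_num) (by norm_num) (by norm_num)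
    (by norm_num) (by norm_num) (Or.inr ⟨by norm_num, by norm_num, by linarith⟩)
  obtain ⟨s3, P3⟩ := piece h r2 (α := 2002) (β := 2447) (by norm_num) (by norm_num) (by norm_num)
    (by norm_num) (by norm_num) (Or.inl (by linarith))
  obtain ⟨s4, P4⟩ := piece h r3 (α := 2452) (β := 2609) (by norm_num) (by norm_num) (by norm_num)
    (by norm_num) (by norm_num) (Or.inl (by linarith))
  obtain ⟨s5, P5⟩ := piece h r3 (α := 2633) (β := 2826) (by norm_num) (by norm_num) (by norm_num)
    (by norm_num) (by norm_num) (Or.inr ⟨by norm_num, by norm_num, by linarith⟩)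
  have e0 : s2 = s3 := rel1 h (l1 := (-1881)) (l2 := (-1828)) (by norm_num) (by norm_num) (by norm_num)
    (cn_neg hZ0 P2 (lo := (-1881)) (hi := (-1828)) (by norm_num) (by norm_num) (by norm_num))
    (cn_pos hZ0 P0 (lo := (-1881) + 1973) (hi := (-1828) + 2027) (by norm_num) (by norm_num) (by norm_num))
    (cn_pos hZ0 P3 (lo := (-1881) + 4000) (hi := (-1828) + 4002) (by norm_num) (by norm_num) (by norm_num))
  have e1 : s5 = s0 := rel1 h (l1 := (-2756)) (l2 := (-2703)) (by norm_num) (by norm_num) (by norm_num)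
    (cn_neg hZ0 P5 (lo := (-2756)) (hi := (-2703)) (by norm_num) (by norm_num) (by norm_num))
    (cn_neg hZ0 P0 (lo := (-2756) + 1973) (hi := (-2703) + 2027) (by norm_num) (by norm_num) (by norm_num))
    (cn_pos hZ0 P0 (lo := (-2756) + 4000) (hi := (-2703) + 4002) (by norm_num) (by norm_num) (by norm_num))
  have e2 : s5 + s1 = s0 + s0 := relh h (l1 := (-2753)) (l2 := (-2690)) (by norm_num) (by norm_num)
    (by norm_num)
    (cn_neg hZ0 P5 (lo := (-2753)) (hi := (-2690)) (by norm_num) (by norm_num) (by norm_num))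
    (cn_pos hZ0 P0 (lo := (-2753) + 2828) (hi := (-2690) + 2862) (by norm_num) (by norm_num) (by norm_num))
    (cn_neg hZ0 P0 (lo := (-2753) + 1398) (hi := (-2690) + 1415) (by norm_num) (by norm_num) (by norm_num))
    (cn_pos hZ0 P1 (lo := (-2753) + 4242) (hi := (-2690) + 4262) (by norm_num) (by norm_num) (by norm_num))
  have e3 : s4 = s1 := rel1 h (l1 := (-2544)) (l2 := (-2491)) (by norm_num) (by norm_num) (by norm_num)
    (cn_neg hZ0 P4 (lo := (-2544)) (hi := (-2491)) (by norm_num) (by norm_num) (by norm_num))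
    (cn_neg hZ0 P0 (lo := (-2544) + 1973) (hi := (-2491) + 2027) (by norm_num) (by norm_num) (by norm_num))
    (cn_pos hZ0 P1 (lo := (-2544) + 4000) (hi := (-2491) + 4002) (by norm_num) (by norm_num) (by norm_num))
  have e4 : s3 = s1 := rel1 h (l1 := (-2412)) (l2 := (-2359)) (by norm_num) (by norm_num) (by norm_num)
    (cn_neg hZ0 P3 (lo := (-2412)) (hi := (-2359)) (by norm_num) (by norm_num) (by norm_num))
    (cn_neg hZ0 P0 (lo := (-2412) + 1973) (hi := (-2359) + 2027) (by norm_num) (by norm_num) (by norm_num))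
    (cn_pos hZ0 P1 (lo := (-2412) + 4000) (hi := (-2359) + 4002) (by norm_num) (by norm_num) (by norm_num))
  have q0_1 : s0 = s1 := by
    have T : ∀ s0 s1 s2 s3 s4 s5 : ZMod 2, s2 = s3 → s5 = s0 → s5 + s1 = s0 + s0 → s4 = s1 → s3 = s1 → s0 = s1 := by decide
    exact T s0 s1 s2 s3 s4 s5 e0 e1 e2 e3 e4
  have q0_3 : s0 = s3 := by
    have T : ∀ s0 s1 s2 s3 s4 s5 : ZMod 2, s2 = s3 → s5 = s0 → s5 + s1 = s0 + s0 → s4 = s1 → s3 = s1 → s0 = s3 := by decide
    exact T s0 s1 s2 s3 s4 s5 e0 e1 e2 e3 e4
  have q0_5 : s0 = s5 := by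
    have T : ∀ s0 s1 s2 s3 s4 s5 : ZMod 2, s2 = s3 → s5 = s0 → s5 + s1 = s0 + s0 → s4 = s1 → s3 = s1 → s0 = s5 := by decide
    exact T s0 s1 s2 s3 s4 s5 e0 e1 e2 e3 e4
  refine fin h (ta := 790) (tb := 833) (by norm_num) (by norm_num) ?_
  intro p hp h1 h2
  rcases le_or_gt (1000 * p) (795 * Z) with t2 | t2
  · obtain ⟨q, X, hq, hX, x0, x1⟩ := startQ h (p := p) (L := (-2826)) (by omega)
    rcases le_or_gt (1000 * X) ((-2633) * Z) with y | y
    · exact sb h 0 (ql := 2513) (qh := 2534) (x0 := (-2826)) (x1 := (-2633)) hp hq hX h1 t2 x0 y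
        (cn_neg hZ0 P5 (lo := (-2826)) (hi := (-2633)) (by norm_num) (by norm_num) (by norm_num))
        (cn_neg hZ0 P0 (lo := (-313)) (hi := (-99)) (by norm_num) (by norm_num) (by norm_num))
        q0_5.symm (by norm_num)
    have y0 := y.le
    clear y
    rcases le_or_gt (1000 * X) ((-2446) * Z) with y | y
    · exact sb h 1 (ql := 2513) (qh := 2534) (x0 := (-2633)) (x1 := (-2446)) hp hq hX h1 t2 y0 y
        (cn_neg hZ0 P0 (lo := (-1054)) (hi := (-856)) (by norm_num) (by norm_num) (by norm_num))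
        (cn_pos hZ0 P1 (lo := 1459) (hi := 1678) (by norm_num) (by norm_num) (by norm_num))
        q0_1 (by norm_num)
    have y1 := y.le
    clear y
    rcases le_or_gt (1000 * X) ((-2002) * Z) with y | y
    · exact sb h 0 (ql := 2513) (qh := 2534) (x0 := (-2446)) (x1 := (-2002)) hp hq hX h1 t2 y1 y
        (cn_neg hZ0 P3 (lo := (-2447)) (hi := (-2002)) (by norm_num) (by norm_num) (by norm_num))
        (cn_pos hZ0 P0 (lo := 66) (hi := 532) (by norm_num) (by norm_num) (by norm_num))
        q0_3.symm (by norm_num)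
    have y2 := y.le
    clear y
    rcases le_or_gt (1000 * X) ((-1677) * Z) with y | y
    · exact sb h 1 (ql := 2513) (qh := 2534) (x0 := (-2002)) (x1 := (-1677)) hp hq hX h1 t2 y2 y
        (cn_neg hZ0 P0 (lo := (-423)) (hi := (-87)) (by norm_num) (by norm_num) (by norm_num))
        (cn_pos hZ0 P3 (lo := 2090) (hi := 2447) (by norm_num) (by norm_num) (by norm_num))
        q0_3 (by norm_num)
    have y3 := y.le
    clear y
    rcases le_or_gt (1000 * X) ((-1417) * Z) with y | y
    · exact sb h 0 (ql := 2513) (qh := 2534) (x0 := (-1677)) (x1 := (-1417)) hp hq hX h1 t2 y3 y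
        (cn_neg hZ0 P1 (lo := (-1678)) (hi := (-1417)) (by norm_num) (by norm_num) (by norm_num))
        (cn_pos hZ0 P0 (lo := 835) (hi := 1117) (by norm_num) (by norm_num) (by norm_num))
        q0_1.symm (by norm_num)
    have y4 := y.le
    clear y
    rcases le_or_gt (1000 * X) ((-1298) * Z) with y | y
    · exact sb h 1 (ql := 2513) (qh := 2534) (x0 := (-1417)) (x1 := (-1298)) hp hq hX h1 t2 y4 y
        (cn_pos hZ0 P0 (lo := 162) (hi := 292) (by norm_num) (by norm_num) (by norm_num))
        (cn_pos hZ0 P5 (lo := 2675) (hi := 2826) (by norm_num) (by norm_num) (by norm_num))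
        q0_5 (by norm_num)
    have y5 := y.le
    clear y
    exact sb h 0 (ql := 2513) (qh := 2534) (x0 := (-1298)) (x1 := (-1122)) hp hq hX h1 t2 y5 (by omega)
        (cn_neg hZ0 P0 (lo := (-1299)) (hi := (-1122)) (by norm_num) (by norm_num) (by norm_num))
        (cn_pos hZ0 P0 (lo := 1214) (hi := 1412) (by norm_num) (by norm_num) (by norm_num))
        rfl (by norm_num)
  have t1 := t2
  clear t2
  rcases le_or_gt (1000 * p) (801 * Z) with t2 | t2
  · obtain ⟨q, X, hq, hX, x0, x1⟩ := startQ h (p := p) (L := (-2826)) (by omega)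
    rcases le_or_gt (1000 * X) ((-2633) * Z) with y | y
    · exact sb h 0 (ql := 2494) (qh := 2518) (x0 := (-2826)) (x1 := (-2633)) hp hq hX t1.le t2 x0 y
        (cn_neg hZ0 P5 (lo := (-2826)) (hi := (-2633)) (by norm_num) (by norm_num) (by norm_num))
        (cn_neg hZ0 P0 (lo := (-332)) (hi := (-115)) (by norm_num) (by norm_num) (by norm_num))
        q0_5.symm (by norm_num)
    have y0 := y.le
    clear y
    rcases le_or_gt (1000 * X) ((-2442) * Z) with y | y
    · exact sb h 1 (ql := 2494) (qh := 2518) (x0 := (-2633)) (x1 := (-2442)) hp hq hX t1.le t2 y0 y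
        (cn_neg hZ0 P0 (lo := (-1044)) (hi := (-840)) (by norm_num) (by norm_num) (by norm_num))
        (cn_pos hZ0 P1 (lo := 1450) (hi := 1678) (by norm_num) (by norm_num) (by norm_num))
        q0_1 (by norm_num)
    have y1 := y.le
    clear y
    rcases le_or_gt (1000 * X) ((-2002) * Z) with y | y
    · exact sb h 0 (ql := 2494) (qh := 2518) (x0 := (-2442)) (x1 := (-2002)) hp hq hX t1.le t2 y1 y
        (cn_neg hZ0 P3 (lo := (-2443)) (hi := (-2002)) (by norm_num) (by norm_num) (by norm_num))
        (cn_pos hZ0 P0 (lo := 51) (hi := 516) (by norm_num) (by norm_num) (by norm_num))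
        q0_3.symm (by norm_num)
    have y2 := y.le
    clear y
    rcases le_or_gt (1000 * X) ((-1673) * Z) with y | y
    · exact sb h 1 (ql := 2494) (qh := 2518) (x0 := (-2002)) (x1 := (-1673)) hp hq hX t1.le t2 y2 y
        (cn_neg hZ0 P0 (lo := (-413)) (hi := (-71)) (by norm_num) (by norm_num) (by norm_num))
        (cn_pos hZ0 P3 (lo := 2081) (hi := 2447) (by norm_num) (by norm_num) (by norm_num))
        q0_3 (by norm_num)
    have y3 := y.le
    clear y
    rcases le_or_gt (1000 * X) ((-1417) * Z) with y | y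
    · exact sb h 0 (ql := 2494) (qh := 2518) (x0 := (-1673)) (x1 := (-1417)) hp hq hX t1.le t2 y3 y
        (cn_neg hZ0 P1 (lo := (-1674)) (hi := (-1417)) (by norm_num) (by norm_num) (by norm_num))
        (cn_pos hZ0 P0 (lo := 820) (hi := 1101) (by norm_num) (by norm_num) (by norm_num))
        q0_1.symm (by norm_num)
    have y4 := y.le
    clear y
    rcases le_or_gt (1000 * X) ((-1294) * Z) with y | y
    · exact sb h 1 (ql := 2494) (qh := 2518) (x0 := (-1417)) (x1 := (-1294)) hp hq hX t1.le t2 y4 y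
        (cn_pos hZ0 P0 (lo := 172) (hi := 308) (by norm_num) (by norm_num) (by norm_num))
        (cn_pos hZ0 P5 (lo := 2666) (hi := 2826) (by norm_num) (by norm_num) (by norm_num))
        q0_5 (by norm_num)
    have y5 := y.le
    clear y
    exact sb h 0 (ql := 2494) (qh := 2518) (x0 := (-1294)) (x1 := (-1106)) hp hq hX t1.le t2 y5 (by omega)
        (cn_neg hZ0 P0 (lo := (-1295)) (hi := (-1106)) (by norm_num) (by norm_num) (by norm_num))
        (cn_pos hZ0 P0 (lo := 1199) (hi := 1412) (by norm_num) (by norm_num) (by norm_num))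
        rfl (by norm_num)
  have t1 := t2
  clear t2
  rcases le_or_gt (1000 * p) (806 * Z) with t2 | t2
  · obtain ⟨q, X, hq, hX, x0, x1⟩ := startQ h (p := p) (L := (-2826)) (by omega)
    rcases le_or_gt (1000 * X) ((-2633) * Z) with y | y
    · exact sb h 0 (ql := 2479) (qh := 2499) (x0 := (-2826)) (x1 := (-2633)) hp hq hX t1.le t2 x0 y
        (cn_neg hZ0 P5 (lo := (-2826)) (hi := (-2633)) (by norm_num) (by norm_num) (by norm_num))
        (cn_neg hZ0 P0 (lo := (-347)) (hi := (-134)) (by norm_num) (by norm_num) (by norm_num))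
        q0_5.symm (by norm_num)
    have y0 := y.le
    clear y
    rcases le_or_gt (1000 * X) ((-2433) * Z) with y | y
    · exact sb h 1 (ql := 2479) (qh := 2499) (x0 := (-2633)) (x1 := (-2433)) hp hq hX t1.le t2 y0 y
        (cn_neg hZ0 P0 (lo := (-1032)) (hi := (-821)) (by norm_num) (by norm_num) (by norm_num))
        (cn_pos hZ0 P1 (lo := 1447) (hi := 1678) (by norm_num) (by norm_num) (by norm_num))
        q0_1 (by norm_num)
    have y1 := y.le
    clear y
    rcases le_or_gt (1000 * X) ((-2002) * Z) with y | y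
    · exact sb h 0 (ql := 2479) (qh := 2499) (x0 := (-2433)) (x1 := (-2002)) hp hq hX t1.le t2 y1 y
        (cn_neg hZ0 P3 (lo := (-2434)) (hi := (-2002)) (by norm_num) (by norm_num) (by norm_num))
        (cn_pos hZ0 P0 (lo := 45) (hi := 497) (by norm_num) (by norm_num) (by norm_num))
        q0_3.symm (by norm_num)
    have y2 := y.le
    clear y
    rcases le_or_gt (1000 * X) ((-1664) * Z) with y | y
    · exact sb h 1 (ql := 2479) (qh := 2499) (x0 := (-2002)) (x1 := (-1664)) hp hq hX t1.le t2 y2 y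
        (cn_neg hZ0 P0 (lo := (-401)) (hi := (-52)) (by norm_num) (by norm_num) (by norm_num))
        (cn_pos hZ0 P3 (lo := 2078) (hi := 2447) (by norm_num) (by norm_num) (by norm_num))
        q0_3 (by norm_num)
    have y3 := y.le
    clear y
    rcases le_or_gt (1000 * X) ((-1417) * Z) with y | y
    · exact sb h 0 (ql := 2479) (qh := 2499) (x0 := (-1664)) (x1 := (-1417)) hp hq hX t1.le t2 y3 y
        (cn_neg hZ0 P1 (lo := (-1665)) (hi := (-1417)) (by norm_num) (by norm_num) (by norm_num))
        (cn_pos hZ0 P0 (lo := 814) (hi := 1082) (by norm_num) (by norm_num) (by norm_num))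
        q0_1.symm (by norm_num)
    have y4 := y.le
    clear y
    rcases le_or_gt (1000 * X) ((-1285) * Z) with y | y
    · exact sb h 1 (ql := 2479) (qh := 2499) (x0 := (-1417)) (x1 := (-1285)) hp hq hX t1.le t2 y4 y
        (cn_pos hZ0 P0 (lo := 184) (hi := 327) (by norm_num) (by norm_num) (by norm_num))
        (cn_pos hZ0 P5 (lo := 2663) (hi := 2826) (by norm_num) (by norm_num) (by norm_num))
        q0_5 (by norm_num)
    have y5 := y.le
    clear y
    exact sb h 0 (ql := 2479) (qh := 2499) (x0 := (-1285)) (x1 := (-1087)) hp hq hX t1.le t2 y5 (by omega)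
        (cn_neg hZ0 P0 (lo := (-1286)) (hi := (-1087)) (by norm_num) (by norm_num) (by norm_num))
        (cn_pos hZ0 P0 (lo := 1193) (hi := 1412) (by norm_num) (by norm_num) (by norm_num))
        rfl (by norm_num)
  have t1 := t2
  clear t2
  rcases le_or_gt (1000 * p) (811 * Z) with t2 | t2
  · obtain ⟨q, X, hq, hX, x0, x1⟩ := startQ h (p := p) (L := (-2826)) (by omega)
    rcases le_or_gt (1000 * X) ((-2633) * Z) with y | y
    · exact sb h 0 (ql := 2464) (qh := 2484) (x0 := (-2826)) (x1 := (-2633)) hp hq hX t1.le t2 x0 y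
        (cn_neg hZ0 P5 (lo := (-2826)) (hi := (-2633)) (by norm_num) (by norm_num) (by norm_num))
        (cn_neg hZ0 P0 (lo := (-362)) (hi := (-149)) (by norm_num) (by norm_num) (by norm_num))
        q0_5.symm (by norm_num)
    have y0 := y.le
    clear y
    rcases le_or_gt (1000 * X) ((-2428) * Z) with y | y
    · exact sb h 1 (ql := 2464) (qh := 2484) (x0 := (-2633)) (x1 := (-2428)) hp hq hX t1.le t2 y0 y
        (cn_neg hZ0 P0 (lo := (-1022)) (hi := (-806)) (by norm_num) (by norm_num) (by norm_num))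
        (cn_pos hZ0 P1 (lo := 1442) (hi := 1678) (by norm_num) (by norm_num) (by norm_num))
        q0_1 (by norm_num)
    have y1 := y.le
    clear y
    rcases le_or_gt (1000 * X) ((-2002) * Z) with y | y
    · exact sb h 0 (ql := 2464) (qh := 2484) (x0 := (-2428)) (x1 := (-2002)) hp hq hX t1.le t2 y1 y
        (cn_neg hZ0 P3 (lo := (-2429)) (hi := (-2002)) (by norm_num) (by norm_num) (by norm_num))
        (cn_pos hZ0 P0 (lo := 35) (hi := 482) (by norm_num) (by norm_num) (by norm_num))
        q0_3.symm (by norm_num)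
    have y2 := y.le
    clear y
    rcases le_or_gt (1000 * X) ((-1659) * Z) with y | y
    · exact sb h 1 (ql := 2464) (qh := 2484) (x0 := (-2002)) (x1 := (-1659)) hp hq hX t1.le t2 y2 y
        (cn_neg hZ0 P0 (lo := (-391)) (hi := (-37)) (by norm_num) (by norm_num) (by norm_num))
        (cn_pos hZ0 P3 (lo := 2073) (hi := 2447) (by norm_num) (by norm_num) (by norm_num))
        q0_3 (by norm_num)
    have y3 := y.le
    clear y
    rcases le_or_gt (1000 * X) ((-1417) * Z) with y | y
    · exact sb h 0 (ql := 2464) (qh := 2484) (x0 := (-1659)) (x1 := (-1417)) hp hq hX t1.le t2 y3 y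
        (cn_neg hZ0 P1 (lo := (-1660)) (hi := (-1417)) (by norm_num) (by norm_num) (by norm_num))
        (cn_pos hZ0 P0 (lo := 804) (hi := 1067) (by norm_num) (by norm_num) (by norm_num))
        q0_1.symm (by norm_num)
    have y4 := y.le
    clear y
    rcases le_or_gt (1000 * X) ((-1280) * Z) with y | y
    · exact sb h 1 (ql := 2464) (qh := 2484) (x0 := (-1417)) (x1 := (-1280)) hp hq hX t1.le t2 y4 y
        (cn_pos hZ0 P0 (lo := 194) (hi := 342) (by norm_num) (by norm_num) (by norm_num))
        (cn_pos hZ0 P5 (lo := 2658) (hi := 2826) (by norm_num) (by norm_num) (by norm_num))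
        q0_5 (by norm_num)
    have y5 := y.le
    clear y
    exact sb h 0 (ql := 2464) (qh := 2484) (x0 := (-1280)) (x1 := (-1072)) hp hq hX t1.le t2 y5 (by omega)
        (cn_neg hZ0 P0 (lo := (-1281)) (hi := (-1072)) (by norm_num) (by norm_num) (by norm_num))
        (cn_pos hZ0 P0 (lo := 1183) (hi := 1412) (by norm_num) (by norm_num) (by norm_num))
        rfl (by norm_num)
  have t1 := t2
  clear t2
  rcases le_or_gt (1000 * p) (817 * Z) with t2 | t2
  · obtain ⟨q, X, hq, hX, x0, x1⟩ := startQ h (p := p) (L := (-2826)) (by omega)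
    rcases le_or_gt (1000 * X) ((-2633) * Z) with y | y
    · exact sb h 0 (ql := 2445) (qh := 2469) (x0 := (-2826)) (x1 := (-2633)) hp hq hX t1.le t2 x0 y
        (cn_neg hZ0 P5 (lo := (-2826)) (hi := (-2633)) (by norm_num) (by norm_num) (by norm_num))
        (cn_neg hZ0 P0 (lo := (-381)) (hi := (-164)) (by norm_num) (by norm_num) (by norm_num))
        q0_5.symm (by norm_num)
    have y0 := y.le
    clear y
    rcases le_or_gt (1000 * X) ((-2425) * Z) with y | y
    · exact sb h 1 (ql := 2445) (qh := 2469) (x0 := (-2633)) (x1 := (-2425)) hp hq hX t1.le t2 y0 y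
        (cn_neg hZ0 P0 (lo := (-1012)) (hi := (-791)) (by norm_num) (by norm_num) (by norm_num))
        (cn_pos hZ0 P1 (lo := 1433) (hi := 1678) (by norm_num) (by norm_num) (by norm_num))
        q0_1 (by norm_num)
    have y1 := y.le
    clear y
    rcases le_or_gt (1000 * X) ((-2002) * Z) with y | y
    · exact sb h 0 (ql := 2445) (qh := 2469) (x0 := (-2425)) (x1 := (-2002)) hp hq hX t1.le t2 y1 y
        (cn_neg hZ0 P3 (lo := (-2426)) (hi := (-2002)) (by norm_num) (by norm_num) (by norm_num))
        (cn_pos hZ0 P0 (lo := 19) (hi := 467) (by norm_num) (by norm_num) (by norm_num))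
        q0_3.symm (by norm_num)
    have y2 := y.le
    clear y
    rcases le_or_gt (1000 * X) ((-1656) * Z) with y | y
    · exact sb h 1 (ql := 2445) (qh := 2469) (x0 := (-2002)) (x1 := (-1656)) hp hq hX t1.le t2 y2 y
        (cn_neg hZ0 P0 (lo := (-381)) (hi := (-22)) (by norm_num) (by norm_num) (by norm_num))
        (cn_pos hZ0 P3 (lo := 2064) (hi := 2447) (by norm_num) (by norm_num) (by norm_num))
        q0_3 (by norm_num)
    have y3 := y.le
    clear y
    rcases le_or_gt (1000 * X) ((-1417) * Z) with y | y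
    · exact sb h 0 (ql := 2445) (qh := 2469) (x0 := (-1656)) (x1 := (-1417)) hp hq hX t1.le t2 y3 y
        (cn_neg hZ0 P1 (lo := (-1657)) (hi := (-1417)) (by norm_num) (by norm_num) (by norm_num))
        (cn_pos hZ0 P0 (lo := 788) (hi := 1052) (by norm_num) (by norm_num) (by norm_num))
        q0_1.symm (by norm_num)
    have y4 := y.le
    clear y
    rcases le_or_gt (1000 * X) ((-1277) * Z) with y | y
    · exact sb h 1 (ql := 2445) (qh := 2469) (x0 := (-1417)) (x1 := (-1277)) hp hq hX t1.le t2 y4 y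
        (cn_pos hZ0 P0 (lo := 204) (hi := 357) (by norm_num) (by norm_num) (by norm_num))
        (cn_pos hZ0 P5 (lo := 2649) (hi := 2826) (by norm_num) (by norm_num) (by norm_num))
        q0_5 (by norm_num)
    have y5 := y.le
    clear y
    exact sb h 0 (ql := 2445) (qh := 2469) (x0 := (-1277)) (x1 := (-1057)) hp hq hX t1.le t2 y5 (by omega)
        (cn_neg hZ0 P0 (lo := (-1278)) (hi := (-1057)) (by norm_num) (by norm_num) (by norm_num))
        (cn_pos hZ0 P0 (lo := 1167) (hi := 1412) (by norm_num) (by norm_num) (by norm_num))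
        rfl (by norm_num)
  have t1 := t2
  clear t2
  rcases le_or_gt (1000 * p) (822 * Z) with t2 | t2
  · obtain ⟨q, X, hq, hX, x0, x1⟩ := startQ h (p := p) (L := (-2826)) (by omega)
    rcases le_or_gt (1000 * X) ((-2633) * Z) with y | y
    · exact sb h 0 (ql := 2431) (qh := 2450) (x0 := (-2826)) (x1 := (-2633)) hp hq hX t1.le t2 x0 y
        (cn_neg hZ0 P5 (lo := (-2826)) (hi := (-2633)) (by norm_num) (by norm_num) (by norm_num))
        (cn_neg hZ0 P0 (lo := (-395)) (hi := (-183)) (by norm_num) (by norm_num) (by norm_num))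
        q0_5.symm (by norm_num)
    have y0 := y.le
    clear y
    rcases le_or_gt (1000 * X) ((-2416) * Z) with y | y
    · exact sb h 1 (ql := 2431) (qh := 2450) (x0 := (-2633)) (x1 := (-2416)) hp hq hX t1.le t2 y0 y
        (cn_neg hZ0 P0 (lo := (-1000)) (hi := (-772)) (by norm_num) (by norm_num) (by norm_num))
        (cn_pos hZ0 P1 (lo := 1431) (hi := 1678) (by norm_num) (by norm_num) (by norm_num))
        q0_1 (by norm_num)
    have y1 := y.le
    clear y
    rcases le_or_gt (1000 * X) ((-2002) * Z) with y | y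
    · exact sb h 0 (ql := 2431) (qh := 2450) (x0 := (-2416)) (x1 := (-2002)) hp hq hX t1.le t2 y1 y
        (cn_neg hZ0 P3 (lo := (-2417)) (hi := (-2002)) (by norm_num) (by norm_num) (by norm_num))
        (cn_pos hZ0 P0 (lo := 14) (hi := 448) (by norm_num) (by norm_num) (by norm_num))
        q0_3.symm (by norm_num)
    have y2 := y.le
    clear y
    rcases le_or_gt (1000 * X) ((-1647) * Z) with y | y
    · exact sb h 1 (ql := 2431) (qh := 2450) (x0 := (-2002)) (x1 := (-1647)) hp hq hX t1.le t2 y2 y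
        (cn_neg hZ0 P0 (lo := (-369)) (hi := (-3)) (by norm_num) (by norm_num) (by norm_num))
        (cn_pos hZ0 P3 (lo := 2062) (hi := 2447) (by norm_num) (by norm_num) (by norm_num))
        q0_3 (by norm_num)
    have y3 := y.le
    clear y
    rcases le_or_gt (1000 * X) ((-1417) * Z) with y | y
    · exact sb h 0 (ql := 2431) (qh := 2450) (x0 := (-1647)) (x1 := (-1417)) hp hq hX t1.le t2 y3 y
        (cn_neg hZ0 P1 (lo := (-1648)) (hi := (-1417)) (by norm_num) (by norm_num) (by norm_num))
        (cn_pos hZ0 P0 (lo := 783) (hi := 1033) (by norm_num) (by norm_num) (by norm_num))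
        q0_1.symm (by norm_num)
    have y4 := y.le
    clear y
    rcases le_or_gt (1000 * X) ((-1268) * Z) with y | y
    · exact sb h 1 (ql := 2431) (qh := 2450) (x0 := (-1417)) (x1 := (-1268)) hp hq hX t1.le t2 y4 y
        (cn_pos hZ0 P0 (lo := 216) (hi := 376) (by norm_num) (by norm_num) (by norm_num))
        (cn_pos hZ0 P5 (lo := 2647) (hi := 2826) (by norm_num) (by norm_num) (by norm_num))
        q0_5 (by norm_num)
    have y5 := y.le
    clear y
    exact sb h 0 (ql := 2431) (qh := 2450) (x0 := (-1268)) (x1 := (-1038)) hp hq hX t1.le t2 y5 (by omega)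
        (cn_neg hZ0 P0 (lo := (-1269)) (hi := (-1038)) (by norm_num) (by norm_num) (by norm_num))
        (cn_pos hZ0 P0 (lo := 1162) (hi := 1412) (by norm_num) (by norm_num) (by norm_num))
        rfl (by norm_num)
  have t1 := t2
  clear t2
  rcases le_or_gt (1000 * p) (827 * Z) with t2 | t2
  · obtain ⟨q, X, hq, hX, x0, x1⟩ := startQ h (p := p) (L := (-2826)) (by omega)
    rcases le_or_gt (1000 * X) ((-2633) * Z) with y | y
    · exact sb h 0 (ql := 2416) (qh := 2436) (x0 := (-2826)) (x1 := (-2633)) hp hq hX t1.le t2 x0 y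
        (cn_neg hZ0 P5 (lo := (-2826)) (hi := (-2633)) (by norm_num) (by norm_num) (by norm_num))
        (cn_neg hZ0 P0 (lo := (-410)) (hi := (-197)) (by norm_num) (by norm_num) (by norm_num))
        q0_5.symm (by norm_num)
    have y0 := y.le
    clear y
    rcases le_or_gt (1000 * X) ((-2412) * Z) with y | y
    · exact sb h 1 (ql := 2416) (qh := 2436) (x0 := (-2633)) (x1 := (-2412)) hp hq hX t1.le t2 y0 y
        (cn_neg hZ0 P0 (lo := (-990)) (hi := (-758)) (by norm_num) (by norm_num) (by norm_num))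
        (cn_pos hZ0 P1 (lo := 1426) (hi := 1678) (by norm_num) (by norm_num) (by norm_num))
        q0_1 (by norm_num)
    have y1 := y.le
    clear y
    rcases le_or_gt (1000 * X) ((-2002) * Z) with y | y
    · exact sb h 0 (ql := 2416) (qh := 2436) (x0 := (-2412)) (x1 := (-2002)) hp hq hX t1.le t2 y1 y
        (cn_neg hZ0 P3 (lo := (-2413)) (hi := (-2002)) (by norm_num) (by norm_num) (by norm_num))
        (cn_pos hZ0 P0 (lo := 3) (hi := 434) (by norm_num) (by norm_num) (by norm_num))
        q0_3.symm (by norm_num)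
    have y2 := y.le
    clear y
    rcases le_or_gt (1000 * X) ((-1643) * Z) with y | y
    · exact sb h 1 (ql := 2416) (qh := 2436) (x0 := (-2002)) (x1 := (-1643)) hp hq hX t1.le t2 y2 y
        (cn_ctr hZ0 P0 (lo := (-359)) (hi := 11) (by norm_num) (by norm_num))
        (cn_pos hZ0 P3 (lo := 2057) (hi := 2447) (by norm_num) (by norm_num) (by norm_num))
        q0_3 (by norm_num)
    have y3 := y.le
    clear y
    rcases le_or_gt (1000 * X) ((-1417) * Z) with y | y
    · exact sb h 0 (ql := 2416) (qh := 2436) (x0 := (-1643)) (x1 := (-1417)) hp hq hX t1.le t2 y3 y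
        (cn_neg hZ0 P1 (lo := (-1644)) (hi := (-1417)) (by norm_num) (by norm_num) (by norm_num))
        (cn_pos hZ0 P0 (lo := 772) (hi := 1019) (by norm_num) (by norm_num) (by norm_num))
        q0_1.symm (by norm_num)
    have y4 := y.le
    clear y
    rcases le_or_gt (1000 * X) ((-1264) * Z) with y | y
    · exact sb h 1 (ql := 2416) (qh := 2436) (x0 := (-1417)) (x1 := (-1264)) hp hq hX t1.le t2 y4 y
        (cn_pos hZ0 P0 (lo := 226) (hi := 390) (by norm_num) (by norm_num) (by norm_num))
        (cn_pos hZ0 P5 (lo := 2642) (hi := 2826) (by norm_num) (by norm_num) (by norm_num))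
        q0_5 (by norm_num)
    have y5 := y.le
    clear y
    exact sb h 0 (ql := 2416) (qh := 2436) (x0 := (-1264)) (x1 := (-1024)) hp hq hX t1.le t2 y5 (by omega)
        (cn_neg hZ0 P0 (lo := (-1265)) (hi := (-1024)) (by norm_num) (by norm_num) (by norm_num))
        (cn_pos hZ0 P0 (lo := 1151) (hi := 1412) (by norm_num) (by norm_num) (by norm_num))
        rfl (by norm_num)
  have t1 := t2
  clear t2
  obtain ⟨q, X, hq, hX, x0, x1⟩ := startQ h (p := p) (L := (-2826)) (by omega)
  rcases le_or_gt (1000 * X) ((-2633) * Z) with y | y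
  · exact sb h 0 (ql := 2398) (qh := 2421) (x0 := (-2826)) (x1 := (-2633)) hp hq hX t1.le h2 x0 y
      (cn_neg hZ0 P5 (lo := (-2826)) (hi := (-2633)) (by norm_num) (by norm_num) (by norm_num))
      (cn_neg hZ0 P0 (lo := (-428)) (hi := (-212)) (by norm_num) (by norm_num) (by norm_num))
      q0_5.symm (by norm_num)
  have y0 := y.le
  clear y
  rcases le_or_gt (1000 * X) ((-2409) * Z) with y | y
  · exact sb h 1 (ql := 2398) (qh := 2421) (x0 := (-2633)) (x1 := (-2409)) hp hq hX t1.le h2 y0 y
      (cn_neg hZ0 P0 (lo := (-980)) (hi := (-743)) (by norm_num) (by norm_num) (by norm_num))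
      (cn_pos hZ0 P1 (lo := 1418) (hi := 1678) (by norm_num) (by norm_num) (by norm_num))
      q0_1 (by norm_num)
  have y1 := y.le
  clear y
  rcases le_or_gt (1000 * X) ((-2002) * Z) with y | y
  · exact sb h 0 (ql := 2398) (qh := 2421) (x0 := (-2409)) (x1 := (-2002)) hp hq hX t1.le h2 y1 y
      (cn_neg hZ0 P3 (lo := (-2410)) (hi := (-2002)) (by norm_num) (by norm_num) (by norm_num))
      (cn_ctr hZ0 P0 (lo := (-12)) (hi := 419) (by norm_num) (by norm_num))
      q0_3.symm (by norm_num)
  have y2 := y.le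
  clear y
  rcases le_or_gt (1000 * X) ((-1640) * Z) with y | y
  · exact sb h 1 (ql := 2398) (qh := 2421) (x0 := (-2002)) (x1 := (-1640)) hp hq hX t1.le h2 y2 y
      (cn_ctr hZ0 P0 (lo := (-349)) (hi := 26) (by norm_num) (by norm_num))
      (cn_pos hZ0 P3 (lo := 2049) (hi := 2447) (by norm_num) (by norm_num) (by norm_num))
      q0_3 (by norm_num)
  have y3 := y.le
  clear y
  rcases le_or_gt (1000 * X) ((-1417) * Z) with y | y
  · exact sb h 0 (ql := 2398) (qh := 2421) (x0 := (-1640)) (x1 := (-1417)) hp hq hX t1.le h2 y3 y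
      (cn_neg hZ0 P1 (lo := (-1641)) (hi := (-1417)) (by norm_num) (by norm_num) (by norm_num))
      (cn_pos hZ0 P0 (lo := 757) (hi := 1004) (by norm_num) (by norm_num) (by norm_num))
      q0_1.symm (by norm_num)
  have y4 := y.le
  clear y
  rcases le_or_gt (1000 * X) ((-1261) * Z) with y | y
  · exact sb h 1 (ql := 2398) (qh := 2421) (x0 := (-1417)) (x1 := (-1261)) hp hq hX t1.le h2 y4 y
      (cn_pos hZ0 P0 (lo := 236) (hi := 405) (by norm_num) (by norm_num) (by norm_num))
      (cn_pos hZ0 P5 (lo := 2634) (hi := 2826) (by norm_num) (by norm_num) (by norm_num))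
      q0_5 (by norm_num)
  have y5 := y.le
  clear y
  exact sb h 0 (ql := 2398) (qh := 2421) (x0 := (-1261)) (x1 := (-1009)) hp hq hX t1.le h2 y5 (by omega)
      (cn_neg hZ0 P0 (lo := (-1262)) (hi := (-1009)) (by norm_num) (by norm_num) (by norm_num))
      (cn_pos hZ0 P0 (lo := 1136) (hi := 1412) (by norm_num) (by norm_num) (by norm_num))
      rfl (by norm_num)

end Pool.Agent.SQ.H80
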