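import Pool.Agent.Helper80_SQ.Two4

/-!
MP_5f6ee5_nt, TWO, large `K`: cells for the position of the exceptional number (part 4).
-/

namespace Pool.Agent.SQ.H80

variable {g : ℤ → ZMod 2} {K Z ν : ℤ}

theorem cell12 (h : H2 g K Z ν) (hA1 : 2920681 * K ≤ 1000000 * ν)
    (hA2 : 1000000 * ν ≤ 3020644 * K) : False := by
  have hZ := h.hZ
  have hZ0 : 0 ≤ Z := by omega
  have hK0 : 0 < K := by
    have := h.hK1
    nlinarith
  have r0 : NuR K ν 0 ν := Or.inl ⟨by norm_num, by norm_num, rfl⟩
  have r1 : NuR K ν 1 ν := Or.inl ⟨by norm_num, by norm_num, rfl⟩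
  have r2 : NuR K ν 2 (ν + 4 * K) := Or.inr ⟨by norm_num, by norm_num, rfl⟩
  have r3 : NuR K ν 3 (ν + 4 * K) := Or.inr ⟨by norm_num, by norm_num, rfl⟩
  obtain ⟨s0, P0⟩ := piece h r0 (α := 0) (β := 1412) (by norm_num) (by norm_num) (by norm_num)
    (by norm_num) (by norm_num) (Or.inl (by linarith))
  obtain ⟨s1, P1⟩ := piece h r1 (α := 1417) (β := 1707) (by norm_num) (by norm_num) (by norm_num)
    (by norm_num) (by norm_num) (Or.inl (by linarith))
  obtain ⟨s2, P2⟩ := piece h r1 (α := 1740) (β := 1998) (by norm_num) (by norm_num) (by norm_num)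
    (by norm_num) (by norm_num) (Or.inr ⟨by norm_num, by norm_num, by linarith⟩)
  obtain ⟨s3, P3⟩ := piece h r2 (α := 2002) (β := 2447) (by norm_num) (by norm_num) (by norm_num)
    (by norm_num) (by norm_num) (Or.inl (by linarith))
  obtain ⟨s4, P4⟩ := piece h r3 (α := 2452) (β := 2628) (by norm_num) (by norm_num) (by norm_num)
    (by norm_num) (by norm_num) (Or.inl (by linarith))
  obtain ⟨s5, P5⟩ := piece h r3 (α := 2652) (β := 2826) (by norm_num) (by norm_num) (by norm_num)
    (by norm_num) (by norm_num) (Or.inr ⟨by norm_num, by norm_num, by linarith⟩)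
  have e0 : s2 = s3 := rel1 h (l1 := (-1895)) (l2 := (-1842)) (by norm_num) (by norm_num) (by norm_num)
    (cn_neg hZ0 P2 (lo := (-1895)) (hi := (-1842)) (by norm_num) (by norm_num) (by norm_num))
    (cn_pos hZ0 P0 (lo := (-1895) + 1973) (hi := (-1842) + 2027) (by norm_num) (by norm_num) (by norm_num))
    (cn_pos hZ0 P3 (lo := (-1895) + 4000) (hi := (-1842) + 4002) (by norm_num) (by norm_num) (by norm_num))
  have e1 : s5 = s0 := rel1 h (l1 := (-2765)) (l2 := (-2712)) (by norm_num) (by norm_num) (by norm_num)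
    (cn_neg hZ0 P5 (lo := (-2765)) (hi := (-2712)) (by norm_num) (by norm_num) (by norm_num))
    (cn_neg hZ0 P0 (lo := (-2765) + 1973) (hi := (-2712) + 2027) (by norm_num) (by norm_num) (by norm_num))
    (cn_pos hZ0 P0 (lo := (-2765) + 4000) (hi := (-2712) + 4002) (by norm_num) (by norm_num) (by norm_num))
  have e2 : s3 = s1 := rel1 h (l1 := (-2397)) (l2 := (-2344)) (by norm_num) (by norm_num) (by norm_num)
    (cn_neg hZ0 P3 (lo := (-2397)) (hi := (-2344)) (by norm_num) (by norm_num) (by norm_num))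
    (cn_neg hZ0 P0 (lo := (-2397) + 1973) (hi := (-2344) + 2027) (by norm_num) (by norm_num) (by norm_num))
    (cn_pos hZ0 P1 (lo := (-2397) + 4000) (hi := (-2344) + 4002) (by norm_num) (by norm_num) (by norm_num))
  have e3 : s5 + s1 = s0 + s0 := relh h (l1 := (-2762)) (l2 := (-2699)) (by norm_num) (by norm_num)
    (by norm_num)
    (cn_neg hZ0 P5 (lo := (-2762)) (hi := (-2699)) (by norm_num) (by norm_num) (by norm_num))
    (cn_pos hZ0 P0 (lo := (-2762) + 2828) (hi := (-2699) + 2862) (by norm_num) (by norm_num) (by norm_num))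
    (cn_neg hZ0 P0 (lo := (-2762) + 1398) (hi := (-2699) + 1415) (by norm_num) (by norm_num) (by norm_num))
    (cn_pos hZ0 P1 (lo := (-2762) + 4242) (hi := (-2699) + 4262) (by norm_num) (by norm_num) (by norm_num))
  have e4 : s4 = s1 := rel1 h (l1 := (-2544)) (l2 := (-2491)) (by norm_num) (by norm_num) (by norm_num)
    (cn_neg hZ0 P4 (lo := (-2544)) (hi := (-2491)) (by norm_num) (by norm_num) (by norm_num))
    (cn_neg hZ0 P0 (lo := (-2544) + 1973) (hi := (-2491) + 2027) (by norm_num) (by norm_num) (by norm_num))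
    (cn_pos hZ0 P1 (lo := (-2544) + 4000) (hi := (-2491) + 4002) (by norm_num) (by norm_num) (by norm_num))
  have q0_1 : s0 = s1 := by
    have T : ∀ s0 s1 s2 s3 s4 s5 : ZMod 2, s2 = s3 → s5 = s0 → s3 = s1 → s5 + s1 = s0 + s0 → s4 = s1 → s0 = s1 := by decide
    exact T s0 s1 s2 s3 s4 s5 e0 e1 e2 e3 e4
  have q0_3 : s0 = s3 := by
    have T : ∀ s0 s1 s2 s3 s4 s5 : ZMod 2, s2 = s3 → s5 = s0 → s3 = s1 → s5 + s1 = s0 + s0 → s4 = s1 → s0 = s3 := by decide
    exact T s0 s1 s2 s3 s4 s5 e0 e1 e2 e3 e4
  have q0_5 : s0 = s5 := by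
    have T : ∀ s0 s1 s2 s3 s4 s5 : ZMod 2, s2 = s3 → s5 = s0 → s3 = s1 → s5 + s1 = s0 + s0 → s4 = s1 → s0 = s5 := by decide
    exact T s0 s1 s2 s3 s4 s5 e0 e1 e2 e3 e4
  refine fin h (ta := 770) (tb := 812) (by norm_num) (by norm_num) ?_
  intro p hp h1 h2
  rcases le_or_gt (1000 * p) (775 * Z) with t2 | t2
  · obtain ⟨q, X, hq, hX, x0, x1⟩ := startQ h (p := p) (L := (-2826)) (by omega)
    rcases le_or_gt (1000 * X) ((-2652) * Z) with y | y
    · exact sb h 0 (ql := 2578) (qh := 2600) (x0 := (-2826)) (x1 := (-2652)) hp hq hX h1 t2 x0 y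
        (cn_neg hZ0 P5 (lo := (-2826)) (hi := (-2652)) (by norm_num) (by norm_num) (by norm_num))
        (cn_neg hZ0 P0 (lo := (-248)) (hi := (-52)) (by norm_num) (by norm_num) (by norm_num))
        q0_5.symm (by norm_num)
    have y0 := y.le
    clear y
    rcases le_or_gt (1000 * X) ((-2443) * Z) with y | y
    · exact sb h 1 (ql := 2578) (qh := 2600) (x0 := (-2652)) (x1 := (-2443)) hp hq hX h1 t2 y0 y
        (cn_neg hZ0 P0 (lo := (-1113)) (hi := (-893)) (by norm_num) (by norm_num) (by norm_num))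
        (cn_pos hZ0 P1 (lo := 1465) (hi := 1707) (by norm_num) (by norm_num) (by norm_num))
        q0_1 (by norm_num)
    have y1 := y.le
    clear y
    rcases le_or_gt (1000 * X) ((-2002) * Z) with y | y
    · exact sb h 0 (ql := 2578) (qh := 2600) (x0 := (-2443)) (x1 := (-2002)) hp hq hX h1 t2 y1 y
        (cn_neg hZ0 P3 (lo := (-2444)) (hi := (-2002)) (by norm_num) (by norm_num) (by norm_num))
        (cn_pos hZ0 P0 (lo := 134) (hi := 598) (by norm_num) (by norm_num) (by norm_num))
        q0_3.symm (by norm_num)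
    have y2 := y.le
    clear y
    rcases le_or_gt (1000 * X) ((-1703) * Z) with y | y
    · exact sb h 1 (ql := 2578) (qh := 2600) (x0 := (-2002)) (x1 := (-1703)) hp hq hX h1 t2 y2 y
        (cn_neg hZ0 P0 (lo := (-463)) (hi := (-153)) (by norm_num) (by norm_num) (by norm_num))
        (cn_pos hZ0 P3 (lo := 2115) (hi := 2447) (by norm_num) (by norm_num) (by norm_num))
        q0_3 (by norm_num)
    have y3 := y.le
    clear y
    rcases le_or_gt (1000 * X) ((-1417) * Z) with y | y
    · exact sb h 0 (ql := 2578) (qh := 2600) (x0 := (-1703)) (x1 := (-1417)) hp hq hX h1 t2 y3 y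
        (cn_neg hZ0 P1 (lo := (-1704)) (hi := (-1417)) (by norm_num) (by norm_num) (by norm_num))
        (cn_pos hZ0 P0 (lo := 874) (hi := 1183) (by norm_num) (by norm_num) (by norm_num))
        q0_1.symm (by norm_num)
    have y4 := y.le
    clear y
    rcases le_or_gt (1000 * X) ((-1324) * Z) with y | y
    · exact sb h 1 (ql := 2578) (qh := 2600) (x0 := (-1417)) (x1 := (-1324)) hp hq hX h1 t2 y4 y
        (cn_pos hZ0 P0 (lo := 122) (hi := 226) (by norm_num) (by norm_num) (by norm_num))
        (cn_pos hZ0 P5 (lo := 2700) (hi := 2826) (by norm_num) (by norm_num) (by norm_num))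
        q0_5 (by norm_num)
    have y5 := y.le
    clear y
    exact sb h 0 (ql := 2578) (qh := 2600) (x0 := (-1324)) (x1 := (-1188)) hp hq hX h1 t2 y5 (by omega)
        (cn_neg hZ0 P0 (lo := (-1325)) (hi := (-1188)) (by norm_num) (by norm_num) (by norm_num))
        (cn_pos hZ0 P0 (lo := 1253) (hi := 1412) (by norm_num) (by norm_num) (by norm_num))
        rfl (by norm_num)
  have t1 := t2
  clear t2
  rcases le_or_gt (1000 * p) (780 * Z) with t2 | t2
  · obtain ⟨q, X, hq, hX, x0, x1⟩ := startQ h (p := p) (L := (-2826)) (by omega)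
    rcases le_or_gt (1000 * X) ((-2652) * Z) with y | y
    · exact sb h 0 (ql := 2562) (qh := 2583) (x0 := (-2826)) (x1 := (-2652)) hp hq hX t1.le t2 x0 y
        (cn_neg hZ0 P5 (lo := (-2826)) (hi := (-2652)) (by norm_num) (by norm_num) (by norm_num))
        (cn_neg hZ0 P0 (lo := (-264)) (hi := (-69)) (by norm_num) (by norm_num) (by norm_num))
        q0_5.symm (by norm_num)
    have y0 := y.le
    clear y
    rcases le_or_gt (1000 * X) ((-2436) * Z) with y | y
    · exact sb h 1 (ql := 2562) (qh := 2583) (x0 := (-2652)) (x1 := (-2436)) hp hq hX t1.le t2 y0 y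
        (cn_neg hZ0 P0 (lo := (-1103)) (hi := (-876)) (by norm_num) (by norm_num) (by norm_num))
        (cn_pos hZ0 P1 (lo := 1459) (hi := 1707) (by norm_num) (by norm_num) (by norm_num))
        q0_1 (by norm_num)
    have y1 := y.le
    clear y
    rcases le_or_gt (1000 * X) ((-2002) * Z) with y | y
    · exact sb h 0 (ql := 2562) (qh := 2583) (x0 := (-2436)) (x1 := (-2002)) hp hq hX t1.le t2 y1 y
        (cn_neg hZ0 P3 (lo := (-2437)) (hi := (-2002)) (by norm_num) (by norm_num) (by norm_num))
        (cn_pos hZ0 P0 (lo := 125) (hi := 581) (by norm_num) (by norm_num) (by norm_num))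
        q0_3.symm (by norm_num)
    have y2 := y.le
    clear y
    rcases le_or_gt (1000 * X) ((-1696) * Z) with y | y
    · exact sb h 1 (ql := 2562) (qh := 2583) (x0 := (-2002)) (x1 := (-1696)) hp hq hX t1.le t2 y2 y
        (cn_neg hZ0 P0 (lo := (-453)) (hi := (-136)) (by norm_num) (by norm_num) (by norm_num))
        (cn_pos hZ0 P3 (lo := 2109) (hi := 2447) (by norm_num) (by norm_num) (by norm_num))
        q0_3 (by norm_num)
    have y3 := y.le
    clear y
    rcases le_or_gt (1000 * X) ((-1417) * Z) with y | y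
    · exact sb h 0 (ql := 2562) (qh := 2583) (x0 := (-1696)) (x1 := (-1417)) hp hq hX t1.le t2 y3 y
        (cn_neg hZ0 P1 (lo := (-1697)) (hi := (-1417)) (by norm_num) (by norm_num) (by norm_num))
        (cn_pos hZ0 P0 (lo := 865) (hi := 1166) (by norm_num) (by norm_num) (by norm_num))
        q0_1.symm (by norm_num)
    have y4 := y.le
    clear y
    rcases le_or_gt (1000 * X) ((-1317) * Z) with y | y
    · exact sb h 1 (ql := 2562) (qh := 2583) (x0 := (-1417)) (x1 := (-1317)) hp hq hX t1.le t2 y4 y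
        (cn_pos hZ0 P0 (lo := 132) (hi := 243) (by norm_num) (by norm_num) (by norm_num))
        (cn_pos hZ0 P5 (lo := 2694) (hi := 2826) (by norm_num) (by norm_num) (by norm_num))
        q0_5 (by norm_num)
    have y5 := y.le
    clear y
    exact sb h 0 (ql := 2562) (qh := 2583) (x0 := (-1317)) (x1 := (-1171)) hp hq hX t1.le t2 y5 (by omega)
        (cn_neg hZ0 P0 (lo := (-1318)) (hi := (-1171)) (by norm_num) (by norm_num) (by norm_num))
        (cn_pos hZ0 P0 (lo := 1244) (hi := 1412) (by norm_num) (by norm_num) (by norm_num))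
        rfl (by norm_num)
  have t1 := t2
  clear t2
  rcases le_or_gt (1000 * p) (785 * Z) with t2 | t2
  · obtain ⟨q, X, hq, hX, x0, x1⟩ := startQ h (p := p) (L := (-2826)) (by omega)
    rcases le_or_gt (1000 * X) ((-2652) * Z) with y | y
    · exact sb h 0 (ql := 2545) (qh := 2567) (x0 := (-2826)) (x1 := (-2652)) hp hq hX t1.le t2 x0 y
        (cn_neg hZ0 P5 (lo := (-2826)) (hi := (-2652)) (by norm_num) (by norm_num) (by norm_num))
        (cn_neg hZ0 P0 (lo := (-281)) (hi := (-85)) (by norm_num) (by norm_num) (by norm_num))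
        q0_5.symm (by norm_num)
    have y0 := y.le
    clear y
    rcases le_or_gt (1000 * X) ((-2430) * Z) with y | y
    · exact sb h 1 (ql := 2545) (qh := 2567) (x0 := (-2652)) (x1 := (-2430)) hp hq hX t1.le t2 y0 y
        (cn_neg hZ0 P0 (lo := (-1093)) (hi := (-860)) (by norm_num) (by norm_num) (by norm_num))
        (cn_pos hZ0 P1 (lo := 1452) (hi := 1707) (by norm_num) (by norm_num) (by norm_num))
        q0_1 (by norm_num)
    have y1 := y.le
    clear y
    rcases le_or_gt (1000 * X) ((-2002) * Z) with y | y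
    · exact sb h 0 (ql := 2545) (qh := 2567) (x0 := (-2430)) (x1 := (-2002)) hp hq hX t1.le t2 y1 y
        (cn_neg hZ0 P3 (lo := (-2431)) (hi := (-2002)) (by norm_num) (by norm_num) (by norm_num))
        (cn_pos hZ0 P0 (lo := 114) (hi := 565) (by norm_num) (by norm_num) (by norm_num))
        q0_3.symm (by norm_num)
    have y2 := y.le
    clear y
    rcases le_or_gt (1000 * X) ((-1690) * Z) with y | y
    · exact sb h 1 (ql := 2545) (qh := 2567) (x0 := (-2002)) (x1 := (-1690)) hp hq hX t1.le t2 y2 y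
        (cn_neg hZ0 P0 (lo := (-443)) (hi := (-120)) (by norm_num) (by norm_num) (by norm_num))
        (cn_pos hZ0 P3 (lo := 2102) (hi := 2447) (by norm_num) (by norm_num) (by norm_num))
        q0_3 (by norm_num)
    have y3 := y.le
    clear y
    rcases le_or_gt (1000 * X) ((-1417) * Z) with y | y
    · exact sb h 0 (ql := 2545) (qh := 2567) (x0 := (-1690)) (x1 := (-1417)) hp hq hX t1.le t2 y3 y
        (cn_neg hZ0 P1 (lo := (-1691)) (hi := (-1417)) (by norm_num) (by norm_num) (by norm_num))
        (cn_pos hZ0 P0 (lo := 854) (hi := 1150) (by norm_num) (by norm_num) (by norm_num))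
        q0_1.symm (by norm_num)
    have y4 := y.le
    clear y
    rcases le_or_gt (1000 * X) ((-1311) * Z) with y | y
    · exact sb h 1 (ql := 2545) (qh := 2567) (x0 := (-1417)) (x1 := (-1311)) hp hq hX t1.le t2 y4 y
        (cn_pos hZ0 P0 (lo := 142) (hi := 259) (by norm_num) (by norm_num) (by norm_num))
        (cn_pos hZ0 P5 (lo := 2687) (hi := 2826) (by norm_num) (by norm_num) (by norm_num))
        q0_5 (by norm_num)
    have y5 := y.le
    clear y
    exact sb h 0 (ql := 2545) (qh := 2567) (x0 := (-1311)) (x1 := (-1155)) hp hq hX t1.le t2 y5 (by omega)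
        (cn_neg hZ0 P0 (lo := (-1312)) (hi := (-1155)) (by norm_num) (by norm_num) (by norm_num))
        (cn_pos hZ0 P0 (lo := 1233) (hi := 1412) (by norm_num) (by norm_num) (by norm_num))
        rfl (by norm_num)
  have t1 := t2
  clear t2
  rcases le_or_gt (1000 * p) (791 * Z) with t2 | t2
  · obtain ⟨q, X, hq, hX, x0, x1⟩ := startQ h (p := p) (L := (-2826)) (by omega)
    rcases le_or_gt (1000 * X) ((-2652) * Z) with y | y
    · exact sb h 0 (ql := 2526) (qh := 2550) (x0 := (-2826)) (x1 := (-2652)) hp hq hX t1.le t2 x0 y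
        (cn_neg hZ0 P5 (lo := (-2826)) (hi := (-2652)) (by norm_num) (by norm_num) (by norm_num))
        (cn_neg hZ0 P0 (lo := (-300)) (hi := (-102)) (by norm_num) (by norm_num) (by norm_num))
        q0_5.symm (by norm_num)
    have y0 := y.le
    clear y
    rcases le_or_gt (1000 * X) ((-2425) * Z) with y | y
    · exact sb h 1 (ql := 2526) (qh := 2550) (x0 := (-2652)) (x1 := (-2425)) hp hq hX t1.le t2 y0 y
        (cn_neg hZ0 P0 (lo := (-1083)) (hi := (-843)) (by norm_num) (by norm_num) (by norm_num))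
        (cn_pos hZ0 P1 (lo := 1443) (hi := 1707) (by norm_num) (by norm_num) (by norm_num))
        q0_1 (by norm_num)
    have y1 := y.le
    clear y
    rcases le_or_gt (1000 * X) ((-2002) * Z) with y | y
    · exact sb h 0 (ql := 2526) (qh := 2550) (x0 := (-2425)) (x1 := (-2002)) hp hq hX t1.le t2 y1 y
        (cn_neg hZ0 P3 (lo := (-2426)) (hi := (-2002)) (by norm_num) (by norm_num) (by norm_num))
        (cn_pos hZ0 P0 (lo := 100) (hi := 548) (by norm_num) (by norm_num) (by norm_num))
        q0_3.symm (by norm_num)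
    have y2 := y.le
    clear y
    rcases le_or_gt (1000 * X) ((-1685) * Z) with y | y
    · exact sb h 1 (ql := 2526) (qh := 2550) (x0 := (-2002)) (x1 := (-1685)) hp hq hX t1.le t2 y2 y
        (cn_neg hZ0 P0 (lo := (-433)) (hi := (-103)) (by norm_num) (by norm_num) (by norm_num))
        (cn_pos hZ0 P3 (lo := 2093) (hi := 2447) (by norm_num) (by norm_num) (by norm_num))
        q0_3 (by norm_num)
    have y3 := y.le
    clear y
    rcases le_or_gt (1000 * X) ((-1417) * Z) with y | y
    · exact sb h 0 (ql := 2526) (qh := 2550) (x0 := (-1685)) (x1 := (-1417)) hp hq hX t1.le t2 y3 y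
        (cn_neg hZ0 P1 (lo := (-1686)) (hi := (-1417)) (by norm_num) (by norm_num) (by norm_num))
        (cn_pos hZ0 P0 (lo := 840) (hi := 1133) (by norm_num) (by norm_num) (by norm_num))
        q0_1.symm (by norm_num)
    have y4 := y.le
    clear y
    rcases le_or_gt (1000 * X) ((-1306) * Z) with y | y
    · exact sb h 1 (ql := 2526) (qh := 2550) (x0 := (-1417)) (x1 := (-1306)) hp hq hX t1.le t2 y4 y
        (cn_pos hZ0 P0 (lo := 152) (hi := 276) (by norm_num) (by norm_num) (by norm_num))
        (cn_pos hZ0 P5 (lo := 2678) (hi := 2826) (by norm_num) (by norm_num) (by norm_num))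
        q0_5 (by norm_num)
    have y5 := y.le
    clear y
    exact sb h 0 (ql := 2526) (qh := 2550) (x0 := (-1306)) (x1 := (-1138)) hp hq hX t1.le t2 y5 (by omega)
        (cn_neg hZ0 P0 (lo := (-1307)) (hi := (-1138)) (by norm_num) (by norm_num) (by norm_num))
        (cn_pos hZ0 P0 (lo := 1219) (hi := 1412) (by norm_num) (by norm_num) (by norm_num))
        rfl (by norm_num)
  have t1 := t2
  clear t2
  rcases le_or_gt (1000 * p) (796 * Z) with t2 | t2
  · obtain ⟨q, X, hq, hX, x0, x1⟩ := startQ h (p := p) (L := (-2826)) (by omega)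
    rcases le_or_gt (1000 * X) ((-2652) * Z) with y | y
    · exact sb h 0 (ql := 2510) (qh := 2531) (x0 := (-2826)) (x1 := (-2652)) hp hq hX t1.le t2 x0 y
        (cn_neg hZ0 P5 (lo := (-2826)) (hi := (-2652)) (by norm_num) (by norm_num) (by norm_num))
        (cn_neg hZ0 P0 (lo := (-316)) (hi := (-121)) (by norm_num) (by norm_num) (by norm_num))
        q0_5.symm (by norm_num)
    have y0 := y.le
    clear y
    rcases le_or_gt (1000 * X) ((-2416) * Z) with y | y
    · exact sb h 1 (ql := 2510) (qh := 2531) (x0 := (-2652)) (x1 := (-2416)) hp hq hX t1.le t2 y0 y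
        (cn_neg hZ0 P0 (lo := (-1071)) (hi := (-824)) (by norm_num) (by norm_num) (by norm_num))
        (cn_pos hZ0 P1 (lo := 1439) (hi := 1707) (by norm_num) (by norm_num) (by norm_num))
        q0_1 (by norm_num)
    have y1 := y.le
    clear y
    rcases le_or_gt (1000 * X) ((-2002) * Z) with y | y
    · exact sb h 0 (ql := 2510) (qh := 2531) (x0 := (-2416)) (x1 := (-2002)) hp hq hX t1.le t2 y1 y
        (cn_neg hZ0 P3 (lo := (-2417)) (hi := (-2002)) (by norm_num) (by norm_num) (by norm_num))
        (cn_pos hZ0 P0 (lo := 93) (hi := 529) (by norm_num) (by norm_num) (by norm_num))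
        q0_3.symm (by norm_num)
    have y2 := y.le
    clear y
    rcases le_or_gt (1000 * X) ((-1676) * Z) with y | y
    · exact sb h 1 (ql := 2510) (qh := 2531) (x0 := (-2002)) (x1 := (-1676)) hp hq hX t1.le t2 y2 y
        (cn_neg hZ0 P0 (lo := (-421)) (hi := (-84)) (by norm_num) (by norm_num) (by norm_num))
        (cn_pos hZ0 P3 (lo := 2089) (hi := 2447) (by norm_num) (by norm_num) (by norm_num))
        q0_3 (by norm_num)
    have y3 := y.le
    clear y
    rcases le_or_gt (1000 * X) ((-1417) * Z) with y | y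
    · exact sb h 0 (ql := 2510) (qh := 2531) (x0 := (-1676)) (x1 := (-1417)) hp hq hX t1.le t2 y3 y
        (cn_neg hZ0 P1 (lo := (-1677)) (hi := (-1417)) (by norm_num) (by norm_num) (by norm_num))
        (cn_pos hZ0 P0 (lo := 833) (hi := 1114) (by norm_num) (by norm_num) (by norm_num))
        q0_1.symm (by norm_num)
    have y4 := y.le
    clear y
    rcases le_or_gt (1000 * X) ((-1297) * Z) with y | y
    · exact sb h 1 (ql := 2510) (qh := 2531) (x0 := (-1417)) (x1 := (-1297)) hp hq hX t1.le t2 y4 y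
        (cn_pos hZ0 P0 (lo := 164) (hi := 295) (by norm_num) (by norm_num) (by norm_num))
        (cn_pos hZ0 P5 (lo := 2674) (hi := 2826) (by norm_num) (by norm_num) (by norm_num))
        q0_5 (by norm_num)
    have y5 := y.le
    clear y
    exact sb h 0 (ql := 2510) (qh := 2531) (x0 := (-1297)) (x1 := (-1119)) hp hq hX t1.le t2 y5 (by omega)
        (cn_neg hZ0 P0 (lo := (-1298)) (hi := (-1119)) (by norm_num) (by norm_num) (by norm_num))
        (cn_pos hZ0 P0 (lo := 1212) (hi := 1412) (by norm_num) (by norm_num) (by norm_num))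
        rfl (by norm_num)
  have t1 := t2
  clear t2
  rcases le_or_gt (1000 * p) (801 * Z) with t2 | t2
  · obtain ⟨q, X, hq, hX, x0, x1⟩ := startQ h (p := p) (L := (-2826)) (by omega)
    rcases le_or_gt (1000 * X) ((-2652) * Z) with y | y
    · exact sb h 0 (ql := 2494) (qh := 2515) (x0 := (-2826)) (x1 := (-2652)) hp hq hX t1.le t2 x0 y
        (cn_neg hZ0 P5 (lo := (-2826)) (hi := (-2652)) (by norm_num) (by norm_num) (by norm_num))
        (cn_neg hZ0 P0 (lo := (-332)) (hi := (-137)) (by norm_num) (by norm_num) (by norm_num))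
        q0_5.symm (by norm_num)
    have y0 := y.le
    clear y
    rcases le_or_gt (1000 * X) ((-2410) * Z) with y | y
    · exact sb h 1 (ql := 2494) (qh := 2515) (x0 := (-2652)) (x1 := (-2410)) hp hq hX t1.le t2 y0 y
        (cn_neg hZ0 P0 (lo := (-1061)) (hi := (-808)) (by norm_num) (by norm_num) (by norm_num))
        (cn_pos hZ0 P1 (lo := 1433) (hi := 1707) (by norm_num) (by norm_num) (by norm_num))
        q0_1 (by norm_num)
    have y1 := y.le
    clear y
    rcases le_or_gt (1000 * X) ((-2002) * Z) with y | y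
    · exact sb h 0 (ql := 2494) (qh := 2515) (x0 := (-2410)) (x1 := (-2002)) hp hq hX t1.le t2 y1 y
        (cn_neg hZ0 P3 (lo := (-2411)) (hi := (-2002)) (by norm_num) (by norm_num) (by norm_num))
        (cn_pos hZ0 P0 (lo := 83) (hi := 513) (by norm_num) (by norm_num) (by norm_num))
        q0_3.symm (by norm_num)
    have y2 := y.le
    clear y
    rcases le_or_gt (1000 * X) ((-1670) * Z) with y | y
    · exact sb h 1 (ql := 2494) (qh := 2515) (x0 := (-2002)) (x1 := (-1670)) hp hq hX t1.le t2 y2 y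
        (cn_neg hZ0 P0 (lo := (-411)) (hi := (-68)) (by norm_num) (by norm_num) (by norm_num))
        (cn_pos hZ0 P3 (lo := 2083) (hi := 2447) (by norm_num) (by norm_num) (by norm_num))
        q0_3 (by norm_num)
    have y3 := y.le
    clear y
    rcases le_or_gt (1000 * X) ((-1417) * Z) with y | y
    · exact sb h 0 (ql := 2494) (qh := 2515) (x0 := (-1670)) (x1 := (-1417)) hp hq hX t1.le t2 y3 y
        (cn_neg hZ0 P1 (lo := (-1671)) (hi := (-1417)) (by norm_num) (by norm_num) (by norm_num))
        (cn_pos hZ0 P0 (lo := 823) (hi := 1098) (by norm_num) (by norm_num) (by norm_num))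
        q0_1.symm (by norm_num)
    have y4 := y.le
    clear y
    rcases le_or_gt (1000 * X) ((-1291) * Z) with y | y
    · exact sb h 1 (ql := 2494) (qh := 2515) (x0 := (-1417)) (x1 := (-1291)) hp hq hX t1.le t2 y4 y
        (cn_pos hZ0 P0 (lo := 174) (hi := 311) (by norm_num) (by norm_num) (by norm_num))
        (cn_pos hZ0 P5 (lo := 2668) (hi := 2826) (by norm_num) (by norm_num) (by norm_num))
        q0_5 (by norm_num)
    have y5 := y.le
    clear y
    exact sb h 0 (ql := 2494) (qh := 2515) (x0 := (-1291)) (x1 := (-1103)) hp hq hX t1.le t2 y5 (by omega)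
        (cn_neg hZ0 P0 (lo := (-1292)) (hi := (-1103)) (by norm_num) (by norm_num) (by norm_num))
        (cn_pos hZ0 P0 (lo := 1202) (hi := 1412) (by norm_num) (by norm_num) (by norm_num))
        rfl (by norm_num)
  have t1 := t2
  clear t2
  rcases le_or_gt (1000 * p) (807 * Z) with t2 | t2
  · obtain ⟨q, X, hq, hX, x0, x1⟩ := startQ h (p := p) (L := (-2826)) (by omega)
    rcases le_or_gt (1000 * X) ((-2652) * Z) with y | y
    · exact sb h 0 (ql := 2476) (qh := 2499) (x0 := (-2826)) (x1 := (-2652)) hp hq hX t1.le t2 x0 y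
        (cn_neg hZ0 P5 (lo := (-2826)) (hi := (-2652)) (by norm_num) (by norm_num) (by norm_num))
        (cn_neg hZ0 P0 (lo := (-350)) (hi := (-153)) (by norm_num) (by norm_num) (by norm_num))
        q0_5.symm (by norm_num)
    have y0 := y.le
    clear y
    rcases le_or_gt (1000 * X) ((-2406) * Z) with y | y
    · exact sb h 1 (ql := 2476) (qh := 2499) (x0 := (-2652)) (x1 := (-2406)) hp hq hX t1.le t2 y0 y
        (cn_neg hZ0 P0 (lo := (-1051)) (hi := (-792)) (by norm_num) (by norm_num) (by norm_num))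
        (cn_pos hZ0 P1 (lo := 1425) (hi := 1707) (by norm_num) (by norm_num) (by norm_num))
        q0_1 (by norm_num)
    have y1 := y.le
    clear y
    rcases le_or_gt (1000 * X) ((-2002) * Z) with y | y
    · exact sb h 0 (ql := 2476) (qh := 2499) (x0 := (-2406)) (x1 := (-2002)) hp hq hX t1.le t2 y1 y
        (cn_neg hZ0 P3 (lo := (-2407)) (hi := (-2002)) (by norm_num) (by norm_num) (by norm_num))
        (cn_pos hZ0 P0 (lo := 69) (hi := 497) (by norm_num) (by norm_num) (by norm_num))
        q0_3.symm (by norm_num)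
    have y2 := y.le
    clear y
    rcases le_or_gt (1000 * X) ((-1666) * Z) with y | y
    · exact sb h 1 (ql := 2476) (qh := 2499) (x0 := (-2002)) (x1 := (-1666)) hp hq hX t1.le t2 y2 y
        (cn_neg hZ0 P0 (lo := (-401)) (hi := (-52)) (by norm_num) (by norm_num) (by norm_num))
        (cn_pos hZ0 P3 (lo := 2075) (hi := 2447) (by norm_num) (by norm_num) (by norm_num))
        q0_3 (by norm_num)
    have y3 := y.le
    clear y
    rcases le_or_gt (1000 * X) ((-1417) * Z) with y | y
    · exact sb h 0 (ql := 2476) (qh := 2499) (x0 := (-1666)) (x1 := (-1417)) hp hq hX t1.le t2 y3 y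
        (cn_neg hZ0 P1 (lo := (-1667)) (hi := (-1417)) (by norm_num) (by norm_num) (by norm_num))
        (cn_pos hZ0 P0 (lo := 809) (hi := 1082) (by norm_num) (by norm_num) (by norm_num))
        q0_1.symm (by norm_num)
    have y4 := y.le
    clear y
    rcases le_or_gt (1000 * X) ((-1287) * Z) with y | y
    · exact sb h 1 (ql := 2476) (qh := 2499) (x0 := (-1417)) (x1 := (-1287)) hp hq hX t1.le t2 y4 y
        (cn_pos hZ0 P0 (lo := 184) (hi := 327) (by norm_num) (by norm_num) (by norm_num))
        (cn_pos hZ0 P5 (lo := 2660) (hi := 2826) (by norm_num) (by norm_num) (by norm_num))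
        q0_5 (by norm_num)
    have y5 := y.le
    clear y
    exact sb h 0 (ql := 2476) (qh := 2499) (x0 := (-1287)) (x1 := (-1087)) hp hq hX t1.le t2 y5 (by omega)
        (cn_neg hZ0 P0 (lo := (-1288)) (hi := (-1087)) (by norm_num) (by norm_num) (by norm_num))
        (cn_pos hZ0 P0 (lo := 1188) (hi := 1412) (by norm_num) (by norm_num) (by norm_num))
        rfl (by norm_num)
  have t1 := t2
  clear t2
  obtain ⟨q, X, hq, hX, x0, x1⟩ := startQ h (p := p) (L := (-2826)) (by omega)
  rcases le_or_gt (1000 * X) ((-2652) * Z) with y | y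
  · exact sb h 0 (ql := 2461) (qh := 2481) (x0 := (-2826)) (x1 := (-2652)) hp hq hX t1.le h2 x0 y
      (cn_neg hZ0 P5 (lo := (-2826)) (hi := (-2652)) (by norm_num) (by norm_num) (by norm_num))
      (cn_neg hZ0 P0 (lo := (-365)) (hi := (-171)) (by norm_num) (by norm_num) (by norm_num))
      q0_5.symm (by norm_num)
  have y0 := y.le
  clear y
  rcases le_or_gt (1000 * X) ((-2398) * Z) with y | y
  · exact sb h 1 (ql := 2461) (qh := 2481) (x0 := (-2652)) (x1 := (-2398)) hp hq hX t1.le h2 y0 y
      (cn_neg hZ0 P0 (lo := (-1039)) (hi := (-774)) (by norm_num) (by norm_num) (by norm_num))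
      (cn_pos hZ0 P1 (lo := 1422) (hi := 1707) (by norm_num) (by norm_num) (by norm_num))
      q0_1 (by norm_num)
  have y1 := y.le
  clear y
  rcases le_or_gt (1000 * X) ((-2002) * Z) with y | y
  · exact sb h 0 (ql := 2461) (qh := 2481) (x0 := (-2398)) (x1 := (-2002)) hp hq hX t1.le h2 y1 y
      (cn_neg hZ0 P3 (lo := (-2399)) (hi := (-2002)) (by norm_num) (by norm_num) (by norm_num))
      (cn_pos hZ0 P0 (lo := 62) (hi := 479) (by norm_num) (by norm_num) (by norm_num))
      q0_3.symm (by norm_num)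
  have y2 := y.le
  clear y
  rcases le_or_gt (1000 * X) ((-1658) * Z) with y | y
  · exact sb h 1 (ql := 2461) (qh := 2481) (x0 := (-2002)) (x1 := (-1658)) hp hq hX t1.le h2 y2 y
      (cn_neg hZ0 P0 (lo := (-389)) (hi := (-34)) (by norm_num) (by norm_num) (by norm_num))
      (cn_pos hZ0 P3 (lo := 2072) (hi := 2447) (by norm_num) (by norm_num) (by norm_num))
      q0_3 (by norm_num)
  have y3 := y.le
  clear y
  rcases le_or_gt (1000 * X) ((-1417) * Z) with y | y
  · exact sb h 0 (ql := 2461) (qh := 2481) (x0 := (-1658)) (x1 := (-1417)) hp hq hX t1.le h2 y3 y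
      (cn_neg hZ0 P1 (lo := (-1659)) (hi := (-1417)) (by norm_num) (by norm_num) (by norm_num))
      (cn_pos hZ0 P0 (lo := 802) (hi := 1064) (by norm_num) (by norm_num) (by norm_num))
      q0_1.symm (by norm_num)
  have y4 := y.le
  clear y
  rcases le_or_gt (1000 * X) ((-1279) * Z) with y | y
  · exact sb h 1 (ql := 2461) (qh := 2481) (x0 := (-1417)) (x1 := (-1279)) hp hq hX t1.le h2 y4 y
      (cn_pos hZ0 P0 (lo := 196) (hi := 345) (by norm_num) (by norm_num) (by norm_num))
      (cn_pos hZ0 P5 (lo := 2657) (hi := 2826) (by norm_num) (by norm_num) (by norm_num))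
      q0_5 (by norm_num)
  have y5 := y.le
  clear y
  exact sb h 0 (ql := 2461) (qh := 2481) (x0 := (-1279)) (x1 := (-1069)) hp hq hX t1.le h2 y5 (by omega)
      (cn_neg hZ0 P0 (lo := (-1280)) (hi := (-1069)) (by norm_num) (by norm_num) (by norm_num))
      (cn_pos hZ0 P0 (lo := 1181) (hi := 1412) (by norm_num) (by norm_num) (by norm_num))
      rfl (by norm_num)

theorem cell13 (h : H2 g K Z ν) (hA1 : 3020644 * K ≤ 1000000 * ν)
    (hA2 : 1000000 * ν ≤ 3157729 * K) : False := by
  have hZ := h.hZ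
  have hZ0 : 0 ≤ Z := by omega
  have hK0 : 0 < K := by
    have := h.hK1
    nlinarith
  have r0 : NuR K ν 0 ν := Or.inl ⟨by norm_num, by norm_num, rfl⟩
  have r1 : NuR K ν 1 ν := Or.inl ⟨by norm_num, by norm_num, rfl⟩
  have r2 : NuR K ν 2 (ν + 4 * K) := Or.inr ⟨by norm_num, by norm_num, rfl⟩
  have r3 : NuR K ν 3 (ν + 4 * K) := Or.inr ⟨by norm_num, by norm_num, rfl⟩
  obtain ⟨s0, P0⟩ := piece h r0 (α := 0) (β := 1412) (by norm_num) (by norm_num) (by norm_num)
    (by norm_num) (by norm_num) (Or.inl (by linarith))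
  obtain ⟨s1, P1⟩ := piece h r1 (α := 1417) (β := 1736) (by norm_num) (by norm_num) (by norm_num)
    (by norm_num) (by norm_num) (Or.inl (by linarith))
  obtain ⟨s2, P2⟩ := piece h r1 (α := 1779) (β := 1998) (by norm_num) (by norm_num) (by norm_num)
    (by norm_num) (by norm_num) (Or.inr ⟨by norm_num, by norm_num, by linarith⟩)
  obtain ⟨s3, P3⟩ := piece h r2 (α := 2002) (β := 2447) (by norm_num) (by norm_num) (by norm_num)
    (by norm_num) (by norm_num) (Or.inl (by linarith))
  obtain ⟨s4, P4⟩ := piece h r3 (α := 2452) (β := 2647) (by norm_num) (by norm_num) (by norm_num)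
    (by norm_num) (by norm_num) (Or.inl (by linarith))
  obtain ⟨s5, P5⟩ := piece h r3 (α := 2678) (β := 2826) (by norm_num) (by norm_num) (by norm_num)
    (by norm_num) (by norm_num) (Or.inr ⟨by norm_num, by norm_num, by linarith⟩)
  have e0 : s2 = s3 := rel1 h (l1 := (-1915)) (l2 := (-1862)) (by norm_num) (by norm_num) (by norm_num)
    (cn_neg hZ0 P2 (lo := (-1915)) (hi := (-1862)) (by norm_num) (by norm_num) (by norm_num))
    (cn_pos hZ0 P0 (lo := (-1915) + 1973) (hi := (-1862) + 2027) (by norm_num) (by norm_num) (by norm_num))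
    (cn_pos hZ0 P3 (lo := (-1915) + 4000) (hi := (-1862) + 4002) (by norm_num) (by norm_num) (by norm_num))
  have e1 : s3 = s1 := rel1 h (l1 := (-2383)) (l2 := (-2330)) (by norm_num) (by norm_num) (by norm_num)
    (cn_neg hZ0 P3 (lo := (-2383)) (hi := (-2330)) (by norm_num) (by norm_num) (by norm_num))
    (cn_neg hZ0 P0 (lo := (-2383) + 1973) (hi := (-2330) + 2027) (by norm_num) (by norm_num) (by norm_num))
    (cn_pos hZ0 P1 (lo := (-2383) + 4000) (hi := (-2330) + 4002) (by norm_num) (by norm_num) (by norm_num))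
  have e2 : s5 = s0 := rel1 h (l1 := (-2778)) (l2 := (-2725)) (by norm_num) (by norm_num) (by norm_num)
    (cn_neg hZ0 P5 (lo := (-2778)) (hi := (-2725)) (by norm_num) (by norm_num) (by norm_num))
    (cn_neg hZ0 P0 (lo := (-2778) + 1973) (hi := (-2725) + 2027) (by norm_num) (by norm_num) (by norm_num))
    (cn_pos hZ0 P0 (lo := (-2778) + 4000) (hi := (-2725) + 4002) (by norm_num) (by norm_num) (by norm_num))
  have e3 : s4 = s1 := rel1 h (l1 := (-2544)) (l2 := (-2491)) (by norm_num) (by norm_num) (by norm_num)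
    (cn_neg hZ0 P4 (lo := (-2544)) (hi := (-2491)) (by norm_num) (by norm_num) (by norm_num))
    (cn_neg hZ0 P0 (lo := (-2544) + 1973) (hi := (-2491) + 2027) (by norm_num) (by norm_num) (by norm_num))
    (cn_pos hZ0 P1 (lo := (-2544) + 4000) (hi := (-2491) + 4002) (by norm_num) (by norm_num) (by norm_num))
  have e4 : s5 + s1 = s0 + s0 := relh h (l1 := (-2775)) (l2 := (-2712)) (by norm_num) (by norm_num)
    (by norm_num)
    (cn_neg hZ0 P5 (lo := (-2775)) (hi := (-2712)) (by norm_num) (by norm_num) (by norm_num))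
    (cn_pos hZ0 P0 (lo := (-2775) + 2828) (hi := (-2712) + 2862) (by norm_num) (by norm_num) (by norm_num))
    (cn_neg hZ0 P0 (lo := (-2775) + 1398) (hi := (-2712) + 1415) (by norm_num) (by norm_num) (by norm_num))
    (cn_pos hZ0 P1 (lo := (-2775) + 4242) (hi := (-2712) + 4262) (by norm_num) (by norm_num) (by norm_num))
  have q0_1 : s0 = s1 := by
    have T : ∀ s0 s1 s2 s3 s4 s5 : ZMod 2, s2 = s3 → s3 = s1 → s5 = s0 → s4 = s1 → s5 + s1 = s0 + s0 → s0 = s1 := by decide
    exact T s0 s1 s2 s3 s4 s5 e0 e1 e2 e3 e4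
  have q0_3 : s0 = s3 := by
    have T : ∀ s0 s1 s2 s3 s4 s5 : ZMod 2, s2 = s3 → s3 = s1 → s5 = s0 → s4 = s1 → s5 + s1 = s0 + s0 → s0 = s3 := by decide
    exact T s0 s1 s2 s3 s4 s5 e0 e1 e2 e3 e4
  have q0_5 : s0 = s5 := by
    have T : ∀ s0 s1 s2 s3 s4 s5 : ZMod 2, s2 = s3 → s3 = s1 → s5 = s0 → s4 = s1 → s5 + s1 = s0 + s0 → s0 = s5 := by decide
    exact T s0 s1 s2 s3 s4 s5 e0 e1 e2 e3 e4
  refine fin h (ta := 750) (tb := 791) (by norm_num) (by norm_num) ?_
  intro p hp h1 h2
  rcases le_or_gt (1000 * p) (755 * Z) with t2 | t2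
  · obtain ⟨q, X, hq, hX, x0, x1⟩ := startQ h (p := p) (L := (-2826)) (by omega)
    rcases le_or_gt (1000 * X) ((-2678) * Z) with y | y
    · exact sb h 0 (ql := 2647) (qh := 2669) (x0 := (-2826)) (x1 := (-2678)) hp hq hX h1 t2 x0 y
        (cn_neg hZ0 P5 (lo := (-2826)) (hi := (-2678)) (by norm_num) (by norm_num) (by norm_num))
        (cn_neg hZ0 P0 (lo := (-179)) (hi := (-9)) (by norm_num) (by norm_num) (by norm_num))
        q0_5.symm (by norm_num)
    have y0 := y.le
    clear y
    rcases le_or_gt (1000 * X) ((-2443) * Z) with y | y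
    · exact sb h 1 (ql := 2647) (qh := 2669) (x0 := (-2678)) (x1 := (-2443)) hp hq hX h1 t2 y0 y
        (cn_neg hZ0 P0 (lo := (-1179)) (hi := (-933)) (by norm_num) (by norm_num) (by norm_num))
        (cn_pos hZ0 P1 (lo := 1468) (hi := 1736) (by norm_num) (by norm_num) (by norm_num))
        q0_1 (by norm_num)
    have y1 := y.le
    clear y
    rcases le_or_gt (1000 * X) ((-2002) * Z) with y | y
    · exact sb h 0 (ql := 2647) (qh := 2669) (x0 := (-2443)) (x1 := (-2002)) hp hq hX h1 t2 y1 y
        (cn_neg hZ0 P3 (lo := (-2444)) (hi := (-2002)) (by norm_num) (by norm_num) (by norm_num))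
        (cn_pos hZ0 P0 (lo := 203) (hi := 667) (by norm_num) (by norm_num) (by norm_num))
        q0_3.symm (by norm_num)
    have y2 := y.le
    clear y
    rcases le_or_gt (1000 * X) ((-1732) * Z) with y | y
    · exact sb h 1 (ql := 2647) (qh := 2669) (x0 := (-2002)) (x1 := (-1732)) hp hq hX h1 t2 y2 y
        (cn_neg hZ0 P0 (lo := (-503)) (hi := (-222)) (by norm_num) (by norm_num) (by norm_num))
        (cn_pos hZ0 P3 (lo := 2144) (hi := 2447) (by norm_num) (by norm_num) (by norm_num))
        q0_3 (by norm_num)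
    have y3 := y.le
    clear y
    rcases le_or_gt (1000 * X) ((-1417) * Z) with y | y
    · exact sb h 0 (ql := 2647) (qh := 2669) (x0 := (-1732)) (x1 := (-1417)) hp hq hX h1 t2 y3 y
        (cn_neg hZ0 P1 (lo := (-1733)) (hi := (-1417)) (by norm_num) (by norm_num) (by norm_num))
        (cn_pos hZ0 P0 (lo := 914) (hi := 1252) (by norm_num) (by norm_num) (by norm_num))
        q0_1.symm (by norm_num)
    have y4 := y.le
    clear y
    rcases le_or_gt (1000 * X) ((-1353) * Z) with y | y
    · exact sb h 1 (ql := 2647) (qh := 2669) (x0 := (-1417)) (x1 := (-1353)) hp hq hX h1 t2 y4 y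
        (cn_pos hZ0 P0 (lo := 82) (hi := 157) (by norm_num) (by norm_num) (by norm_num))
        (cn_pos hZ0 P5 (lo := 2729) (hi := 2826) (by norm_num) (by norm_num) (by norm_num))
        q0_5 (by norm_num)
    have y5 := y.le
    clear y
    exact sb h 0 (ql := 2647) (qh := 2669) (x0 := (-1353)) (x1 := (-1257)) hp hq hX h1 t2 y5 (by omega)
        (cn_neg hZ0 P0 (lo := (-1354)) (hi := (-1257)) (by norm_num) (by norm_num) (by norm_num))
        (cn_pos hZ0 P0 (lo := 1293) (hi := 1412) (by norm_num) (by norm_num) (by norm_num))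
        rfl (by norm_num)
  have t1 := t2
  clear t2
  rcases le_or_gt (1000 * p) (760 * Z) with t2 | t2
  · obtain ⟨q, X, hq, hX, x0, x1⟩ := startQ h (p := p) (L := (-2826)) (by omega)
    rcases le_or_gt (1000 * X) ((-2678) * Z) with y | y
    · exact sb h 0 (ql := 2629) (qh := 2652) (x0 := (-2826)) (x1 := (-2678)) hp hq hX t1.le t2 x0 y
        (cn_neg hZ0 P5 (lo := (-2826)) (hi := (-2678)) (by norm_num) (by norm_num) (by norm_num))
        (cn_neg hZ0 P0 (lo := (-197)) (hi := (-26)) (by norm_num) (by norm_num) (by norm_num))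
        q0_5.symm (by norm_num)
    have y0 := y.le
    clear y
    rcases le_or_gt (1000 * X) ((-2436) * Z) with y | y
    · exact sb h 1 (ql := 2629) (qh := 2652) (x0 := (-2678)) (x1 := (-2436)) hp hq hX t1.le t2 y0 y
        (cn_neg hZ0 P0 (lo := (-1169)) (hi := (-916)) (by norm_num) (by norm_num) (by norm_num))
        (cn_pos hZ0 P1 (lo := 1460) (hi := 1736) (by norm_num) (by norm_num) (by norm_num))
        q0_1 (by norm_num)
    have y1 := y.le
    clear y
    rcases le_or_gt (1000 * X) ((-2002) * Z) with y | y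
    · exact sb h 0 (ql := 2629) (qh := 2652) (x0 := (-2436)) (x1 := (-2002)) hp hq hX t1.le t2 y1 y
        (cn_neg hZ0 P3 (lo := (-2437)) (hi := (-2002)) (by norm_num) (by norm_num) (by norm_num))
        (cn_pos hZ0 P0 (lo := 192) (hi := 650) (by norm_num) (by norm_num) (by norm_num))
        q0_3.symm (by norm_num)
    have y2 := y.le
    clear y
    rcases le_or_gt (1000 * X) ((-1725) * Z) with y | y
    · exact sb h 1 (ql := 2629) (qh := 2652) (x0 := (-2002)) (x1 := (-1725)) hp hq hX t1.le t2 y2 y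
        (cn_neg hZ0 P0 (lo := (-493)) (hi := (-205)) (by norm_num) (by norm_num) (by norm_num))
        (cn_pos hZ0 P3 (lo := 2136) (hi := 2447) (by norm_num) (by norm_num) (by norm_num))
        q0_3 (by norm_num)
    have y3 := y.le
    clear y
    rcases le_or_gt (1000 * X) ((-1417) * Z) with y | y
    · exact sb h 0 (ql := 2629) (qh := 2652) (x0 := (-1725)) (x1 := (-1417)) hp hq hX t1.le t2 y3 y
        (cn_neg hZ0 P1 (lo := (-1726)) (hi := (-1417)) (by norm_num) (by norm_num) (by norm_num))
        (cn_pos hZ0 P0 (lo := 903) (hi := 1235) (by norm_num) (by norm_num) (by norm_num))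
        q0_1.symm (by norm_num)
    have y4 := y.le
    clear y
    rcases le_or_gt (1000 * X) ((-1346) * Z) with y | y
    · exact sb h 1 (ql := 2629) (qh := 2652) (x0 := (-1417)) (x1 := (-1346)) hp hq hX t1.le t2 y4 y
        (cn_pos hZ0 P0 (lo := 92) (hi := 174) (by norm_num) (by norm_num) (by norm_num))
        (cn_pos hZ0 P5 (lo := 2721) (hi := 2826) (by norm_num) (by norm_num) (by norm_num))
        q0_5 (by norm_num)
    have y5 := y.le
    clear y
    exact sb h 0 (ql := 2629) (qh := 2652) (x0 := (-1346)) (x1 := (-1240)) hp hq hX t1.le t2 y5 (by omega)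
        (cn_neg hZ0 P0 (lo := (-1347)) (hi := (-1240)) (by norm_num) (by norm_num) (by norm_num))
        (cn_pos hZ0 P0 (lo := 1282) (hi := 1412) (by norm_num) (by norm_num) (by norm_num))
        rfl (by norm_num)
  have t1 := t2
  clear t2
  rcases le_or_gt (1000 * p) (765 * Z) with t2 | t2
  · obtain ⟨q, X, hq, hX, x0, x1⟩ := startQ h (p := p) (L := (-2826)) (by omega)
    rcases le_or_gt (1000 * X) ((-2678) * Z) with y | y
    · exact sb h 0 (ql := 2612) (qh := 2634) (x0 := (-2826)) (x1 := (-2678)) hp hq hX t1.le t2 x0 y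
        (cn_neg hZ0 P5 (lo := (-2826)) (hi := (-2678)) (by norm_num) (by norm_num) (by norm_num))
        (cn_neg hZ0 P0 (lo := (-214)) (hi := (-44)) (by norm_num) (by norm_num) (by norm_num))
        q0_5.symm (by norm_num)
    have y0 := y.le
    clear y
    rcases le_or_gt (1000 * X) ((-2428) * Z) with y | y
    · exact sb h 1 (ql := 2612) (qh := 2634) (x0 := (-2678)) (x1 := (-2428)) hp hq hX t1.le t2 y0 y
        (cn_neg hZ0 P0 (lo := (-1159)) (hi := (-898)) (by norm_num) (by norm_num) (by norm_num))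
        (cn_pos hZ0 P1 (lo := 1453) (hi := 1736) (by norm_num) (by norm_num) (by norm_num))
        q0_1 (by norm_num)
    have y1 := y.le
    clear y
    rcases le_or_gt (1000 * X) ((-2002) * Z) with y | y
    · exact sb h 0 (ql := 2612) (qh := 2634) (x0 := (-2428)) (x1 := (-2002)) hp hq hX t1.le t2 y1 y
        (cn_neg hZ0 P3 (lo := (-2429)) (hi := (-2002)) (by norm_num) (by norm_num) (by norm_num))
        (cn_pos hZ0 P0 (lo := 183) (hi := 632) (by norm_num) (by norm_num) (by norm_num))
        q0_3.symm (by norm_num)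
    have y2 := y.le
    clear y
    rcases le_or_gt (1000 * X) ((-1717) * Z) with y | y
    · exact sb h 1 (ql := 2612) (qh := 2634) (x0 := (-2002)) (x1 := (-1717)) hp hq hX t1.le t2 y2 y
        (cn_neg hZ0 P0 (lo := (-483)) (hi := (-187)) (by norm_num) (by norm_num) (by norm_num))
        (cn_pos hZ0 P3 (lo := 2129) (hi := 2447) (by norm_num) (by norm_num) (by norm_num))
        q0_3 (by norm_num)
    have y3 := y.le
    clear y
    rcases le_or_gt (1000 * X) ((-1417) * Z) with y | y
    · exact sb h 0 (ql := 2612) (qh := 2634) (x0 := (-1717)) (x1 := (-1417)) hp hq hX t1.le t2 y3 y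
        (cn_neg hZ0 P1 (lo := (-1718)) (hi := (-1417)) (by norm_num) (by norm_num) (by norm_num))
        (cn_pos hZ0 P0 (lo := 894) (hi := 1217) (by norm_num) (by norm_num) (by norm_num))
        q0_1.symm (by norm_num)
    have y4 := y.le
    clear y
    rcases le_or_gt (1000 * X) ((-1338) * Z) with y | y
    · exact sb h 1 (ql := 2612) (qh := 2634) (x0 := (-1417)) (x1 := (-1338)) hp hq hX t1.le t2 y4 y
        (cn_pos hZ0 P0 (lo := 102) (hi := 192) (by norm_num) (by norm_num) (by norm_num))
        (cn_pos hZ0 P5 (lo := 2714) (hi := 2826) (by norm_num) (by norm_num) (by norm_num))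
        q0_5 (by norm_num)
    have y5 := y.le
    clear y
    exact sb h 0 (ql := 2612) (qh := 2634) (x0 := (-1338)) (x1 := (-1222)) hp hq hX t1.le t2 y5 (by omega)
        (cn_neg hZ0 P0 (lo := (-1339)) (hi := (-1222)) (by norm_num) (by norm_num) (by norm_num))
        (cn_pos hZ0 P0 (lo := 1273) (hi := 1412) (by norm_num) (by norm_num) (by norm_num))
        rfl (by norm_num)
  have t1 := t2
  clear t2
  rcases le_or_gt (1000 * p) (770 * Z) with t2 | t2
  · obtain ⟨q, X, hq, hX, x0, x1⟩ := startQ h (p := p) (L := (-2826)) (by omega)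
    rcases le_or_gt (1000 * X) ((-2678) * Z) with y | y
    · exact sb h 0 (ql := 2595) (qh := 2617) (x0 := (-2826)) (x1 := (-2678)) hp hq hX t1.le t2 x0 y
        (cn_neg hZ0 P5 (lo := (-2826)) (hi := (-2678)) (by norm_num) (by norm_num) (by norm_num))
        (cn_neg hZ0 P0 (lo := (-231)) (hi := (-61)) (by norm_num) (by norm_num) (by norm_num))
        q0_5.symm (by norm_num)
    have y0 := y.le
    clear y
    rcases le_or_gt (1000 * X) ((-2421) * Z) with y | y
    · exact sb h 1 (ql := 2595) (qh := 2617) (x0 := (-2678)) (x1 := (-2421)) hp hq hX t1.le t2 y0 y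
        (cn_neg hZ0 P0 (lo := (-1149)) (hi := (-881)) (by norm_num) (by norm_num) (by norm_num))
        (cn_pos hZ0 P1 (lo := 1446) (hi := 1736) (by norm_num) (by norm_num) (by norm_num))
        q0_1 (by norm_num)
    have y1 := y.le
    clear y
    rcases le_or_gt (1000 * X) ((-2002) * Z) with y | y
    · exact sb h 0 (ql := 2595) (qh := 2617) (x0 := (-2421)) (x1 := (-2002)) hp hq hX t1.le t2 y1 y
        (cn_neg hZ0 P3 (lo := (-2422)) (hi := (-2002)) (by norm_num) (by norm_num) (by norm_num))
        (cn_pos hZ0 P0 (lo := 173) (hi := 615) (by norm_num) (by norm_num) (by norm_num))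
        q0_3.symm (by norm_num)
    have y2 := y.le
    clear y
    rcases le_or_gt (1000 * X) ((-1710) * Z) with y | y
    · exact sb h 1 (ql := 2595) (qh := 2617) (x0 := (-2002)) (x1 := (-1710)) hp hq hX t1.le t2 y2 y
        (cn_neg hZ0 P0 (lo := (-473)) (hi := (-170)) (by norm_num) (by norm_num) (by norm_num))
        (cn_pos hZ0 P3 (lo := 2122) (hi := 2447) (by norm_num) (by norm_num) (by norm_num))
        q0_3 (by norm_num)
    have y3 := y.le
    clear y
    rcases le_or_gt (1000 * X) ((-1417) * Z) with y | y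
    · exact sb h 0 (ql := 2595) (qh := 2617) (x0 := (-1710)) (x1 := (-1417)) hp hq hX t1.le t2 y3 y
        (cn_neg hZ0 P1 (lo := (-1711)) (hi := (-1417)) (by norm_num) (by norm_num) (by norm_num))
        (cn_pos hZ0 P0 (lo := 884) (hi := 1200) (by norm_num) (by norm_num) (by norm_num))
        q0_1.symm (by norm_num)
    have y4 := y.le
    clear y
    rcases le_or_gt (1000 * X) ((-1331) * Z) with y | y
    · exact sb h 1 (ql := 2595) (qh := 2617) (x0 := (-1417)) (x1 := (-1331)) hp hq hX t1.le t2 y4 y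
        (cn_pos hZ0 P0 (lo := 112) (hi := 209) (by norm_num) (by norm_num) (by norm_num))
        (cn_pos hZ0 P5 (lo := 2707) (hi := 2826) (by norm_num) (by norm_num) (by norm_num))
        q0_5 (by norm_num)
    have y5 := y.le
    clear y
    exact sb h 0 (ql := 2595) (qh := 2617) (x0 := (-1331)) (x1 := (-1205)) hp hq hX t1.le t2 y5 (by omega)
        (cn_neg hZ0 P0 (lo := (-1332)) (hi := (-1205)) (by norm_num) (by norm_num) (by norm_num))
        (cn_pos hZ0 P0 (lo := 1263) (hi := 1412) (by norm_num) (by norm_num) (by norm_num))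
        rfl (by norm_num)
  have t1 := t2
  clear t2
  rcases le_or_gt (1000 * p) (775 * Z) with t2 | t2
  · obtain ⟨q, X, hq, hX, x0, x1⟩ := startQ h (p := p) (L := (-2826)) (by omega)
    rcases le_or_gt (1000 * X) ((-2678) * Z) with y | y
    · exact sb h 0 (ql := 2578) (qh := 2600) (x0 := (-2826)) (x1 := (-2678)) hp hq hX t1.le t2 x0 y
        (cn_neg hZ0 P5 (lo := (-2826)) (hi := (-2678)) (by norm_num) (by norm_num) (by norm_num))
        (cn_neg hZ0 P0 (lo := (-248)) (hi := (-78)) (by norm_num) (by norm_num) (by norm_num))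
        q0_5.symm (by norm_num)
    have y0 := y.le
    clear y
    rcases le_or_gt (1000 * X) ((-2414) * Z) with y | y
    · exact sb h 1 (ql := 2578) (qh := 2600) (x0 := (-2678)) (x1 := (-2414)) hp hq hX t1.le t2 y0 y
        (cn_neg hZ0 P0 (lo := (-1139)) (hi := (-864)) (by norm_num) (by norm_num) (by norm_num))
        (cn_pos hZ0 P1 (lo := 1439) (hi := 1736) (by norm_num) (by norm_num) (by norm_num))
        q0_1 (by norm_num)
    have y1 := y.le
    clear y
    rcases le_or_gt (1000 * X) ((-2002) * Z) with y | y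
    · exact sb h 0 (ql := 2578) (qh := 2600) (x0 := (-2414)) (x1 := (-2002)) hp hq hX t1.le t2 y1 y
        (cn_neg hZ0 P3 (lo := (-2415)) (hi := (-2002)) (by norm_num) (by norm_num) (by norm_num))
        (cn_pos hZ0 P0 (lo := 163) (hi := 598) (by norm_num) (by norm_num) (by norm_num))
        q0_3.symm (by norm_num)
    have y2 := y.le
    clear y
    rcases le_or_gt (1000 * X) ((-1703) * Z) with y | y
    · exact sb h 1 (ql := 2578) (qh := 2600) (x0 := (-2002)) (x1 := (-1703)) hp hq hX t1.le t2 y2 y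
        (cn_neg hZ0 P0 (lo := (-463)) (hi := (-153)) (by norm_num) (by norm_num) (by norm_num))
        (cn_pos hZ0 P3 (lo := 2115) (hi := 2447) (by norm_num) (by norm_num) (by norm_num))
        q0_3 (by norm_num)
    have y3 := y.le
    clear y
    rcases le_or_gt (1000 * X) ((-1417) * Z) with y | y
    · exact sb h 0 (ql := 2578) (qh := 2600) (x0 := (-1703)) (x1 := (-1417)) hp hq hX t1.le t2 y3 y
        (cn_neg hZ0 P1 (lo := (-1704)) (hi := (-1417)) (by norm_num) (by norm_num) (by norm_num))
        (cn_pos hZ0 P0 (lo := 874) (hi := 1183) (by norm_num) (by norm_num) (by norm_num))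
        q0_1.symm (by norm_num)
    have y4 := y.le
    clear y
    rcases le_or_gt (1000 * X) ((-1324) * Z) with y | y
    · exact sb h 1 (ql := 2578) (qh := 2600) (x0 := (-1417)) (x1 := (-1324)) hp hq hX t1.le t2 y4 y
        (cn_pos hZ0 P0 (lo := 122) (hi := 226) (by norm_num) (by norm_num) (by norm_num))
        (cn_pos hZ0 P5 (lo := 2700) (hi := 2826) (by norm_num) (by norm_num) (by norm_num))
        q0_5 (by norm_num)
    have y5 := y.le
    clear y
    exact sb h 0 (ql := 2578) (qh := 2600) (x0 := (-1324)) (x1 := (-1188)) hp hq hX t1.le t2 y5 (by omega)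
        (cn_neg hZ0 P0 (lo := (-1325)) (hi := (-1188)) (by norm_num) (by norm_num) (by norm_num))
        (cn_pos hZ0 P0 (lo := 1253) (hi := 1412) (by norm_num) (by norm_num) (by norm_num))
        rfl (by norm_num)
  have t1 := t2
  clear t2
  rcases le_or_gt (1000 * p) (781 * Z) with t2 | t2
  · obtain ⟨q, X, hq, hX, x0, x1⟩ := startQ h (p := p) (L := (-2826)) (by omega)
    rcases le_or_gt (1000 * X) ((-2678) * Z) with y | y
    · exact sb h 0 (ql := 2558) (qh := 2583) (x0 := (-2826)) (x1 := (-2678)) hp hq hX t1.le t2 x0 y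
        (cn_neg hZ0 P5 (lo := (-2826)) (hi := (-2678)) (by norm_num) (by norm_num) (by norm_num))
        (cn_neg hZ0 P0 (lo := (-268)) (hi := (-95)) (by norm_num) (by norm_num) (by norm_num))
        q0_5.symm (by norm_num)
    have y0 := y.le
    clear y
    rcases le_or_gt (1000 * X) ((-2409) * Z) with y | y
    · exact sb h 1 (ql := 2558) (qh := 2583) (x0 := (-2678)) (x1 := (-2409)) hp hq hX t1.le t2 y0 y
        (cn_neg hZ0 P0 (lo := (-1129)) (hi := (-847)) (by norm_num) (by norm_num) (by norm_num))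
        (cn_pos hZ0 P1 (lo := 1429) (hi := 1736) (by norm_num) (by norm_num) (by norm_num))
        q0_1 (by norm_num)
    have y1 := y.le
    clear y
    rcases le_or_gt (1000 * X) ((-2002) * Z) with y | y
    · exact sb h 0 (ql := 2558) (qh := 2583) (x0 := (-2409)) (x1 := (-2002)) hp hq hX t1.le t2 y1 y
        (cn_neg hZ0 P3 (lo := (-2410)) (hi := (-2002)) (by norm_num) (by norm_num) (by norm_num))
        (cn_pos hZ0 P0 (lo := 148) (hi := 581) (by norm_num) (by norm_num) (by norm_num))
        q0_3.symm (by norm_num)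
    have y2 := y.le
    clear y
    rcases le_or_gt (1000 * X) ((-1698) * Z) with y | y
    · exact sb h 1 (ql := 2558) (qh := 2583) (x0 := (-2002)) (x1 := (-1698)) hp hq hX t1.le t2 y2 y
        (cn_neg hZ0 P0 (lo := (-453)) (hi := (-136)) (by norm_num) (by norm_num) (by norm_num))
        (cn_pos hZ0 P3 (lo := 2105) (hi := 2447) (by norm_num) (by norm_num) (by norm_num))
        q0_3 (by norm_num)
    have y3 := y.le
    clear y
    rcases le_or_gt (1000 * X) ((-1417) * Z) with y | y
    · exact sb h 0 (ql := 2558) (qh := 2583) (x0 := (-1698)) (x1 := (-1417)) hp hq hX t1.le t2 y3 y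
        (cn_neg hZ0 P1 (lo := (-1699)) (hi := (-1417)) (by norm_num) (by norm_num) (by norm_num))
        (cn_pos hZ0 P0 (lo := 859) (hi := 1166) (by norm_num) (by norm_num) (by norm_num))
        q0_1.symm (by norm_num)
    have y4 := y.le
    clear y
    rcases le_or_gt (1000 * X) ((-1319) * Z) with y | y
    · exact sb h 1 (ql := 2558) (qh := 2583) (x0 := (-1417)) (x1 := (-1319)) hp hq hX t1.le t2 y4 y
        (cn_pos hZ0 P0 (lo := 132) (hi := 243) (by norm_num) (by norm_num) (by norm_num))
        (cn_pos hZ0 P5 (lo := 2690) (hi := 2826) (by norm_num) (by norm_num) (by norm_num))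
        q0_5 (by norm_num)
    have y5 := y.le
    clear y
    exact sb h 0 (ql := 2558) (qh := 2583) (x0 := (-1319)) (x1 := (-1171)) hp hq hX t1.le t2 y5 (by omega)
        (cn_neg hZ0 P0 (lo := (-1320)) (hi := (-1171)) (by norm_num) (by norm_num) (by norm_num))
        (cn_pos hZ0 P0 (lo := 1238) (hi := 1412) (by norm_num) (by norm_num) (by norm_num))
        rfl (by norm_num)
  have t1 := t2
  clear t2
  rcases le_or_gt (1000 * p) (786 * Z) with t2 | t2
  · obtain ⟨q, X, hq, hX, x0, x1⟩ := startQ h (p := p) (L := (-2826)) (by omega)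
    rcases le_or_gt (1000 * X) ((-2678) * Z) with y | y
    · exact sb h 0 (ql := 2542) (qh := 2563) (x0 := (-2826)) (x1 := (-2678)) hp hq hX t1.le t2 x0 y
        (cn_neg hZ0 P5 (lo := (-2826)) (hi := (-2678)) (by norm_num) (by norm_num) (by norm_num))
        (cn_neg hZ0 P0 (lo := (-284)) (hi := (-115)) (by norm_num) (by norm_num) (by norm_num))
        q0_5.symm (by norm_num)
    have y0 := y.le
    clear y
    rcases le_or_gt (1000 * X) ((-2399) * Z) with y | y
    · exact sb h 1 (ql := 2542) (qh := 2563) (x0 := (-2678)) (x1 := (-2399)) hp hq hX t1.le t2 y0 y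
        (cn_neg hZ0 P0 (lo := (-1117)) (hi := (-827)) (by norm_num) (by norm_num) (by norm_num))
        (cn_pos hZ0 P1 (lo := 1425) (hi := 1736) (by norm_num) (by norm_num) (by norm_num))
        q0_1 (by norm_num)
    have y1 := y.le
    clear y
    rcases le_or_gt (1000 * X) ((-2002) * Z) with y | y
    · exact sb h 0 (ql := 2542) (qh := 2563) (x0 := (-2399)) (x1 := (-2002)) hp hq hX t1.le t2 y1 y
        (cn_neg hZ0 P3 (lo := (-2400)) (hi := (-2002)) (by norm_num) (by norm_num) (by norm_num))
        (cn_pos hZ0 P0 (lo := 142) (hi := 561) (by norm_num) (by norm_num) (by norm_num))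
        q0_3.symm (by norm_num)
    have y2 := y.le
    clear y
    rcases le_or_gt (1000 * X) ((-1688) * Z) with y | y
    · exact sb h 1 (ql := 2542) (qh := 2563) (x0 := (-2002)) (x1 := (-1688)) hp hq hX t1.le t2 y2 y
        (cn_neg hZ0 P0 (lo := (-441)) (hi := (-116)) (by norm_num) (by norm_num) (by norm_num))
        (cn_pos hZ0 P3 (lo := 2101) (hi := 2447) (by norm_num) (by norm_num) (by norm_num))
        q0_3 (by norm_num)
    have y3 := y.le
    clear y
    rcases le_or_gt (1000 * X) ((-1417) * Z) with y | y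
    · exact sb h 0 (ql := 2542) (qh := 2563) (x0 := (-1688)) (x1 := (-1417)) hp hq hX t1.le t2 y3 y
        (cn_neg hZ0 P1 (lo := (-1689)) (hi := (-1417)) (by norm_num) (by norm_num) (by norm_num))
        (cn_pos hZ0 P0 (lo := 853) (hi := 1146) (by norm_num) (by norm_num) (by norm_num))
        q0_1.symm (by norm_num)
    have y4 := y.le
    clear y
    rcases le_or_gt (1000 * X) ((-1309) * Z) with y | y
    · exact sb h 1 (ql := 2542) (qh := 2563) (x0 := (-1417)) (x1 := (-1309)) hp hq hX t1.le t2 y4 y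
        (cn_pos hZ0 P0 (lo := 144) (hi := 263) (by norm_num) (by norm_num) (by norm_num))
        (cn_pos hZ0 P5 (lo := 2686) (hi := 2826) (by norm_num) (by norm_num) (by norm_num))
        q0_5 (by norm_num)
    have y5 := y.le
    clear y
    exact sb h 0 (ql := 2542) (qh := 2563) (x0 := (-1309)) (x1 := (-1151)) hp hq hX t1.le t2 y5 (by omega)
        (cn_neg hZ0 P0 (lo := (-1310)) (hi := (-1151)) (by norm_num) (by norm_num) (by norm_num))
        (cn_pos hZ0 P0 (lo := 1232) (hi := 1412) (by norm_num) (by norm_num) (by norm_num))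
        rfl (by norm_num)
  have t1 := t2
  clear t2
  obtain ⟨q, X, hq, hX, x0, x1⟩ := startQ h (p := p) (L := (-2826)) (by omega)
  rcases le_or_gt (1000 * X) ((-2678) * Z) with y | y
  · exact sb h 0 (ql := 2526) (qh := 2547) (x0 := (-2826)) (x1 := (-2678)) hp hq hX t1.le h2 x0 y
      (cn_neg hZ0 P5 (lo := (-2826)) (hi := (-2678)) (by norm_num) (by norm_num) (by norm_num))
      (cn_neg hZ0 P0 (lo := (-300)) (hi := (-131)) (by norm_num) (by norm_num) (by norm_num))
      q0_5.symm (by norm_num)
  have y0 := y.le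
  clear y
  rcases le_or_gt (1000 * X) ((-2393) * Z) with y | y
  · exact sb h 1 (ql := 2526) (qh := 2547) (x0 := (-2678)) (x1 := (-2393)) hp hq hX t1.le h2 y0 y
      (cn_neg hZ0 P0 (lo := (-1107)) (hi := (-811)) (by norm_num) (by norm_num) (by norm_num))
      (cn_pos hZ0 P1 (lo := 1419) (hi := 1736) (by norm_num) (by norm_num) (by norm_num))
      q0_1 (by norm_num)
  have y1 := y.le
  clear y
  rcases le_or_gt (1000 * X) ((-2002) * Z) with y | y
  · exact sb h 0 (ql := 2526) (qh := 2547) (x0 := (-2393)) (x1 := (-2002)) hp hq hX t1.le h2 y1 y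
      (cn_neg hZ0 P3 (lo := (-2394)) (hi := (-2002)) (by norm_num) (by norm_num) (by norm_num))
      (cn_pos hZ0 P0 (lo := 132) (hi := 545) (by norm_num) (by norm_num) (by norm_num))
      q0_3.symm (by norm_num)
  have y2 := y.le
  clear y
  rcases le_or_gt (1000 * X) ((-1682) * Z) with y | y
  · exact sb h 1 (ql := 2526) (qh := 2547) (x0 := (-2002)) (x1 := (-1682)) hp hq hX t1.le h2 y2 y
      (cn_neg hZ0 P0 (lo := (-431)) (hi := (-100)) (by norm_num) (by norm_num) (by norm_num))
      (cn_pos hZ0 P3 (lo := 2095) (hi := 2447) (by norm_num) (by norm_num) (by norm_num))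
      q0_3 (by norm_num)
  have y3 := y.le
  clear y
  rcases le_or_gt (1000 * X) ((-1417) * Z) with y | y
  · exact sb h 0 (ql := 2526) (qh := 2547) (x0 := (-1682)) (x1 := (-1417)) hp hq hX t1.le h2 y3 y
      (cn_neg hZ0 P1 (lo := (-1683)) (hi := (-1417)) (by norm_num) (by norm_num) (by norm_num))
      (cn_pos hZ0 P0 (lo := 843) (hi := 1130) (by norm_num) (by norm_num) (by norm_num))
      q0_1.symm (by norm_num)
  have y4 := y.le
  clear y
  rcases le_or_gt (1000 * X) ((-1303) * Z) with y | y
  · exact sb h 1 (ql := 2526) (qh := 2547) (x0 := (-1417)) (x1 := (-1303)) hp hq hX t1.le h2 y4 y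
      (cn_pos hZ0 P0 (lo := 154) (hi := 279) (by norm_num) (by norm_num) (by norm_num))
      (cn_pos hZ0 P5 (lo := 2680) (hi := 2826) (by norm_num) (by norm_num) (by norm_num))
      q0_5 (by norm_num)
  have y5 := y.le
  clear y
  exact sb h 0 (ql := 2526) (qh := 2547) (x0 := (-1303)) (x1 := (-1135)) hp hq hX t1.le h2 y5 (by omega)
      (cn_neg hZ0 P0 (lo := (-1304)) (hi := (-1135)) (by norm_num) (by norm_num) (by norm_num))
      (cn_pos hZ0 P0 (lo := 1222) (hi := 1412) (by norm_num) (by norm_num) (by norm_num))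
      rfl (by norm_num)

theorem cell14 (h : H2 g K Z ν) (hA1 : 3157729 * K ≤ 1000000 * ν)
    (hA2 : 1000000 * ν ≤ 4004001 * K) : False := by
  have hZ := h.hZ
  have hZ0 : 0 ≤ Z := by omega
  have hK0 : 0 < K := by
    have := h.hK1
    nlinarith
  have r0 : NuR K ν 0 ν := Or.inl ⟨by norm_num, by norm_num, rfl⟩
  have r1 : NuR K ν 1 ν := Or.inl ⟨by norm_num, by norm_num, rfl⟩
  have r2 : NuR K ν 2 (ν + 4 * K) := Or.inr ⟨by norm_num, by norm_num, rfl⟩
  have r3 : NuR K ν 3 (ν + 4 * K) := Or.inr ⟨by norm_num, by norm_num, rfl⟩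
  obtain ⟨s0, P0⟩ := piece h r0 (α := 0) (β := 1412) (by norm_num) (by norm_num) (by norm_num)
    (by norm_num) (by norm_num) (Or.inl (by linarith))
  obtain ⟨s1, P1⟩ := piece h r1 (α := 1417) (β := 1775) (by norm_num) (by norm_num) (by norm_num)
    (by norm_num) (by norm_num) (Or.inl (by linarith))
  obtain ⟨s2, P2⟩ := piece h r2 (α := 2002) (β := 2447) (by norm_num) (by norm_num) (by norm_num)
    (by norm_num) (by norm_num) (Or.inl (by linarith))
  obtain ⟨s3, P3⟩ := piece h r3 (α := 2452) (β := 2673) (by norm_num) (by norm_num) (by norm_num)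
    (by norm_num) (by norm_num) (Or.inl (by linarith))
  have e0 : s2 = s1 := rel1 h (l1 := (-2363)) (l2 := (-2310)) (by norm_num) (by norm_num) (by norm_num)
    (cn_neg hZ0 P2 (lo := (-2363)) (hi := (-2310)) (by norm_num) (by norm_num) (by norm_num))
    (cn_neg hZ0 P0 (lo := (-2363) + 1973) (hi := (-2310) + 2027) (by norm_num) (by norm_num) (by norm_num))
    (cn_pos hZ0 P1 (lo := (-2363) + 4000) (hi := (-2310) + 4002) (by norm_num) (by norm_num) (by norm_num))
  have e1 : s3 + s1 = s0 + s0 := relh h (l1 := (-2611)) (l2 := (-2548)) (by norm_num) (by norm_num)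
    (by norm_num)
    (cn_neg hZ0 P3 (lo := (-2611)) (hi := (-2548)) (by norm_num) (by norm_num) (by norm_num))
    (cn_pos hZ0 P0 (lo := (-2611) + 2828) (hi := (-2548) + 2862) (by norm_num) (by norm_num) (by norm_num))
    (cn_neg hZ0 P0 (lo := (-2611) + 1398) (hi := (-2548) + 1415) (by norm_num) (by norm_num) (by norm_num))
    (cn_pos hZ0 P1 (lo := (-2611) + 4242) (hi := (-2548) + 4262) (by norm_num) (by norm_num) (by norm_num))
  have e2 : s3 = s0 := rel1 h (l1 := (-2658)) (l2 := (-2605)) (by norm_num) (by norm_num) (by norm_num)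
    (cn_neg hZ0 P3 (lo := (-2658)) (hi := (-2605)) (by norm_num) (by norm_num) (by norm_num))
    (cn_neg hZ0 P0 (lo := (-2658) + 1973) (hi := (-2605) + 2027) (by norm_num) (by norm_num) (by norm_num))
    (cn_pos hZ0 P0 (lo := (-2658) + 4000) (hi := (-2605) + 4002) (by norm_num) (by norm_num) (by norm_num))
  have q0_1 : s0 = s1 := by
    have T : ∀ s0 s1 s2 s3 : ZMod 2, s2 = s1 → s3 + s1 = s0 + s0 → s3 = s0 → s0 = s1 := by decide
    exact T s0 s1 s2 s3 e0 e1 e2
  have q0_2 : s0 = s2 := by
    have T : ∀ s0 s1 s2 s3 : ZMod 2, s2 = s1 → s3 + s1 = s0 + s0 → s3 = s0 → s0 = s2 := by decide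
    exact T s0 s1 s2 s3 e0 e1 e2
  have q0_3 : s0 = s3 := by
    have T : ∀ s0 s1 s2 s3 : ZMod 2, s2 = s1 → s3 + s1 = s0 + s0 → s3 = s0 → s0 = s3 := by decide
    exact T s0 s1 s2 s3 e0 e1 e2
  refine fin h (ta := 840) (tb := 886) (by norm_num) (by norm_num) ?_
  intro p hp h1 h2
  rcases le_or_gt (1000 * p) (847 * Z) with t2 | t2
  · obtain ⟨q, X, hq, hX, x0, x1⟩ := startQ h (p := p) (L := (-2606)) (by omega)
    rcases le_or_gt (1000 * X) ((-2302) * Z) with y | y
    · exact sb h 1 (ql := 2359) (qh := 2383) (x0 := (-2606)) (x1 := (-2302)) hp hq hX h1 t2 x0 y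
        (cn_neg hZ0 P0 (lo := (-926)) (hi := (-608)) (by norm_num) (by norm_num) (by norm_num))
        (cn_pos hZ0 P1 (lo := 1433) (hi := 1775) (by norm_num) (by norm_num) (by norm_num))
        q0_1 (by norm_num)
    have y0 := y.le
    clear y
    rcases le_or_gt (1000 * X) ((-2002) * Z) with y | y
    · exact sb h 0 (ql := 2359) (qh := 2383) (x0 := (-2302)) (x1 := (-2002)) hp hq hX h1 t2 y0 y
        (cn_neg hZ0 P2 (lo := (-2303)) (hi := (-2002)) (by norm_num) (by norm_num) (by norm_num))
        (cn_pos hZ0 P0 (lo := 56) (hi := 381) (by norm_num) (by norm_num) (by norm_num))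
        q0_2.symm (by norm_num)
    have y1 := y.le
    clear y
    rcases le_or_gt (1000 * X) ((-1630) * Z) with y | y
    · exact sb h 1 (ql := 2359) (qh := 2383) (x0 := (-2002)) (x1 := (-1630)) hp hq hX h1 t2 y1 y
        (cn_ctr hZ0 P0 (lo := (-323)) (hi := 64) (by norm_num) (by norm_num))
        (cn_pos hZ0 P2 (lo := 2036) (hi := 2447) (by norm_num) (by norm_num) (by norm_num))
        q0_2 (by norm_num)
    have y2 := y.le
    clear y
    rcases le_or_gt (1000 * X) ((-1417) * Z) with y | y
    · exact sb h 0 (ql := 2359) (qh := 2383) (x0 := (-1630)) (x1 := (-1417)) hp hq hX h1 t2 y2 y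
        (cn_neg hZ0 P1 (lo := (-1631)) (hi := (-1417)) (by norm_num) (by norm_num) (by norm_num))
        (cn_pos hZ0 P0 (lo := 728) (hi := 966) (by norm_num) (by norm_num) (by norm_num))
        q0_1.symm (by norm_num)
    have y3 := y.le
    clear y
    rcases le_or_gt (1000 * X) ((-1404) * Z) with y | y
    · exact sb h 1 (ql := 2359) (qh := 2383) (x0 := (-1417)) (x1 := (-1404)) hp hq hX h1 t2 y3 y
        (cn_pos hZ0 P0 (lo := 262) (hi := 290) (by norm_num) (by norm_num) (by norm_num))
        (cn_pos hZ0 P3 (lo := 2621) (hi := 2673) (by norm_num) (by norm_num) (by norm_num))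
        q0_3 (by norm_num)
    have y4 := y.le
    clear y
    rcases le_or_gt (1000 * X) ((-971) * Z) with y | y
    · exact sb h 0 (ql := 2359) (qh := 2383) (x0 := (-1404)) (x1 := (-971)) hp hq hX h1 t2 y4 y
        (cn_neg hZ0 P0 (lo := (-1405)) (hi := (-971)) (by norm_num) (by norm_num) (by norm_num))
        (cn_pos hZ0 P0 (lo := 954) (hi := 1412) (by norm_num) (by norm_num) (by norm_num))
        rfl (by norm_num)
    have y5 := y.le
    clear y
    exact sb h (-1) (ql := 2359) (qh := 2383) (x0 := (-971)) (x1 := (-772)) hp hq hX h1 t2 y5 (by omega)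
        (cn_neg hZ0 P3 (lo := (-2666)) (hi := (-2452)) (by norm_num) (by norm_num) (by norm_num))
        (cn_neg hZ0 P0 (lo := (-307)) (hi := (-69)) (by norm_num) (by norm_num) (by norm_num))
        q0_3.symm (by norm_num)
  have t1 := t2
  clear t2
  rcases le_or_gt (1000 * p) (855 * Z) with t2 | t2
  · obtain ⟨q, X, hq, hX, x0, x1⟩ := startQ h (p := p) (L := (-2666)) (by omega)
    rcases le_or_gt (1000 * X) ((-2452) * Z) with y | y
    · exact sb h 0 (ql := 2337) (qh := 2364) (x0 := (-2666)) (x1 := (-2452)) hp hq hX t1.le t2 x0 y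
        (cn_neg hZ0 P3 (lo := (-2666)) (hi := (-2452)) (by norm_num) (by norm_num) (by norm_num))
        (cn_neg hZ0 P0 (lo := (-329)) (hi := (-88)) (by norm_num) (by norm_num) (by norm_num))
        q0_3.symm (by norm_num)
    have y0 := y.le
    clear y
    rcases le_or_gt (1000 * X) ((-2299) * Z) with y | y
    · exact sb h 1 (ql := 2337) (qh := 2364) (x0 := (-2452)) (x1 := (-2299)) hp hq hX t1.le t2 y0 y
        (cn_neg hZ0 P0 (lo := (-759)) (hi := (-589)) (by norm_num) (by norm_num) (by norm_num))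
        (cn_pos hZ0 P1 (lo := 1578) (hi := 1775) (by norm_num) (by norm_num) (by norm_num))
        q0_1 (by norm_num)
    have y1 := y.le
    clear y
    rcases le_or_gt (1000 * X) ((-2002) * Z) with y | y
    · exact sb h 0 (ql := 2337) (qh := 2364) (x0 := (-2299)) (x1 := (-2002)) hp hq hX t1.le t2 y1 y
        (cn_neg hZ0 P2 (lo := (-2300)) (hi := (-2002)) (by norm_num) (by norm_num) (by norm_num))
        (cn_pos hZ0 P0 (lo := 37) (hi := 362) (by norm_num) (by norm_num) (by norm_num))
        q0_2.symm (by norm_num)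
    have y2 := y.le
    clear y
    rcases le_or_gt (1000 * X) ((-1627) * Z) with y | y
    · exact sb h 1 (ql := 2337) (qh := 2364) (x0 := (-2002)) (x1 := (-1627)) hp hq hX t1.le t2 y2 y
        (cn_ctr hZ0 P0 (lo := (-309)) (hi := 83) (by norm_num) (by norm_num))
        (cn_pos hZ0 P2 (lo := 2028) (hi := 2447) (by norm_num) (by norm_num) (by norm_num))
        q0_2 (by norm_num)
    have y3 := y.le
    clear y
    rcases le_or_gt (1000 * X) ((-1417) * Z) with y | y
    · exact sb h 0 (ql := 2337) (qh := 2364) (x0 := (-1627)) (x1 := (-1417)) hp hq hX t1.le t2 y3 y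
        (cn_neg hZ0 P1 (lo := (-1628)) (hi := (-1417)) (by norm_num) (by norm_num) (by norm_num))
        (cn_pos hZ0 P0 (lo := 709) (hi := 947) (by norm_num) (by norm_num) (by norm_num))
        q0_1.symm (by norm_num)
    have y4 := y.le
    clear y
    rcases le_or_gt (1000 * X) ((-1401) * Z) with y | y
    · exact sb h 1 (ql := 2337) (qh := 2364) (x0 := (-1417)) (x1 := (-1401)) hp hq hX t1.le t2 y4 y
        (cn_pos hZ0 P0 (lo := 276) (hi := 309) (by norm_num) (by norm_num) (by norm_num))
        (cn_pos hZ0 P3 (lo := 2613) (hi := 2673) (by norm_num) (by norm_num) (by norm_num))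
        q0_3 (by norm_num)
    have y5 := y.le
    clear y
    exact sb h 0 (ql := 2337) (qh := 2364) (x0 := (-1401)) (x1 := (-952)) hp hq hX t1.le t2 y5 (by omega)
        (cn_neg hZ0 P0 (lo := (-1402)) (hi := (-952)) (by norm_num) (by norm_num) (by norm_num))
        (cn_pos hZ0 P0 (lo := 935) (hi := 1412) (by norm_num) (by norm_num) (by norm_num))
        rfl (by norm_num)
  have t1 := t2
  clear t2
  rcases le_or_gt (1000 * p) (863 * Z) with t2 | t2
  · obtain ⟨q, X, hq, hX, x0, x1⟩ := startQ h (p := p) (L := (-2666)) (by omega)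
    rcases le_or_gt (1000 * X) ((-2452) * Z) with y | y
    · exact sb h 0 (ql := 2315) (qh := 2342) (x0 := (-2666)) (x1 := (-2452)) hp hq hX t1.le t2 x0 y
        (cn_neg hZ0 P3 (lo := (-2666)) (hi := (-2452)) (by norm_num) (by norm_num) (by norm_num))
        (cn_neg hZ0 P0 (lo := (-351)) (hi := (-110)) (by norm_num) (by norm_num) (by norm_num))
        q0_3.symm (by norm_num)
    have y0 := y.le
    clear y
    rcases le_or_gt (1000 * X) ((-2293) * Z) with y | y
    · exact sb h 1 (ql := 2315) (qh := 2342) (x0 := (-2452)) (x1 := (-2293)) hp hq hX t1.le t2 y0 y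
        (cn_neg hZ0 P0 (lo := (-743)) (hi := (-567)) (by norm_num) (by norm_num) (by norm_num))
        (cn_pos hZ0 P1 (lo := 1572) (hi := 1775) (by norm_num) (by norm_num) (by norm_num))
        q0_1 (by norm_num)
    have y1 := y.le
    clear y
    rcases le_or_gt (1000 * X) ((-2002) * Z) with y | y
    · exact sb h 0 (ql := 2315) (qh := 2342) (x0 := (-2293)) (x1 := (-2002)) hp hq hX t1.le t2 y1 y
        (cn_neg hZ0 P2 (lo := (-2294)) (hi := (-2002)) (by norm_num) (by norm_num) (by norm_num))
        (cn_pos hZ0 P0 (lo := 21) (hi := 340) (by norm_num) (by norm_num) (by norm_num))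
        q0_2.symm (by norm_num)
    have y2 := y.le
    clear y
    rcases le_or_gt (1000 * X) ((-1621) * Z) with y | y
    · exact sb h 1 (ql := 2315) (qh := 2342) (x0 := (-2002)) (x1 := (-1621)) hp hq hX t1.le t2 y2 y
        (cn_ctr hZ0 P0 (lo := (-293)) (hi := 105) (by norm_num) (by norm_num))
        (cn_pos hZ0 P2 (lo := 2022) (hi := 2447) (by norm_num) (by norm_num) (by norm_num))
        q0_2 (by norm_num)
    have y3 := y.le
    clear y
    rcases le_or_gt (1000 * X) ((-1417) * Z) with y | y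
    · exact sb h 0 (ql := 2315) (qh := 2342) (x0 := (-1621)) (x1 := (-1417)) hp hq hX t1.le t2 y3 y
        (cn_neg hZ0 P1 (lo := (-1622)) (hi := (-1417)) (by norm_num) (by norm_num) (by norm_num))
        (cn_pos hZ0 P0 (lo := 693) (hi := 925) (by norm_num) (by norm_num) (by norm_num))
        q0_1.symm (by norm_num)
    have y4 := y.le
    clear y
    rcases le_or_gt (1000 * X) ((-1395) * Z) with y | y
    · exact sb h 1 (ql := 2315) (qh := 2342) (x0 := (-1417)) (x1 := (-1395)) hp hq hX t1.le t2 y4 y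
        (cn_pos hZ0 P0 (lo := 292) (hi := 331) (by norm_num) (by norm_num) (by norm_num))
        (cn_pos hZ0 P3 (lo := 2607) (hi := 2673) (by norm_num) (by norm_num) (by norm_num))
        q0_3 (by norm_num)
    have y5 := y.le
    clear y
    exact sb h 0 (ql := 2315) (qh := 2342) (x0 := (-1395)) (x1 := (-930)) hp hq hX t1.le t2 y5 (by omega)
        (cn_neg hZ0 P0 (lo := (-1396)) (hi := (-930)) (by norm_num) (by norm_num) (by norm_num))
        (cn_pos hZ0 P0 (lo := 919) (hi := 1412) (by norm_num) (by norm_num) (by norm_num))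
        rfl (by norm_num)
  have t1 := t2
  clear t2
  rcases le_or_gt (1000 * p) (870 * Z) with t2 | t2
  · obtain ⟨q, X, hq, hX, x0, x1⟩ := startQ h (p := p) (L := (-2666)) (by omega)
    rcases le_or_gt (1000 * X) ((-2452) * Z) with y | y
    · exact sb h 0 (ql := 2296) (qh := 2320) (x0 := (-2666)) (x1 := (-2452)) hp hq hX t1.le t2 x0 y
        (cn_neg hZ0 P3 (lo := (-2666)) (hi := (-2452)) (by norm_num) (by norm_num) (by norm_num))
        (cn_neg hZ0 P0 (lo := (-370)) (hi := (-132)) (by norm_num) (by norm_num) (by norm_num))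
        q0_3.symm (by norm_num)
    have y0 := y.le
    clear y
    rcases le_or_gt (1000 * X) ((-2285) * Z) with y | y
    · exact sb h 1 (ql := 2296) (qh := 2320) (x0 := (-2452)) (x1 := (-2285)) hp hq hX t1.le t2 y0 y
        (cn_neg hZ0 P0 (lo := (-727)) (hi := (-545)) (by norm_num) (by norm_num) (by norm_num))
        (cn_pos hZ0 P1 (lo := 1569) (hi := 1775) (by norm_num) (by norm_num) (by norm_num))
        q0_1 (by norm_num)
    have y1 := y.le
    clear y
    rcases le_or_gt (1000 * X) ((-2002) * Z) with y | y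
    · exact sb h 0 (ql := 2296) (qh := 2320) (x0 := (-2285)) (x1 := (-2002)) hp hq hX t1.le t2 y1 y
        (cn_neg hZ0 P2 (lo := (-2286)) (hi := (-2002)) (by norm_num) (by norm_num) (by norm_num))
        (cn_pos hZ0 P0 (lo := 10) (hi := 318) (by norm_num) (by norm_num) (by norm_num))
        q0_2.symm (by norm_num)
    have y2 := y.le
    clear y
    rcases le_or_gt (1000 * X) ((-1613) * Z) with y | y
    · exact sb h 1 (ql := 2296) (qh := 2320) (x0 := (-2002)) (x1 := (-1613)) hp hq hX t1.le t2 y2 y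
        (cn_ctr hZ0 P0 (lo := (-277)) (hi := 127) (by norm_num) (by norm_num))
        (cn_pos hZ0 P2 (lo := 2019) (hi := 2447) (by norm_num) (by norm_num) (by norm_num))
        q0_2 (by norm_num)
    have y3 := y.le
    clear y
    rcases le_or_gt (1000 * X) ((-1417) * Z) with y | y
    · exact sb h 0 (ql := 2296) (qh := 2320) (x0 := (-1613)) (x1 := (-1417)) hp hq hX t1.le t2 y3 y
        (cn_neg hZ0 P1 (lo := (-1614)) (hi := (-1417)) (by norm_num) (by norm_num) (by norm_num))
        (cn_pos hZ0 P0 (lo := 682) (hi := 903) (by norm_num) (by norm_num) (by norm_num))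
        q0_1.symm (by norm_num)
    have y4 := y.le
    clear y
    rcases le_or_gt (1000 * X) ((-1387) * Z) with y | y
    · exact sb h 1 (ql := 2296) (qh := 2320) (x0 := (-1417)) (x1 := (-1387)) hp hq hX t1.le t2 y4 y
        (cn_pos hZ0 P0 (lo := 308) (hi := 353) (by norm_num) (by norm_num) (by norm_num))
        (cn_pos hZ0 P3 (lo := 2604) (hi := 2673) (by norm_num) (by norm_num) (by norm_num))
        q0_3 (by norm_num)
    have y5 := y.le
    clear y
    exact sb h 0 (ql := 2296) (qh := 2320) (x0 := (-1387)) (x1 := (-908)) hp hq hX t1.le t2 y5 (by omega)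
        (cn_neg hZ0 P0 (lo := (-1388)) (hi := (-908)) (by norm_num) (by norm_num) (by norm_num))
        (cn_pos hZ0 P0 (lo := 908) (hi := 1412) (by norm_num) (by norm_num) (by norm_num))
        rfl (by norm_num)
  have t1 := t2
  clear t2
  rcases le_or_gt (1000 * p) (878 * Z) with t2 | t2
  · obtain ⟨q, X, hq, hX, x0, x1⟩ := startQ h (p := p) (L := (-2666)) (by omega)
    rcases le_or_gt (1000 * X) ((-2452) * Z) with y | y
    · exact sb h 0 (ql := 2275) (qh := 2301) (x0 := (-2666)) (x1 := (-2452)) hp hq hX t1.le t2 x0 y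
        (cn_neg hZ0 P3 (lo := (-2666)) (hi := (-2452)) (by norm_num) (by norm_num) (by norm_num))
        (cn_neg hZ0 P0 (lo := (-391)) (hi := (-151)) (by norm_num) (by norm_num) (by norm_num))
        q0_3.symm (by norm_num)
    have y0 := y.le
    clear y
    rcases le_or_gt (1000 * X) ((-2282) * Z) with y | y
    · exact sb h 1 (ql := 2275) (qh := 2301) (x0 := (-2452)) (x1 := (-2282)) hp hq hX t1.le t2 y0 y
        (cn_neg hZ0 P0 (lo := (-713)) (hi := (-526)) (by norm_num) (by norm_num) (by norm_num))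
        (cn_pos hZ0 P1 (lo := 1562) (hi := 1775) (by norm_num) (by norm_num) (by norm_num))
        q0_1 (by norm_num)
    have y1 := y.le
    clear y
    rcases le_or_gt (1000 * X) ((-2002) * Z) with y | y
    · exact sb h 0 (ql := 2275) (qh := 2301) (x0 := (-2282)) (x1 := (-2002)) hp hq hX t1.le t2 y1 y
        (cn_neg hZ0 P2 (lo := (-2283)) (hi := (-2002)) (by norm_num) (by norm_num) (by norm_num))
        (cn_ctr hZ0 P0 (lo := (-8)) (hi := 299) (by norm_num) (by norm_num))
        q0_2.symm (by norm_num)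
    have y2 := y.le
    clear y
    rcases le_or_gt (1000 * X) ((-1610) * Z) with y | y
    · exact sb h 1 (ql := 2275) (qh := 2301) (x0 := (-2002)) (x1 := (-1610)) hp hq hX t1.le t2 y2 y
        (cn_ctr hZ0 P0 (lo := (-263)) (hi := 146) (by norm_num) (by norm_num))
        (cn_pos hZ0 P2 (lo := 2012) (hi := 2447) (by norm_num) (by norm_num) (by norm_num))
        q0_2 (by norm_num)
    have y3 := y.le
    clear y
    rcases le_or_gt (1000 * X) ((-1417) * Z) with y | y
    · exact sb h 0 (ql := 2275) (qh := 2301) (x0 := (-1610)) (x1 := (-1417)) hp hq hX t1.le t2 y3 y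
        (cn_neg hZ0 P1 (lo := (-1611)) (hi := (-1417)) (by norm_num) (by norm_num) (by norm_num))
        (cn_pos hZ0 P0 (lo := 664) (hi := 884) (by norm_num) (by norm_num) (by norm_num))
        q0_1.symm (by norm_num)
    have y4 := y.le
    clear y
    rcases le_or_gt (1000 * X) ((-1384) * Z) with y | y
    · exact sb h 1 (ql := 2275) (qh := 2301) (x0 := (-1417)) (x1 := (-1384)) hp hq hX t1.le t2 y4 y
        (cn_pos hZ0 P0 (lo := 322) (hi := 372) (by norm_num) (by norm_num) (by norm_num))
        (cn_pos hZ0 P3 (lo := 2597) (hi := 2673) (by norm_num) (by norm_num) (by norm_num))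
        q0_3 (by norm_num)
    have y5 := y.le
    clear y
    exact sb h 0 (ql := 2275) (qh := 2301) (x0 := (-1384)) (x1 := (-889)) hp hq hX t1.le t2 y5 (by omega)
        (cn_neg hZ0 P0 (lo := (-1385)) (hi := (-889)) (by norm_num) (by norm_num) (by norm_num))
        (cn_pos hZ0 P0 (lo := 890) (hi := 1412) (by norm_num) (by norm_num) (by norm_num))
        rfl (by norm_num)
  have t1 := t2
  clear t2
  obtain ⟨q, X, hq, hX, x0, x1⟩ := startQ h (p := p) (L := (-2666)) (by omega)
  rcases le_or_gt (1000 * X) ((-2452) * Z) with y | y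
  · exact sb h 0 (ql := 2255) (qh := 2280) (x0 := (-2666)) (x1 := (-2452)) hp hq hX t1.le h2 x0 y
      (cn_neg hZ0 P3 (lo := (-2666)) (hi := (-2452)) (by norm_num) (by norm_num) (by norm_num))
      (cn_neg hZ0 P0 (lo := (-411)) (hi := (-172)) (by norm_num) (by norm_num) (by norm_num))
      q0_3.symm (by norm_num)
  have y0 := y.le
  clear y
  rcases le_or_gt (1000 * X) ((-2277) * Z) with y | y
  · exact sb h 1 (ql := 2255) (qh := 2280) (x0 := (-2452)) (x1 := (-2277)) hp hq hX t1.le h2 y0 y
      (cn_neg hZ0 P0 (lo := (-697)) (hi := (-505)) (by norm_num) (by norm_num) (by norm_num))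
      (cn_pos hZ0 P1 (lo := 1558) (hi := 1775) (by norm_num) (by norm_num) (by norm_num))
      q0_1 (by norm_num)
  have y1 := y.le
  clear y
  rcases le_or_gt (1000 * X) ((-2002) * Z) with y | y
  · exact sb h 0 (ql := 2255) (qh := 2280) (x0 := (-2277)) (x1 := (-2002)) hp hq hX t1.le h2 y1 y
      (cn_neg hZ0 P2 (lo := (-2278)) (hi := (-2002)) (by norm_num) (by norm_num) (by norm_num))
      (cn_ctr hZ0 P0 (lo := (-23)) (hi := 278) (by norm_num) (by norm_num))
      q0_2.symm (by norm_num)
  have y2 := y.le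
  clear y
  rcases le_or_gt (1000 * X) ((-1605) * Z) with y | y
  · exact sb h 1 (ql := 2255) (qh := 2280) (x0 := (-2002)) (x1 := (-1605)) hp hq hX t1.le h2 y2 y
      (cn_ctr hZ0 P0 (lo := (-247)) (hi := 167) (by norm_num) (by norm_num))
      (cn_pos hZ0 P2 (lo := 2008) (hi := 2447) (by norm_num) (by norm_num) (by norm_num))
      q0_2 (by norm_num)
  have y3 := y.le
  clear y
  rcases le_or_gt (1000 * X) ((-1417) * Z) with y | y
  · exact sb h 0 (ql := 2255) (qh := 2280) (x0 := (-1605)) (x1 := (-1417)) hp hq hX t1.le h2 y3 y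
      (cn_neg hZ0 P1 (lo := (-1606)) (hi := (-1417)) (by norm_num) (by norm_num) (by norm_num))
      (cn_pos hZ0 P0 (lo := 649) (hi := 863) (by norm_num) (by norm_num) (by norm_num))
      q0_1.symm (by norm_num)
  have y4 := y.le
  clear y
  rcases le_or_gt (1000 * X) ((-1379) * Z) with y | y
  · exact sb h 1 (ql := 2255) (qh := 2280) (x0 := (-1417)) (x1 := (-1379)) hp hq hX t1.le h2 y4 y
      (cn_pos hZ0 P0 (lo := 338) (hi := 393) (by norm_num) (by norm_num) (by norm_num))
      (cn_pos hZ0 P3 (lo := 2593) (hi := 2673) (by norm_num) (by norm_num) (by norm_num))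
      q0_3 (by norm_num)
  have y5 := y.le
  clear y
  exact sb h 0 (ql := 2255) (qh := 2280) (x0 := (-1379)) (x1 := (-868)) hp hq hX t1.le h2 y5 (by omega)
      (cn_neg hZ0 P0 (lo := (-1380)) (hi := (-868)) (by norm_num) (by norm_num) (by norm_num))
      (cn_pos hZ0 P0 (lo := 875) (hi := 1412) (by norm_num) (by norm_num) (by norm_num))
      rfl (by norm_num)

end Pool.Agent.SQ.H80
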