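import Pool.Agent.Helper80_SQ.Large

/-!
MP_5f6ee5_nt. Part 2: the contradiction for large `K`.
-/

namespace Pool.Agent.SQ.H80

variable {g : ℤ → ZMod 2} {K : ℤ}

theorem link (h : Hyp g K) {Z : ℤ} (hZ : 2400 ≤ Z) (hK1 : Z ^ 2 ≤ K) (hK2 : K < (Z + 1) ^ 2)
    {β : ℤ} (h1 : 11 * Z ≤ 10 * β) (h2 : 4 * β ≤ 7 * Z + 4) :
    ∃ b a : ℤ, Odd b ∧ Odd a ∧ β < b ∧ 8 * (b - β) ≤ Z ∧ 4 * Z + 4 ≤ a + b ∧ a + b ≤ 4 * Z + 8 ∧
      g (K - b) = g (K + a) := by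
  obtain ⟨m, t, s, hs0, ht1, ht2, hs2, hodd, hm1, hm2, hm3, hn1, hn2⟩ :=
    exist (K - β) (by nlinarith)
  have hmZ : m ≤ Z + 1 := by
    by_contra hc
    push_neg at hc
    have : (Z + 1) ^ 2 ≤ (m - 1) ^ 2 := by nlinarith
    nlinarith
  have hZm : Z ≤ m := by
    by_contra hc
    push_neg at hc
    have : m ^ 2 ≤ (Z - 1) ^ 2 := by nlinarith
    nlinarith
  have hsZ : 32 * (s + 1) ≤ Z := by
    by_contra hc
    push_neg at hc
    nlinarith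
  obtain ⟨c, hc⟩ := hodd
  obtain ⟨κ, hκ⟩ := h.even
  have o1 : Odd (m ^ 2 - t ^ 2) := by
    have e : m ^ 2 - t ^ 2 = (m - t) * (m + t) := by ring
    rw [e]
    exact Odd.mul ⟨c - t, by omega⟩ ⟨c, hc⟩
  obtain ⟨d, hd⟩ := o1
  have hr := rect h (m := m) (t := t) ⟨c, hc⟩ (by omega) (by omega)
    (by
      have e : (m + 1) ^ 2 - (t + 1) ^ 2 - K = (m ^ 2 - t ^ 2 - K) + 2 * m - 2 * t := by ring
      rw [e]
      have b1 : 0 ≤ (m ^ 2 - t ^ 2 - K) + 2 * m - 2 * t := by omega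
      have b2 : 100 * ((m ^ 2 - t ^ 2 - K) + 2 * m - 2 * t) ≤ 97 * Z := by omega
      generalize (m ^ 2 - t ^ 2 - K) + 2 * m - 2 * t = x at b1 b2
      nlinarith)
    (by
      have e : (m + 1) ^ 2 - (t - 1) ^ 2 - K = (m ^ 2 - t ^ 2 - K) + 2 * m + 2 * t := by ring
      rw [e]
      have b1 : 0 ≤ (m ^ 2 - t ^ 2 - K) + 2 * m + 2 * t := by omega
      have b2 : 100 * ((m ^ 2 - t ^ 2 - K) + 2 * m + 2 * t) ≤ 97 * Z := by omega
      generalize (m ^ 2 - t ^ 2 - K) + 2 * m + 2 * t = x at b1 b2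
      nlinarith)
  refine ⟨K - (m ^ 2 - t ^ 2), (m + 2) ^ 2 - t ^ 2 - K, ⟨κ - d - 1, by omega⟩, ?_, by omega,
    by omega, ?_, ?_, ?_⟩
  · have e : (m + 2) ^ 2 - t ^ 2 - K = (m ^ 2 - t ^ 2) + 4 * m + 4 - K := by ring
    rw [e]
    exact ⟨d + 2 * m + 2 - κ, by omega⟩
  · have e : (m + 2) ^ 2 - t ^ 2 - K = (m ^ 2 - t ^ 2) + 4 * m + 4 - K := by ring
    rw [e]
    omega
  · have e : (m + 2) ^ 2 - t ^ 2 - K = (m ^ 2 - t ^ 2) + 4 * m + 4 - K := by ring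
    rw [e]
    omega
  · have e1 : K - (K - (m ^ 2 - t ^ 2)) = m ^ 2 - t ^ 2 := by ring
    have e2 : K + ((m + 2) ^ 2 - t ^ 2 - K) = (m + 2) ^ 2 - t ^ 2 := by ring
    rw [e1, e2]
    exact hr

/-- Segments 0 and 3 have the same sign. -/
theorem link03 (h : Hyp g K) {Z : ℤ} (hZ : 2400 ≤ Z) (hK1 : Z ^ 2 ≤ K) (hK2 : K < (Z + 1) ^ 2) :
    ∃ b c : ℤ, SegV K 0 b ∧ SegV K 3 c ∧ g (K - b) = g (K - c) := by
  obtain ⟨b, a, hb, ha, h1, h2, h3, h4, h5⟩ := link h hZ hK1 hK2 (β := 12 * Z / 10)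
    (by omega) (by omega)
  have l1 : 100 * b ≥ 119 * Z := by omega
  have l2 : 1000 * b ≤ 1326 * Z := by omega
  have l3 : 1000 * a ≥ 2674 * Z := by omega
  have l4 : 100 * a ≤ 281 * Z := by omega
  refine ⟨b, a - 6, ⟨hb, by omega, by nlinarith, by nlinarith⟩, ⟨?_, by omega, by nlinarith,
    by nlinarith⟩, ?_⟩
  · obtain ⟨c, hc⟩ := ha
    exact ⟨c - 3, by omega⟩
  · rw [h5]
    have := uv h (r := 3) ha (by nlinarith) (by nlinarith)
    rw [this]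
    congr 1

/-- Segments 1 and 3 have the same sign. -/
theorem link13 (h : Hyp g K) {Z : ℤ} (hZ : 2400 ≤ Z) (hK1 : Z ^ 2 ≤ K) (hK2 : K < (Z + 1) ^ 2) :
    ∃ b c : ℤ, SegV K 1 b ∧ SegV K 3 c ∧ g (K - b) = g (K - c) := by
  obtain ⟨b, a, hb, ha, h1, h2, h3, h4, h5⟩ := link h hZ hK1 hK2 (β := 142 * Z / 100)
    (by omega) (by omega)
  have l1 : 1000 * b ≥ 1419 * Z := by omega
  have l2 : 1000 * b ≤ 1546 * Z := by omega
  have l3 : 1000 * a ≥ 2454 * Z := by omega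
  have l4 : 100 * a ≤ 259 * Z := by omega
  refine ⟨b, a - 6, ⟨hb, by omega, by nlinarith, by nlinarith⟩, ⟨?_, by omega, by nlinarith,
    by nlinarith⟩, ?_⟩
  · obtain ⟨c, hc⟩ := ha
    exact ⟨c - 3, by omega⟩
  · rw [h5]
    have := uv h (r := 3) ha (by nlinarith) (by nlinarith)
    rw [this]
    congr 1

/-- Segments 1 and 2 have the same sign. -/
theorem link12 (h : Hyp g K) {Z : ℤ} (hZ : 2400 ≤ Z) (hK1 : Z ^ 2 ≤ K) (hK2 : K < (Z + 1) ^ 2) :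
    ∃ b c : ℤ, SegV K 1 b ∧ SegV K 2 c ∧ g (K - b) = g (K - c) := by
  obtain ⟨b, a, hb, ha, h1, h2, h3, h4, h5⟩ := link h hZ hK1 hK2 (β := 17 * Z / 10)
    (by omega) (by omega)
  have l1 : 100 * b ≥ 169 * Z := by omega
  have l2 : 1000 * b ≤ 1826 * Z := by omega
  have l3 : 1000 * a ≥ 2174 * Z := by omega
  have l4 : 100 * a ≤ 231 * Z := by omega
  refine ⟨b, a - 4, ⟨hb, by omega, by nlinarith, by nlinarith⟩, ⟨?_, by omega, by nlinarith,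
    by nlinarith⟩, ?_⟩
  · obtain ⟨c, hc⟩ := ha
    exact ⟨c - 2, by omega⟩
  · rw [h5]
    have := uv h (r := 2) ha (by nlinarith) (by nlinarith)
    rw [this]
    congr 1

theorem segs (h : Hyp g K) {Z : ℤ} (hZ : 2400 ≤ Z) (hK1 : Z ^ 2 ≤ K) (hK2 : K < (Z + 1) ^ 2) :
    (∀ c, SegV K 0 c → g (K - c) = g (K - 1)) ∧ (∀ c, SegV K 1 c → g (K - c) = g (K - 1)) ∧
      ∀ c, SegV K 2 c → g (K - c) = g (K - 1) := by
  obtain ⟨b1, c1, p1, q1, r1⟩ := link03 h hZ hK1 hK2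
  obtain ⟨b2, c2, p2, q2, r2⟩ := link13 h hZ hK1 hK2
  obtain ⟨b3, c3, p3, q3, r3⟩ := link12 h hZ hK1 hK2
  have hK := h.big
  have h0 : SegV K 0 1 := ⟨odd_one, le_rfl, by simp, by linarith⟩
  have a0 : ∀ c, SegV K 0 c → g (K - c) = g (K - 1) := fun c hc => segV_eq h le_rfl hc h0
  have a1 : ∀ c, SegV K 1 c → g (K - c) = g (K - 1) := by
    intro c hc
    rw [segV_eq h (by norm_num) hc p2, r2, segV_eq h (by norm_num) q2 q1, ← r1]
    exact a0 _ p1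
  refine ⟨a0, a1, fun c hc => ?_⟩
  rw [segV_eq h (by norm_num) hc q3, ← r3]
  exact a1 _ p3

theorem allV (h : Hyp g K) {Z : ℤ} (hZ : 2400 ≤ Z) (hK1 : Z ^ 2 ≤ K) (hK2 : K < (Z + 1) ^ 2)
    (b : ℤ) (hb : Odd b) (hb1 : 1 ≤ b) (hb2 : 50 * b ≤ 121 * Z) : g (K - b) = g (K - 1) := by
  obtain ⟨a0, a1, a2⟩ := segs h hZ hK1 hK2
  have hK := h.big
  rcases le_or_gt (b * b) (2 * K - 2) with h1 | h1
  · exact a0 b ⟨hb, hb1, by nlinarith, by nlinarith⟩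
  · rcases le_or_gt (b * (b + 2)) (4 * K - 2) with h3 | h3
    · exact a1 b ⟨hb, hb1, by nlinarith, by nlinarith⟩
    · exact a2 b ⟨hb, hb1, by nlinarith, by nlinarith⟩

theorem allU (h : Hyp g K) {Z : ℤ} (hZ : 2400 ≤ Z) (hK1 : Z ^ 2 ≤ K) (hK2 : K < (Z + 1) ^ 2)
    (a : ℤ) (ha : Odd a) (ha1 : 1 ≤ a) (ha2 : 50 * a ≤ 121 * Z) : g (K + a) = g (K - 1) := by
  have hK := h.big
  rcases le_or_gt (a * a) (2 * K - 2) with h1 | h1
  · exact center h ha (by nlinarith)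
  · have hbig : Z ≤ a := by
      by_contra hc
      push_neg at hc
      nlinarith
    obtain ⟨c, hc⟩ := ha
    rcases le_or_gt (a * (a - 2)) (4 * K - 2) with h3 | h3
    · rw [uv h (r := 1) ⟨c, hc⟩ (by nlinarith) (by nlinarith)]
      exact allV h hZ hK1 hK2 _ ⟨c - 1, by omega⟩ (by omega) (by omega)
    · rw [uv h (r := 2) ⟨c, hc⟩ (by nlinarith) (by nlinarith)]
      exact allV h hZ hK1 hK2 _ ⟨c - 2, by omega⟩ (by omega) (by omega)

theorem allX (h : Hyp g K) {Z : ℤ} (hZ : 2400 ≤ Z) (hK1 : Z ^ 2 ≤ K) (hK2 : K < (Z + 1) ^ 2)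
    (x : ℤ) (hx : Odd x) (h1 : -(121 * Z) ≤ 50 * x) (h2 : 50 * x ≤ 121 * Z) :
    g (K + x) = g (K - 1) := by
  rcases lt_or_ge x 0 with h0 | h0
  · have := allV h hZ hK1 hK2 (-x) hx.neg (by omega) (by omega)
    rw [← this]
    congr 1
    ring
  · have := odd_ne hx
    exact allU h hZ hK1 hK2 x hx (by omega) h2

theorem step (h : Hyp g K) {Z : ℤ} (hZ : 2400 ≤ Z) (hK1 : Z ^ 2 ≤ K) (hK2 : K < (Z + 1) ^ 2)
    (p : ℤ) (hp : Odd p) (h1 : 55 * Z ≤ 100 * p) (h2 : 10 * p ≤ 18 * Z) : g p = g (p + 2) := by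
  have hp0 : 0 < p := by omega
  obtain ⟨κ, hκ⟩ := h.even
  -- T = K - L
  obtain ⟨L, hL⟩ : ∃ L : ℤ, L = 12 * Z / 5 := ⟨_, rfl⟩
  have hT : 0 < K - L := by
    have : L ≤ 3 * Z := by omega
    nlinarith
  obtain ⟨q, hq, hq1, hq2⟩ : ∃ q : ℤ, Odd q ∧ K - L ≤ p * q ∧ p * (q - 2) < K - L := by
    have e1 := Int.emod_add_mul_ediv (K - L + p - 1) p
    have e2 := Int.emod_nonneg (K - L + p - 1) (by omega : p ≠ 0)
    have e3 := Int.emod_lt_of_pos (K - L + p - 1) hp0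
    generalize (K - L + p - 1) / p = y at e1
    generalize (K - L + p - 1) % p = w at e1 e2 e3
    rcases Int.even_or_odd y with hy | hy
    · exact ⟨y + 1, hy.add_one, by nlinarith, by nlinarith⟩
    · exact ⟨y, hy, by nlinarith, by nlinarith⟩
  have hq3 : p + q ≤ L := by
    by_contra hc
    push_neg at hc
    have b1 : 5 * (q - 2) ≥ 12 * Z - 5 * p - 14 := by omega
    have b2 : 5 * (p * (q - 2)) < 5 * (K - L) := by omega
    have b3 : p * (12 * Z - 5 * p - 14) ≤ p * (5 * (q - 2)) :=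
      mul_le_mul_of_nonneg_left b1 hp0.le
    have b4 : 5 * L ≥ 12 * Z - 4 := by omega
    have b5 : 0 ≤ (100 * p - 55 * Z) * (18 * Z - 10 * p) :=
      mul_nonneg (by omega) (by omega)
    nlinarith
  have hq0 : 0 < q := by
    by_contra hc
    push_neg at hc
    nlinarith
  obtain ⟨d, hd⟩ := hp.mul hq
  obtain ⟨e, he⟩ := hq
  have x1 := allX h hZ hK1 hK2 (p * q - K) ⟨d - κ, by omega⟩ (by omega) (by
    have : p * q < K - L + 2 * p := by nlinarith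
    omega)
  have x2 := allX h hZ hK1 hK2 (p * q + 2 * q - K) ⟨d + q - κ, by omega⟩ (by omega) (by
    have : p * q < K - L + 2 * p := by nlinarith
    omega)
  have y1 : K + (p * q - K) = p * q := by ring
  have y2 : K + (p * q + 2 * q - K) = (p + 2) * q := by ring
  rw [y1] at x1
  rw [y2] at x2
  rw [← x2, h.mul p q (by omega) (by omega), h.mul (p + 2) q (by omega) (by omega)] at x1
  exact add_right_cancel x1

theorem large (h : Hyp g K) {Z : ℤ} (hZ : 2400 ≤ Z) (hK1 : Z ^ 2 ≤ K) (hK2 : K < (Z + 1) ^ 2) :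
    g 3 = 0 := by
  obtain ⟨c, hc⟩ : ∃ c : ℤ, c = 56 * Z / 200 := ⟨_, rfl⟩
  have key : ∀ j : ℕ, 10 * (2 * c + 1 + 2 * (j : ℤ)) ≤ 18 * Z →
      g (2 * c + 1) = g (2 * c + 1 + 2 * (j : ℤ)) := by
    intro j
    induction j with
    | zero => intro _; simp
    | succ j ih =>
      intro hj
      push_cast at hj ⊢
      have := step h hZ hK1 hK2 (2 * c + 1 + 2 * (j : ℤ)) ⟨c + j, by ring⟩ (by omega) (by omega)
      rw [ih (by omega), this]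
      congr 1
      ring
  obtain ⟨n, hn⟩ := Int.eq_ofNat_of_zero_le (by omega : 0 ≤ 2 * c + 1)
  have h1 := key n (by omega)
  have h2 : 2 * c + 1 + 2 * (n : ℤ) = 3 * (2 * c + 1) := by omega
  rw [h2, h.mul 3 _ (by norm_num) (by omega)] at h1
  exact (left_eq_add.1 (h1.trans (add_comm _ _)))

end Pool.Agent.SQ.H80
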