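import Mathlib

/-!
MP_5f6ee5_nt, odd integers with an odd number of prime factors between consecutive odd squares.
Part 1: large `K = 2 k`. `g` is any function with `g (m n) = g m + g n` (values in `ZMod 2`).
-/

namespace Pool.Agent.SQ.H80

/-- `g` is additive and vanishes on all odd integers strictly between `(K-1)^2` and `(K+1)^2`. -/
structure Hyp (g : ℤ → ZMod 2) (K : ℤ) : Prop where
  mul : ∀ m n : ℤ, m ≠ 0 → n ≠ 0 → g (m * n) = g m + g n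
  even : Even K
  big : 2 ≤ K
  one : ∀ n : ℤ, Odd n → (K - 1) ^ 2 < n → n < (K + 1) ^ 2 → g n = 0

theorem z2a : ∀ a b : ZMod 2, a + b = 0 → a = b := by decide

theorem z2b : ∀ a b c d : ZMod 2, a + d = c + b → a + b = c + d := by decide

theorem odd_ne {u : ℤ} (h : Odd u) : u ≠ 0 := by
  rintro rfl
  simp at h

variable {g : ℤ → ZMod 2} {K : ℤ}

theorem edge (h : Hyp g K) {u v : ℤ} (hu : Odd u) (hv : Odd v) (h1 : (K - 1) ^ 2 < u * v)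
    (h2 : u * v < (K + 1) ^ 2) : g u = g v := by
  have h3 := h.one (u * v) (hu.mul hv) h1 h2
  rw [h.mul u v (odd_ne hu) (odd_ne hv)] at h3
  exact z2a _ _ h3

theorem vstep (h : Hyp g K) {b r : ℤ} (hb : Odd b) (hb1 : 1 ≤ b) (hr : 0 ≤ r)
    (h1 : 2 * K * r ≤ b * (b + 2 * r + 2)) (h2 : (b + 2) * (b + 2 * r + 2) ≤ 2 * K * (r + 1) - 2) :
    g (K - b) = g (K - b - 2) := by
  have e1 : Odd (K - b) := h.even.sub_odd hb
  have e2 : Odd (K - b - 2) := by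
    obtain ⟨c, hc⟩ := e1
    exact ⟨c - 1, by omega⟩
  have e3 : Odd (K + b + 2 * r + 2) := by
    obtain ⟨c, hc⟩ := h.even.add_odd hb
    exact ⟨c + r + 1, by omega⟩
  have hK := h.big
  refine (edge h e1 e3 ?_ ?_).trans (edge h e2 e3 ?_ ?_).symm
  · nlinarith
  · nlinarith
  · nlinarith
  · nlinarith

theorem vseg (h : Hyp g K) {r : ℤ} (hr : 0 ≤ r) (b : ℤ) (hb : Odd b) (hb1 : 1 ≤ b)
    (h1 : 2 * K * r ≤ b * (b + 2 * r + 2)) (j : ℕ) :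
    (b + 2 * j) * (b + 2 * j + 2 * r) ≤ 2 * K * (r + 1) - 2 → g (K - b) = g (K - (b + 2 * j)) := by
  induction j with
  | zero => intro _; simp
  | succ j ih =>
    intro h2
    push_cast at h2 ⊢
    have hj : (0 : ℤ) ≤ j := Int.natCast_nonneg j
    have h3 : (b + 2 * (j : ℤ)) * (b + 2 * j + 2 * r) ≤ 2 * K * (r + 1) - 2 := by
      nlinarith
    rw [ih h3]
    have hb' : Odd (b + 2 * (j : ℤ)) := by
      obtain ⟨c, hc⟩ := hb
      exact ⟨c + j, by omega⟩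
    have h4 : 2 * K * r ≤ (b + 2 * (j : ℤ)) * (b + 2 * j + 2 * r + 2) := by
      nlinarith [mul_nonneg hj hr, mul_nonneg hj hj, mul_nonneg hj (by omega : (0 : ℤ) ≤ b)]
    have h5 := vstep h hb' (by omega) hr h4 (by
      have : (b + 2 * (j : ℤ) + 2) * (b + 2 * j + 2 * r + 2)
        = (b + 2 * (j + 1)) * (b + 2 * (j + 1) + 2 * r) := by ring
      rw [this]
      exact h2)
    rw [h5]
    congr 1
    ring

/-- The odd numbers `K - b` in segment `r`. -/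
def SegV (K r b : ℤ) : Prop :=
  Odd b ∧ 1 ≤ b ∧ 2 * K * r ≤ b * (b + 2 * r + 2) ∧ b * (b + 2 * r) ≤ 2 * K * (r + 1) - 2

theorem segV_le (h : Hyp g K) {r b c : ℤ} (hr : 0 ≤ r) (hb : SegV K r b) (hc : SegV K r c)
    (hbc : b ≤ c) : g (K - b) = g (K - c) := by
  obtain ⟨x, hx⟩ := hb.1
  obtain ⟨y, hy⟩ := hc.1
  obtain ⟨j, hj⟩ := Int.eq_ofNat_of_zero_le (by omega : 0 ≤ y - x)
  have e : c = b + 2 * (j : ℤ) := by omega
  have h2 := hc.2.2.2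
  rw [e] at h2 ⊢
  exact vseg h hr b hb.1 hb.2.1 hb.2.2.1 j h2

theorem segV_eq (h : Hyp g K) {r b c : ℤ} (hr : 0 ≤ r) (hb : SegV K r b) (hc : SegV K r c) :
    g (K - b) = g (K - c) := by
  rcases le_total b c with h1 | h1
  · exact segV_le h hr hb hc h1
  · exact (segV_le h hr hc hb h1).symm

theorem uv (h : Hyp g K) {a r : ℤ} (ha : Odd a) (h1 : 2 * K * (r - 1) ≤ a * (a - 2 * r))
    (h2 : a * (a - 2 * r) ≤ 2 * K * (r + 1) - 2) : g (K + a) = g (K - (a - 2 * r)) := by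
  have e1 : Odd (K + a) := h.even.add_odd ha
  have e2 : Odd (K - (a - 2 * r)) := by
    obtain ⟨c, hc⟩ := h.even.sub_odd ha
    exact ⟨c + r, by omega⟩
  refine edge h e1 e2 ?_ ?_
  · nlinarith
  · nlinarith

theorem center (h : Hyp g K) {x : ℤ} (hx : Odd x) (hx2 : x ^ 2 ≤ 2 * K - 2) :
    g (K + x) = g (K - 1) := by
  have hK := h.big
  have h1 : SegV K 0 1 := ⟨odd_one, le_rfl, by simp, by linarith⟩
  rcases lt_or_ge x 0 with hx0 | hx0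
  · have h2 : SegV K 0 (-x) := ⟨hx.neg, by omega, by nlinarith, by nlinarith⟩
    have h3 := segV_eq h le_rfl h2 h1
    rw [← h3]
    congr 1
    ring
  · have h2 : SegV K 0 x := ⟨hx, by
      have := odd_ne hx
      omega, by nlinarith, by nlinarith⟩
    have h3 := segV_eq h le_rfl h2 h1
    have h4 := uv h (r := 0) hx (by nlinarith) (by nlinarith)
    rw [h4, ← h3]
    congr 1
    ring

theorem rect (h : Hyp g K) {m t : ℤ} (hmt : Odd (m + t)) (ht : 0 ≤ t) (htm : t < m)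
    (h1 : ((m + 1) ^ 2 - (t + 1) ^ 2 - K) ^ 2 ≤ 2 * K - 2)
    (h2 : ((m + 1) ^ 2 - (t - 1) ^ 2 - K) ^ 2 ≤ 2 * K - 2) :
    g (m ^ 2 - t ^ 2) = g ((m + 2) ^ 2 - t ^ 2) := by
  obtain ⟨c, hc⟩ := hmt
  obtain ⟨κ, hκ⟩ := h.even
  have o1 : Odd (m + t) := ⟨c, hc⟩
  have o2 : Odd (m - t) := ⟨c - t, by omega⟩
  have o3 : Odd (m + 2 + t) := ⟨c + 1, by omega⟩
  have o4 : Odd (m + 2 - t) := ⟨c - t + 1, by omega⟩
  have e1 : m ^ 2 - t ^ 2 = (m - t) * (m + t) := by ring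
  have e2 : (m + 2) ^ 2 - t ^ 2 = (m + 2 - t) * (m + 2 + t) := by ring
  have e3 : (m + 1) ^ 2 - (t + 1) ^ 2 = (m - t) * (m + 2 + t) := by ring
  have e4 : (m + 1) ^ 2 - (t - 1) ^ 2 = (m + 2 - t) * (m + t) := by ring
  have p3 : Odd ((m + 1) ^ 2 - (t + 1) ^ 2 - K) := by
    rw [e3]
    exact (o2.mul o3).sub_even h.even
  have p4 : Odd ((m + 1) ^ 2 - (t - 1) ^ 2 - K) := by
    rw [e4]
    exact (o4.mul o1).sub_even h.even
  have f3 := center h p3 h1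
  have f4 := center h p4 h2
  have f5 : g ((m + 1) ^ 2 - (t + 1) ^ 2) = g ((m + 1) ^ 2 - (t - 1) ^ 2) := by
    have r3 : K + ((m + 1) ^ 2 - (t + 1) ^ 2 - K) = (m + 1) ^ 2 - (t + 1) ^ 2 := by ring
    have r4 : K + ((m + 1) ^ 2 - (t - 1) ^ 2 - K) = (m + 1) ^ 2 - (t - 1) ^ 2 := by ring
    rw [r3] at f3
    rw [r4] at f4
    rw [f3, f4]
  rw [e3, e4, h.mul _ _ (odd_ne o2) (odd_ne o3), h.mul _ _ (odd_ne o4) (odd_ne o1)] at f5
  rw [e1, e2, h.mul _ _ (odd_ne o2) (odd_ne o1), h.mul _ _ (odd_ne o4) (odd_ne o3)]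
  exact z2b _ _ _ _ f5

theorem isq (D : ℤ) (hD : 0 ≤ D) : ∃ s : ℤ, 0 ≤ s ∧ s ^ 2 ≤ D ∧ D < (s + 1) ^ 2 := by
  obtain ⟨d, rfl⟩ := Int.eq_ofNat_of_zero_le hD
  refine ⟨(Nat.sqrt d : ℤ), Int.natCast_nonneg _, ?_, ?_⟩
  · exact_mod_cast Nat.sqrt_le' d
  · exact_mod_cast Nat.lt_succ_sqrt' d

theorem exist (N : ℤ) (hN : 1 ≤ N) : ∃ m t s : ℤ, 0 ≤ s ∧ s + 1 ≤ t ∧ t ≤ s + 2 ∧
    s ^ 2 ≤ 2 * m - 2 ∧ Odd (m + t) ∧ 1 ≤ m ∧ (m - 1) ^ 2 < N ∧ N ≤ m ^ 2 ∧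
    N - (4 * s + 4) ≤ m ^ 2 - t ^ 2 ∧ m ^ 2 - t ^ 2 < N := by
  obtain ⟨w, hw0, hw1, hw2⟩ := isq (N - 1) (by omega)
  obtain ⟨s, hs0, hs1, hs2⟩ := isq ((w + 1) ^ 2 - N) (by omega)
  rcases Int.even_or_odd (w + 1 + (s + 1)) with he | ho
  · refine ⟨w + 1, s + 2, s, hs0, by omega, le_rfl, by nlinarith, ?_, by omega, ?_, by omega, ?_,
      ?_⟩
    · obtain ⟨c, hc⟩ := he
      exact ⟨c, by omega⟩
    · have : w + 1 - 1 = w := by ring
      rw [this]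
      omega
    · nlinarith
    · nlinarith
  · refine ⟨w + 1, s + 1, s, hs0, le_rfl, by omega, by nlinarith, ho, by omega, ?_, by omega, ?_,
      ?_⟩
    · have : w + 1 - 1 = w := by ring
      rw [this]
      omega
    · nlinarith
    · nlinarith

end Pool.Agent.SQ.H80
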