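import Pool.Agent.Helper80_SQ.Data
import Pool.Agent.Helper80_SQ.Final

/-!
MP_5f6ee5_nt. Part 3: small `K`, and the theorem.
-/

namespace Pool.Agent.SQ.H80

open ArithmeticFunction

theorem isP_prime {p : ℕ} (h : isP p = true) : p.Prime := by
  simp only [isP, Bool.and_eq_true, Bool.or_eq_true, Nat.ble_eq, Nat.beq_eq] at h
  obtain ⟨⟨⟨⟨⟨⟨⟨⟨⟨⟨h1, h2⟩, h3⟩, h4⟩, h5⟩, h6⟩, h7⟩, h8⟩, h9⟩, h10⟩, h11⟩ := h
  by_contra hp
  have hq := Nat.minFac_prime (n := p) (by omega)
  have hd := Nat.minFac_dvd p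
  have hs := Nat.minFac_sq_le_self (by omega) hp
  have hq28 : p.minFac ≤ 28 := by
    by_contra hc
    have h29 : 29 ≤ p.minFac := by omega
    have : 29 ^ 2 ≤ p.minFac ^ 2 := Nat.pow_le_pow_left h29 2
    omega
  have hq2 := hq.two_le
  generalize p.minFac = q at hq hd hs hq28 hq2
  interval_cases q <;> first | omega | (exact absurd hq (by norm_num))

theorem pr_spec (l : List ℕ) (h : l.all isP = true) :
    pr l ≠ 0 ∧ cardFactors (pr l) = l.length := by
  induction l with
  | nil => exact ⟨one_ne_zero, by simp [pr]⟩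
  | cons a l ih =>
    rw [List.all_cons, Bool.and_eq_true] at h
    obtain ⟨h1, h2⟩ := ih h.2
    have hp := isP_prime h.1
    refine ⟨mul_ne_zero hp.ne_zero h1, ?_⟩
    show cardFactors (a * pr l) = _
    rw [cardFactors_mul hp.ne_zero h1, h2, cardFactors_apply_prime hp, List.length_cons]
    omega

/-- `c` and `c + 2` are odd and `Omega` has different parity at them. -/
def Good (c : ℕ) : Prop := c % 2 = 1 ∧ (cardFactors c + cardFactors (c + 2)) % 2 = 1

theorem test_spec {a c : ℕ} {l1 l2 : List ℕ} (h : test a c l1 l2 = true) (hc : c = pr l1) :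
    Good c ∧ a ≤ c ∧ (c - a) * (c - a) + 8 ≤ 8 * a := by
  simp only [test, Bool.and_eq_true, Nat.ble_eq, Nat.beq_eq] at h
  obtain ⟨⟨⟨⟨⟨⟨h1, h2⟩, h3⟩, h4⟩, h5⟩, h6⟩, h7⟩ := h
  refine ⟨⟨h5, ?_⟩, h6, h7⟩
  rw [← h1, hc, (pr_spec l1 h2).2, (pr_spec l2 h3).2]
  exact h4

/-- A covering property. -/
def Cov (a b : ℕ) : Prop :=
  a ≤ b ∧ Good b ∧ ∀ K : ℤ, (a : ℤ) ≤ K → K ≤ b → ∃ c : ℕ, Good c ∧ ((c : ℤ) - K) ^ 2 + 2 ≤ 2 * K

theorem cov_refl {a : ℕ} (h : Good a) : Cov a a := by
  refine ⟨le_rfl, h, fun K h1 h2 => ⟨a, h, ?_⟩⟩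
  have : K = a := by omega
  have h3 := h.1
  subst this
  have : (1 : ℤ) ≤ (a : ℤ) := by omega
  nlinarith

theorem cov_trans {a b c : ℕ} (h1 : Cov a b) (h2 : Cov b c) : Cov a c := by
  refine ⟨h1.1.trans h2.1, h2.2.1, fun K h3 h4 => ?_⟩
  rcases le_total K b with h5 | h5
  · exact h1.2.2 K h3 h5
  · exact h2.2.2 K h5 h4

theorem cov_step {a c : ℕ} (ha : Good a) (hc : Good c) (h1 : a ≤ c)
    (h2 : (c - a) * (c - a) + 8 ≤ 8 * a) : Cov a c := by
  refine ⟨h1, hc, fun K h3 h4 => ?_⟩
  have h5 : ((c : ℤ) - a) * (c - a) + 8 ≤ 8 * a := by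
    have h6 : ((c - a : ℕ) : ℤ) = (c : ℤ) - a := by
      rw [Nat.cast_sub h1]
    rw [← h6]
    exact_mod_cast h2
  rcases le_total (K - a) (c - K) with h6 | h6
  · exact ⟨a, ha, by nlinarith⟩
  · exact ⟨c, hc, by nlinarith⟩

theorem run_spec (L : List (List ℕ × List ℕ)) : ∀ a : ℕ, Good a → run a L ≠ 0 →
    Cov a (run a L) := by
  induction L with
  | nil => intro a ha _; exact cov_refl ha
  | cons p L ih =>
    obtain ⟨l1, l2⟩ := p
    intro a ha h
    have e : run a ((l1, l2) :: L) = bif test a (pr l1) l1 l2 then run (pr l1) L else 0 := rfl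
    rw [e] at h ⊢
    cases ht : test a (pr l1) l1 l2 with
    | false => rw [ht] at h; exact absurd rfl h
    | true =>
      rw [ht] at h
      obtain ⟨h1, h2, h3⟩ := test_spec ht rfl
      exact cov_trans (cov_step ha h1 h2 h3) (ih _ h1 h)

theorem good7 : Good 7 := by
  refine ⟨rfl, ?_⟩
  have h1 : cardFactors 7 = 1 := cardFactors_apply_prime (by norm_num)
  have h2 : cardFactors (7 + 2) = 2 := by
    have : (7 + 2 : ℕ) = 3 * 3 := rfl
    rw [this, cardFactors_mul (by norm_num) (by norm_num),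
      cardFactors_apply_prime (by norm_num)]
  rw [h1, h2]

theorem cov0 : Cov 7 17639 := by
  have h := run_spec D0 7 good7 (by rw [run0]; norm_num)
  rwa [run0] at h

theorem cov1 : Cov 17639 72237 := by
  have h := run_spec D1 17639 cov0.2.1 (by rw [run1]; norm_num)
  rwa [run1] at h

theorem cov2 : Cov 72237 163609 := by
  have h := run_spec D2 72237 cov1.2.1 (by rw [run2]; norm_num)
  rwa [run2] at h

theorem cov3 : Cov 163609 293083 := by
  have h := run_spec D3 163609 cov2.2.1 (by rw [run3]; norm_num)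
  rwa [run3] at h

theorem cov4 : Cov 293083 459195 := by
  have h := run_spec D4 293083 cov3.2.1 (by rw [run4]; norm_num)
  rwa [run4] at h

theorem cov5 : Cov 459195 661789 := by
  have h := run_spec D5 459195 cov4.2.1 (by rw [run5]; norm_num)
  rwa [run5] at h

theorem cov6 : Cov 661789 901301 := by
  have h := run_spec D6 661789 cov5.2.1 (by rw [run6]; norm_num)
  rwa [run6] at h

theorem cov7 : Cov 901301 1177853 := by
  have h := run_spec D7 901301 cov6.2.1 (by rw [run7]; norm_num)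
  rwa [run7] at h

theorem cov8 : Cov 1177853 1493485 := by
  have h := run_spec D8 1177853 cov7.2.1 (by rw [run8]; norm_num)
  rwa [run8] at h

theorem cov9 : Cov 1493485 1844485 := by
  have h := run_spec D9 1493485 cov8.2.1 (by rw [run9]; norm_num)
  rwa [run9] at h

theorem cov10 : Cov 1844485 2233725 := by
  have h := run_spec D10 1844485 cov9.2.1 (by rw [run10]; norm_num)
  rwa [run10] at h

theorem cov11 : Cov 2233725 2661225 := by
  have h := run_spec D11 2233725 cov10.2.1 (by rw [run11]; norm_num)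
  rwa [run11] at h

theorem cov12 : Cov 2661225 3121937 := by
  have h := run_spec D12 2661225 cov11.2.1 (by rw [run12]; norm_num)
  rwa [run12] at h

theorem cov13 : Cov 3121937 3620287 := by
  have h := run_spec D13 3121937 cov12.2.1 (by rw [run13]; norm_num)
  rwa [run13] at h

theorem cov14 : Cov 3620287 4155775 := by
  have h := run_spec D14 3620287 cov13.2.1 (by rw [run14]; norm_num)
  rwa [run14] at h

theorem cov15 : Cov 4155775 4729375 := by
  have h := run_spec D15 4155775 cov14.2.1 (by rw [run15]; norm_num)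
  rwa [run15] at h

theorem cov16 : Cov 4729375 5341453 := by
  have h := run_spec D16 4729375 cov15.2.1 (by rw [run16]; norm_num)
  rwa [run16] at h

theorem cov17 : Cov 5341453 5775923 := by
  have h := run_spec D17 5341453 cov16.2.1 (by rw [run17]; norm_num)
  rwa [run17] at h

theorem cover : Cov 7 5775923 := by
  have h0 := cov0
  have h1 := cov_trans h0 cov1
  have h2 := cov_trans h1 cov2
  have h3 := cov_trans h2 cov3
  have h4 := cov_trans h3 cov4
  have h5 := cov_trans h4 cov5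
  have h6 := cov_trans h5 cov6
  have h7 := cov_trans h6 cov7
  have h8 := cov_trans h7 cov8
  have h9 := cov_trans h8 cov9
  have h10 := cov_trans h9 cov10
  have h11 := cov_trans h10 cov11
  have h12 := cov_trans h11 cov12
  have h13 := cov_trans h12 cov13
  have h14 := cov_trans h13 cov14
  have h15 := cov_trans h14 cov15
  have h16 := cov_trans h15 cov16
  have h17 := cov_trans h16 cov17
  exact h17

theorem cstep {g : ℤ → ZMod 2} {K : ℤ} (h : Hyp g K) {x : ℤ} (hx : Odd x)
    (h1 : x ^ 2 + 2 ≤ 2 * K) : g (K + x) = g (K + x + 2) := by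
  have e1 : Odd (K + x) := h.even.add_odd hx
  have e2 : Odd (K + x + 2) := by
    obtain ⟨c, hc⟩ := e1
    exact ⟨c + 1, by omega⟩
  have e3 : Odd (K - x) := h.even.sub_odd hx
  have hK := h.big
  by_cases hx1 : x = -1
  · subst hx1
    exact edge h e1 e2 (by nlinarith) (by nlinarith)
  · have h2 : 0 < (x + 1) ^ 2 := by
      have : x + 1 ≠ 0 := by omega
      positivity
    exact (edge h e1 e3 (by nlinarith) (by nlinarith)).trans
      (edge h e2 e3 (by nlinarith [sq_nonneg (x - 1)]) (by nlinarith)).symm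

/-- The parity of `Omega`. -/
noncomputable def gO (n : ℤ) : ZMod 2 := ((cardFactors n.natAbs : ℕ) : ZMod 2)

theorem hyp_gO {k : ℕ} (hk : 1 ≤ k)
    (h : ∀ n : ℕ, (2 * k - 1) ^ 2 < n → n < (2 * k + 1) ^ 2 → Odd n → ¬ Odd (cardFactors n)) :
    Hyp gO (2 * (k : ℤ)) := by
  refine ⟨?_, even_two_mul _, by omega, ?_⟩
  · intro m n hm hn
    show ((cardFactors (m * n).natAbs : ℕ) : ZMod 2) = _
    rw [Int.natAbs_mul, cardFactors_mul (Int.natAbs_ne_zero.2 hm) (Int.natAbs_ne_zero.2 hn)]
    push_cast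
    rfl
  · intro n hn h1 h2
    have hn0 : 0 ≤ n := le_trans (sq_nonneg _) h1.le
    obtain ⟨m, rfl⟩ := Int.eq_ofNat_of_zero_le hn0
    show ((cardFactors (m : ℤ).natAbs : ℕ) : ZMod 2) = 0
    rw [Int.natAbs_natCast]
    have h3 : (2 * k - 1) ^ 2 < m := by
      have : (((2 * k - 1) ^ 2 : ℕ) : ℤ) < (m : ℤ) := by
        rw [Nat.cast_pow, Nat.cast_sub (by omega)]
        push_cast
        exact h1
      exact_mod_cast this
    have h4 : m < (2 * k + 1) ^ 2 := by exact_mod_cast h2
    have h5 : Odd m := by exact_mod_cast hn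
    have h6 := h m h3 h4 h5
    rw [Nat.not_odd_iff_even] at h6
    exact (ZMod.natCast_eq_zero_iff_even).2 h6

theorem gO_three : gO 3 = 1 := by
  show ((cardFactors (3 : ℤ).natAbs : ℕ) : ZMod 2) = 1
  have : (3 : ℤ).natAbs = 3 := rfl
  rw [this, cardFactors_apply_prime (by norm_num)]
  rfl

theorem main (k : ℕ) (hk : 1 ≤ k) : ∃ n : ℕ, (2 * k - 1) ^ 2 < n ∧ n < (2 * k + 1) ^ 2 ∧
    Odd n ∧ Odd (cardFactors n) := by
  by_contra hcon
  push Not at hcon
  have hcon' : ∀ n : ℕ, (2 * k - 1) ^ 2 < n → n < (2 * k + 1) ^ 2 → Odd n →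
      ¬ Odd (cardFactors n) := by
    intro n h1 h2 h3 h4
    exact hcon n h1 h2 h3 h4
  have H := hyp_gO hk hcon'
  rcases le_or_gt 2880000 k with hbig | hsmall
  · obtain ⟨Z, hZ0, hZ1, hZ2⟩ := isq (2 * (k : ℤ)) (by omega)
    have hZ : 2400 ≤ Z := by
      by_contra hc
      push Not at hc
      have : (Z + 1) ^ 2 ≤ 2400 ^ 2 := by
        have h3 : Z + 1 ≤ 2400 := by omega
        nlinarith
      have h4 : (2880000 : ℤ) ≤ k := by exact_mod_cast hbig
      nlinarith
    have := large H hZ hZ1 hZ2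
    rw [gO_three] at this
    exact one_ne_zero this
  · rcases le_or_gt 4 k with h4 | h4
    · obtain ⟨c, hc, hc2⟩ := cover.2.2 (2 * (k : ℤ)) (by push_cast; omega) (by push_cast; omega)
      have hodd : Odd ((c : ℤ) - 2 * k) := by
        have h5 := hc.1
        refine ⟨((c : ℤ) - 2 * k) / 2, ?_⟩
        omega
      have h6 := cstep H hodd hc2
      have e1 : 2 * (k : ℤ) + ((c : ℤ) - 2 * k) = (c : ℤ) := by ring
      have e2 : 2 * (k : ℤ) + ((c : ℤ) - 2 * k) + 2 = ((c + 2 : ℕ) : ℤ) := by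
        push_cast
        ring
      rw [e2, e1] at h6
      have h7 : ((cardFactors c : ℕ) : ZMod 2) = ((cardFactors (c + 2) : ℕ) : ZMod 2) := h6
      rw [ZMod.natCast_eq_natCast_iff] at h7
      have h8 := hc.2
      unfold Nat.ModEq at h7
      omega
    · have h5 : k = 1 ∨ k = 2 ∨ k = 3 := by omega
      rcases h5 with rfl | rfl | rfl
      · exact hcon' 3 (by norm_num) (by norm_num) (by decide)
          (by rw [cardFactors_apply_prime (by norm_num)]; exact odd_one)
      · exact hcon' 11 (by norm_num) (by norm_num) (by decide)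
          (by rw [cardFactors_apply_prime (by norm_num)]; exact odd_one)
      · exact hcon' 29 (by norm_num) (by norm_num) (by decide)
          (by rw [cardFactors_apply_prime (by norm_num)]; exact odd_one)

end Pool.Agent.SQ.H80
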