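import Pool.Agent.Helper80_SQ.Large

/-!
MP_5f6ee5_nt, at least TWO odd integers with an odd number of prime factors. Large `K`: base
lemmas. `ν` describes the possible exceptional number: an edge between `K - b` and `K + b + 2 c` is
allowed unless `b (b + 2 c)` is `ν` or `ν + 4 K`.
-/

namespace Pool.Agent.SQ.H80

structure H2 (g : ℤ → ZMod 2) (K Z ν : ℤ) : Prop where
  mul : ∀ m n : ℤ, m ≠ 0 → n ≠ 0 → g (m * n) = g m + g n
  even : Even K
  hZ : 12000 ≤ Z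
  hK1 : Z ^ 2 ≤ K
  hK2 : K < (Z + 1) ^ 2
  nu0 : 0 < ν
  nu1 : ν < 4 * K
  g79 : g 79 ≠ g 81
  edge : ∀ b c : ℤ, Odd b → 1 ≤ b → 0 ≤ c → c ≤ 4 → 2 * K * (c - 1) - 1 < b * (b + 2 * c) →
    b * (b + 2 * c) < 2 * K * (c + 1) - 1 → b * (b + 2 * c) < 8 * K → b * (b + 2 * c) ≠ ν →
    b * (b + 2 * c) ≠ ν + 4 * K → g (K - b) = g (K + b + 2 * c)

variable {g : ℤ → ZMod 2} {K Z ν : ℤ}

/-- The flip which can occur in segment `r`. -/
def NuR (K ν r ν' : ℤ) : Prop := (0 ≤ r ∧ r ≤ 1 ∧ ν' = ν) ∨ (2 ≤ r ∧ r ≤ 3 ∧ ν' = ν + 4 * K)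

theorem vstep2 (h : H2 g K Z ν) {b r ν' : ℤ} (hr : NuR K ν r ν') (hb : Odd b) (hb1 : 1 ≤ b)
    (h1 : 2 * K * r ≤ b * (b + 2 * r + 2)) (h2 : (b + 2) * (b + 2 * r + 2) ≤ 2 * K * (r + 1) - 2)
    (h3 : b * (b + 2 * r + 2) ≠ ν') (h4 : (b + 2) * (b + 2 * r + 2) ≠ ν') :
    g (K - b) = g (K - (b + 2)) := by
  have hK : 0 < K := by
    have := h.hK1
    have := h.hZ
    nlinarith
  have n0 := h.nu0
  have n1 := h.nu1
  have r0 : 0 ≤ r := by rcases hr with h | h <;> omega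
  have r3 : r ≤ 3 := by rcases hr with h | h <;> omega
  have e1 : b * (b + 2 * (r + 1)) = b * (b + 2 * r + 2) := by ring
  have e2 : (b + 2) * (b + 2 + 2 * r) = (b + 2) * (b + 2 * r + 2) := by ring
  have hb2 : Odd (b + 2) := by
    obtain ⟨c, hc⟩ := hb
    exact ⟨c + 1, by omega⟩
  have m1 : b * (b + 2 * r + 2) ≤ (b + 2) * (b + 2 * r + 2) := by nlinarith
  have u8 : 2 * K * (r + 1) ≤ 8 * K := by nlinarith
  have l0 : 2 * K * (r - 1) < 2 * K * r := by nlinarith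
  have l1 : 2 * K * r < 2 * K * (r + 1) := by nlinarith
  have l2 : 2 * K * (r + 1) < 2 * K * (r + 2) := by nlinarith
  have ne1 : ∀ P : ℤ, 2 * K * r ≤ P → P ≤ 2 * K * (r + 1) - 2 → P ≠ ν' → P ≠ ν ∧ P ≠ ν + 4 * K := by
    intro P hP1 hP2 hP3
    rcases hr with ⟨_, hr1, rfl⟩ | ⟨hr2, _, rfl⟩
    · refine ⟨hP3, ?_⟩
      have : 2 * K * (r + 1) ≤ 4 * K := by nlinarith
      omega
    · refine ⟨?_, hP3⟩
      have : 4 * K ≤ 2 * K * r := by nlinarith
      omega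
  obtain ⟨a1, a2⟩ := ne1 _ h1 (by omega) h3
  obtain ⟨a3, a4⟩ := ne1 _ (by omega) h2 h4
  have f1 := h.edge b (r + 1) hb hb1 (by omega) (by omega)
    (by rw [e1]; have : r + 1 - 1 = r := by ring
        rw [this]; omega)
    (by rw [e1]; have : r + 1 + 1 = r + 2 := by ring
        rw [this]; omega)
    (by rw [e1]; omega) (by rw [e1]; exact a1) (by rw [e1]; exact a2)
  have f2 := h.edge (b + 2) r hb2 (by omega) r0 (by omega) (by rw [e2]; omega)
    (by rw [e2]; omega) (by rw [e2]; omega) (by rw [e2]; exact a3) (by rw [e2]; exact a4)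
  rw [f1, f2]
  congr 1
  ring

theorem vseg2 (h : H2 g K Z ν) {r ν' : ℤ} (hr : NuR K ν r ν') (b : ℤ) (hb : Odd b) (hb1 : 1 ≤ b)
    (h1 : 2 * K * r ≤ b * (b + 2 * r + 2)) (j : ℕ) :
    (b + 2 * j) * (b + 2 * j + 2 * r) ≤ 2 * K * (r + 1) - 2 →
    (ν' < b * (b + 2 * r + 2) ∨ (b + 2 * j) * (b + 2 * j + 2 * r) < ν') →
    g (K - b) = g (K - (b + 2 * j)) := by
  have r0 : 0 ≤ r := by rcases hr with h | h <;> omega
  induction j with
  | zero => intro _ _; simp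
  | succ j ih =>
    intro h2 hav
    push_cast at h2 hav ⊢
    have hj : (0 : ℤ) ≤ j := Int.natCast_nonneg j
    have e3 : (b + 2 * ((j : ℤ) + 1)) * (b + 2 * ((j : ℤ) + 1) + 2 * r)
      = (b + 2 * (j : ℤ) + 2) * (b + 2 * j + 2 * r + 2) := by ring
    rw [e3] at h2 hav
    have m1 : (b + 2 * (j : ℤ)) * (b + 2 * j + 2 * r) ≤
        (b + 2 * (j : ℤ) + 2) * (b + 2 * j + 2 * r + 2) := by nlinarith
    have m2 : (b + 2 * (j : ℤ)) * (b + 2 * j + 2 * r + 2) ≤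
        (b + 2 * (j : ℤ) + 2) * (b + 2 * j + 2 * r + 2) := by nlinarith
    have m3 : b * (b + 2 * r + 2) ≤ (b + 2 * (j : ℤ)) * (b + 2 * j + 2 * r + 2) := by
      nlinarith [mul_nonneg hj r0, mul_nonneg hj hj, mul_nonneg hj (by omega : (0 : ℤ) ≤ b)]
    rw [ih (by omega) (by rcases hav with h | h <;> omega)]
    have hb' : Odd (b + 2 * (j : ℤ)) := by
      obtain ⟨c, hc⟩ := hb
      exact ⟨c + j, by omega⟩
    have h5 := vstep2 h hr hb' (by omega) (by omega) h2 (by rcases hav with h | h <;> omega)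
      (by rcases hav with h | h <;> omega)
    rw [h5]
    congr 1
    ring

/-- Key inequalities for `x` in a piece of segment `r`. -/
def Key (K r ν' x : ℤ) : Prop :=
  (r = 0 ∨ 2 * K * r ≤ (x - 2 * r) * x) ∧ x * (x + 2 * r) ≤ 2 * K * (r + 1) - 2

theorem pair2 (h : H2 g K Z ν) {r ν' x y : ℤ} (hr : NuR K ν r ν') (hx : Odd x) (hy : Odd y)
    (hx1 : 1 ≤ x) (hxy : x ≤ y) (kx : r = 0 ∨ 2 * K * r ≤ (x - 2 * r) * x)
    (ky : y * (y + 2 * r) ≤ 2 * K * (r + 1) - 2)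
    (hav : ν' < (x - 2 * r) * x ∨ y * (y + 2 * r) < ν') : g (K - x) = g (K - y) := by
  have r0 : 0 ≤ r := by rcases hr with h | h <;> omega
  obtain ⟨a, ha⟩ := hx
  obtain ⟨b, hb⟩ := hy
  obtain ⟨j, hj⟩ := Int.eq_ofNat_of_zero_le (by omega : 0 ≤ b - a)
  have e : y = x + 2 * (j : ℤ) := by omega
  rw [e] at ky hav ⊢
  have m : (x - 2 * r) * x ≤ x * (x + 2 * r + 2) := by nlinarith
  refine vseg2 h hr x ⟨a, ha⟩ hx1 ?_ j ky ?_
  · rcases kx with rfl | kx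
    · nlinarith
    · omega
  · rcases hav with h | h
    · left; omega
    · right; exact h

theorem mirror2 (h : H2 g K Z ν) {r ν' x : ℤ} (hr : NuR K ν r ν') (hx : Odd x)
    (hx1 : 1 ≤ x) (hx2 : r = 0 ∨ 2 * r < x) (hxK : x ≤ K)
    (kx : r = 0 ∨ 2 * K * r ≤ (x - 2 * r) * x)
    (kx' : r = 0 ∨ 2 * K * r ≤ (x - 2 * r - 2 * r) * (x - 2 * r))
    (ky : x * (x + 2 * r) ≤ 2 * K * (r + 1) - 2)
    (hav : ν' < (x - 2 * r - 2 * r) * (x - 2 * r) ∨ x * (x + 2 * r) < ν') :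
    g (K + x) = g (K - x) := by
  have hK : 0 < K := by
    have := h.hK1
    have := h.hZ
    nlinarith
  have n0 := h.nu0
  have n1 := h.nu1
  have r0 : 0 ≤ r := by rcases hr with h | h <;> omega
  have r3 : r ≤ 3 := by rcases hr with h | h <;> omega
  have hb1 : 1 ≤ x - 2 * r := by rcases hx2 with h | h <;> omega
  have hbo : Odd (x - 2 * r) := by
    obtain ⟨c, hc⟩ := hx
    exact ⟨c - r, by omega⟩
  have e : (x - 2 * r) * (x - 2 * r + 2 * r) = (x - 2 * r) * x := by ring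
  have m1 : (x - 2 * r) * x ≤ x * (x + 2 * r) := by nlinarith
  have m2 : (x - 2 * r - 2 * r) * (x - 2 * r) ≤ (x - 2 * r) * x := by nlinarith
  have l0 : 2 * K * (r - 1) < 2 * K * r := by nlinarith
  have u8 : 2 * K * (r + 1) ≤ 8 * K := by nlinarith
  have hP1 : 2 * K * r ≤ (x - 2 * r) * x ∨ r = 0 := by tauto
  have hne : (x - 2 * r) * x ≠ ν ∧ (x - 2 * r) * x ≠ ν + 4 * K := by
    have hne' : (x - 2 * r) * x ≠ ν' := by rcases hav with h | h <;> omega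
    rcases hr with ⟨_, hr1, rfl⟩ | ⟨hr2, _, rfl⟩
    · refine ⟨hne', ?_⟩
      have : 2 * K * (r + 1) ≤ 4 * K := by nlinarith
      omega
    · refine ⟨?_, hne'⟩
      have : 4 * K ≤ 2 * K * r := by nlinarith
      rcases hP1 with h | h <;> omega
  have f := h.edge (x - 2 * r) r hbo hb1 r0 (by omega)
    (by
      rw [e]
      rcases hP1 with h | h
      · omega
      · subst h
        nlinarith)
    (by rw [e]; omega) (by rw [e]; omega) (by rw [e]; exact hne.1) (by rw [e]; exact hne.2)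
  have f2 := pair2 h hr hbo hx hb1 (by omega) kx' ky hav
  have e2 : K + (x - 2 * r) + 2 * r = K + x := by ring
  rw [e2] at f
  rw [← f, f2]

end Pool.Agent.SQ.H80
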