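import Pool.Agent.Helper80_SQ.Two

/-!
MP_5f6ee5_nt, TWO, large `K`: pieces. Positions are in units `Z / 1000`.
-/

namespace Pool.Agent.SQ.H80

variable {g : ℤ → ZMod 2} {K Z ν : ℤ}

theorem kx_of (h : H2 g K Z ν) {r α x : ℤ} (hr : 0 ≤ r) (hr3 : r ≤ 3) (h8 : 800 * r ≤ α)
    (hα : 2 * r * 1000000 ≤ (α - 2) ^ 2) (hx : α * Z ≤ 1000 * x) (hx2 : 1000 * x ≤ 2826 * Z) :
    r = 0 ∨ 2 * K * r ≤ (x - 2 * r - 2 * r) * (x - 2 * r) := by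
  have hZ := h.hZ
  have hK2 := h.hK2
  rcases eq_or_lt_of_le hr with h0 | h0
  · left; exact h0.symm
  right
  have p1 : 0 ≤ α * Z := mul_nonneg (by omega) (by omega)
  have p2 : (α * Z) ^ 2 ≤ (1000 * x) ^ 2 := pow_le_pow_left₀ p1 hx 2
  have p3 : 2 * r * 1000000 * Z ^ 2 ≤ (α - 2) ^ 2 * Z ^ 2 :=
    mul_le_mul_of_nonneg_right hα (sq_nonneg Z)
  have p4 : 800 * r * Z ^ 2 ≤ α * Z ^ 2 := mul_le_mul_of_nonneg_right h8 (sq_nonneg Z)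
  have p5 : 12000 * Z ≤ Z ^ 2 := by nlinarith
  have hr' : r = 1 ∨ r = 2 ∨ r = 3 := by omega
  rcases hr' with rfl | rfl | rfl
  · nlinarith
  · nlinarith
  · nlinarith

theorem ky_of (h : H2 g K Z ν) {r β y : ℤ} (hr : 0 ≤ r) (hr3 : r ≤ 3) (hβ0 : 0 ≤ β)
    (hβ : (β + 2) ^ 2 ≤ 2 * (r + 1) * 1000000) (hy0 : 0 ≤ y) (hy : 1000 * y ≤ β * Z) :
    y * (y + 2 * r) ≤ 2 * K * (r + 1) - 2 := by
  have hZ := h.hZ
  have hK1 := h.hK1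
  have p2 : (1000 * y) ^ 2 ≤ (β * Z) ^ 2 := pow_le_pow_left₀ (by omega) hy 2
  have p3 : (β + 2) ^ 2 * Z ^ 2 ≤ 2 * (r + 1) * 1000000 * Z ^ 2 :=
    mul_le_mul_of_nonneg_right hβ (sq_nonneg Z)
  have p5 : 12000 * Z ≤ Z ^ 2 := by nlinarith
  have p6 : β * (12000 * Z) ≤ β * Z ^ 2 := mul_le_mul_of_nonneg_left p5 hβ0
  have hr' : r = 0 ∨ r = 1 ∨ r = 2 ∨ r = 3 := by omega
  rcases hr' with rfl | rfl | rfl | rfl
  · nlinarith
  · nlinarith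
  · nlinarith
  · nlinarith

theorem below_of (h : H2 g K Z ν) {r β y ν' : ℤ} (hr : 0 ≤ r) (hr3 : r ≤ 3) (hβ0 : 0 ≤ β)
    (hf : (β + 2) ^ 2 * K ≤ 1000000 * ν') (hy0 : 0 ≤ y) (hy : 1000 * y ≤ β * Z) :
    y * (y + 2 * r) < ν' := by
  have hZ := h.hZ
  have hK1 := h.hK1
  have p2 : (1000 * y) ^ 2 ≤ (β * Z) ^ 2 := pow_le_pow_left₀ (by omega) hy 2
  have p3 : (β + 2) ^ 2 * Z ^ 2 ≤ (β + 2) ^ 2 * K := mul_le_mul_of_nonneg_left hK1 (sq_nonneg _)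
  have p5 : 12000 * Z ≤ Z ^ 2 := by nlinarith
  have p6 : β * (12000 * Z) ≤ β * Z ^ 2 := mul_le_mul_of_nonneg_left p5 hβ0
  have hr' : r = 0 ∨ r = 1 ∨ r = 2 ∨ r = 3 := by omega
  rcases hr' with rfl | rfl | rfl | rfl
  · nlinarith
  · nlinarith
  · nlinarith
  · nlinarith

theorem above_of (h : H2 g K Z ν) {r α x ν' : ℤ} (hr : 0 ≤ r) (hr3 : r ≤ 3) (h8 : 800 * r ≤ α)
    (h2 : 2 ≤ α) (hα4 : α ≤ 2826)
    (hf : 1000000 * ν' ≤ (α - 2) ^ 2 * K) (hx : α * Z ≤ 1000 * x) (hx2 : 1000 * x ≤ 2826 * Z) :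
    ν' < (x - 2 * r - 2 * r) * (x - 2 * r) := by
  have hZ := h.hZ
  have hK2 := h.hK2
  have p1 : 0 ≤ α * Z := mul_nonneg (by omega) (by omega)
  have p2 : (α * Z) ^ 2 ≤ (1000 * x) ^ 2 := pow_le_pow_left₀ p1 hx 2
  have p3 : (α - 2) ^ 2 * K ≤ (α - 2) ^ 2 * (Z ^ 2 + 2 * Z) :=
    mul_le_mul_of_nonneg_left (by nlinarith) (sq_nonneg _)
  have p5 : 12000 * Z ≤ Z ^ 2 := by nlinarith
  have p6 : 2 * (α - 2) ^ 2 ≤ 48000 * (α - 1) - 17000000 * r - 1 := by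
    have hr' : r = 0 ∨ r = 1 ∨ r = 2 ∨ r = 3 := by omega
    rcases hr' with rfl | rfl | rfl | rfl <;> nlinarith
  have p7 : (2 * (α - 2) ^ 2) * Z ≤ (48000 * (α - 1) - 17000000 * r - 1) * Z :=
    mul_le_mul_of_nonneg_right p6 (by omega)
  have p8 : 4 * (α - 1) * (12000 * Z) ≤ 4 * (α - 1) * Z ^ 2 :=
    mul_le_mul_of_nonneg_left p5 (by omega)
  have hr' : r = 0 ∨ r = 1 ∨ r = 2 ∨ r = 3 := by omega
  rcases hr' with rfl | rfl | rfl | rfl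
  · nlinarith
  · nlinarith
  · nlinarith
  · nlinarith

/-- Constant value `s` on all odd `K + X` with `lo Z <= 1000 X <= hi Z`. -/
def Cn (g : ℤ → ZMod 2) (K Z lo hi : ℤ) (s : ZMod 2) : Prop :=
  ∀ X : ℤ, Odd X → lo * Z ≤ 1000 * X → 1000 * X ≤ hi * Z → g (K + X) = s

/-- Both sides of `K`. -/
def Cp (g : ℤ → ZMod 2) (K Z α β : ℤ) (s : ZMod 2) : Prop :=
  ∀ x : ℤ, Odd x → 1 ≤ x → α * Z ≤ 1000 * x → 1000 * x ≤ β * Z → g (K - x) = s ∧ g (K + x) = s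

theorem piece (h : H2 g K Z ν) {r ν' α β : ℤ} (hr : NuR K ν r ν') (h8 : 800 * r ≤ α)
    (hα : 2 * r * 1000000 ≤ (α - 2) ^ 2) (hβ0 : 0 ≤ β) (hβ4 : β ≤ 2826)
    (hβ : (β + 2) ^ 2 ≤ 2 * (r + 1) * 1000000)
    (hf : (β + 2) ^ 2 * K ≤ 1000000 * ν' ∨
      (2 ≤ α ∧ α ≤ 2826 ∧ 1000000 * ν' ≤ (α - 2) ^ 2 * K)) :
    ∃ s, Cp g K Z α β s := by
  have hZ := h.hZ
  have hK1 := h.hK1
  have r0 : 0 ≤ r := by rcases hr with h | h <;> omega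
  have r3 : r ≤ 3 := by rcases hr with h | h <;> omega
  have hβZ : β * Z ≤ 2826 * Z := mul_le_mul_of_nonneg_right hβ4 (by omega)
  have h8Z : 800 * r * Z ≤ α * Z := mul_le_mul_of_nonneg_right h8 (by omega)
  have key : ∀ x : ℤ, Odd x → 1 ≤ x → α * Z ≤ 1000 * x → 1000 * x ≤ β * Z →
      (r = 0 ∨ 2 * K * r ≤ (x - 2 * r - 2 * r) * (x - 2 * r)) ∧
      (r = 0 ∨ 2 * r + 2 * r < x) := by
    intro x hx hx1 hxa hxb
    refine ⟨kx_of h r0 r3 h8 hα hxa (by omega), ?_⟩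
    have hr' : r = 0 ∨ r = 1 ∨ r = 2 ∨ r = 3 := by omega
    rcases hr' with rfl | rfl | rfl | rfl <;> omega
  have kk : ∀ x : ℤ, (r = 0 ∨ 2 * K * r ≤ (x - 2 * r - 2 * r) * (x - 2 * r)) →
      (r = 0 ∨ 2 * r + 2 * r < x) → (r = 0 ∨ 2 * K * r ≤ (x - 2 * r) * x) := by
    intro x h1 h2
    rcases h1 with h1 | h1
    · left; exact h1
    · rcases h2 with h2 | h2
      · left; exact h2
      · right; nlinarith
  have pr : ∀ x y : ℤ, Odd x → Odd y → 1 ≤ x → x ≤ y → α * Z ≤ 1000 * x → 1000 * y ≤ β * Z →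
      g (K - x) = g (K - y) := by
    intro x y hx hy hx1 hxy hxa hyb
    obtain ⟨k1, k2⟩ := key x hx hx1 hxa (by omega)
    refine pair2 h hr hx hy hx1 hxy (kk x k1 k2) (ky_of h r0 r3 hβ0 hβ (by omega) hyb) ?_
    rcases hf with hf | ⟨ha2, ha4, hf⟩
    · right
      exact below_of h r0 r3 hβ0 hf (by omega) hyb
    · left
      have := above_of h r0 r3 h8 ha2 ha4 hf hxa (by omega)
      rcases k2 with rfl | k2
      · nlinarith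
      · nlinarith
  have mi : ∀ x : ℤ, Odd x → 1 ≤ x → α * Z ≤ 1000 * x → 1000 * x ≤ β * Z →
      g (K + x) = g (K - x) := by
    intro x hx hx1 hxa hxb
    obtain ⟨k1, k2⟩ := key x hx hx1 hxa hxb
    refine mirror2 h hr hx hx1 (by rcases k2 with h | h <;> omega) (by nlinarith) (kk x k1 k2) k1
      (ky_of h r0 r3 hβ0 hβ (by omega) hxb) ?_
    rcases hf with hf | ⟨ha2, ha4, hf⟩
    · right
      exact below_of h r0 r3 hβ0 hf (by omega) hxb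
    · left
      exact above_of h r0 r3 h8 ha2 ha4 hf hxa (by omega)
  by_cases hex : ∃ x0 : ℤ, Odd x0 ∧ 1 ≤ x0 ∧ α * Z ≤ 1000 * x0 ∧ 1000 * x0 ≤ β * Z
  · obtain ⟨x0, o0, p0, q0, t0⟩ := hex
    refine ⟨g (K - x0), fun x hx hx1 hxa hxb => ?_⟩
    have e : g (K - x) = g (K - x0) := by
      rcases le_total x x0 with hc | hc
      · exact pr x x0 hx o0 hx1 hc hxa t0
      · exact (pr x0 x o0 hx p0 hc q0 hxb).symm
    exact ⟨e, (mi x hx hx1 hxa hxb).trans e⟩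
  · refine ⟨0, fun x hx hx1 hxa hxb => absurd ⟨x, hx, hx1, hxa, hxb⟩ hex⟩

theorem cn_pos {α β lo hi : ℤ} {s : ZMod 2} (hZ : 0 ≤ Z) (h : Cp g K Z α β s) (h0 : 0 ≤ lo)
    (h1 : α ≤ lo) (h2 : hi ≤ β) : Cn g K Z lo hi s := by
  intro X hX hl hh
  have a1 : 0 ≤ lo * Z := mul_nonneg h0 hZ
  have a2 : α * Z ≤ lo * Z := mul_le_mul_of_nonneg_right h1 hZ
  have a3 : hi * Z ≤ β * Z := mul_le_mul_of_nonneg_right h2 hZ
  have := odd_ne hX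
  exact (h X hX (by omega) (by omega) (by omega)).2

theorem cn_neg {α β lo hi : ℤ} {s : ZMod 2} (hZ : 0 ≤ Z) (h : Cp g K Z α β s) (h0 : hi ≤ 0)
    (h1 : hi ≤ -α) (h2 : -β ≤ lo) : Cn g K Z lo hi s := by
  intro X hX hl hh
  have a1 : hi * Z ≤ 0 * Z := mul_le_mul_of_nonneg_right h0 hZ
  have a2 : hi * Z ≤ -α * Z := mul_le_mul_of_nonneg_right h1 hZ
  have a3 : -β * Z ≤ lo * Z := mul_le_mul_of_nonneg_right h2 hZ
  have a4 : -α * Z = -(α * Z) := by ring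
  have a5 : -β * Z = -(β * Z) := by ring
  have := odd_ne hX
  have := (h (-X) hX.neg (by omega) (by omega) (by omega)).1
  rw [← this]
  congr 1
  ring

theorem cn_ctr {β lo hi : ℤ} {s : ZMod 2} (hZ : 0 ≤ Z) (h : Cp g K Z 0 β s)
    (h1 : -β ≤ lo) (h2 : hi ≤ β) : Cn g K Z lo hi s := by
  intro X hX hl hh
  have a2 : hi * Z ≤ β * Z := mul_le_mul_of_nonneg_right h2 hZ
  have a3 : -β * Z ≤ lo * Z := mul_le_mul_of_nonneg_right h1 hZ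
  have a5 : -β * Z = -(β * Z) := by ring
  have := odd_ne hX
  rcases lt_or_ge X 0 with h0 | h0
  · have := (h (-X) hX.neg (by omega) (by omega) (by omega)).1
    rw [← this]
    congr 1
    ring
  · exact (h X hX (by omega) (by omega) (by omega)).2

end Pool.Agent.SQ.H80
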