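import Pool.Agent.Helper80_SQ.Two2

/-!
MP_5f6ee5_nt, TWO, large `K`: the two families of rectangles and the chain `p -> p + 2`.
-/

namespace Pool.Agent.SQ.H80

variable {g : ℤ → ZMod 2} {K Z ν : ℤ}

theorem z2c : ∀ a b c d : ZMod 2, (a + b) + (c + d) = (c + b) + (a + d) := by decide

/-- Rectangles `m^2 - t^2`, `(m+1)^2 - (t ± 1)^2`, `(m+2)^2 - t^2`. -/
theorem rel1 (h : H2 g K Z ν) {l1 l2 : ℤ} {s1 sm s4 : ZMod 2} (hl : l1 = l2 - 53)
    (hl1 : -2900 ≤ l2) (hl2 : l2 ≤ 2900) (c1 : Cn g K Z l1 l2 s1)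
    (cm : Cn g K Z (l1 + 1973) (l2 + 2027) sm) (c4 : Cn g K Z (l1 + 4000) (l2 + 4002) s4) :
    s1 = s4 := by
  have hZ := h.hZ
  have hK1 := h.hK1
  have hK2 := h.hK2
  obtain ⟨w, hw⟩ : ∃ w : ℤ, w = l2 * Z / 1000 := ⟨_, rfl⟩
  have w1 : 1000 * w ≤ l2 * Z := by omega
  have w2 : l2 * Z < 1000 * w + 1000 := by omega
  have lZ1 : -2900 * Z ≤ l2 * Z := mul_le_mul_of_nonneg_right hl1 (by omega)
  have lZ2 : l2 * Z ≤ 2900 * Z := mul_le_mul_of_nonneg_right hl2 (by omega)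
  obtain ⟨m, t, s, hs0, ht1, ht2, hs2, hodd, hm1, hm2, hm3, hn1, hn2⟩ :=
    exist (K + w) (by nlinarith)
  have hmZ : m ≤ Z + 3 := by
    by_contra hc
    push Not at hc
    have : (Z + 3) ^ 2 ≤ (m - 1) ^ 2 := by nlinarith
    nlinarith
  have hZm : Z - 1 ≤ m := by
    by_contra hc
    push Not at hc
    have : m ^ 2 ≤ (Z - 2) ^ 2 := by nlinarith
    nlinarith
  have hsZ : 1000 * (s + 1) ≤ 13 * Z := by
    by_contra hc
    push Not at hc
    nlinarith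
  obtain ⟨c, hc⟩ := hodd
  obtain ⟨κ, hκ⟩ := h.even
  have o1 : Odd (m + t) := ⟨c, hc⟩
  have o2 : Odd (m - t) := ⟨c - t, by omega⟩
  have o3 : Odd (m + 2 + t) := ⟨c + 1, by omega⟩
  have o4 : Odd (m + 2 - t) := ⟨c - t + 1, by omega⟩
  obtain ⟨X, hX⟩ : ∃ X : ℤ, X = m ^ 2 - t ^ 2 - K := ⟨_, rfl⟩
  have e1 : (m - t) * (m + t) = K + X := by rw [hX]; ring
  have e4 : (m + 2 - t) * (m + 2 + t) = K + (X + 4 * m + 4) := by rw [hX]; ring
  have e2 : (m - t) * (m + 2 + t) = K + (X + 2 * m - 2 * t) := by rw [hX]; ring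
  have e3 : (m + 2 - t) * (m + t) = K + (X + 2 * m + 2 * t) := by rw [hX]; ring
  have oX : Odd X := by
    obtain ⟨d, hd⟩ := o2.mul o1
    exact ⟨d - κ, by omega⟩
  obtain ⟨d, hd⟩ := oX
  have lX : l1 * Z ≤ 1000 * X := by
    rw [hl]
    have : (l2 - 53) * Z = l2 * Z - 53 * Z := by ring
    omega
  have uX : 1000 * X ≤ l2 * Z := by omega
  have f1 := c1 X ⟨d, hd⟩ lX uX
  have f4 := c4 (X + 4 * m + 4) ⟨d + 2 * m + 2, by omega⟩
    (by
      have : (l1 + 4000) * Z = l1 * Z + 4000 * Z := by ring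
      omega)
    (by
      have : (l2 + 4002) * Z = l2 * Z + 4002 * Z := by ring
      omega)
  have f2 := cm (X + 2 * m - 2 * t) ⟨d + m - t, by omega⟩
    (by
      have : (l1 + 1973) * Z = l1 * Z + 1973 * Z := by ring
      omega)
    (by
      have : (l2 + 2027) * Z = l2 * Z + 2027 * Z := by ring
      omega)
  have f3 := cm (X + 2 * m + 2 * t) ⟨d + m + t, by omega⟩
    (by
      have : (l1 + 1973) * Z = l1 * Z + 1973 * Z := by ring
      omega)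
    (by
      have : (l2 + 2027) * Z = l2 * Z + 2027 * Z := by ring
      omega)
  rw [← e1, h.mul _ _ (odd_ne o2) (odd_ne o1)] at f1
  rw [← e4, h.mul _ _ (odd_ne o4) (odd_ne o3)] at f4
  rw [← e2, h.mul _ _ (odd_ne o2) (odd_ne o3)] at f2
  rw [← e3, h.mul _ _ (odd_ne o4) (odd_ne o1)] at f3
  have f5 : s1 + s4 = sm + sm := by
    rw [← f1, ← f4]
    nth_rewrite 1 [← f2]
    rw [← f3]
    ring
  have : ∀ a b c : ZMod 2, a + b = c + c → a = b := by decide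
  exact this _ _ _ f5

/-- The second family exists. -/
theorem existh (N : ℤ) (hN : 1 ≤ N) : ∃ p q S e s : ℤ, S = 2 * p + q ∧ e = q - 2 * p ∧ Odd p ∧
    Odd q ∧ 0 ≤ s ∧ s ^ 2 ≤ 4 * S ∧ s + 1 ≤ e ∧ e ≤ s + 8 ∧ 0 < S ∧ (S - 2) ^ 2 < 8 * N ∧
    8 * N ≤ S ^ 2 ∧ p * q < N ∧ N ≤ p * q + 2 * s + 8 := by
  obtain ⟨w, hw0, hw1, hw2⟩ := isq (8 * N - 1) (by omega)
  have hw3 : 1 ≤ w := by
    by_contra hc
    push Not at hc
    have : w = 0 := by omega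
    subst this
    omega
  -- S odd in {w+1, w+2}
  obtain ⟨S, hS0, hS1, hS2⟩ : ∃ S : ℤ, Odd S ∧ w + 1 ≤ S ∧ S ≤ w + 2 := by
    rcases Int.even_or_odd w with hw | hw
    · exact ⟨w + 1, hw.add_one, le_rfl, by omega⟩
    · exact ⟨w + 2, by obtain ⟨c, hc⟩ := hw; exact ⟨c + 1, by omega⟩, by omega, le_rfl⟩
  have hSn : 8 * N ≤ S ^ 2 := by nlinarith
  have hSm : (S - 2) ^ 2 < 8 * N := by
    have : (S - 2) ^ 2 ≤ w ^ 2 := by
      have a1 : -w ≤ S - 2 := by omega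
      have a2 : S - 2 ≤ w := by omega
      nlinarith
    omega
  obtain ⟨s, hs0, hs1, hs2⟩ := isq (S ^ 2 - 8 * N) (by omega)
  obtain ⟨j, hj⟩ := hS0
  -- e in [s+1, s+8] with S - e = 4 mod 8
  obtain ⟨e, he1, he2, he3⟩ : ∃ e : ℤ, s + 1 ≤ e ∧ e ≤ s + 8 ∧ ∃ a : ℤ, S - e = 8 * a + 4 := by
    refine ⟨S - (8 * ((S - (s + 1) - 4) / 8) + 4), ?_, ?_, (S - (s + 1) - 4) / 8, by ring⟩
    · omega
    · omega
  obtain ⟨a, ha⟩ := he3
  have hp : S - e = 4 * (2 * a + 1) := by omega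
  refine ⟨2 * a + 1, S - 2 * (2 * a + 1), S, e, s, by ring, by omega, ⟨a, rfl⟩,
    ⟨j - 2 * a - 1, by omega⟩, hs0, by nlinarith, he1, he2, by omega, hSm, hSn, ?_, ?_⟩
  · have e8 : 8 * ((2 * a + 1) * (S - 2 * (2 * a + 1))) = S ^ 2 - e ^ 2 := by
      have : S = e + 4 * (2 * a + 1) := by omega
      rw [this]
      ring
    have : (s + 1) ^ 2 ≤ e ^ 2 := by nlinarith
    omega
  · have e8 : 8 * ((2 * a + 1) * (S - 2 * (2 * a + 1))) = S ^ 2 - e ^ 2 := by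
      have : S = e + 4 * (2 * a + 1) := by omega
      rw [this]
      ring
    have : e ^ 2 ≤ (s + 8) ^ 2 := by nlinarith
    nlinarith

/-- Rectangles `p q`, `(p + 2) q`, `p (q + 2)`, `(p + 2)(q + 2)` with `q` close to `2 p`. -/
theorem relh (h : H2 g K Z ν) {l1 l2 : ℤ} {s1 s2 s3 s4 : ZMod 2} (hl : l1 = l2 - 63)
    (hl1 : -2900 ≤ l2) (hl2 : l2 ≤ 2900) (c1 : Cn g K Z l1 l2 s1)
    (c2 : Cn g K Z (l1 + 2828) (l2 + 2862) s2) (c3 : Cn g K Z (l1 + 1398) (l2 + 1415) s3)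
    (c4 : Cn g K Z (l1 + 4242) (l2 + 4262) s4) : s1 + s4 = s2 + s3 := by
  have hZ := h.hZ
  have hK1 := h.hK1
  have hK2 := h.hK2
  obtain ⟨w, hw⟩ : ∃ w : ℤ, w = l2 * Z / 1000 := ⟨_, rfl⟩
  have w1 : 1000 * w ≤ l2 * Z := by omega
  have w2 : l2 * Z < 1000 * w + 1000 := by omega
  have lZ1 : -2900 * Z ≤ l2 * Z := mul_le_mul_of_nonneg_right hl1 (by omega)
  have lZ2 : l2 * Z ≤ 2900 * Z := mul_le_mul_of_nonneg_right hl2 (by omega)
  obtain ⟨p, q, S, e, s, hS, he, op, oq, hs0, hs2, he1, he2, hSp, hS1, hS2, hn1, hn2⟩ :=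
    existh (K + w) (by nlinarith)
  have p5 : 12000 * Z ≤ Z ^ 2 := by nlinarith
  have hSu : 1000 * S ≤ 2829 * Z + 5500 := by
    by_contra hc
    push Not at hc
    have a1 : 2829 * Z + 3500 ≤ 1000 * (S - 2) := by omega
    have a2 : (2829 * Z + 3500) ^ 2 ≤ (1000 * (S - 2)) ^ 2 :=
      pow_le_pow_left₀ (by omega) a1 2
    nlinarith
  have hSl : 2828 * Z ≤ 1000 * S := by
    by_contra hc
    push Not at hc
    have a2 : (1000 * S) ^ 2 ≤ (2828 * Z) ^ 2 := pow_le_pow_left₀ (by omega) hc.le 2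
    nlinarith
  have hsZ : 100000 * (s + 4) ≤ 3125 * Z := by
    by_contra hc
    push Not at hc
    nlinarith
  obtain ⟨κ, hκ⟩ := h.even
  obtain ⟨X, hX⟩ : ∃ X : ℤ, X = p * q - K := ⟨_, rfl⟩
  have o1 : Odd (p + 2) := by
    obtain ⟨c, hc⟩ := op
    exact ⟨c + 1, by omega⟩
  have o2 : Odd (q + 2) := by
    obtain ⟨c, hc⟩ := oq
    exact ⟨c + 1, by omega⟩
  have e1 : p * q = K + X := by rw [hX]; ring
  have e2 : (p + 2) * q = K + (X + 2 * q) := by rw [hX]; ring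
  have e3 : p * (q + 2) = K + (X + 2 * p) := by rw [hX]; ring
  have e4 : (p + 2) * (q + 2) = K + (X + 2 * p + 2 * q + 4) := by rw [hX]; ring
  have oX : Odd X := by
    obtain ⟨d, hd⟩ := op.mul oq
    exact ⟨d - κ, by omega⟩
  obtain ⟨d, hd⟩ := oX
  have lX : l1 * Z ≤ 1000 * X := by
    rw [hl]
    have : (l2 - 63) * Z = l2 * Z - 63 * Z := by ring
    omega
  have uX : 1000 * X ≤ l2 * Z := by omega
  have f1 := c1 X ⟨d, hd⟩ lX uX
  have f2 := c2 (X + 2 * q) ⟨d + q, by omega⟩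
    (by
      have : (l1 + 2828) * Z = l1 * Z + 2828 * Z := by ring
      omega)
    (by
      have : (l2 + 2862) * Z = l2 * Z + 2862 * Z := by ring
      omega)
  have f3 := c3 (X + 2 * p) ⟨d + p, by omega⟩
    (by
      have : (l1 + 1398) * Z = l1 * Z + 1398 * Z := by ring
      omega)
    (by
      have : (l2 + 1415) * Z = l2 * Z + 1415 * Z := by ring
      omega)
  have f4 := c4 (X + 2 * p + 2 * q + 4) ⟨d + p + q + 2, by omega⟩
    (by
      have : (l1 + 4242) * Z = l1 * Z + 4242 * Z := by ring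
      omega)
    (by
      have : (l2 + 4262) * Z = l2 * Z + 4262 * Z := by ring
      omega)
  rw [← e1, h.mul _ _ (odd_ne op) (odd_ne oq)] at f1
  rw [← e2, h.mul _ _ (odd_ne o1) (odd_ne oq)] at f2
  rw [← e3, h.mul _ _ (odd_ne op) (odd_ne o2)] at f3
  rw [← e4, h.mul _ _ (odd_ne o1) (odd_ne o2)] at f4
  rw [← f1, ← f2, ← f3, ← f4]
  ring

/-- One step of the chain. -/
theorem stepBox (h : H2 g K Z ν) {p q X lo1 hi1 lo2 hi2 : ℤ} {s s' : ZMod 2}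
    (hp : Odd p) (hq : Odd q) (hX : p * q = K + X)
    (c1 : Cn g K Z lo1 hi1 s) (c2 : Cn g K Z lo2 hi2 s') (hs : s = s')
    (a1 : lo1 * Z ≤ 1000 * X) (a2 : 1000 * X ≤ hi1 * Z)
    (a3 : lo2 * Z ≤ 1000 * (X + 2 * q)) (a4 : 1000 * (X + 2 * q) ≤ hi2 * Z) :
    g p = g (p + 2) := by
  obtain ⟨κ, hκ⟩ := h.even
  have o1 : Odd (p + 2) := by
    obtain ⟨c, hc⟩ := hp
    exact ⟨c + 1, by omega⟩
  obtain ⟨d, hd⟩ := hp.mul hq
  have oX : Odd X := ⟨d - κ, by omega⟩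
  have oX2 : Odd (X + 2 * q) := ⟨d - κ + q, by omega⟩
  have f1 := c1 X oX a1 a2
  have f2 := c2 (X + 2 * q) oX2 a3 a4
  have e2 : K + (X + 2 * q) = (p + 2) * q := by
    have : (p + 2) * q = p * q + 2 * q := by ring
    rw [this, hX]
    ring
  rw [← hX, h.mul _ _ (odd_ne hp) (odd_ne hq)] at f1
  rw [e2, h.mul _ _ (odd_ne o1) (odd_ne hq), ← hs, ← f1] at f2
  exact (add_right_cancel f2).symm

/-- The starting `q`: `L Z <= 1000 (p q - K) < L Z + 2000 p`. -/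
theorem startQ (h : H2 g K Z ν) {p L : ℤ} (hp0 : 0 < p) :
    ∃ q X : ℤ, Odd q ∧ p * q = K + X ∧ L * Z ≤ 1000 * X ∧ 1000 * X < L * Z + 2000 * p := by
  obtain ⟨w, hw⟩ : ∃ w : ℤ, w = -(-(L * Z) / 1000) := ⟨_, rfl⟩
  have w1 : L * Z ≤ 1000 * w := by omega
  have w2 : 1000 * w < L * Z + 1000 := by omega
  have e1 := Int.emod_add_mul_ediv (K + w + p - 1) p
  have e2 := Int.emod_nonneg (K + w + p - 1) (by omega : p ≠ 0)
  have e3 := Int.emod_lt_of_pos (K + w + p - 1) hp0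
  generalize (K + w + p - 1) / p = y at e1
  generalize (K + w + p - 1) % p = u at e1 e2 e3
  rcases Int.even_or_odd y with hy | hy
  · refine ⟨y + 1, p * (y + 1) - K, hy.add_one, by ring, ?_, ?_⟩
    · nlinarith
    · nlinarith
  · refine ⟨y, p * y - K, hy, by ring, ?_, ?_⟩
    · nlinarith
    · nlinarith

/-- Bounds for `q`. -/
theorem qb (h : H2 g K Z ν) {p q X a b : ℤ} (ha : 0 < a) (hb : 0 < b) (h1 : a * Z ≤ 1000 * p)
    (h2 : 1000 * p ≤ b * Z) (hX : p * q = K + X) (hX1 : -2900 * Z ≤ 1000 * X)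
    (hX2 : 1000 * X ≤ 2900 * Z) : a * q ≤ 1000 * (Z + 5) ∧ 1000 * (Z - 3) ≤ b * q := by
  have hZ := h.hZ
  have hK1 := h.hK1
  have hK2 := h.hK2
  have hp : 0 < p := by nlinarith
  have hpq : 0 < p * q := by nlinarith
  have hq : 0 < q := by
    by_contra hc
    push Not at hc
    nlinarith
  constructor
  · by_contra hc
    push Not at hc
    have a1 : (a * Z) * q ≤ (1000 * p) * q := mul_le_mul_of_nonneg_right h1 hq.le
    have a2 : 1000 * (Z + 5) * Z < a * q * Z := mul_lt_mul_of_pos_right hc (by omega)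
    nlinarith
  · by_contra hc
    push Not at hc
    have a1 : (1000 * p) * q ≤ (b * Z) * q := mul_le_mul_of_nonneg_right h2 hq.le
    have a2 : b * q * Z < 1000 * (Z - 3) * Z := mul_lt_mul_of_pos_right hc (by omega)
    nlinarith

/-- The end: `79` against `81`. -/
theorem fin (h : H2 g K Z ν) {ta tb : ℤ} (hn : 1067 ≤ 79 * tb - 81 * ta) (hta : 0 < ta)
    (hstep : ∀ p : ℤ, Odd p → ta * Z ≤ 1000 * p → 1000 * p ≤ tb * Z → g p = g (p + 2)) :
    False := by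
  have hZ := h.hZ
  obtain ⟨w, hw⟩ : ∃ w : ℤ, w = ta * Z / 79000 := ⟨_, rfl⟩
  have w1 : 79000 * w ≤ ta * Z := by omega
  have w2 : ta * Z < 79000 * w + 79000 := by omega
  have w0 : 0 ≤ w := by
    have : 0 ≤ ta * Z := mul_nonneg hta.le (by omega)
    omega
  obtain ⟨p, hp, hp1, hp2⟩ : ∃ p : ℤ, Odd p ∧ w + 1 ≤ p ∧ p ≤ w + 2 := by
    rcases Int.even_or_odd w with hw | hw
    · exact ⟨w + 1, hw.add_one, le_rfl, by omega⟩
    · exact ⟨w + 2, by obtain ⟨c, hc⟩ := hw; exact ⟨c + 1, by omega⟩, by omega, le_rfl⟩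
  have t1 : 81000 * p ≤ tb * Z := by
    have : 1067 * Z ≤ (79 * tb - 81 * ta) * Z := mul_le_mul_of_nonneg_right hn (by omega)
    have e : (79 * tb - 81 * ta) * Z = 79 * (tb * Z) - 81 * (ta * Z) := by ring
    omega
  obtain ⟨c, hc⟩ := hp
  have key : ∀ j : ℕ, 1000 * (79 * p + 2 * (j : ℤ)) ≤ tb * Z → g (79 * p) = g (79 * p + 2 * (j : ℤ)) := by
    intro j
    induction j with
    | zero => intro _; simp
    | succ j ih =>
      intro hj
      push_cast at hj ⊢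
      rw [ih (by omega), hstep (79 * p + 2 * (j : ℤ)) ⟨79 * c + 39 + j, by rw [hc]; ring⟩ (by omega)
        (by omega)]
      congr 1
      ring
  obtain ⟨n, hn⟩ := Int.eq_ofNat_of_zero_le (by omega : 0 ≤ p)
  have h1 := key n (by omega)
  have h2 : 79 * p + 2 * (n : ℤ) = 81 * p := by omega
  have hp0 : p ≠ 0 := by omega
  rw [h2, h.mul 79 p (by norm_num) hp0, h.mul 81 p (by norm_num) hp0] at h1
  exact h.g79 (add_right_cancel h1)

end Pool.Agent.SQ.H80
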