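import Pool.Agent.Helper80_SQ.Two3

/-!
MP_5f6ee5_nt, TWO, large `K`: packaged step.
-/

namespace Pool.Agent.SQ.H80

variable {g : ℤ → ZMod 2} {K Z ν : ℤ}

theorem sb (h : H2 g K Z ν) {p q X : ℤ} (j : ℤ) {a b x0 x1 lo1 hi1 lo2 hi2 ql qh : ℤ}
    {s s' : ZMod 2} (hp : Odd p) (hq : Odd q) (hX : p * q = K + X)
    (h1 : a * Z ≤ 1000 * p) (h2 : 1000 * p ≤ b * Z)
    (y0 : x0 * Z ≤ 1000 * X) (y1 : 1000 * X ≤ x1 * Z)
    (c1 : Cn g K Z lo1 hi1 s) (c2 : Cn g K Z lo2 hi2 s') (hs : s = s')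
    (hk : 420 ≤ a ∧ 420 ≤ b ∧ lo1 ≤ x0 + 2 * j * a ∧ lo1 ≤ x0 + 2 * j * b ∧
      x1 + 2 * j * a ≤ hi1 ∧ x1 + 2 * j * b ≤ hi1 ∧ lo2 ≤ lo1 + ql ∧ hi1 + qh ≤ hi2 ∧
      (ql + 2) * b ≤ 2000000 ∧ 2000000 ≤ (qh - 2) * a ∧ -2900 ≤ lo1 ∧ hi1 ≤ 2900) :
    g p = g (p + 2) := by
  have hZ := h.hZ
  obtain ⟨ha, hb, k1, k2, k3, k4, k5, k6, k7, k8, k9, k10⟩ := hk
  have Z0 : 0 ≤ Z := by omega
  -- bounds for X' = X + 2 j p
  have l1 : lo1 * Z ≤ 1000 * (X + 2 * j * p) := by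
    rcases le_total 0 j with hj | hj
    · have m1 : lo1 * Z ≤ (x0 + 2 * j * a) * Z := mul_le_mul_of_nonneg_right k1 Z0
      have m2 : 2 * j * (a * Z) ≤ 2 * j * (1000 * p) :=
        mul_le_mul_of_nonneg_left h1 (by omega)
      nlinarith
    · have m1 : lo1 * Z ≤ (x0 + 2 * j * b) * Z := mul_le_mul_of_nonneg_right k2 Z0
      have m2 : 2 * (-j) * (1000 * p) ≤ 2 * (-j) * (b * Z) :=
        mul_le_mul_of_nonneg_left h2 (by omega)
      nlinarith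
  have l2 : 1000 * (X + 2 * j * p) ≤ hi1 * Z := by
    rcases le_total 0 j with hj | hj
    · have m1 : (x1 + 2 * j * b) * Z ≤ hi1 * Z := mul_le_mul_of_nonneg_right k4 Z0
      have m2 : 2 * j * (1000 * p) ≤ 2 * j * (b * Z) :=
        mul_le_mul_of_nonneg_left h2 (by omega)
      nlinarith
    · have m1 : (x1 + 2 * j * a) * Z ≤ hi1 * Z := mul_le_mul_of_nonneg_right k3 Z0
      have m2 : 2 * (-j) * (a * Z) ≤ 2 * (-j) * (1000 * p) :=
        mul_le_mul_of_nonneg_left h1 (by omega)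
      nlinarith
  have hq' : Odd (q + 2 * j) := by
    obtain ⟨c, hc⟩ := hq
    exact ⟨c + j, by omega⟩
  have hX' : p * (q + 2 * j) = K + (X + 2 * j * p) := by
    have : p * (q + 2 * j) = p * q + 2 * j * p := by ring
    rw [this, hX]
    ring
  have b1 : -2900 * Z ≤ lo1 * Z := mul_le_mul_of_nonneg_right k9 Z0
  have b2 : hi1 * Z ≤ 2900 * Z := mul_le_mul_of_nonneg_right k10 Z0
  obtain ⟨q1, q2⟩ := qb h (by omega : 0 < a) (by omega : 0 < b) h1 h2 hX' (by omega) (by omega)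
  have l3 : ql * Z ≤ 2000 * (q + 2 * j) := by
    by_contra hc
    push Not at hc
    have m1 : b * (2000 * (q + 2 * j)) < b * (ql * Z) := mul_lt_mul_of_pos_left hc (by omega)
    have m2 : (ql + 2) * b * Z ≤ 2000000 * Z := mul_le_mul_of_nonneg_right k7 Z0
    have m3 : 420 * Z ≤ b * Z := mul_le_mul_of_nonneg_right hb Z0
    nlinarith
  have l4 : 2000 * (q + 2 * j) ≤ qh * Z := by
    by_contra hc
    push Not at hc
    have m1 : a * (qh * Z) < a * (2000 * (q + 2 * j)) := mul_lt_mul_of_pos_left hc (by omega)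
    have m2 : 2000000 * Z ≤ (qh - 2) * a * Z := mul_le_mul_of_nonneg_right k8 Z0
    have m3 : 420 * Z ≤ a * Z := mul_le_mul_of_nonneg_right ha Z0
    nlinarith
  have n1 : lo2 * Z ≤ (lo1 + ql) * Z := mul_le_mul_of_nonneg_right k5 Z0
  have n2 : (hi1 + qh) * Z ≤ hi2 * Z := mul_le_mul_of_nonneg_right k6 Z0
  exact stepBox h hp hq' hX' c1 c2 hs l1 l2 (by nlinarith) (by nlinarith)

end Pool.Agent.SQ.H80
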