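import Pool.Agent.Helper80_SQ.Main
import Pool.Agent.Helper80_SQ.Cell0
import Pool.Agent.Helper80_SQ.Cell1
import Pool.Agent.Helper80_SQ.Cell2
import Pool.Agent.Helper80_SQ.Cell3
import Pool.Agent.Helper80_SQ.Cell4

/-!
MP_5f6ee5_nt, TWO, large `K`: assembly.
-/

namespace Pool.Agent.SQ.H80

open ArithmeticFunction

theorem cells {g : ℤ → ZMod 2} {K Z ν : ℤ} (h : H2 g K Z ν) : False := by
  have hK : 0 < K := by
    have := h.hK1
    have := h.hZ
    nlinarith
  have n0 := h.nu0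
  have n1 := h.nu1
  rcases le_total (1000000 * ν) (160000 * K) with c0 | c0
  · exact cell0 h (by omega) c0
  rcases le_total (1000000 * ν) (244036 * K) with c1 | c1
  · exact cell1 h c0 c1
  rcases le_total (1000000 * ν) (516961 * K) with c2 | c2
  · exact cell2 h c1 c2
  rcases le_total (1000000 * ν) (660969 * K) with c3 | c3
  · exact cell3 h c2 c3
  rcases le_total (1000000 * ν) (962361 * K) with c4 | c4
  · exact cell4 h c3 c4
  rcases le_total (1000000 * ν) (1454436 * K) with c5 | c5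
  · exact cell5 h c4 c5
  rcases le_total (1000000 * ν) (1628176 * K) with c6 | c6
  · exact cell6 h c5 c6
  rcases le_total (1000000 * ν) (2253001 * K) with c7 | c7
  · exact cell7 h c6 c7
  rcases le_total (1000000 * ν) (2468041 * K) with c8 | c8
  · exact cell8 h c7 c8
  rcases le_total (1000000 * ν) (2772225 * K) with c9 | c9
  · exact cell9 h c8 c9
  rcases le_total (1000000 * ν) (2822400 * K) with c10 | c10
  · exact cell10 h c9 c10
  rcases le_total (1000000 * ν) (2920681 * K) with c11 | c11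
  · exact cell11 h c10 c11
  rcases le_total (1000000 * ν) (3020644 * K) with c12 | c12
  · exact cell12 h c11 c12
  rcases le_total (1000000 * ν) (3157729 * K) with c13 | c13
  · exact cell13 h c12 c13
  exact cell14 h c13 (by omega)

theorem gO_mul (m n : ℤ) (hm : m ≠ 0) (hn : n ≠ 0) : gO (m * n) = gO m + gO n := by
  show ((cardFactors (m * n).natAbs : ℕ) : ZMod 2) = _
  rw [Int.natAbs_mul, cardFactors_mul (Int.natAbs_ne_zero.2 hm) (Int.natAbs_ne_zero.2 hn)]
  push_cast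
  rfl

theorem gO_79 : gO 79 ≠ gO 81 := by
  have h1 : gO 79 = 1 := by
    show ((cardFactors (79 : ℤ).natAbs : ℕ) : ZMod 2) = 1
    have : (79 : ℤ).natAbs = 79 := rfl
    rw [this, cardFactors_apply_prime (by norm_num)]
    rfl
  have h2 : gO 81 = 0 := by
    have e : (81 : ℤ) = 3 * (3 * (3 * 3)) := by norm_num
    rw [e, gO_mul _ _ (by norm_num) (by norm_num), gO_mul _ _ (by norm_num) (by norm_num),
      gO_mul _ _ (by norm_num) (by norm_num), gO_three]
    decide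
  rw [h1, h2]
  decide

/-- Two different odd numbers with an odd number of prime factors. -/
def TwoN (k : ℕ) : Prop := ∃ n m : ℕ, n ≠ m ∧ (2 * k - 1) ^ 2 < n ∧ n < (2 * k + 1) ^ 2 ∧ Odd n ∧
  Odd (cardFactors n) ∧ (2 * k - 1) ^ 2 < m ∧ m < (2 * k + 1) ^ 2 ∧ Odd m ∧ Odd (cardFactors m)

theorem exc {k : ℕ} (hk : 1 ≤ k) (h : ¬ TwoN k) : ∃ n0 : ℤ, ∀ n : ℤ, Odd n →
    (2 * (k : ℤ) - 1) ^ 2 < n → n < (2 * (k : ℤ) + 1) ^ 2 → n ≠ n0 → gO n = 0 := by
  have tr : ∀ n : ℤ, Odd n → (2 * (k : ℤ) - 1) ^ 2 < n → n < (2 * (k : ℤ) + 1) ^ 2 →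
      gO n ≠ 0 → ∃ m : ℕ, (m : ℤ) = n ∧ (2 * k - 1) ^ 2 < m ∧ m < (2 * k + 1) ^ 2 ∧ Odd m ∧
        Odd (cardFactors m) := by
    intro n hn h1 h2 h3
    have hn0 : 0 ≤ n := le_trans (sq_nonneg _) h1.le
    obtain ⟨m, rfl⟩ := Int.eq_ofNat_of_zero_le hn0
    refine ⟨m, rfl, ?_, ?_, ?_, ?_⟩
    · have : (((2 * k - 1) ^ 2 : ℕ) : ℤ) < (m : ℤ) := by
        rw [Nat.cast_pow, Nat.cast_sub (by omega)]
        push_cast
        exact h1
      exact_mod_cast this
    · exact_mod_cast h2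
    · exact_mod_cast hn
    · by_contra hc
      apply h3
      rw [Nat.not_odd_iff_even] at hc
      show ((cardFactors (m : ℤ).natAbs : ℕ) : ZMod 2) = 0
      rw [Int.natAbs_natCast]
      exact (ZMod.natCast_eq_zero_iff_even).2 hc
  by_cases hex : ∃ n : ℤ, Odd n ∧ (2 * (k : ℤ) - 1) ^ 2 < n ∧ n < (2 * (k : ℤ) + 1) ^ 2 ∧ gO n ≠ 0
  · obtain ⟨n0, a1, a2, a3, a4⟩ := hex
    refine ⟨n0, fun n hn h1 h2 hne => ?_⟩
    by_contra hc
    obtain ⟨m0, e0, b1, b2, b3, b4⟩ := tr n0 a1 a2 a3 a4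
    obtain ⟨m, e, c1, c2, c3, c4⟩ := tr n hn h1 h2 hc
    exact h ⟨m, m0, by rintro rfl; exact hne (e.symm.trans e0), c1, c2, c3, c4, b1, b2, b3, b4⟩
  · push Not at hex
    exact ⟨0, fun n hn h1 h2 _ => hex n hn h1 h2⟩

theorem large2 (k : ℕ) (hk : 144000000 ≤ 2 * k) : TwoN k := by
  by_contra hcon
  obtain ⟨n0, hn0⟩ := exc (by omega) hcon
  obtain ⟨K, hKdef⟩ : ∃ K : ℤ, K = 2 * (k : ℤ) := ⟨_, rfl⟩
  rw [← hKdef] at hn0
  have hKbig : 144000000 ≤ K := by
    rw [hKdef]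
    exact_mod_cast hk
  have hKe : Even K := by
    rw [hKdef]
    exact even_two_mul _
  obtain ⟨Z, hZ0, hZ1, hZ2⟩ := isq K (by omega)
  have hZ : 12000 ≤ Z := by
    by_contra hc
    push Not at hc
    have h3 : Z + 1 ≤ 12000 := by omega
    nlinarith
  by_cases hB : Odd n0 ∧ (K - 1) ^ 2 < n0 ∧ n0 < (K + 1) ^ 2
  · obtain ⟨ho, hb1, hb2⟩ := hB
    obtain ⟨μ, hμ⟩ : ∃ μ : ℤ, μ = K ^ 2 - n0 := ⟨_, rfl⟩
    obtain ⟨κ, hκ⟩ := hKe
    have m1 : -(2 * K) - 1 < μ := by nlinarith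
    have m2 : μ < 2 * K - 1 := by nlinarith
    have modd : μ % 4 = 1 ∨ μ % 4 = 3 := by
      obtain ⟨d, hd⟩ := ho
      have e : K ^ 2 = 4 * (κ * κ) := by rw [hκ]; ring
      omega
    -- the edge lemma
    have base : ∀ ν : ℤ, (∀ b c : ℤ, Odd b → 1 ≤ b → 0 ≤ c → c ≤ 4 → b * (b + 2 * c) < 8 * K →
        b * (b + 2 * c) ≠ ν → b * (b + 2 * c) ≠ ν + 4 * K → b * (b + 2 * c) ≠ μ + 2 * K * c) →
        0 < ν → ν < 4 * K → False := by
      intro ν hedge hν0 hν1
      refine cells (g := gO) (K := K) (Z := Z) (ν := ν)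
        ⟨gO_mul, ⟨κ, hκ⟩, hZ, hZ1, hZ2, hν0, hν1, gO_79, ?_⟩
      intro b c hb hb1' hc0 hc4 p1 p2 p3 p4 p5
      have e := hedge b c hb hb1' hc0 hc4 p3 p4 p5
      obtain ⟨β, hβ⟩ := hb
      have o1 : Odd (K - b) := ⟨κ - β - 1, by omega⟩
      have o2 : Odd (K + b + 2 * c) := ⟨κ + β + c, by omega⟩
      have ep : (K - b) * (K + b + 2 * c) = K ^ 2 + 2 * K * c - b * (b + 2 * c) := by ring
      have q1 : (K - 1) ^ 2 < (K - b) * (K + b + 2 * c) := by
        rw [ep]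
        nlinarith
      have q2 : (K - b) * (K + b + 2 * c) < (K + 1) ^ 2 := by
        rw [ep]
        nlinarith
      have q3 : (K - b) * (K + b + 2 * c) ≠ n0 := by
        intro hh
        apply e
        rw [ep] at hh
        rw [hμ]
        linarith
      have h3 := hn0 _ (o1.mul o2) q1 q2 q3
      rw [gO_mul _ _ (odd_ne o1) (odd_ne o2)] at h3
      exact z2a _ _ h3
    have par : ∀ b c : ℤ, Odd b → ∃ t : ℤ, b * (b + 2 * c) = 1 + 2 * c + 4 * t := by
      intro b c hb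
      obtain ⟨β, hβ⟩ := hb
      exact ⟨β ^ 2 + β + β * c, by rw [hβ]; ring⟩
    rcases modd with hm | hm
    · rcases lt_or_ge 0 μ with hpos | hneg
      · refine base μ ?_ hpos (by omega)
        intro b c hb hb1' hc0 hc4 p3 p4 p5 hE
        obtain ⟨t, ht⟩ := par b c hb
        have hb2' : 0 < b * (b + 2 * c) := by nlinarith
        generalize b * (b + 2 * c) = P at *
        have hc' : c = 0 ∨ c = 1 ∨ c = 2 ∨ c = 3 ∨ c = 4 := by omega
        rcases hc' with rfl | rfl | rfl | rfl | rfl <;> omega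
      · refine base (μ + 4 * K) ?_ (by omega) (by omega)
        intro b c hb hb1' hc0 hc4 p3 p4 p5 hE
        obtain ⟨t, ht⟩ := par b c hb
        have hb2' : 0 < b * (b + 2 * c) := by nlinarith
        generalize b * (b + 2 * c) = P at *
        have hc' : c = 0 ∨ c = 1 ∨ c = 2 ∨ c = 3 ∨ c = 4 := by omega
        rcases hc' with rfl | rfl | rfl | rfl | rfl <;> omega
    · refine base (μ + 2 * K) ?_ (by omega) (by omega)
      intro b c hb hb1' hc0 hc4 p3 p4 p5 hE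
      obtain ⟨t, ht⟩ := par b c hb
      have hb2' : 0 < b * (b + 2 * c) := by nlinarith
      generalize b * (b + 2 * c) = P at *
      have hc' : c = 0 ∨ c = 1 ∨ c = 2 ∨ c = 3 ∨ c = 4 := by omega
      rcases hc' with rfl | rfl | rfl | rfl | rfl <;> omega
  · -- no exception at all
    have H : Hyp gO K := by
      refine ⟨gO_mul, hKe, by omega, ?_⟩
      intro n hn h1 h2
      refine hn0 n hn h1 h2 ?_
      rintro rfl
      exact hB ⟨hn, h1, h2⟩
    have := large H (by omega) hZ1 hZ2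
    rw [gO_three] at this
    exact one_ne_zero this

end Pool.Agent.SQ.H80
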